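import Mathlib
import Pool.Agent.Lib.BVM.Points

/-! The poset: coordinates, conditions, order (definitions). `I` indexes the localized families,
`J` the dominated families. -/

namespace Pool.Agent.Lib.MP_f6e1de_lc

/-- Local part of a condition at a coordinate: stem and finite promise sets. -/
structure Dat (I J : Type) where
  s : List ℕ
  h1 : Finset I
  h2 : Finset J

instance (I J : Type) : Inhabited (Dat I J) := ⟨⟨[], ∅, ∅⟩⟩

/-- Kinds of coordinates. -/
inductive Kind (I J : Type) : Type
  | free (η : I ⊕ J) : Kind I J
  | dset : Kind I J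
  | hech : Kind I J
  | loc : Kind I J

/-- Coordinates: a kind and a family of names (indexed by `Option (I ⊕ J)`) that mention earlier
coordinates only. The name with index `a` has at `n, k` a finite condition with `len a n k` entries
`(sub a n k i, dat a n k i)` and the value `val a n k`. -/
inductive Coord (I J : Type) : Type
  | mk (kind : Kind I J) (len : Option (I ⊕ J) → ℕ → ℕ → ℕ)
      (dat : (a : Option (I ⊕ J)) → (n k : ℕ) → Fin (len a n k) → Dat I J)
      (val : Option (I ⊕ J) → ℕ → ℕ → ℕ)
      (sub : (a : Option (I ⊕ J)) → (n k : ℕ) → Fin (len a n k) → Coord I J) : Coord I J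

variable {I J : Type}

/-- Lists of coordinates with local parts. -/
structure Raw (I J : Type) where
  len : ℕ
  co : Fin len → Coord I J
  dat : Fin len → Dat I J

/-- Conditions (before validity): a finite domain and local parts. -/
structure Cond (I J : Type) where
  dom : Finset (Coord I J)
  dat : Coord I J → Dat I J

/-- Names of reals: at `n`, the value is the number `(τ n k).2` for the least `k` such that the
condition `(τ n k).1` is in the generic filter, and `0` if there is no such `k`. -/
abbrev Nm (I J : Type) : Type := ℕ → ℕ → Raw I J × ℕ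

open Classical in
/-- The condition given by a list. -/
noncomputable def Raw.toCond (r : Raw I J) : Cond I J where
  dom := Finset.univ.image r.co
  dat := fun c => if h : ∃ i, r.co i = c then r.dat h.choose else default

/-- A list that represents a condition. -/
noncomputable def Cond.toRaw (p : Cond I J) : Raw I J where
  len := p.dom.card
  co := fun i => (p.dom.equivFin.symm i : Coord I J)
  dat := fun i => p.dat (p.dom.equivFin.symm i : Coord I J)

/-- The coordinate with given kind and names. -/
def mkC (κ : Kind I J) (F : Option (I ⊕ J) → Nm I J) : Coord I J :=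
  .mk κ (fun a n k => (F a n k).1.len) (fun a n k => (F a n k).1.dat) (fun a n k => (F a n k).2)
    (fun a n k => (F a n k).1.co)

/-- The kind of a coordinate. -/
def Coord.kind : Coord I J → Kind I J
  | .mk κ _ _ _ _ => κ

/-- The names of a coordinate. -/
def Coord.nm : Coord I J → Option (I ⊕ J) → Nm I J
  | .mk _ len dat val sub => fun a n k => (⟨len a n k, sub a n k, dat a n k⟩, val a n k)

@[simp] theorem kind_mkC (κ : Kind I J) (F : Option (I ⊕ J) → Nm I J) : (mkC κ F).kind = κ := rfl
@[simp] theorem nm_mkC (κ : Kind I J) (F : Option (I ⊕ J) → Nm I J) : (mkC κ F).nm = F := rfl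

/-- The trivial name (constantly zero). -/
def nm0 : Nm I J := fun _ _ => (⟨0, Fin.elim0, Fin.elim0⟩, 0)

/-- coordinate of kind `free η` with the name `f` -/
def cFree (η : I ⊕ J) (f : Nm I J) : Coord I J :=
  mkC (.free η) (fun a => match a with | none => f | some _ => nm0)

/-- coordinate for the sparse set over `G` -/
def cDset (G : Nm I J) : Coord I J :=
  mkC .dset (fun a => match a with | none => G | some _ => nm0)

/-- coordinate for the dominating real over `F` -/
def cHech (F : J → Nm I J) : Coord I J :=
  mkC .hech (fun a => match a with | none => nm0 | some (.inl _) => nm0 | some (.inr i) => F i)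

/-- coordinate for the localizing slalom over `G`, `F` -/
def cLoc (G : Nm I J) (F : I → Nm I J) : Coord I J :=
  mkC .loc (fun a => match a with | none => G | some (.inl i) => F i | some (.inr _) => nm0)

/-- The sparse set coordinate used by a coordinate of kind `loc`. -/
def Coord.ds (c : Coord I J) : Coord I J := cDset (c.nm none)

@[simp] theorem ds_cLoc (G : Nm I J) (F : I → Nm I J) : (cLoc G F).ds = cDset G := rfl

open Classical in
/-- Rank of a coordinate. -/
noncomputable def Coord.rank : Coord I J → Ordinal.{0}
  | .mk κ len _ _ sub => (⨆ x : (Σ a : Option (I ⊕ J), Σ n : ℕ, Σ k : ℕ, Fin (len a n k)),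
      (Coord.rank (sub x.1 x.2.1 x.2.2.1 x.2.2.2) + 1)) + (if κ = .loc then 1 else 0)

/-- The `j`-th element `d_j` of the sparse set coded by the stem `s`: entries are coded pairs
`(g_l, γ_l)` and `d_j = ∑_{l ≤ j} (g_l + 1)`. -/
def dval (s : List ℕ) (j : ℕ) : ℕ := ((s.take (j + 1)).map (fun w => (Nat.unpair w).1 + 1)).sum

/-- The number `γ_j` (the value of `G` at `d_j`). -/
def gval (s : List ℕ) (j : ℕ) : ℕ := (Nat.unpair (s.getD j 0)).2

/-- The finite set coded by an entry of the stem of a slalom. -/
def fset (w : ℕ) : Finset ℕ := Denumerable.ofNat (Finset ℕ) w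

/-- The code of a finite set. -/
def fenc (B : Finset ℕ) : ℕ := @Encodable.encode (Finset ℕ) Denumerable.toEncodable B

@[simp] theorem fset_fenc (B : Finset ℕ) : fset (fenc B) = B := Denumerable.ofNat_encode B

section Generic

/-! Notions relative to a relation `L` (extension) and a predicate `V` (validity). -/

variable (L : Cond I J → Cond I J → Prop) (V : Cond I J → Prop)

/-- `q` and `r` have no common extension. -/
def Inc (q r : Cond I J) : Prop := ¬ ∃ t, V t ∧ L t q ∧ L t r

/-- `q` decides the value of the name `τ` at `n` to be `v`. -/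
def Dec (q : Cond I J) (τ : Nm I J) (n v : ℕ) : Prop :=
  (∃ k, L q (τ n k).1.toCond ∧ (τ n k).2 = v ∧ ∀ k' < k, Inc L V q (τ n k').1.toCond) ∨
    (v = 0 ∧ ∀ k, Inc L V q (τ n k).1.toCond)

/-- A new stem (of the local part `D'`) keeps the promises of the local part `D` at `c`; the names are
evaluated by `q`. -/
def NewOK (c : Coord I J) (q : Cond I J) (D' D : Dat I J) : Prop :=
  match c.kind with
  | .free _ => True
  | .dset => True
  | .hech => ∀ i ∈ D.h2, ∀ j, D.s.length ≤ j → j < D'.s.length →
      ∃ v, Dec L V q (c.nm (some (.inr i))) j v ∧ v ≤ D'.s.getD j 0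
  | .loc => ∀ i ∈ D.h1, ∀ j, D.s.length ≤ j → j < D'.s.length →
      ∃ v, Dec L V q (c.nm (some (.inl i))) j v ∧
        (v < gval (q.dat c.ds).s j → v ∈ fset (D'.s.getD j 0))

/-- Validity of the local part `D` at the coordinate `c`; the names are evaluated by `p`. -/
def VOK (c : Coord I J) (p : Cond I J) (D : Dat I J) : Prop :=
  match c.kind with
  | .free _ => True
  | .hech => True
  | .dset => ∀ j < D.s.length, Dec L V p (c.nm none) (dval D.s j) (gval D.s j)
  | .loc => c.ds ∈ p.dom ∧ D.s.length < (p.dat c.ds).s.length ∧
      D.h1.card ≤ dval (p.dat c.ds).s D.s.length ∧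
      ∀ j < D.s.length, (fset (D.s.getD j 0)).card ≤ dval (p.dat c.ds).s j

/-- The local part `D'` extends the local part `D` at the coordinate `c`. -/
def ExtOK (c : Coord I J) (q : Cond I J) (D' D : Dat I J) : Prop :=
  D.s <+: D'.s ∧ D.h1 ⊆ D'.h1 ∧ D.h2 ⊆ D'.h2 ∧ NewOK L V c q D' D

end Generic

theorem wf_rank : WellFounded (fun c c' : Coord I J => c.rank < c'.rank) :=
  InvImage.wf Coord.rank Ordinal.lt_wf

/-- The recursion: extension and validity at a coordinate, in terms of smaller coordinates. -/
noncomputable def LV : Coord I J → ((Cond I J → Cond I J → Prop) × (Cond I J → Prop)) :=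
  wf_rank.fix (fun c ih =>
    let L : Cond I J → Cond I J → Prop := fun q p =>
      ∀ c', ∀ h : c'.rank < c.rank, c' ∈ p.dom → (ih c' h).1 q p
    let V : Cond I J → Prop := fun p => ∀ c', ∀ h : c'.rank < c.rank, c' ∈ p.dom → (ih c' h).2 p
    (fun q p => c ∈ q.dom ∧ ExtOK L V c q (q.dat c) (p.dat c), fun p => VOK L V c p (p.dat c)))

/-- Extension at the coordinates of rank `< ρ`. -/
def LE (ρ : Ordinal.{0}) (q p : Cond I J) : Prop := ∀ c ∈ p.dom, c.rank < ρ → (LV c).1 q p

/-- Validity at the coordinates of rank `< ρ`. -/
def VV (ρ : Ordinal.{0}) (p : Cond I J) : Prop := ∀ c ∈ p.dom, c.rank < ρ → (LV c).2 p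

/-- Extension. -/
def Le (q p : Cond I J) : Prop := ∀ c ∈ p.dom, (LV c).1 q p

/-- Validity. -/
def Val (p : Cond I J) : Prop := ∀ c ∈ p.dom, (LV c).2 p

end Pool.Agent.Lib.MP_f6e1de_lc
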