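import Mathlib
import Pool.Agent.Lib.MP_f6e1de_lc.QDefs

/-! Analysis of the recursive definition of the poset. -/

namespace Pool.Agent.Lib.MP_f6e1de_lc

variable {I J : Type}

/-- All conditions in the name `τ` have coordinates of rank `< ρ`. -/
def Supp (ρ : Ordinal.{0}) (τ : Nm I J) : Prop :=
  ∀ n k, ∀ c ∈ (τ n k).1.toCond.dom, c.rank < ρ

open Classical in
theorem rank_mk (κ : Kind I J) (len dat val) (sub : (a : Option (I ⊕ J)) → (n k : ℕ) →
    Fin (len a n k) → Coord I J) : (Coord.mk κ len dat val sub).rank =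
    (⨆ x : (Σ a : Option (I ⊕ J), Σ n : ℕ, Σ k : ℕ, Fin (len a n k)),
      (Coord.rank (sub x.1 x.2.1 x.2.2.1 x.2.2.2) + 1)) +
      (if κ = .loc then 1 else 0) := by
  rw [Coord.rank]

theorem mem_toCond_dom (r : Raw I J) (c : Coord I J) : c ∈ r.toCond.dom ↔ ∃ i, r.co i = c := by
  classical
  unfold Raw.toCond
  simp

theorem supp_nm (c : Coord I J) (a : Option (I ⊕ J)) : Supp c.rank (c.nm a) := by
  intro n k c' hc'
  rw [mem_toCond_dom] at hc'
  obtain ⟨i, rfl⟩ := hc'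
  cases c with
  | mk κ len dat val sub =>
    rw [rank_mk]
    have h1 : Coord.rank (sub a n k i) + 1 ≤
        ⨆ x : (Σ a : Option (I ⊕ J), Σ n : ℕ, Σ k : ℕ, Fin (len a n k)),
          (Coord.rank (sub x.1 x.2.1 x.2.2.1 x.2.2.2) + 1) :=
      Ordinal.le_iSup (fun x : (Σ a : Option (I ⊕ J), Σ n : ℕ, Σ k : ℕ, Fin (len a n k)) =>
          (Coord.rank (sub x.1 x.2.1 x.2.2.1 x.2.2.2) + 1)) ⟨a, n, k, i⟩
    have h2 : Coord.rank (sub a n k i) < Coord.rank (sub a n k i) + 1 := lt_add_one _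
    exact lt_of_lt_of_le h2 (h1.trans le_self_add)

theorem Supp.mono {ρ ρ' : Ordinal.{0}} {τ : Nm I J} (h : Supp ρ τ) (hρ : ρ ≤ ρ') : Supp ρ' τ :=
  fun n k c hc => (h n k c hc).trans_le hρ

theorem exists_supp (τ : Nm I J) : ∃ ρ, Supp ρ τ :=
  ⟨(cDset τ).rank, supp_nm (cDset τ) none⟩

theorem rank_ds (c : Coord I J) (h : c.kind = .loc) : c.ds.rank < c.rank := by
  cases c with
  | mk κ len dat val sub =>
    have hκ : κ = .loc := h
    have h0 : (Coord.mk κ len dat val sub).ds = mkC .dset (fun a => match a with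
      | none => (Coord.mk κ len dat val sub).nm none | some _ => nm0) := rfl
    rw [h0, mkC, rank_mk, rank_mk, if_pos hκ, if_neg (by simp), add_zero]
    refine lt_of_le_of_lt ?_ (lt_add_one _)
    refine Ordinal.iSup_le ?_
    rintro ⟨a, n, k, i⟩
    cases a with
    | none =>
      exact Ordinal.le_iSup (fun x : (Σ a : Option (I ⊕ J), Σ n : ℕ, Σ k : ℕ, Fin (len a n k)) =>
          (Coord.rank (sub x.1 x.2.1 x.2.2.1 x.2.2.2) + 1)) ⟨none, n, k, i⟩
    | some b => exact Fin.elim0 i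

theorem ds_ne (c : Coord I J) (h : c.kind = .loc) : c.ds ≠ c := by
  intro e
  have := rank_ds c h
  rw [e] at this
  exact lt_irrefl _ this

/-- A condition is represented by its list. -/
theorem toRaw_dom (p : Cond I J) : p.toRaw.toCond.dom = p.dom := by
  ext c
  rw [mem_toCond_dom]
  constructor
  · rintro ⟨i, rfl⟩
    exact (p.dom.equivFin.symm i).2
  · intro hc
    refine ⟨p.dom.equivFin ⟨c, hc⟩, ?_⟩
    show ((p.dom.equivFin.symm (p.dom.equivFin ⟨c, hc⟩) : {x // x ∈ p.dom}) : Coord I J) = c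
    rw [Equiv.symm_apply_apply]

theorem toRaw_dat (p : Cond I J) : ∀ c ∈ p.dom, p.toRaw.toCond.dat c = p.dat c := by
  intro c hc
  have h : ∃ i, p.toRaw.co i = c := by
    rw [← mem_toCond_dom, toRaw_dom]; exact hc
  have h1 : p.toRaw.toCond.dat c = p.toRaw.dat h.choose := by
    unfold Raw.toCond
    simp only
    rw [dif_pos h]
  rw [h1]
  have h2 := h.choose_spec
  show p.dat ((p.dom.equivFin.symm h.choose : {x // x ∈ p.dom}) : Coord I J) = p.dat c
  have h3 : ((p.dom.equivFin.symm h.choose : {x // x ∈ p.dom}) : Coord I J) = c := h2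
  rw [h3]

/-! ### Unfolding -/

theorem LV_eq (c : Coord I J) : LV c =
    ((fun q p => c ∈ q.dom ∧ ExtOK (LE c.rank) (VV c.rank) c q (q.dat c) (p.dat c)),
      fun p => VOK (LE c.rank) (VV c.rank) c p (p.dat c)) := by
  have h : LV c = (fun (c : Coord I J) (ih : ∀ c', c'.rank < c.rank →
      ((Cond I J → Cond I J → Prop) × (Cond I J → Prop))) =>
    let L : Cond I J → Cond I J → Prop := fun q p =>
      ∀ c', ∀ h : c'.rank < c.rank, c' ∈ p.dom → (ih c' h).1 q p
    let V : Cond I J → Prop := fun p => ∀ c', ∀ h : c'.rank < c.rank, c' ∈ p.dom → (ih c' h).2 p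
    ((fun q p => c ∈ q.dom ∧ ExtOK L V c q (q.dat c) (p.dat c), fun p => VOK L V c p (p.dat c)) :
      ((Cond I J → Cond I J → Prop) × (Cond I J → Prop)))) c (fun c' _ => LV c') :=
    wf_rank.fix_eq _ c
  rw [h]
  have hL : (fun q p : Cond I J => ∀ c' : Coord I J, ∀ _ : c'.rank < c.rank, c' ∈ p.dom →
      (LV c').1 q p) = LE c.rank := by
    funext q p
    apply propext
    exact ⟨fun h c' h1 h2 => h c' h2 h1, fun h c' h1 h2 => h c' h2 h1⟩
  have hV : (fun p : Cond I J => ∀ c' : Coord I J, ∀ _ : c'.rank < c.rank, c' ∈ p.dom →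
      (LV c').2 p) = VV c.rank := by
    funext p
    apply propext
    exact ⟨fun h c' h1 h2 => h c' h2 h1, fun h c' h1 h2 => h c' h2 h1⟩
  simp only [hL, hV]

theorem cl_iff (c : Coord I J) (q p : Cond I J) : (LV c).1 q p ↔
    c ∈ q.dom ∧ ExtOK (LE c.rank) (VV c.rank) c q (q.dat c) (p.dat c) := by
  rw [LV_eq]

theorem vd_iff (c : Coord I J) (p : Cond I J) : (LV c).2 p ↔
    VOK (LE c.rank) (VV c.rank) c p (p.dat c) := by
  rw [LV_eq]

/-! ### Abstract monotonicity lemmas -/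

section Abs

variable {L : Cond I J → Cond I J → Prop} {V : Cond I J → Prop}

theorem dec_mono_abs {q r : Cond I J} (h1 : ∀ t, V t → L t r → L t q) (h2 : ∀ p, L q p → L r p)
    {τ : Nm I J} {n v : ℕ} (hd : Dec L V q τ n v) : Dec L V r τ n v := by
  have hi : ∀ p, Inc L V q p → Inc L V r p := by
    rintro p hp ⟨t, ht1, ht2, ht3⟩
    exact hp ⟨t, ht1, h1 t ht1 ht2, ht3⟩
  rcases hd with ⟨k, hk1, hk2, hk3⟩ | ⟨h0, hk⟩
  · exact Or.inl ⟨k, h2 _ hk1, hk2, fun k' hk' => hi _ (hk3 k' hk')⟩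
  · exact Or.inr ⟨h0, fun k => hi _ (hk k)⟩

theorem extOK_refl (c : Coord I J) (q : Cond I J) (D : Dat I J) : ExtOK L V c q D D := by
  refine ⟨List.prefix_rfl, subset_rfl, subset_rfl, ?_⟩
  unfold NewOK
  split
  · trivial
  · trivial
  · intro i _ j h1 h2; omega
  · intro i _ j h1 h2; omega

theorem extOK_mono {L' : Cond I J → Cond I J → Prop} {V' : Cond I J → Prop} (c : Coord I J)
    {q r : Cond I J} {D' D : Dat I J}
    (hmono : ∀ a n v, Dec L V q (c.nm a) n v → Dec L' V' r (c.nm a) n v)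
    (hds : c.kind = .loc → ∀ j < D'.s.length, gval (r.dat c.ds).s j = gval (q.dat c.ds).s j)
    (h : ExtOK L V c q D' D) : ExtOK L' V' c r D' D := by
  refine ⟨h.1, h.2.1, h.2.2.1, ?_⟩
  have h4 := h.2.2.2
  unfold NewOK at h4 ⊢
  cases hk : c.kind with
  | free η => simp
  | dset => simp
  | hech =>
    simp only [hk] at h4 ⊢
    intro i hi j h1 h2
    obtain ⟨v, hv1, hv2⟩ := h4 i hi j h1 h2
    exact ⟨v, hmono _ _ _ hv1, hv2⟩
  | loc =>
    simp only [hk] at h4 ⊢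
    intro i hi j h1 h2
    obtain ⟨v, hv1, hv2⟩ := h4 i hi j h1 h2
    refine ⟨v, hmono _ _ _ hv1, ?_⟩
    rw [hds hk j h2]; exact hv2

theorem getD_prefix {s t : List ℕ} (h : s <+: t) {j : ℕ} (hj : j < s.length) :
    t.getD j 0 = s.getD j 0 := by
  obtain ⟨r, rfl⟩ := h
  rw [List.getD_append _ _ _ _ hj]

theorem gval_pre {s t : List ℕ} (h : s <+: t) {j : ℕ} (hj : j < s.length) :
    gval t j = gval s j := by
  unfold gval
  rw [getD_prefix h hj]

theorem dval_pre {s t : List ℕ} (h : s <+: t) {j : ℕ} (hj : j < s.length) :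
    dval t j = dval s j := by
  obtain ⟨r, rfl⟩ := h
  unfold dval
  rw [List.take_append_of_le_length (by omega)]

theorem extOK_trans_abs (c : Coord I J) {r q : Cond I J} {D2 D1 D : Dat I J}
    (hmono : ∀ a n v, Dec L V q (c.nm a) n v → Dec L V r (c.nm a) n v)
    (h1 : ExtOK L V c r D2 D1) (h2 : ExtOK L V c q D1 D)
    (hds : c.kind = .loc → (q.dat c.ds).s <+: (r.dat c.ds).s ∧
      D1.s.length < (q.dat c.ds).s.length) : ExtOK L V c r D2 D := by
  refine ⟨h2.1.trans h1.1, h2.2.1.trans h1.2.1, h2.2.2.1.trans h1.2.2.1, ?_⟩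
  have a1 := h1.2.2.2
  have a2 := h2.2.2.2
  have hpre := h1.1
  have hsub1 := h2.2.1
  have hsub2 := h2.2.2.1
  unfold NewOK at a1 a2 ⊢
  cases hk : c.kind with
  | free η => simp
  | dset => simp
  | hech =>
    simp only [hk] at a1 a2 ⊢
    intro i hi j hj1 hj2
    by_cases hj : j < D1.s.length
    · obtain ⟨v, hv1, hv2⟩ := a2 i hi j hj1 hj
      exact ⟨v, hmono _ _ _ hv1, by rw [getD_prefix hpre hj]; exact hv2⟩
    · exact a1 i (hsub2 hi) j (not_lt.1 hj) hj2
  | loc =>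
    simp only [hk] at a1 a2 ⊢
    intro i hi j hj1 hj2
    by_cases hj : j < D1.s.length
    · obtain ⟨v, hv1, hv2⟩ := a2 i hi j hj1 hj
      refine ⟨v, hmono _ _ _ hv1, ?_⟩
      rw [getD_prefix hpre hj, gval_pre (hds hk).1 (hj.trans (hds hk).2)]
      exact hv2
    · exact a1 i (hsub1 hi) j (not_lt.1 hj) hj2

theorem vok_mono {L' : Cond I J → Cond I J → Prop} {V' : Cond I J → Prop} (c : Coord I J)
    {r q : Cond I J} {D : Dat I J}
    (hmono : ∀ a n v, Dec L V q (c.nm a) n v → Dec L' V' r (c.nm a) n v)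
    (hds : c.kind = .loc → c.ds ∈ q.dom → c.ds ∈ r.dom ∧ (q.dat c.ds).s <+: (r.dat c.ds).s)
    (h : VOK L V c q D) : VOK L' V' c r D := by
  unfold VOK at h ⊢
  cases hk : c.kind with
  | free η => simp
  | hech => simp
  | dset =>
    simp only [hk] at h ⊢
    intro j hj
    exact hmono _ _ _ (h j hj)
  | loc =>
    simp only [hk] at h ⊢
    obtain ⟨b1, b2, b3, b4⟩ := h
    obtain ⟨c1, c2⟩ := hds hk b1
    refine ⟨c1, b2.trans_le c2.length_le, ?_, ?_⟩
    · rw [dval_pre c2 b2]; exact b3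
    · intro j hj
      rw [dval_pre c2 (hj.trans b2)]; exact b4 j hj

theorem vok_loc {c : Coord I J} {q : Cond I J} {D : Dat I J} (h : VOK L V c q D)
    (hk : c.kind = .loc) : c.ds ∈ q.dom ∧ D.s.length < (q.dat c.ds).s.length ∧
      D.h1.card ≤ dval (q.dat c.ds).s D.s.length ∧
      ∀ j < D.s.length, (fset (D.s.getD j 0)).card ≤ dval (q.dat c.ds).s j := by
  unfold VOK at h
  simp only [hk] at h
  exact h

end Abs

/-! ### Reflexivity, transitivity at every level -/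

theorem LE_refl (ρ : Ordinal.{0}) (p : Cond I J) : LE ρ p p := by
  intro c hc _
  rw [cl_iff]
  exact ⟨hc, extOK_refl _ _ _⟩

theorem LE_mono {ρ σ : Ordinal.{0}} (h : σ ≤ ρ) {q p : Cond I J} (hl : LE ρ q p) : LE σ q p :=
  fun c hc hr => hl c hc (hr.trans_le h)

theorem VV_mono {ρ σ : Ordinal.{0}} (h : σ ≤ ρ) {p : Cond I J} (hv : VV ρ p) : VV σ p :=
  fun c hc hr => hv c hc (hr.trans_le h)

theorem LE_mem {ρ : Ordinal.{0}} {q p : Cond I J} (hl : LE ρ q p) {c : Coord I J}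
    (hc : c ∈ p.dom) (hr : c.rank < ρ) : c ∈ q.dom ∧ (p.dat c).s <+: (q.dat c).s := by
  have := (cl_iff c q p).1 (hl c hc hr)
  exact ⟨this.1, this.2.1⟩

theorem LE_trans (ρ : Ordinal.{0}) : ∀ r q p : Cond I J, VV ρ r → VV ρ q → LE ρ r q → LE ρ q p →
    LE ρ r p := by
  induction ρ using WellFoundedLT.induction with
  | ind ρ ih =>
    intro r q p hr hq h1 h2 c hc hcρ
    have a2 := (cl_iff c q p).1 (h2 c hc hcρ)
    have a1 := (cl_iff c r q).1 (h1 c a2.1 hcρ)
    rw [cl_iff]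
    refine ⟨a1.1, ?_⟩
    have hr' := VV_mono hcρ.le hr
    have hq' := VV_mono hcρ.le hq
    have h1' := LE_mono hcρ.le h1
    refine extOK_trans_abs c ?_ a1.2 a2.2 ?_
    · intro a n v hd
      exact dec_mono_abs (fun t ht hl => ih c.rank hcρ t r q ht hr' hl h1')
        (fun p' hp' => ih c.rank hcρ r q p' hr' hq' h1' hp') hd
    · intro hk
      have hv := (vd_iff c q).1 (hq c a2.1 hcρ)
      obtain ⟨b1, b2, -⟩ := vok_loc hv hk
      exact ⟨(LE_mem h1 b1 ((rank_ds c hk).trans hcρ)).2, b2⟩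

theorem dec_mono_level {ρ : Ordinal.{0}} {r q : Cond I J} (hr : VV ρ r) (hq : VV ρ q)
    (h : LE ρ r q) {τ : Nm I J} {n v : ℕ} (hd : Dec (LE ρ) (VV ρ) q τ n v) :
    Dec (LE ρ) (VV ρ) r τ n v :=
  dec_mono_abs (fun t ht hl => LE_trans ρ t r q ht hr hl h)
    (fun p hp => LE_trans ρ r q p hr hq h hp) hd

/-! ### Locality -/

/-- Agreement below `ρ`. -/
def Agr (ρ : Ordinal.{0}) (q q' : Cond I J) : Prop :=
  ∀ c, c.rank < ρ → ((c ∈ q.dom ↔ c ∈ q'.dom) ∧ q.dat c = q'.dat c)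

theorem Agr.symm {ρ : Ordinal.{0}} {q q' : Cond I J} (h : Agr ρ q q') : Agr ρ q' q :=
  fun c hc => ⟨(h c hc).1.symm, (h c hc).2.symm⟩

theorem Agr.mono {ρ σ : Ordinal.{0}} (hσ : σ ≤ ρ) {q q' : Cond I J} (h : Agr ρ q q') :
    Agr σ q q' := fun c hc => h c (hc.trans_le hσ)

theorem LE_agr_right {ρ : Ordinal.{0}} {q q' : Cond I J} (h : Agr ρ q q') (r : Cond I J) :
    LE ρ r q → LE ρ r q' := by
  intro hl c hc hr
  have h1 := h c hr
  have h2 := (cl_iff c r q).1 (hl c (h1.1.2 hc) hr)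
  rw [cl_iff, ← h1.2]
  exact h2

theorem agr_all (ρ : Ordinal.{0}) : ∀ q q' : Cond I J, Agr ρ q q' →
    (∀ p, LE ρ q p → LE ρ q' p) ∧ (VV ρ q → VV ρ q') := by
  induction ρ using WellFoundedLT.induction with
  | ind ρ ih =>
    intro q q' h
    have hdec : ∀ σ < ρ, ∀ (τ : Nm I J) (n v : ℕ), Dec (LE σ) (VV σ) q τ n v →
        Dec (LE σ) (VV σ) q' τ n v := by
      intro σ hσ τ n v hd
      refine dec_mono_abs ?_ ?_ hd
      · intro t _ hl
        exact LE_agr_right (h.mono hσ.le).symm t hl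
      · exact (ih σ hσ q q' (h.mono hσ.le)).1
    refine ⟨?_, ?_⟩
    · intro p hl c hc hr
      have h1 := h c hr
      have h2 := (cl_iff c q p).1 (hl c hc hr)
      rw [cl_iff]
      refine ⟨h1.1.1 h2.1, ?_⟩
      rw [← h1.2]
      refine extOK_mono c (fun a n v => hdec c.rank hr _ n v) ?_ h2.2
      intro hk j _
      rw [(h c.ds ((rank_ds c hk).trans hr)).2]
    · intro hv c hc hr
      have h1 := h c hr
      have h2 := (vd_iff c q).1 (hv c (h1.1.2 hc) hr)
      rw [vd_iff, ← h1.2]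
      refine vok_mono c (fun a n v => hdec c.rank hr _ n v) ?_ h2
      intro hk hds
      have h3 := h c.ds ((rank_ds c hk).trans hr)
      exact ⟨h3.1.1 hds, by rw [h3.2]⟩

theorem LE_agr_left {ρ : Ordinal.{0}} {q q' : Cond I J} (h : Agr ρ q q') {p : Cond I J}
    (hl : LE ρ q p) : LE ρ q' p := (agr_all ρ q q' h).1 p hl

theorem VV_agr {ρ : Ordinal.{0}} {q q' : Cond I J} (h : Agr ρ q q') (hv : VV ρ q) : VV ρ q' :=
  (agr_all ρ q q' h).2 hv

/-! ### Stacking -/

open Classical in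
/-- `q` below `ρ`, `p` from `ρ` on. -/
noncomputable def stack (ρ : Ordinal.{0}) (q p : Cond I J) : Cond I J where
  dom := q.dom.filter (fun c => c.rank < ρ) ∪ p.dom.filter (fun c => ρ ≤ c.rank)
  dat := fun c => if c.rank < ρ then q.dat c else p.dat c

theorem stack_agr (ρ : Ordinal.{0}) (q p : Cond I J) : Agr ρ q (stack ρ q p) := by
  intro c hc
  unfold stack
  constructor
  · simp [hc]
  · simp [hc]

theorem stack_high (ρ : Ordinal.{0}) (q p : Cond I J) (c : Coord I J) (hc : ρ ≤ c.rank) :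
    (c ∈ (stack ρ q p).dom ↔ c ∈ p.dom) ∧ (stack ρ q p).dat c = p.dat c := by
  unfold stack
  constructor
  · simp [hc, not_lt.2 hc]
  · simp [not_lt.2 hc]

theorem stack_main {ρ : Ordinal.{0}} {q p : Cond I J} (hp : Val p) (hq : VV ρ q)
    (hl : LE ρ q p) : ∀ σ : Ordinal.{0}, VV σ (stack ρ q p) ∧ LE σ (stack ρ q p) p := by
  intro σ
  induction σ using WellFoundedLT.induction with
  | ind σ ih =>
    have hag := stack_agr ρ q p
    have hV : VV ρ (stack ρ q p) := VV_agr hag hq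
    have hL : LE ρ (stack ρ q p) p := LE_agr_left hag hl
    constructor
    · intro c hc hr
      by_cases hcρ : c.rank < ρ
      · exact hV c hc hcρ
      · push Not at hcρ
        obtain ⟨h1, h2⟩ := stack_high ρ q p c hcρ
        rw [vd_iff, h2]
        have h3 := (vd_iff c p).1 (hp c (h1.1 hc))
        have h4 := ih c.rank hr
        refine vok_mono c (fun a n v hd => ?_) ?_ h3
        · exact dec_mono_level h4.1 (fun c' hc' _ => hp c' hc') h4.2 hd
        · intro hk hds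
          exact LE_mem h4.2 hds (rank_ds c hk)
    · intro c hc hr
      by_cases hcρ : c.rank < ρ
      · exact hL c hc hcρ
      · push Not at hcρ
        obtain ⟨h1, h2⟩ := stack_high ρ q p c hcρ
        rw [cl_iff, h2]
        exact ⟨h1.2 hc, extOK_refl _ _ _⟩

theorem val_iff (p : Cond I J) : Val p ↔ ∀ ρ, VV ρ p :=
  ⟨fun h _ c hc _ => h c hc, fun h c hc => h (Order.succ c.rank) c hc (Order.lt_succ _)⟩

theorem le_iff_LE (q p : Cond I J) : Le q p ↔ ∀ ρ, LE ρ q p :=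
  ⟨fun h _ c hc _ => h c hc, fun h c hc => h (Order.succ c.rank) c hc (Order.lt_succ _)⟩

theorem stack_val {ρ : Ordinal.{0}} {q p : Cond I J} (hp : Val p) (hq : VV ρ q)
    (hl : LE ρ q p) : Val (stack ρ q p) ∧ Le (stack ρ q p) p :=
  ⟨(val_iff _).2 fun σ => (stack_main hp hq hl σ).1,
    (le_iff_LE _ _).2 fun σ => (stack_main hp hq hl σ).2⟩

/-! ### Full level -/

theorem le_of_LE {ρ : Ordinal.{0}} {q p : Cond I J} (hp : ∀ c ∈ p.dom, c.rank < ρ)
    (h : LE ρ q p) : Le q p := fun c hc => h c hc (hp c hc)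

theorem LE_of_le {ρ : Ordinal.{0}} {q p : Cond I J} (h : Le q p) : LE ρ q p :=
  fun c hc _ => h c hc

theorem VV_of_val {ρ : Ordinal.{0}} {p : Cond I J} (h : Val p) : VV ρ p := fun c hc _ => h c hc

theorem dec_level_iff {ρ : Ordinal.{0}} {q : Cond I J} (hq : Val q) {τ : Nm I J}
    (hs : Supp ρ τ) (n v : ℕ) :
    Dec (LE ρ) (VV ρ) q τ n v ↔ Dec Le Val q τ n v := by
  have h1 : ∀ k, LE ρ q (τ n k).1.toCond ↔ Le q (τ n k).1.toCond := fun k =>
    ⟨fun h => le_of_LE (hs n k) h, fun h => LE_of_le h⟩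
  have h2 : ∀ k, Inc (LE ρ) (VV ρ) q (τ n k).1.toCond ↔ Inc Le Val q (τ n k).1.toCond := by
    intro k
    constructor
    · rintro h ⟨t, a, b, c⟩
      exact h ⟨t, VV_of_val a, LE_of_le b, LE_of_le c⟩
    · rintro h ⟨t, a, b, c⟩
      obtain ⟨s1, s2⟩ := stack_val hq a b
      exact h ⟨stack ρ t q, s1, s2, le_of_LE (hs n k) (LE_agr_left (stack_agr ρ t q) c)⟩
  unfold Dec
  simp only [h1, h2]

end Pool.Agent.Lib.MP_f6e1de_lc
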