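import Mathlib
import Pool.Agent.Lib.MP_f6e1de_lc.QRec

/-! API of the poset: everything about the recursive definition that the later files use. -/

namespace Pool.Agent.Lib.MP_f6e1de_lc

variable {I J : Type}

/-- `Le` only depends on the domain and the local parts of the larger condition. -/
theorem le_toRaw_iff (q p : Cond I J) : Le q p.toRaw.toCond ↔ Le q p := by
  constructor
  · intro h c hc
    have h1 := (cl_iff c q _).1 (h c (by rw [toRaw_dom]; exact hc))
    rw [toRaw_dat p c hc] at h1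
    exact (cl_iff c q p).2 h1
  · intro h c hc
    rw [toRaw_dom] at hc
    rw [cl_iff, toRaw_dat p c hc]
    exact (cl_iff c q p).1 (h c hc)

/-- Change the local part at `c` to `D` (adding `c` to the domain). -/
noncomputable def Cond.upd (q : Cond I J) (c : Coord I J) (D : Dat I J) : Cond I J := by
  classical
  exact ⟨insert c q.dom, Function.update q.dat c D⟩

theorem mem_upd_dom {q : Cond I J} {c : Coord I J} {D : Dat I J} {c' : Coord I J} :
    c' ∈ (q.upd c D).dom ↔ c' = c ∨ c' ∈ q.dom := by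
  classical
  unfold Cond.upd
  simp

theorem upd_dat_self (q : Cond I J) (c : Coord I J) (D : Dat I J) : (q.upd c D).dat c = D := by
  classical
  unfold Cond.upd
  simp

theorem upd_dat_ne (q : Cond I J) {c : Coord I J} (D : Dat I J) {c' : Coord I J} (h : c' ≠ c) :
    (q.upd c D).dat c' = q.dat c' := by
  classical
  unfold Cond.upd
  simp [h]

/-- The empty condition. -/
def Cond.empty : Cond I J := ⟨∅, fun _ => default⟩

theorem val_empty : Val (Cond.empty : Cond I J) := fun c hc => absurd hc (Finset.notMem_empty c)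

theorem vok_full_iff {p : Cond I J} (hp : Val p) (c : Coord I J) (D : Dat I J) :
    VOK (LE c.rank) (VV c.rank) c p D ↔ VOK Le Val c p D :=
  ⟨vok_mono c (fun a n v h => (dec_level_iff hp (supp_nm c a) n v).1 h)
      (fun _ h => ⟨h, List.prefix_rfl⟩),
    vok_mono c (fun a n v h => (dec_level_iff hp (supp_nm c a) n v).2 h)
      (fun _ h => ⟨h, List.prefix_rfl⟩)⟩

theorem ext_full_iff {q : Cond I J} (hq : Val q) (c : Coord I J) (D' D : Dat I J) :
    ExtOK (LE c.rank) (VV c.rank) c q D' D ↔ ExtOK Le Val c q D' D :=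
  ⟨extOK_mono c (fun a n v h => (dec_level_iff hq (supp_nm c a) n v).1 h) (fun _ _ _ => rfl),
    extOK_mono c (fun a n v h => (dec_level_iff hq (supp_nm c a) n v).2 h) (fun _ _ _ => rfl)⟩

theorem le_iff {q p : Cond I J} (hq : Val q) (_hp : Val p) :
    Le q p ↔ ∀ c ∈ p.dom, c ∈ q.dom ∧ ExtOK Le Val c q (q.dat c) (p.dat c) := by
  show (∀ c ∈ p.dom, (LV c).1 q p) ↔ _
  refine forall_congr' fun c => forall_congr' fun _ => ?_
  rw [cl_iff, ext_full_iff hq]

theorem le_refl' (p : Cond I J) : Le p p := (le_iff_LE p p).2 fun ρ => LE_refl ρ p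

theorem le_trans' {r q p : Cond I J} (hr : Val r) (hq : Val q) (h1 : Le r q) (h2 : Le q p) :
    Le r p :=
  (le_iff_LE r p).2 fun ρ => LE_trans ρ r q p (VV_of_val hr) (VV_of_val hq) (LE_of_le h1)
    (LE_of_le h2)

theorem val_vok {p : Cond I J} (hp : Val p) : ∀ c ∈ p.dom, VOK Le Val c p (p.dat c) := by
  intro c hc
  rw [← vok_full_iff hp, ← vd_iff]
  exact hp c hc

/-- Deciding is preserved by extension. -/
theorem dec_mono {r q : Cond I J} (hr : Val r) (hq : Val q) (h : Le r q) {τ : Nm I J} {n v : ℕ}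
    (hd : Dec Le Val q τ n v) : Dec Le Val r τ n v := by
  refine dec_mono_abs (L := Le) (V := Val) (q := q) (r := r) ?_ ?_ hd
  · intro t ht hl
    exact le_trans' ht hr hl h
  · intro p hp
    exact le_trans' hr hq h hp

/-- Deciding a name supported below `ρ` is preserved by extension below `ρ`. -/
theorem dec_mono_below {r q : Cond I J} (hr : Val r) (hq : Val q) {ρ : Ordinal.{0}} {τ : Nm I J}
    (hs : Supp ρ τ)
    (h : ∀ c ∈ q.dom, c.rank < ρ → c ∈ r.dom ∧ ExtOK Le Val c r (r.dat c) (q.dat c)) {n v : ℕ}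
    (hd : Dec Le Val q τ n v) : Dec Le Val r τ n v := by
  rw [← dec_level_iff hq hs] at hd
  rw [← dec_level_iff hr hs]
  refine dec_mono_level (VV_of_val hr) (VV_of_val hq) ?_ hd
  intro c hc hcr
  rw [cl_iff, ext_full_iff hr]
  exact h c hc hcr

theorem dec_unique {q : Cond I J} (hq : Val q) {τ : Nm I J} {n v v' : ℕ}
    (h : Dec Le Val q τ n v) (h' : Dec Le Val q τ n v') : v = v' := by
  have key : ∀ k, Le q (τ n k).1.toCond → ¬ Inc Le Val q (τ n k).1.toCond :=
    fun k hk hi => hi ⟨q, hq, le_refl' q, hk⟩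
  rcases h with ⟨k, a1, a2, a3⟩ | ⟨a1, a2⟩ <;> rcases h' with ⟨k', b1, b2, b3⟩ | ⟨b1, b2⟩
  · rcases lt_trichotomy k k' with hlt | heq | hlt
    · exact absurd (b3 k hlt) (key k a1)
    · subst heq; rw [← a2, ← b2]
    · exact absurd (a3 k' hlt) (key k' b1)
  · exact absurd (b2 k) (key k a1)
  · exact absurd (a2 k') (key k' b1)
  · rw [a1, b1]

/-- Deciding one value of a name supported below `ρ` without changing coordinates of rank
`≥ ρ`. -/
theorem exists_dec {q : Cond I J} (hq : Val q) {ρ : Ordinal.{0}} {τ : Nm I J} (hs : Supp ρ τ)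
    (n : ℕ) : ∃ (r : Cond I J) (v : ℕ), Val r ∧ Le r q ∧
      (∀ c, ρ ≤ c.rank → ((c ∈ r.dom ↔ c ∈ q.dom) ∧ r.dat c = q.dat c)) ∧
      Dec Le Val r τ n v := by
  classical
  by_cases h : ∃ k, ∃ r : Cond I J, Val r ∧ Le r q ∧ Le r (τ n k).1.toCond
  · obtain ⟨r0, a1, a2, a3⟩ := Nat.find_spec h
    set k := Nat.find h with hk
    obtain ⟨s1, s2⟩ := stack_val (ρ := ρ) hq (VV_of_val a1) (LE_of_le a2)
    refine ⟨stack ρ r0 q, (τ n k).2, s1, s2, fun c hc => stack_high ρ r0 q c hc, ?_⟩
    refine Or.inl ⟨k, le_of_LE (hs n k) (LE_agr_left (stack_agr ρ r0 q) (LE_of_le a3)), rfl, ?_⟩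
    rintro k' hk' ⟨t, t1, t2, t3⟩
    exact Nat.find_min h hk' ⟨t, t1, le_trans' t1 s1 t2 s2, t3⟩
  · refine ⟨q, 0, hq, le_refl' q, fun c _ => ⟨Iff.rfl, rfl⟩, Or.inr ⟨rfl, ?_⟩⟩
    rintro k ⟨t, t1, t2, t3⟩
    exact h ⟨k, t, t1, t2, t3⟩

/-- Transitivity at one coordinate. -/
theorem extOK_trans {r q : Cond I J} (hr : Val r) (hq : Val q) (h : Le r q) {c : Coord I J}
    (hc : c ∈ q.dom) {D : Dat I J} (he : ExtOK Le Val c q (q.dat c) D) :
    ExtOK Le Val c r (r.dat c) D := by
  have hl := (le_iff hr hq).1 h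
  refine extOK_trans_abs c (fun a n v hd => dec_mono hr hq h hd) (hl c hc).2 he ?_
  intro hk
  obtain ⟨b1, b2, -⟩ := vok_loc (val_vok hq c hc) hk
  exact ⟨(hl _ b1).2.1, b2⟩

/-- Adding a coordinate. -/
theorem add_coord {q : Cond I J} (hq : Val q) {c : Coord I J} (hc : c ∉ q.dom) {D : Dat I J}
    (hv : VOK Le Val c q D) : Val (q.upd c D) ∧ Le (q.upd c D) q := by
  have hne : ∀ c' ∈ q.dom, c' ≠ c := fun c' hc' e => hc (e ▸ hc')
  have hL : ∀ σ : Ordinal.{0}, LE σ (q.upd c D) q := by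
    intro σ c' hc' _
    rw [cl_iff, upd_dat_ne q D (hne c' hc')]
    exact ⟨mem_upd_dom.2 (Or.inr hc'), extOK_refl _ _ _⟩
  have hV : ∀ σ : Ordinal.{0}, VV σ (q.upd c D) := by
    intro σ
    induction σ using WellFoundedLT.induction with
    | ind σ ih =>
      intro c' hc' hr
      have hmono : ∀ (a : Option (I ⊕ J)) (n v : ℕ),
          Dec (LE c'.rank) (VV c'.rank) q (c'.nm a) n v →
          Dec (LE c'.rank) (VV c'.rank) (q.upd c D) (c'.nm a) n v := fun a n v hd =>
        dec_mono_level (ih _ hr) (VV_of_val hq) (hL _) hd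
      have hds : c'.kind = .loc → c'.ds ∈ q.dom → c'.ds ∈ (q.upd c D).dom ∧
          (q.dat c'.ds).s <+: ((q.upd c D).dat c'.ds).s := fun hk hd =>
        LE_mem (hL c'.rank) hd (rank_ds c' hk)
      rw [vd_iff]
      rcases mem_upd_dom.1 hc' with h | h
      · subst h
        rw [upd_dat_self]
        exact vok_mono c' hmono hds ((vok_full_iff hq c' D).2 hv)
      · rw [upd_dat_ne q D (hne c' h)]
        exact vok_mono c' hmono hds ((vd_iff c' q).1 (hq c' h))
  exact ⟨(val_iff _).2 hV, (le_iff_LE _ _).2 hL⟩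

/-- Changing the local part at a coordinate. -/
theorem upd_coord {q : Cond I J} (hq : Val q) {c : Coord I J} (hc : c ∈ q.dom) {D : Dat I J}
    (he : ExtOK Le Val c q D (q.dat c)) (hv : VOK Le Val c q D) :
    Val (q.upd c D) ∧ Le (q.upd c D) q := by
  have hVL : ∀ σ : Ordinal.{0}, VV σ (q.upd c D) ∧ LE σ (q.upd c D) q := by
    intro σ
    induction σ using WellFoundedLT.induction with
    | ind σ ih =>
      have hmono : ∀ c' : Coord I J, c'.rank < σ → ∀ (a : Option (I ⊕ J)) (n v : ℕ),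
          Dec (LE c'.rank) (VV c'.rank) q (c'.nm a) n v →
          Dec (LE c'.rank) (VV c'.rank) (q.upd c D) (c'.nm a) n v := fun c' hr a n v hd =>
        dec_mono_level (ih _ hr).1 (VV_of_val hq) (ih _ hr).2 hd
      constructor
      · intro c' hc' hr
        have hds : c'.kind = .loc → c'.ds ∈ q.dom → c'.ds ∈ (q.upd c D).dom ∧
            (q.dat c'.ds).s <+: ((q.upd c D).dat c'.ds).s := fun hk hd =>
          LE_mem (ih c'.rank hr).2 hd (rank_ds c' hk)
        rw [vd_iff]
        by_cases h : c' = c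
        · subst h
          rw [upd_dat_self]
          exact vok_mono c' (hmono c' hr) hds ((vok_full_iff hq c' D).2 hv)
        · have hc'' : c' ∈ q.dom := by
            rcases mem_upd_dom.1 hc' with h' | h'
            · exact absurd h' h
            · exact h'
          rw [upd_dat_ne q D h]
          exact vok_mono c' (hmono c' hr) hds ((vd_iff c' q).1 (hq c' hc''))
      · intro c' hc' hr
        rw [cl_iff]
        refine ⟨mem_upd_dom.2 (Or.inr hc'), ?_⟩
        by_cases h : c' = c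
        · subst h
          rw [upd_dat_self]
          refine extOK_mono c' (hmono c' hr) ?_ ((ext_full_iff hq c' D _).2 he)
          intro hk j _
          rw [upd_dat_ne q D (ds_ne c' hk)]
        · rw [upd_dat_ne q D h]
          exact extOK_refl _ _ _
  exact ⟨(val_iff _).2 fun σ => (hVL σ).1, (le_iff_LE _ _).2 fun σ => (hVL σ).2⟩

/-! ### The poset and its points -/

variable (I J) in
/-- The poset. -/
def PP : Type := {p : Cond I J // Val p}

instance : Preorder (PP I J) where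
  le q p := Le q.1 p.1
  le_refl p := le_refl' p.1
  le_trans r q p h1 h2 := le_trans' r.2 q.2 h1 h2

theorem pp_le_iff (q p : PP I J) : q ≤ p ↔ Le q.1 p.1 := Iff.rfl

instance : Nonempty (PP I J) := ⟨⟨Cond.empty, val_empty⟩⟩

theorem pp_le {q p : PP I J} : q ≤ p ↔
    ∀ c ∈ p.1.dom, c ∈ q.1.dom ∧ ExtOK Le Val c q.1 (q.1.dat c) (p.1.dat c) :=
  le_iff q.2 p.2

open Pool.Agent.Lib.BVM

/-- A (possibly invalid) condition belongs to the filter. -/
def HasC (F : Pt (PP I J)) (p : Cond I J) : Prop := ∃ q : PP I J, F.has q ∧ Le q.1 p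

open Classical in
/-- Value of a name at a maximal filter. -/
noncomputable def nval (τ : Nm I J) (F : Pt (PP I J)) (n : ℕ) : ℕ :=
  if h : ∃ k, HasC F (τ n k).1.toCond then (τ n (Nat.find h)).2 else 0

theorem nval_of_dec {F : Pt (PP I J)} {q : PP I J} (hF : F.has q) {τ : Nm I J} {n v : ℕ}
    (hd : Dec Le Val q.1 τ n v) : nval τ F n = v := by
  classical
  have hinc : ∀ k, Inc Le Val q.1 (τ n k).1.toCond → ¬ HasC F (τ n k).1.toCond := by
    rintro k hi ⟨r, hr, hrk⟩
    obtain ⟨t, -, ht1, ht2⟩ := F.dir hF hr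
    exact hi ⟨t.1, t.2, ht1, le_trans' t.2 r.2 ht2 hrk⟩
  rcases hd with ⟨k, a1, a2, a3⟩ | ⟨a1, a2⟩
  · have hk : HasC F (τ n k).1.toCond := ⟨q, hF, a1⟩
    have h : ∃ k, HasC F (τ n k).1.toCond := ⟨k, hk⟩
    have hfind : Nat.find h = k := by
      rw [Nat.find_eq_iff]
      exact ⟨hk, fun k' hk' => hinc k' (a3 k' hk')⟩
    unfold nval
    rw [dif_pos h, hfind, a2]
  · have h : ¬ ∃ k, HasC F (τ n k).1.toCond := by
      rintro ⟨k, hk⟩
      exact hinc k (a2 k) hk
    unfold nval
    rw [dif_neg h, a1]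

end Pool.Agent.Lib.MP_f6e1de_lc
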