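import Mathlib
import Pool.Agent.Lib.MP_f6e1de_lc.QApi

/-! The loss factor of the amalgamation lemma. -/

namespace Pool.Agent.Lib.MP_f6e1de_lc

variable {I J : Type}

/-- Loss factor at one coordinate, for the stems `S` on the root. -/
noncomputable def eC (S : Coord I J → List ℕ) (c : Coord I J) : ℕ := by
  classical
  exact if c.kind = .loc then
    ∏ j ∈ Finset.Ico (S c).length (S c.ds).length, 2 ^ (gval (S c.ds) j) else 1

/-- The loss factor; it depends only on the stems on the root. -/
noncomputable def eR (R : Finset (Coord I J)) (S : Coord I J → List ℕ) : ℕ := ∏ c ∈ R, eC S c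

theorem eC_pos (S : Coord I J → List ℕ) (c : Coord I J) : 0 < eC S c := by
  unfold eC
  split_ifs
  · exact Finset.prod_pos fun j _ => pow_pos (by norm_num) _
  · exact Nat.one_pos

theorem eR_pos (R : Finset (Coord I J)) (S : Coord I J → List ℕ) : 0 < eR R S :=
  Finset.prod_pos fun c _ => eC_pos S c

variable {Z : Type}

/-- State of the amalgamation of the conditions `p z`, `z ∈ Z'`: the coordinates in `T'` are done,
`q` is the condition built so far. `K` bounds the total size of the promise sets. -/
structure AmSt (p : Z → Cond I J) (R : Finset (Coord I J)) (K : ℕ) (T' : Finset (Coord I J))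
    (Z' : Finset Z) (q : Cond I J) : Prop where
  val : Val q
  /-- the coordinates of `q` are in `T'` or have smaller rank than some coordinate of `T'` -/
  low : ∀ c ∈ q.dom, c ∉ T' → ∃ c' ∈ T', c.rank < c'.rank
  ext : ∀ z ∈ Z', ∀ c ∈ (p z).dom, c ∈ T' → c ∈ q.dom ∧
    ExtOK Le Val c q (q.dat c) ((p z).dat c)
  /-- the sparse set coordinates of the root got one more, large element -/
  big : ∀ z ∈ Z', ∀ c ∈ R, c ∈ T' → c.kind = .dset →
    ((p z).dat c).s.length < (q.dat c).s.length ∧ K ≤ dval (q.dat c).s ((p z).dat c).s.length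

/-- `dval` and `gval` only see the prefix. -/
theorem dval_prefix {s t : List ℕ} (h : s <+: t) {j : ℕ} (hj : j < s.length) :
    dval s j = dval t j := by
  obtain ⟨r, rfl⟩ := h
  unfold dval
  rw [List.take_append_of_le_length (by omega)]

theorem gval_prefix {s t : List ℕ} (h : s <+: t) {j : ℕ} (hj : j < s.length) :
    gval s j = gval t j := by
  obtain ⟨r, rfl⟩ := h
  unfold gval
  rw [List.getD_append _ _ _ _ hj]

theorem dval_succ {s : List ℕ} {j : ℕ} (hj : j + 1 < s.length) :
    dval s (j + 1) = dval s j + (Nat.unpair (s.getD (j + 1) 0)).1 + 1 := by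
  unfold dval
  rw [List.take_add_one (i := j + 1)]
  simp [hj, List.getD_eq_getElem?_getD, add_assoc]

theorem dval_lt {s : List ℕ} {i j : ℕ} (hij : i < j) (hj : j < s.length) :
    dval s i < dval s j := by
  induction j with
  | zero => omega
  | succ j ih =>
    rw [dval_succ hj]
    rcases Nat.lt_succ_iff_lt_or_eq.1 hij with h | h
    · have := ih h (by omega); omega
    · subst h; omega

end Pool.Agent.Lib.MP_f6e1de_lc
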