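import Mathlib
import Pool.Agent.Lib.MP_f6e1de_lc.AmDefs

/-! Deciding finitely many values of finitely many names of rank below `ρ` at once. -/

namespace Pool.Agent.Lib.MP_f6e1de_lc

variable {I J : Type}

theorem exists_dec_finset {q : Cond I J} (hq : Val q) {ρ : Ordinal.{0}}
    (W : Finset (Nm I J × ℕ)) (hW : ∀ w ∈ W, Supp ρ w.1) :
    ∃ r : Cond I J, Val r ∧ Le r q ∧
      (∀ c, ρ ≤ c.rank → ((c ∈ r.dom ↔ c ∈ q.dom) ∧ r.dat c = q.dat c)) ∧
      ∀ w ∈ W, ∃ v, Dec Le Val r w.1 w.2 v := by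
  classical
  induction W using Finset.induction_on with
  | empty =>
    exact ⟨q, hq, le_refl' q, fun c _ => ⟨Iff.rfl, rfl⟩, fun w hw => absurd hw (Finset.notMem_empty w)⟩
  | insert w W hwW ih =>
    obtain ⟨r, hr, hrq, hrc, hrW⟩ := ih (fun x hx => hW x (Finset.mem_insert_of_mem hx))
    obtain ⟨r', v, hr', hr'r, hr'c, hd⟩ := exists_dec hr (hW w (Finset.mem_insert_self w W)) w.2
    refine ⟨r', hr', le_trans' hr' hr hr'r hrq, ?_, ?_⟩
    · intro c hc
      obtain ⟨h1, h2⟩ := hr'c c hc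
      obtain ⟨h3, h4⟩ := hrc c hc
      exact ⟨h1.trans h3, h2.trans h4⟩
    · intro x hx
      rcases Finset.mem_insert.1 hx with h | h
      · subst h
        exact ⟨v, hd⟩
      · obtain ⟨u, hu⟩ := hrW x h
        exact ⟨u, dec_mono hr' hr hr'r hu⟩

end Pool.Agent.Lib.MP_f6e1de_lc
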