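import Mathlib
import Pool.Agent.Lib.MP_f6e1de_lc.AmDefs

/-! Amalgamation, step for a root coordinate of kind `dset` (no loss; one more element `≥ K`).

PROOF. `c ∉ q.dom` as in AmOut. If `Z'` is empty take `q' = q` (`ext`, `big` are empty). Otherwise let
`s = S c`, `N = s.length`; the new element will be `d = (if N = 0 then 0 else dval s (N-1)) + K + 1`
(entry with `g = K`). By `exists_dec` (`ρ = c.rank`, `supp_nm c none`, `n = d`) get `r` valid, `Le r q`,
unchanged at ranks `≥ c.rank`, and `v` with `Dec Le Val r (c.nm none) d v`. Put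
`D = ⟨s ++ [Nat.pair K v], ⋃ h1, ⋃ h2⟩`: `dval D.s j = dval s j` for `j < N` (`dval_prefix`),
`dval D.s N = d`, `gval D.s N = v`. `VOK` (kind dset): for `j < N` from `val_vok (hp z)` for some
`z ∈ Z'` by `dec_mono_below` (hypothesis: for `c' ∈ (p z).dom` of rank `< c.rank`: `c' ∈ T'` by `hcl`,
`st.ext`, and then `Le r q` by `le_iff`, `extOK_trans`); for `j = N` by the choice. `c ∉ r.dom` since
`r` and `q` agree at rank `≥ c.rank`. `q' = r.upd c D` by `add_coord`; `Le q' r`. `ext` at `c`: prefix,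
subsets, `NewOK` is `True` for kind dset. Old coordinates: `extOK_trans` twice. `low`: a coordinate of
`q'` is `c`, or in `r.dom`: if its rank is `≥ c.rank` it is in `q.dom`, use `st.low`; otherwise its rank
is `< c.rank` and `c ∈ insert c T'`. `big`: at `c` by construction (`K ≤ d`); old root dset
coordinates: the stem of `q'` extends the one of `q` (`le_iff`), use `dval_prefix`. -/

namespace Pool.Agent.Lib.MP_f6e1de_lc

variable {I J Z : Type}

private theorem ad_dval (s : List ℕ) (K v : ℕ) : dval (s ++ [Nat.pair K v]) s.length =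
    (s.map (fun w => (Nat.unpair w).1 + 1)).sum + (K + 1) := by
  unfold dval
  rw [List.take_of_length_le (by simp), List.map_append, List.sum_append]
  simp

private theorem ad_gval (s : List ℕ) (K v : ℕ) : gval (s ++ [Nat.pair K v]) s.length = v := by
  unfold gval
  rw [List.getD_append_right _ _ _ _ le_rfl]
  simp

private theorem ad_newOK {L : Cond I J → Cond I J → Prop} {V : Cond I J → Prop} (c : Coord I J)
    (hk : c.kind = .dset) (q : Cond I J) (D' D : Dat I J) : NewOK L V c q D' D := by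
  unfold NewOK
  rw [hk]
  trivial

private theorem ad_vok {c : Coord I J} (hk : c.kind = .dset) {p : Cond I J} {D : Dat I J} :
    VOK Le Val c p D ↔ ∀ j < D.s.length, Dec Le Val p (c.nm none) (dval D.s j) (gval D.s j) := by
  unfold VOK
  rw [hk]

theorem am_dset [DecidableEq (Coord I J)] (p : Z → Cond I J) (hp : ∀ z, Val (p z))
    (R : Finset (Coord I J)) (K : ℕ)
    {T' : Finset (Coord I J)} {Z' : Finset Z} {q : Cond I J} (st : AmSt p R K T' Z' q)
    {c : Coord I J} (hcT : c ∉ T') (hmax : ∀ c' ∈ T', c'.rank ≤ c.rank)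
    (hcl : ∀ z, ∀ c' ∈ (p z).dom, c'.rank < c.rank → c' ∈ T') (S : Coord I J → List ℕ)
    (hc : ∀ z, c ∈ (p z).dom)
    (hS : ∀ z, ((p z).dat c).s = S c) (hk : c.kind = .dset) (hR : ∀ z, R ⊆ (p z).dom) :
    ∃ q' : Cond I J, AmSt p R K (insert c T') Z' q' := by
  classical
  have hcq : c ∉ q.dom := by
    intro h
    obtain ⟨c', hc', hlt⟩ := st.low c h hcT
    exact absurd hlt (not_lt.2 (hmax c' hc'))
  rcases Z'.eq_empty_or_nonempty with h0 | hne
  · subst h0
    refine ⟨q, st.val, ?_, ?_, ?_⟩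
    · intro c' h1 h2
      obtain ⟨c'', h3, h4⟩ := st.low c' h1 (fun h => h2 (Finset.mem_insert_of_mem h))
      exact ⟨c'', Finset.mem_insert_of_mem h3, h4⟩
    · intro z hz
      exact absurd hz (Finset.notMem_empty z)
    · intro z hz
      exact absurd hz (Finset.notMem_empty z)
  obtain ⟨z0, hz0⟩ := hne
  -- deciding
  obtain ⟨r, v, hr, hrq, hrun, hv⟩ := exists_dec st.val (supp_nm c none)
    (((S c).map (fun w => (Nat.unpair w).1 + 1)).sum + (K + 1))
  obtain ⟨D, hD⟩ : ∃ D : Dat I J, D = ⟨S c ++ [Nat.pair K v],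
    Z'.biUnion (fun z => ((p z).dat c).h1), Z'.biUnion (fun z => ((p z).dat c).h2)⟩ :=
    ⟨_, rfl⟩
  have hDs : D.s = S c ++ [Nat.pair K v] := by rw [hD]
  have hDlen : D.s.length = (S c).length + 1 := by rw [hDs]; simp
  have hpre : S c <+: D.s := by rw [hDs]; exact List.prefix_append _ _
  have hvD : VOK Le Val c r D := by
    rw [ad_vok hk]
    intro j hj
    rw [hDlen] at hj
    rcases Nat.lt_succ_iff_lt_or_eq.1 hj with h1 | h1
    · have h2 := (ad_vok hk).1 (val_vok (hp z0) c (hc z0)) j (by rw [hS z0]; exact h1)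
      rw [hS z0] at h2
      rw [← dval_prefix hpre h1, ← gval_prefix hpre h1]
      refine dec_mono_below hr (hp z0) (supp_nm c none) ?_ h2
      intro c' hc' hlt
      obtain ⟨h4, h5⟩ := st.ext z0 hz0 c' hc' (hcl z0 c' hc' hlt)
      exact ⟨((le_iff hr st.val).1 hrq c' h4).1, extOK_trans hr st.val hrq h4 h5⟩
    · subst h1
      rw [hDs, ad_dval, ad_gval]
      exact hv
  have hcr : c ∉ r.dom := fun h => hcq ((hrun c le_rfl).1.1 h)
  obtain ⟨hq', hq'r⟩ := add_coord hr hcr hvD
  have hq'q : Le (r.upd c D) q := le_trans' hq' hr hq'r hrq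
  refine ⟨r.upd c D, hq', ?_, ?_, ?_⟩
  · intro c' h1 h2
    rcases mem_upd_dom.1 h1 with h3 | h3
    · exact absurd (h3 ▸ Finset.mem_insert_self _ _) h2
    · rcases le_or_gt c.rank c'.rank with h4 | h4
      · obtain ⟨c'', h5, h6⟩ := st.low c' ((hrun c' h4).1.1 h3)
          (fun h => h2 (Finset.mem_insert_of_mem h))
        exact ⟨c'', Finset.mem_insert_of_mem h5, h6⟩
      · exact ⟨c, Finset.mem_insert_self _ _, h4⟩
  · intro z hz c' h1 h2
    by_cases hcc : c' = c
    · subst hcc
      refine ⟨mem_upd_dom.2 (Or.inl rfl), ?_⟩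
      rw [upd_dat_self]
      refine ⟨?_, ?_, ?_, ad_newOK _ hk _ _ _⟩
      · rw [hS]
        exact hpre
      · rw [hD]
        exact Finset.subset_biUnion_of_mem (fun z => ((p z).dat c').h1) hz
      · rw [hD]
        exact Finset.subset_biUnion_of_mem (fun z => ((p z).dat c').h2) hz
    · have h3 : c' ∈ T' := (Finset.mem_insert.1 h2).resolve_left hcc
      obtain ⟨h4, h5⟩ := st.ext z hz c' h1 h3
      exact ⟨((le_iff hq' st.val).1 hq'q c' h4).1, extOK_trans hq' st.val hq'q h4 h5⟩
  · intro z hz c' h1 h2 h3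
    by_cases hcc : c' = c
    · subst hcc
      rw [upd_dat_self, hS, hDs, ad_dval]
      constructor
      · simp
      · omega
    · have h4 : c' ∈ T' := (Finset.mem_insert.1 h2).resolve_left hcc
      obtain ⟨h5, h6⟩ := st.big z hz c' h1 h4 h3
      have h7 := (st.ext z hz c' (hR z h1) h4).1
      have h8 : (q.dat c').s <+: ((r.upd c D).dat c').s :=
        ((le_iff hq' st.val).1 hq'q c' h7).2.1
      exact ⟨h5.trans_le h8.length_le, by rw [← dval_prefix h8 h5]; exact h6⟩

end Pool.Agent.Lib.MP_f6e1de_lc
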