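import Mathlib
import Pool.Agent.Lib.MP_f6e1de_lc.AmDefs

/-! Amalgamation, step for a root coordinate of kind `free` or `hech` (no loss).

PROOF. `c ∉ q.dom` as in AmOut (by `st.low`, `hmax`). If `Z'` is empty take `q' = q`. Otherwise put
`D = ⟨S c, ⋃_{z ∈ Z'} ((p z).dat c).h1, ⋃_{z ∈ Z'} ((p z).dat c).h2⟩` (`Finset.biUnion`, classical
decidability); `VOK` is trivial for these kinds; `q' = q.upd c D` by `add_coord`. `ext` at `c`: equal
stems, so `NewOK` is empty; at the old coordinates `extOK_trans`. `low`: the new element `c` is in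
`insert c T'`. `big`: `c` is not of kind `dset`; old ones unchanged. -/

namespace Pool.Agent.Lib.MP_f6e1de_lc

variable {I J Z : Type}

private theorem af_newOK {L : Cond I J → Cond I J → Prop} {V : Cond I J → Prop} (c : Coord I J)
    (q : Cond I J) {D' D : Dat I J} (h : D'.s = D.s) : NewOK L V c q D' D := by
  unfold NewOK
  split
  · trivial
  · trivial
  · intro i _ j h1 h2
    rw [h] at h2
    omega
  · intro i _ j h1 h2
    rw [h] at h2
    omega

private theorem af_mem_upd (q : Cond I J) (c : Coord I J) (D : Dat I J) (x : Coord I J) :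
    x ∈ (q.upd c D).dom ↔ x = c ∨ x ∈ q.dom := by
  classical
  unfold Cond.upd
  simp

private theorem af_dat_self (q : Cond I J) (c : Coord I J) (D : Dat I J) :
    (q.upd c D).dat c = D := by
  classical
  unfold Cond.upd
  simp

private theorem af_dat_ne (q : Cond I J) (c : Coord I J) (D : Dat I J) {x : Coord I J}
    (h : x ≠ c) : (q.upd c D).dat x = q.dat x := by
  classical
  unfold Cond.upd
  simp [h]

theorem am_free [DecidableEq (Coord I J)] (p : Z → Cond I J) (hp : ∀ z, Val (p z))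
    (R : Finset (Coord I J)) (K : ℕ)
    {T' : Finset (Coord I J)} {Z' : Finset Z} {q : Cond I J} (st : AmSt p R K T' Z' q)
    {c : Coord I J} (hcT : c ∉ T') (hmax : ∀ c' ∈ T', c'.rank ≤ c.rank) (S : Coord I J → List ℕ)
    (hS : ∀ z, ((p z).dat c).s = S c) (hk : c.kind ≠ .loc) (hk' : c.kind ≠ .dset) :
    ∃ q' : Cond I J, AmSt p R K (insert c T') Z' q' := by
  classical
  have hcq : c ∉ q.dom := by
    intro h
    obtain ⟨c', h1, h2⟩ := st.low c h hcT
    exact absurd (hmax c' h1) (not_le.mpr h2)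
  obtain ⟨D, hDs, hD1, hD2⟩ : ∃ D : Dat I J, D.s = S c ∧ (∀ z ∈ Z', ((p z).dat c).h1 ⊆ D.h1) ∧
      (∀ z ∈ Z', ((p z).dat c).h2 ⊆ D.h2) :=
    ⟨⟨S c, Z'.biUnion fun z => ((p z).dat c).h1, Z'.biUnion fun z => ((p z).dat c).h2⟩, rfl,
      fun z hz => Finset.subset_biUnion_of_mem (fun z => ((p z).dat c).h1) hz,
      fun z hz => Finset.subset_biUnion_of_mem (fun z => ((p z).dat c).h2) hz⟩
  have hv : VOK Le Val c q D := by
    unfold VOK
    rcases hkc : c.kind with _ | _ | _ | _
    · trivial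
    · exact absurd hkc hk'
    · trivial
    · exact absurd hkc hk
  obtain ⟨hV, hL⟩ := add_coord st.val hcq hv
  refine ⟨q.upd c D, hV, ?_, ?_, ?_⟩
  · intro x hx hxT
    rw [af_mem_upd] at hx
    rw [Finset.mem_insert, not_or] at hxT
    rcases hx with hx | hx
    · exact absurd hx hxT.1
    · obtain ⟨c', h1, h2⟩ := st.low x hx hxT.2
      exact ⟨c', Finset.mem_insert_of_mem h1, h2⟩
  · intro z hz x hx hxT
    rcases Finset.mem_insert.mp hxT with rfl | hxT
    · refine ⟨(af_mem_upd _ _ _ _).mpr (Or.inl rfl), ?_⟩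
      rw [af_dat_self]
      refine ⟨?_, hD1 z hz, hD2 z hz, af_newOK _ _ ?_⟩
      · rw [hS z, hDs]
      · rw [hS z, hDs]
    · obtain ⟨h1, h2⟩ := st.ext z hz x hx hxT
      exact ⟨(af_mem_upd _ _ _ _).mpr (Or.inr h1), extOK_trans hV st.val hL h1 h2⟩
  · intro z hz x hx hxT hkx
    rcases Finset.mem_insert.mp hxT with rfl | hxT'
    · exact absurd hkx hk'
    · have hne : x ≠ c := fun h => hcT (h ▸ hxT')
      rw [af_dat_ne _ _ _ hne]
      exact st.big z hz x hx hxT' hkx

end Pool.Agent.Lib.MP_f6e1de_lc
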