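import Mathlib
import Pool.Agent.Lib.MP_f6e1de_lc.AmDec

/-! Amalgamation, step for a root coordinate of kind `loc` (the number of surviving conditions drops
at most by the factor `eC S c`).

PROOF. Let `n = (S c).length`, `N = (S c.ds).length`, `γ j = gval (S c.ds) j`. If `Z'` is empty take
`Z'' = ∅`, `q' = q`. Otherwise some `z ∈ Z'`: `val_vok (hp z) c (hc z)` gives `c.ds ∈ (p z).dom`, `n < N`,
card of `h1` of `p z` at `c` `≤ dval (S c.ds) n`, and the cards of the old entries. `rank_ds`, `hcl`: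
`c.ds ∈ T'`; `st.ext`: `c.ds ∈ q.dom` with stem extending `S c.ds`; `st.big` (`c.ds.kind = dset`):
`N < length`, `K ≤ dval (q.dat c.ds).s N`.
(1) `exists_dec_finset` with `ρ = c.rank` and the pairs `(c.nm (some (inl a)), j)`, `a ∈ ⋃_{z ∈ Z'} h1`,
`n ≤ j < N`: `r` valid, `Le r q`, unchanged at rank `≥ c.rank`, values `v a j` decided by `r`.
(2) For `z ∈ Z'`, `j ∈ [n, N)`: `A z j = {v a j | a ∈ h1 of p z} ∩ {v < γ j}` (Finset), of card `≤` card h1.
The map `z ↦ (A z j)_j` goes to `Finset.pi`/`Fintype.piFinset` of the powersets of `range (γ j)`,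
`j ∈ Ico n N`, whose card is `eC S c`. Pigeonhole (`Finset.exists_le_card_fiber_of_mul_le_card_of_maps_to`
or a sum over fibers) gives a fiber `Z''` with `Z'.card ≤ eC S c * Z''.card`, common sets `B j`.
(3) `D = ⟨S c ++ (List.map (fun j => fenc (B j)) [n, ..., N-1]), ⋃_{z ∈ Z''} h1, ⋃_{z ∈ Z''} h2⟩`,
with `fset_fenc`; length of `D.s` is `N`.
(4) `VOK` for `r`: `c.ds ∈ r.dom`, `N <` length of the stem of `r` at `c.ds` (it extends the one of `q`),
card of the union `≤ K ≤ dval` at `N` (`hK`, `dval_prefix`), cards of the entries: old ones from `p z`,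
new ones `≤` card h1 `≤ dval (S c.ds) n ≤ dval (S c.ds) j` (`dval_lt`), all by `dval_prefix`.
(5) `q' = r.upd c D` by `add_coord` (`c ∉ r.dom` as in AmDset). `ext` at `c` for `z ∈ Z''`: prefix,
subsets, `NewOK`: for `a ∈ h1` of `p z`, `n ≤ j < N`: `v a j`; if `v a j < gval (stem of r at c.ds) j =
γ j` then it is in `A z j = B j`. (`NewOK` is evaluated by `q'`: use `extOK_trans` from `r`... simplest:
prove `ExtOK Le Val c r D ((p z).dat c)` first, note that `(q'.dat c) = D`, and transfer `Dec` from `r` to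
`q'` by `dec_mono`; `q'.dat c.ds = r.dat c.ds` because `c.ds ≠ c` by rank.) Old coordinates, `low`,
`big` as in AmDset. -/

namespace Pool.Agent.Lib.MP_f6e1de_lc

variable {I J Z : Type}

private theorem al_mem_upd {q : Cond I J} {c c' : Coord I J} {D : Dat I J} :
    c' ∈ (q.upd c D).dom ↔ c' = c ∨ c' ∈ q.dom := by
  classical
  unfold Cond.upd
  exact Finset.mem_insert

private theorem al_dat_same (q : Cond I J) (c : Coord I J) (D : Dat I J) :
    (q.upd c D).dat c = D := by
  classical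
  unfold Cond.upd
  simp

private theorem al_dat_ne (q : Cond I J) {c c' : Coord I J} (D : Dat I J) (h : c' ≠ c) :
    (q.upd c D).dat c' = q.dat c' := by
  classical
  unfold Cond.upd
  exact Function.update_of_ne h _ _

/-- the new stem -/
private def alS (s : List ℕ) (N : ℕ) (B : ℕ → Finset ℕ) : List ℕ :=
  s ++ (List.range (N - s.length)).map (fun i => fenc (B (s.length + i)))

private theorem alS_length (s : List ℕ) (N : ℕ) (B : ℕ → Finset ℕ) (h : s.length ≤ N) :
    (alS s N B).length = N := by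
  simp only [alS, List.length_append, List.length_map, List.length_range]
  omega

private theorem alS_old (s : List ℕ) (N : ℕ) (B : ℕ → Finset ℕ) {j : ℕ} (h : j < s.length) :
    (alS s N B).getD j 0 = s.getD j 0 := by
  unfold alS
  exact List.getD_append _ _ _ _ h

private theorem alS_new (s : List ℕ) (N : ℕ) (B : ℕ → Finset ℕ) {j : ℕ} (h : s.length ≤ j)
    (hN : j < N) : (alS s N B).getD j 0 = fenc (B j) := by
  unfold alS
  rw [List.getD_append_right _ _ _ _ h, List.getD_eq_getElem?_getD, List.getElem?_map,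
    List.getElem?_range (by omega)]
  simp only [Option.map_some, Option.getD_some]
  rw [Nat.add_sub_cancel' h]

private theorem al_pigeon {Z : Type} (Z' : Finset Z) (hne : Z'.Nonempty)
    (A : Z → ℕ → Finset ℕ) (γ : ℕ → ℕ) (n N : ℕ) (hA : ∀ z j, ∀ v ∈ A z j, v < γ j) :
    ∃ z1 ∈ Z', ∃ Z'' ⊆ Z', z1 ∈ Z'' ∧
      Z'.card ≤ (∏ j ∈ Finset.Ico n N, 2 ^ γ j) * Z''.card ∧
      ∀ z ∈ Z'', ∀ j, n ≤ j → j < N → A z j = A z1 j := by
  classical
  let f : Z → ((j : ℕ) → j ∈ Finset.Ico n N → Finset ℕ) := fun z j _ => A z j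
  let T : Finset ((j : ℕ) → j ∈ Finset.Ico n N → Finset ℕ) :=
    (Finset.Ico n N).pi (fun j => (Finset.range (γ j)).powerset)
  have hmap : ∀ z ∈ Z', f z ∈ T := by
    intro z _
    refine Finset.mem_pi.2 fun j hj => Finset.mem_powerset.2 fun v hv => ?_
    exact Finset.mem_range.2 (hA z j v hv)
  have hTcard : T.card = ∏ j ∈ Finset.Ico n N, 2 ^ γ j := by
    rw [Finset.card_pi]
    refine Finset.prod_congr rfl fun j _ => ?_
    rw [Finset.card_powerset, Finset.card_range]
  have hTne : T.Nonempty := by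
    obtain ⟨z, hz⟩ := hne
    exact ⟨_, hmap z hz⟩
  obtain ⟨y, hy, hmax⟩ := Finset.exists_max_image T
    (fun y => (Z'.filter (fun z => f z = y)).card) hTne
  have hcard : Z'.card ≤ (Z'.filter (fun z => f z = y)).card * T.card :=
    Finset.card_le_mul_card_image_of_maps_to hmap _ (fun b hb => hmax b hb)
  have hpos : 0 < (Z'.filter (fun z => f z = y)).card := by
    by_contra h0
    have h1 : (Z'.filter (fun z => f z = y)).card = 0 := by omega
    rw [h1, zero_mul] at hcard
    exact absurd (Finset.card_pos.2 hne) (by omega)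
  obtain ⟨z1, hz1⟩ := Finset.card_pos.1 hpos
  have hz1' := Finset.mem_filter.1 hz1
  refine ⟨z1, hz1'.1, Z'.filter (fun z => f z = y), Finset.filter_subset _ _, hz1, ?_, ?_⟩
  · rw [← hTcard, mul_comm]
    exact hcard
  · intro z hz j h1 h2
    have hz' := Finset.mem_filter.1 hz
    have h3 : f z = f z1 := hz'.2.trans hz1'.2.symm
    exact congrFun (congrFun h3 j) (Finset.mem_Ico.2 ⟨h1, h2⟩)

private theorem al_vok {c : Coord I J} (hk : c.kind = .loc) {p : Cond I J} {D : Dat I J} :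
    VOK Le Val c p D ↔ c.ds ∈ p.dom ∧ D.s.length < (p.dat c.ds).s.length ∧
      D.h1.card ≤ dval (p.dat c.ds).s D.s.length ∧
      ∀ j < D.s.length, (fset (D.s.getD j 0)).card ≤ dval (p.dat c.ds).s j := by
  unfold VOK
  rw [hk]

private theorem al_newok {c : Coord I J} (hk : c.kind = .loc) {q : Cond I J} {D' D : Dat I J} :
    NewOK Le Val c q D' D ↔ ∀ i ∈ D.h1, ∀ j, D.s.length ≤ j → j < D'.s.length →
      ∃ v, Dec Le Val q (c.nm (some (.inl i))) j v ∧
        (v < gval (q.dat c.ds).s j → v ∈ fset (D'.s.getD j 0)) := by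
  unfold NewOK
  rw [hk]

theorem am_loc [DecidableEq (Coord I J)] [Fintype Z] (p : Z → Cond I J) (hp : ∀ z, Val (p z))
    (R : Finset (Coord I J)) (K : ℕ)
    {T' : Finset (Coord I J)} {Z' : Finset Z} {q : Cond I J} (st : AmSt p R K T' Z' q)
    {c : Coord I J} (hcT : c ∉ T') (hmax : ∀ c' ∈ T', c'.rank ≤ c.rank)
    (hcl : ∀ z, ∀ c' ∈ (p z).dom, c'.rank < c.rank → c' ∈ T') (S : Coord I J → List ℕ)
    (hc : ∀ z, c ∈ (p z).dom) (hdsR : c.ds ∈ R)
    (hS : ∀ z, ((p z).dat c).s = S c) (hSds : ∀ z, ((p z).dat c.ds).s = S c.ds)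
    (hK : ∑ z, ((p z).dat c).h1.card ≤ K) (hk : c.kind = .loc) (hR : ∀ z, R ⊆ (p z).dom) :
    ∃ Z'' ⊆ Z', Z'.card ≤ eC S c * Z''.card ∧ ∃ q' : Cond I J, AmSt p R K (insert c T') Z'' q' := by
  classical
  have hcq : c ∉ q.dom := by
    intro h
    obtain ⟨c', hc', hlt⟩ := st.low c h hcT
    exact absurd hlt (not_lt.2 (hmax c' hc'))
  rcases Z'.eq_empty_or_nonempty with h0 | hne
  · subst h0
    refine ⟨∅, Finset.Subset.refl _, by simp, q, st.val, ?_, ?_, ?_⟩
    · intro c' h1 h2
      obtain ⟨c'', h3, h4⟩ := st.low c' h1 (fun h => h2 (Finset.mem_insert_of_mem h))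
      exact ⟨c'', Finset.mem_insert_of_mem h3, h4⟩
    · intro z hz
      exact absurd hz (Finset.notMem_empty z)
    · intro z hz
      exact absurd hz (Finset.notMem_empty z)
  have hdsrank := rank_ds c hk
  have hdsne : c.ds ≠ c := by
    intro h
    rw [h] at hdsrank
    exact lt_irrefl _ hdsrank
  have hvok : ∀ z, c.ds ∈ (p z).dom ∧ (S c).length < (S c.ds).length ∧
      ((p z).dat c).h1.card ≤ dval (S c.ds) (S c).length ∧
      ∀ j < (S c).length, (fset ((S c).getD j 0)).card ≤ dval (S c.ds) j := by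
    intro z
    have h1 := (al_vok hk).1 (val_vok (hp z) c (hc z))
    rw [hS z, hSds z] at h1
    exact h1
  have hdsT : ∀ z : Z, c.ds ∈ T' := fun z => hcl z _ (hvok z).1 hdsrank
  obtain ⟨z0, hz0⟩ := hne
  have hlen : (S c).length < (S c.ds).length := (hvok z0).2.1
  -- deciding
  obtain ⟨r, hr, hrq, hrun, hrdec⟩ := exists_dec_finset st.val (ρ := c.rank)
    (((Z'.biUnion fun z => ((p z).dat c).h1) ×ˢ
      Finset.Ico (S c).length (S c.ds).length).image
        (fun x => (c.nm (some (.inl x.1)), x.2)))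
    (by
      intro w hw
      obtain ⟨x, -, rfl⟩ := Finset.mem_image.1 hw
      exact supp_nm c _)
  have hdec : ∀ (a : I) (j : ℕ), ∃ v, (∃ z ∈ Z', a ∈ ((p z).dat c).h1) → (S c).length ≤ j →
      j < (S c.ds).length → Dec Le Val r (c.nm (some (.inl a))) j v := by
    intro a j
    by_cases h : (∃ z ∈ Z', a ∈ ((p z).dat c).h1) ∧ (S c).length ≤ j ∧ j < (S c.ds).length
    · obtain ⟨v, hv⟩ := hrdec (c.nm (some (.inl a)), j) (Finset.mem_image.2
        ⟨(a, j), Finset.mem_product.2 ⟨Finset.mem_biUnion.2 h.1, Finset.mem_Ico.2 h.2⟩, rfl⟩)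
      exact ⟨v, fun _ _ _ => hv⟩
    · exact ⟨0, fun h1 h2 h3 => absurd ⟨h1, h2, h3⟩ h⟩
  choose v hv using hdec
  obtain ⟨A, hA⟩ : ∃ A : Z → ℕ → Finset ℕ, ∀ z j, A z j =
      (((p z).dat c).h1.image (fun a => v a j)).filter (fun w => w < gval (S c.ds) j) :=
    ⟨_, fun _ _ => rfl⟩
  have hAcard : ∀ z j, (A z j).card ≤ ((p z).dat c).h1.card := by
    intro z j
    rw [hA]
    exact (Finset.card_filter_le _ _).trans Finset.card_image_le
  obtain ⟨z1, hz1, Z'', hsub, hz1'', hcard, hAeq⟩ := al_pigeon Z' ⟨z0, hz0⟩ A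
    (fun j => gval (S c.ds) j) (S c).length (S c.ds).length (by
      intro z j w hw
      rw [hA] at hw
      exact (Finset.mem_filter.1 hw).2)
  refine ⟨Z'', hsub, ?_, ?_⟩
  · unfold eC
    rw [if_pos hk]
    exact hcard
  obtain ⟨D, hD⟩ : ∃ D : Dat I J, D = ⟨alS (S c) (S c.ds).length (A z1),
    Z''.biUnion (fun z => ((p z).dat c).h1), Z''.biUnion (fun z => ((p z).dat c).h2)⟩ :=
    ⟨_, rfl⟩
  have hDs : D.s = alS (S c) (S c.ds).length (A z1) := by rw [hD]
  have hDlen : D.s.length = (S c.ds).length := by rw [hDs, alS_length _ _ _ hlen.le]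
  -- facts about the coordinate `c.ds`
  have hdsq := st.ext z1 hz1 c.ds (hvok z1).1 (hdsT z1)
  have hbig := st.big z1 hz1 c.ds hdsR (hdsT z1) rfl
  have hrds := (le_iff hr st.val).1 hrq c.ds hdsq.1
  have hpre1 : S c.ds <+: (q.dat c.ds).s := by
    have h1 := hdsq.2.1
    rw [hSds] at h1
    exact h1
  have hpre2 : (q.dat c.ds).s <+: (r.dat c.ds).s := hrds.2.1
  have hpre : S c.ds <+: (r.dat c.ds).s := hpre1.trans hpre2
  rw [hSds] at hbig
  have hvD : VOK Le Val c r D := by
    rw [al_vok hk]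
    refine ⟨hrds.1, ?_, ?_, ?_⟩
    · rw [hDlen]
      exact hbig.1.trans_le hpre2.length_le
    · rw [hDlen, ← dval_prefix hpre2 hbig.1]
      refine le_trans ?_ hbig.2
      rw [hD]
      refine (Finset.card_biUnion_le).trans (le_trans ?_ hK)
      exact Finset.sum_le_sum_of_subset (Finset.subset_univ _)
    · intro j hj
      rw [hDlen] at hj
      rw [← dval_prefix hpre hj, hDs]
      by_cases hjn : j < (S c).length
      · rw [alS_old _ _ _ hjn]
        exact (hvok z1).2.2.2 j hjn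
      · rw [alS_new _ _ _ (not_lt.1 hjn) hj, fset_fenc]
        refine (hAcard z1 j).trans ((hvok z1).2.2.1.trans ?_)
        rcases (not_lt.1 hjn).eq_or_lt with h1 | h1
        · rw [h1]
        · exact (dval_lt h1 hj).le
  have hcr : c ∉ r.dom := fun h => hcq ((hrun c le_rfl).1.1 h)
  obtain ⟨hq', hq'r⟩ := add_coord hr hcr hvD
  have hq'q : Le (r.upd c D) q := le_trans' hq' hr hq'r hrq
  refine ⟨r.upd c D, hq', ?_, ?_, ?_⟩
  · intro c' h1 h2
    rcases al_mem_upd.1 h1 with h3 | h3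
    · exact absurd (h3 ▸ Finset.mem_insert_self _ _) h2
    · rcases le_or_gt c.rank c'.rank with h4 | h4
      · obtain ⟨c'', h5, h6⟩ := st.low c' ((hrun c' h4).1.1 h3)
          (fun h => h2 (Finset.mem_insert_of_mem h))
        exact ⟨c'', Finset.mem_insert_of_mem h5, h6⟩
      · exact ⟨c, Finset.mem_insert_self _ _, h4⟩
  · intro z hz c' h1 h2
    by_cases hcc : c' = c
    · subst hcc
      refine ⟨al_mem_upd.2 (Or.inl rfl), ?_⟩
      rw [al_dat_same]
      refine ⟨?_, ?_, ?_, ?_⟩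
      · rw [hS, hDs]
        exact List.prefix_append _ _
      · rw [hD]
        exact Finset.subset_biUnion_of_mem (fun z => ((p z).dat c').h1) hz
      · rw [hD]
        exact Finset.subset_biUnion_of_mem (fun z => ((p z).dat c').h2) hz
      · rw [al_newok hk]
        intro i hi j h3 h4
        rw [hS] at h3
        rw [hDlen] at h4
        refine ⟨v i j, dec_mono hq' hr hq'r (hv i j ⟨z, hsub hz, hi⟩ h3 h4), fun h5 => ?_⟩
        rw [al_dat_ne _ _ hdsne, ← gval_prefix hpre h4] at h5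
        rw [hDs, alS_new _ _ _ h3 h4, fset_fenc, ← hAeq z hz j h3 h4, hA]
        exact Finset.mem_filter.2 ⟨Finset.mem_image.2 ⟨i, hi, rfl⟩, h5⟩
    · have h3 : c' ∈ T' := (Finset.mem_insert.1 h2).resolve_left hcc
      obtain ⟨h4, h5⟩ := st.ext z (hsub hz) c' h1 h3
      exact ⟨((le_iff hq' st.val).1 hq'q c' h4).1, extOK_trans hq' st.val hq'q h4 h5⟩
  · intro z hz c' h1 h2 h3
    have hcc : c' ≠ c := by
      rintro rfl
      rw [hk] at h3
      exact absurd h3 (by simp)
    have h4 : c' ∈ T' := (Finset.mem_insert.1 h2).resolve_left hcc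
    obtain ⟨h5, h6⟩ := st.big z (hsub hz) c' h1 h4 h3
    have h7 := (st.ext z (hsub hz) c' (hR z h1) h4).1
    have h8 : (q.dat c').s <+: ((r.upd c D).dat c').s := ((le_iff hq' st.val).1 hq'q c' h7).2.1
    exact ⟨h5.trans_le h8.length_le, by rw [← dval_prefix h8 h5]; exact h6⟩

end Pool.Agent.Lib.MP_f6e1de_lc
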