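import Mathlib
import Pool.Agent.Lib.MP_f6e1de_lc.AmDefs

/-! Amalgamation, step for a coordinate `c` outside of the root `R`.

SETTING. `c ∉ T'` has rank `≥` all ranks in `T'` (`hmax`), every coordinate of the `p z` of rank
`< c.rank` lies in `T'` (`hcl`); at most one `p z` has `c` in its domain (`huniq`).
PROOF. `c ∉ q.dom`: otherwise by `st.low` `c.rank < c'.rank` for some `c' ∈ T'`, contradiction.
Case 1: no `z ∈ Z'` has `c ∈ (p z).dom`: take `q' = q`.
Case 2: `z0 ∈ Z'`, `c ∈ (p z0).dom`: `q' = q.upd c ((p z0).dat c)` by `add_coord`; `VOK` comes from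
`val_vok (hp z0) c`: kind `dset`: `dec_mono_below` with `ρ = c.rank`, `supp_nm`, hypothesis from
`st.ext` and `hcl`; kind `loc`: `c.ds ∈ (p z0).dom`, `rank_ds`, so `c.ds ∈ T'`, and `st.ext` gives
`c.ds ∈ q.dom` and that the stem of `q` at `c.ds` extends the one of `p z0`, so lengths and `dval` at
positions below the old length agree (`dval_prefix`). `ext` for old coordinates: the data of `q'` and
`q` agree there (`Function.update`), use `extOK_trans` with `Le q' q`; at `c`: the stems are equal, so
`NewOK` is empty (no `j` with `length ≤ j < length`) and the promise sets are equal. -/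

namespace Pool.Agent.Lib.MP_f6e1de_lc

variable {I J Z : Type}

private theorem ao_newOK {L : Cond I J → Cond I J → Prop} {V : Cond I J → Prop} (c : Coord I J)
    (q : Cond I J) {D' D : Dat I J} (h : D'.s = D.s) : NewOK L V c q D' D := by
  unfold NewOK
  split
  · trivial
  · trivial
  · intro i _ j h1 h2
    rw [h] at h2
    omega
  · intro i _ j h1 h2
    rw [h] at h2
    omega

private theorem ao_mem_upd (q : Cond I J) (c : Coord I J) (D : Dat I J) (x : Coord I J) :
    x ∈ (q.upd c D).dom ↔ x = c ∨ x ∈ q.dom := by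
  classical
  unfold Cond.upd
  simp

private theorem ao_dat_self (q : Cond I J) (c : Coord I J) (D : Dat I J) :
    (q.upd c D).dat c = D := by
  classical
  unfold Cond.upd
  simp

private theorem ao_dat_ne (q : Cond I J) (c : Coord I J) (D : Dat I J) {x : Coord I J}
    (h : x ≠ c) : (q.upd c D).dat x = q.dat x := by
  classical
  unfold Cond.upd
  simp [h]

theorem am_out [DecidableEq (Coord I J)] (p : Z → Cond I J) (hp : ∀ z, Val (p z))
    (R : Finset (Coord I J)) (K : ℕ)
    {T' : Finset (Coord I J)} {Z' : Finset Z} {q : Cond I J} (st : AmSt p R K T' Z' q)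
    {c : Coord I J} (hcT : c ∉ T') (hmax : ∀ c' ∈ T', c'.rank ≤ c.rank)
    (hcl : ∀ z, ∀ c' ∈ (p z).dom, c'.rank < c.rank → c' ∈ T') (hcR : c ∉ R)
    (huniq : ∀ z z', c ∈ (p z).dom → c ∈ (p z').dom → z = z') :
    ∃ q' : Cond I J, AmSt p R K (insert c T') Z' q' := by
  have hcq : c ∉ q.dom := by
    intro h
    obtain ⟨c', h1, h2⟩ := st.low c h hcT
    exact absurd (hmax c' h1) (not_le.mpr h2)
  by_cases hex : ∃ z ∈ Z', c ∈ (p z).dom
  · obtain ⟨z0, hz0, hc0⟩ := hex
    have hv0 := val_vok (hp z0) c hc0
    have hv : VOK Le Val c q ((p z0).dat c) := by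
      unfold VOK at hv0 ⊢
      rcases hk : c.kind with _ | _ | _ | _
      · trivial
      · rw [hk] at hv0
        intro j hj
        refine dec_mono_below st.val (hp z0) (supp_nm c none) ?_ (hv0 j hj)
        intro c' hc' hr
        exact st.ext z0 hz0 c' hc' (hcl z0 c' hc' hr)
      · trivial
      · rw [hk] at hv0
        obtain ⟨h1, h2, h3, h4⟩ := hv0
        obtain ⟨h5, h6, -⟩ := st.ext z0 hz0 c.ds h1 (hcl z0 c.ds h1 (rank_ds c hk))
        refine ⟨h5, h2.trans_le h6.length_le, ?_, ?_⟩
        · rw [← dval_prefix h6 h2]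
          exact h3
        · intro j hj
          rw [← dval_prefix h6 (hj.trans h2)]
          exact h4 j hj
    obtain ⟨hV, hL⟩ := add_coord st.val hcq hv
    refine ⟨q.upd c ((p z0).dat c), hV, ?_, ?_, ?_⟩
    · intro x hx hxT
      rw [ao_mem_upd] at hx
      rw [Finset.mem_insert, not_or] at hxT
      rcases hx with hx | hx
      · exact absurd hx hxT.1
      · obtain ⟨c', h1, h2⟩ := st.low x hx hxT.2
        exact ⟨c', Finset.mem_insert_of_mem h1, h2⟩
    · intro z hz x hx hxT
      rcases Finset.mem_insert.mp hxT with rfl | hxT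
      · obtain rfl := huniq z0 z hc0 hx
        refine ⟨(ao_mem_upd _ _ _ _).mpr (Or.inl rfl), ?_⟩
        rw [ao_dat_self]
        exact ⟨List.prefix_refl _, Finset.Subset.refl _, Finset.Subset.refl _, ao_newOK _ _ rfl⟩
      · obtain ⟨h1, h2⟩ := st.ext z hz x hx hxT
        exact ⟨(ao_mem_upd _ _ _ _).mpr (Or.inr h1), extOK_trans hV st.val hL h1 h2⟩
    · intro z hz x hx hxT hk
      have hne : x ≠ c := by
        rintro rfl
        exact hcR hx
      rcases Finset.mem_insert.mp hxT with h | hxT
      · exact absurd h hne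
      · rw [ao_dat_ne _ _ _ hne]
        exact st.big z hz x hx hxT hk
  · push Not at hex
    refine ⟨q, st.val, ?_, ?_, ?_⟩
    · intro x hx hxT
      rw [Finset.mem_insert, not_or] at hxT
      obtain ⟨c', h1, h2⟩ := st.low x hx hxT.2
      exact ⟨c', Finset.mem_insert_of_mem h1, h2⟩
    · intro z hz x hx hxT
      rcases Finset.mem_insert.mp hxT with rfl | hxT
      · exact absurd hx (hex z hz)
      · exact st.ext z hz x hx hxT
    · intro z hz x hx hxT hk
      rcases Finset.mem_insert.mp hxT with rfl | hxT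
      · exact absurd hx hcR
      · exact st.big z hz x hx hxT hk

end Pool.Agent.Lib.MP_f6e1de_lc
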