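import Mathlib
import Pool.Agent.Lib.MP_f6e1de_lc.AmOut
import Pool.Agent.Lib.MP_f6e1de_lc.AmFree
import Pool.Agent.Lib.MP_f6e1de_lc.AmDset
import Pool.Agent.Lib.MP_f6e1de_lc.AmLoc

/-! The amalgamation lemma.

PROOF. `T = ⋃_z (p z).dom` (Finset.biUnion over univ, classical), `K = ∑_{c ∈ R} ∑_z card h1`. Claim: for
every `T' ⊆ T` closed downwards in `T` (`c ∈ T'`, `c' ∈ T`, `c'.rank < c.rank → c' ∈ T'`) there are
`Z' : Finset Z` and `q` with `AmSt p R K T' Z' q` and `card Z ≤ (∏_{c ∈ T' ∩ R} eC S c) * Z'.card`.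
Induction on `T'.card`: `T' = ∅`: `Z' = univ`, `q = Cond.empty`. Step: choose `c ∈ T'` of maximal rank
(`Finset.exists_max_image`), `T'.erase c` is closed; if `c ∉ R` use `am_out` (`huniq` from `hdis`);
if `c ∈ R` use `am_free`, `am_dset`, `am_loc` according to the kind (`hcl`: a coordinate of `p z` of rank
`< c.rank` is in `T'` by closedness and is `≠ c`). For `T' = T`: `eC ≥ 1` (`eC_pos`), the product over
`T ∩ R` is at most `eR R S`; `Le q (p z)` for `z ∈ Z'` by `le_iff` and `ext`. -/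

namespace Pool.Agent.Lib.MP_f6e1de_lc

variable {I J Z : Type}

private theorem am_step [DecidableEq (Coord I J)] [Fintype Z] (p : Z → Cond I J)
    (hp : ∀ z, Val (p z)) (R : Finset (Coord I J)) (hR : ∀ z, R ⊆ (p z).dom)
    (hdis : ∀ z z', z ≠ z' → ∀ c ∈ (p z).dom, c ∈ (p z').dom → c ∈ R)
    (hds : ∀ c ∈ R, c.kind = .loc → c.ds ∈ R) (S : Coord I J → List ℕ)
    (hS : ∀ z, ∀ c ∈ R, ((p z).dat c).s = S c) (K : ℕ)
    (hK : ∀ c ∈ R, ∑ z, ((p z).dat c).h1.card ≤ K)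
    {T' : Finset (Coord I J)} {Z' : Finset Z} {q : Cond I J} (st : AmSt p R K T' Z' q)
    {c : Coord I J} (hcT : c ∉ T') (hmax : ∀ c' ∈ T', c'.rank ≤ c.rank)
    (hcl : ∀ z, ∀ c' ∈ (p z).dom, c'.rank < c.rank → c' ∈ T')
    (hcard : Fintype.card Z ≤ (∏ x ∈ T' ∩ R, eC S x) * Z'.card) :
    ∃ (Z'' : Finset Z) (q' : Cond I J), AmSt p R K (insert c T') Z'' q' ∧
      Fintype.card Z ≤ (∏ x ∈ insert c T' ∩ R, eC S x) * Z''.card := by
  by_cases hcR : c ∈ R
  · have hprod : ∏ x ∈ insert c T' ∩ R, eC S x = eC S c * ∏ x ∈ T' ∩ R, eC S x := by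
      rw [Finset.insert_inter_of_mem hcR, Finset.prod_insert]
      intro h
      exact hcT (Finset.mem_inter.1 h).1
    have hle : ∀ Z'' : Finset Z, Z'.card ≤ eC S c * Z''.card →
        Fintype.card Z ≤ (∏ x ∈ insert c T' ∩ R, eC S x) * Z''.card := by
      intro Z'' h
      rw [hprod]
      calc Fintype.card Z ≤ (∏ x ∈ T' ∩ R, eC S x) * Z'.card := hcard
        _ ≤ (∏ x ∈ T' ∩ R, eC S x) * (eC S c * Z''.card) := Nat.mul_le_mul_left _ h
        _ = eC S c * (∏ x ∈ T' ∩ R, eC S x) * Z''.card := by ring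
    have hself : Z'.card ≤ eC S c * Z'.card := Nat.le_mul_of_pos_left _ (eC_pos S c)
    by_cases hk : c.kind = .loc
    · obtain ⟨Z'', -, h2, q', h3⟩ := am_loc p hp R K st hcT hmax hcl S (fun z => hR z hcR)
        (hds c hcR hk) (fun z => hS z c hcR) (fun z => hS z c.ds (hds c hcR hk)) (hK c hcR) hk hR
      exact ⟨Z'', q', h3, hle Z'' h2⟩
    · by_cases hk' : c.kind = .dset
      · obtain ⟨q', h3⟩ := am_dset p hp R K st hcT hmax hcl S (fun z => hR z hcR)
          (fun z => hS z c hcR) hk' hR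
        exact ⟨Z', q', h3, hle Z' hself⟩
      · obtain ⟨q', h3⟩ := am_free p hp R K st hcT hmax S (fun z => hS z c hcR) hk hk'
        exact ⟨Z', q', h3, hle Z' hself⟩
  · obtain ⟨q', h3⟩ := am_out p hp R K st hcT hmax hcl hcR (by
      intro z z' h1 h2
      by_contra hne
      exact hcR (hdis z z' hne c h1 h2))
    refine ⟨Z', q', h3, ?_⟩
    rwa [Finset.insert_inter_of_notMem hcR]

private theorem am_ind [DecidableEq (Coord I J)] [Fintype Z] (p : Z → Cond I J)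
    (hp : ∀ z, Val (p z)) (R : Finset (Coord I J)) (hR : ∀ z, R ⊆ (p z).dom)
    (hdis : ∀ z z', z ≠ z' → ∀ c ∈ (p z).dom, c ∈ (p z').dom → c ∈ R)
    (hds : ∀ c ∈ R, c.kind = .loc → c.ds ∈ R) (S : Coord I J → List ℕ)
    (hS : ∀ z, ∀ c ∈ R, ((p z).dat c).s = S c) (K : ℕ)
    (hK : ∀ c ∈ R, ∑ z, ((p z).dat c).h1.card ≤ K) :
    ∀ (n : ℕ) (T' : Finset (Coord I J)), T'.card = n →
      (∀ c ∈ T', ∀ z, ∀ c' ∈ (p z).dom, c'.rank < c.rank → c' ∈ T') →
      ∃ (Z' : Finset Z) (q : Cond I J), AmSt p R K T' Z' q ∧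
        Fintype.card Z ≤ (∏ x ∈ T' ∩ R, eC S x) * Z'.card := by
  intro n
  induction n with
  | zero =>
    intro T' hT' _
    rw [Finset.card_eq_zero] at hT'
    subst hT'
    refine ⟨Finset.univ, Cond.empty, ⟨val_empty, ?_, ?_, ?_⟩, ?_⟩
    · intro c hc
      exact absurd hc (Finset.notMem_empty c)
    · intro z _ c _ hc
      exact absurd hc (Finset.notMem_empty c)
    · intro z _ c _ hc
      exact absurd hc (Finset.notMem_empty c)
    · rw [Finset.empty_inter, Finset.prod_empty, one_mul, Finset.card_univ]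
  | succ n ih =>
    intro T' hT' hcl
    have hne : T'.Nonempty := by
      rw [← Finset.card_pos]
      omega
    obtain ⟨c, hc, hmax⟩ := Finset.exists_max_image T' Coord.rank hne
    have hcl' : ∀ c1 ∈ T', ∀ z, ∀ c' ∈ (p z).dom, c'.rank < c1.rank → c' ∈ T'.erase c := by
      intro c1 hc1 z c' hc' hr
      refine Finset.mem_erase.2 ⟨?_, hcl c1 hc1 z c' hc' hr⟩
      rintro rfl
      exact absurd (hmax c1 hc1) (not_le.2 hr)
    obtain ⟨Z', q, st, hcard⟩ := ih (T'.erase c) (by rw [Finset.card_erase_of_mem hc, hT']; rfl)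
      (fun c1 hc1 z c' hc' hr => hcl' c1 (Finset.mem_of_mem_erase hc1) z c' hc' hr)
    have h := am_step p hp R hR hdis hds S hS K hK st (Finset.notMem_erase c T')
      (fun c' hc' => hmax c' (Finset.mem_of_mem_erase hc')) (hcl' c hc) hcard
    rwa [Finset.insert_erase hc] at h

theorem amalg [Fintype Z] [Nonempty Z] (p : Z → Cond I J) (hp : ∀ z, Val (p z))
    (R : Finset (Coord I J)) (hR : ∀ z, R ⊆ (p z).dom)
    (hdis : ∀ z z', z ≠ z' → ∀ c ∈ (p z).dom, c ∈ (p z').dom → c ∈ R)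
    (hds : ∀ c ∈ R, c.kind = .loc → c.ds ∈ R) (S : Coord I J → List ℕ)
    (hS : ∀ z, ∀ c ∈ R, ((p z).dat c).s = S c) :
    ∃ Z' : Finset Z, Fintype.card Z ≤ eR R S * Z'.card ∧
      ∃ q : Cond I J, Val q ∧ ∀ z ∈ Z', Le q (p z) := by
  classical
  obtain ⟨z0⟩ := (inferInstance : Nonempty Z)
  obtain ⟨Z', q, st, hcard⟩ := am_ind p hp R hR hdis hds S hS
    (∑ c ∈ R, ∑ z, ((p z).dat c).h1.card)
    (fun c hc => Finset.single_le_sum (f := fun c => ∑ z, ((p z).dat c).h1.card)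
      (fun _ _ => Nat.zero_le _) hc) _ (Finset.univ.biUnion fun z => (p z).dom) rfl
    (fun c _ z c' hc' _ => Finset.mem_biUnion.2 ⟨z, Finset.mem_univ z, hc'⟩)
  have hRT : (Finset.univ.biUnion fun z => (p z).dom) ∩ R = R := by
    refine Finset.inter_eq_right.2 ?_
    intro c hc
    exact Finset.mem_biUnion.2 ⟨z0, Finset.mem_univ z0, hR z0 hc⟩
  rw [hRT] at hcard
  refine ⟨Z', hcard, q, st.val, ?_⟩
  intro z hz
  rw [le_iff st.val (hp z)]
  intro c hc
  exact st.ext z hz c hc (Finset.mem_biUnion.2 ⟨z, Finset.mem_univ z, hc⟩)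

end Pool.Agent.Lib.MP_f6e1de_lc
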