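import Mathlib
import Pool.Agent.Lib.BVM.ZFCDef

/-! The statement `add(N) < add(SN) < b`, relativised to a structure `(M, E)` for the language of
set theory. Cantor space is the power set of `ω` (characteristic functions). -/

namespace Pool.Agent.Lib.MP_f6e1de_lc

variable {M : Type*} (E : M → M → Prop)

/-- `x ⊆ y` -/
def Sub (x y : M) : Prop := ∀ z, E z x → E z y

/-- `p = {a, b}` -/
def IsUPair (p a b : M) : Prop := ∀ z, E z p ↔ z = a ∨ z = b

/-- `p = (a, b) = {{a}, {a, b}}` -/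
def IsPair (p a b : M) : Prop := ∃ s t, IsUPair E s a a ∧ IsUPair E t a b ∧ IsUPair E p s t

/-- `(a, b) ∈ R` -/
def Rel (R a b : M) : Prop := ∃ p, IsPair E p a b ∧ E p R

/-- `(a, (n, m)) ∈ R` -/
def Rel3 (R a n m : M) : Prop := ∃ p, IsPair E p n m ∧ Rel E R a p

/-- `w` contains the empty set and is closed under `x ↦ x ∪ {x}` -/
def IsInductive (w : M) : Prop :=
  (∃ e, E e w ∧ ∀ z, ¬ E z e) ∧ ∀ x, E x w → ∃ s, E s w ∧ ∀ z, E z s ↔ E z x ∨ z = x

/-- `w = ω` -/
def IsOmega (w : M) : Prop := IsInductive E w ∧ ∀ w', IsInductive E w' → Sub E w w'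

/-- `{(n, m) ∈ ω × ω | (n, m) ∈ f}` is a function from `ω = w` to `ω` -/
def IsFun (w f : M) : Prop := ∀ n, E n w → ∃! m, E m w ∧ Rel E f n m

/-- `y` lies in one of the basic clopen sets `{y | y ∩ l(n) = Z_n ∩ l(n)}`, `n ∈ ω`, where
`Z_n = {i | (n, i) ∈ Z}` -/
def Covered (w l Z y : M) : Prop :=
  ∃ n m, E n w ∧ E m w ∧ Rel E l n m ∧ ∀ i, E i m → (E i y ↔ Rel E Z n i)

/-- The set of all `y ⊆ ω` with `C y` has strong measure zero: for every `f : ω → ω` it is covered
by basic clopen sets given by initial segments of length `f(n)`, `n ∈ ω`. -/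
def IsSN (w : M) (C : M → Prop) : Prop :=
  ∀ f, IsFun E w f → ∃ Z, ∀ y, Sub E y w → C y → Covered E w f Z y

/-- The basic clopen sets `{y | y ∩ l(n) = Y_n ∩ l(n)}`, `n ∈ ω`, are pairwise disjoint subsets of
`{y | y ∩ k = ∅}`. -/
def Packed (w k l Y : M) : Prop :=
  (∀ n m, E n w → E m w → Rel E l n m → Sub E k m ∧ ∀ i, E i k → ¬ Rel E Y n i) ∧
  ∀ n n' m m', E n w → E n' w → E m w → E m' w → Rel E l n m → Rel E l n' m' → n ≠ n' →
    ∃ i, E i m ∧ E i m' ∧ ¬ (Rel E Y n i ↔ Rel E Y n' i)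

/-- The set of all `y ⊆ ω` with `C y` has measure zero: for every `k ∈ ω` it is covered by basic
clopen sets given by initial segments of lengths `l(n)`, `n ∈ ω`, with `∑ 2 ^ (- l(n)) ≤ 2 ^ (- k)`,
the inequality being expressed by the existence of pairwise disjoint basic clopen sets of the same
lengths inside the basic clopen set of the zero sequence of length `k`. -/
def IsNull (w : M) (C : M → Prop) : Prop :=
  ∀ k, E k w → ∃ l Z Y, IsFun E w l ∧ (∀ y, Sub E y w → C y → Covered E w l Z y) ∧ Packed E w k l Y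

/-- The functions `F_a = {(n, m) | (a, (n, m)) ∈ F}`, `a ∈ A`, have an upper bound in `ω → ω`
with respect to eventual domination. -/
def IsBounded (w A F : M) : Prop :=
  ∃ h, IsFun E w h ∧ ∀ a, E a A → ∃ k, E k w ∧ ∀ n, E n w → Sub E k n →
    ∀ m m', E m w → E m' w → Rel3 E F a n m → Rel E h n m' → Sub E m m'

/-- `add(N) ≤ |A|`: some family `(X_a)`, `a ∈ A`, `X_a = {y ⊆ ω | (a, y) ∈ X}`, of null sets has a
union that is not null. -/
def AddNLe (w A : M) : Prop :=
  ∃ X, (∀ a, E a A → IsNull E w (fun y => Rel E X a y)) ∧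
    ¬ IsNull E w (fun y => ∃ a, E a A ∧ Rel E X a y)

/-- `add(SN) ≤ |A|` -/
def AddSNLe (w A : M) : Prop :=
  ∃ X, (∀ a, E a A → IsSN E w (fun y => Rel E X a y)) ∧
    ¬ IsSN E w (fun y => ∃ a, E a A ∧ Rel E X a y)

/-- `|A| < add(SN)`: all families `(X_a)`, `a ∈ A`, of strong measure zero sets have a union of
strong measure zero. -/
def LtAddSN (w A : M) : Prop :=
  ∀ X, (∀ a, E a A → IsSN E w (fun y => Rel E X a y)) →
    IsSN E w (fun y => ∃ a, E a A ∧ Rel E X a y)

/-- `|A| < b`: all families of functions from `ω` to `ω` indexed by `A` are bounded. -/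
def LtB (w A : M) : Prop :=
  ∀ F, (∀ a, E a A → ∀ n, E n w → ∃! m, E m w ∧ Rel3 E F a n m) → IsBounded E w A F

/-- `add(N) < add(SN) < b` in `(M, E)`. -/
def AddNLtAddSNLtB : Prop :=
  ∃ w, IsOmega E w ∧ (∃ A, AddNLe E w A ∧ LtAddSN E w A) ∧ (∃ A, AddSNLe E w A ∧ LtB E w A)

end Pool.Agent.Lib.MP_f6e1de_lc
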