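import Mathlib
import Pool.Agent.Lib.MP_f6e1de_lc.Stmt
import Pool.Agent.Lib.BVM.Fm

/-! The statement as a formula. -/

namespace Pool.Agent.Lib.MP_f6e1de_lc

open Pool.Agent.Lib.BVM

def fSub (x y : ℕ) : Fm := .all (.imp (.mem 0 (x + 1)) (.mem 0 (y + 1)))

def fUPair (p a b : ℕ) : Fm := .all (.iff (.mem 0 (p + 1)) (.or (.eq 0 (a + 1)) (.eq 0 (b + 1))))

def fPair (p a b : ℕ) : Fm :=
  .ex (.ex (.and (fUPair 1 (a + 2) (a + 2)) (.and (fUPair 0 (a + 2) (b + 2)) (fUPair (p + 2) 1 0))))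

def fRel (R a b : ℕ) : Fm := .ex (.and (fPair 0 (a + 1) (b + 1)) (.mem 0 (R + 1)))

def fRel3 (R a n m : ℕ) : Fm := .ex (.and (fPair 0 (n + 1) (m + 1)) (fRel (R + 1) (a + 1) 0))

def fInductive (w : ℕ) : Fm :=
  .and (.ex (.and (.mem 0 (w + 1)) (.all (.neg (.mem 0 1)))))
    (.all (.imp (.mem 0 (w + 1)) (.ex (.and (.mem 0 (w + 2))
      (.all (.iff (.mem 0 1) (.or (.mem 0 2) (.eq 0 2))))))))

def fOmega (w : ℕ) : Fm := .and (fInductive w) (.all (.imp (fInductive 0) (fSub (w + 1) 0)))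

def fIsFun (w f : ℕ) : Fm :=
  .all (.imp (.mem 0 (w + 1)) (.ex (.and (.and (.mem 0 (w + 2)) (fRel (f + 2) 1 0))
    (.all (.imp (.and (.mem 0 (w + 3)) (fRel (f + 3) 2 0)) (.eq 0 1))))))

def fCovered (w l Z y : ℕ) : Fm :=
  .ex (.ex (.and (.mem 1 (w + 2)) (.and (.mem 0 (w + 2)) (.and (fRel (l + 2) 1 0)
    (.all (.imp (.mem 0 1) (.iff (.mem 0 (y + 3)) (fRel (Z + 3) 2 0))))))))

/-- `C` is evaluated in the context `y, Z, f, ...`. -/
def fIsSN (w : ℕ) (C : Fm) : Fm :=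
  .all (.imp (fIsFun (w + 1) 0) (.ex (.all (.imp (fSub 0 (w + 3)) (.imp C
    (fCovered (w + 3) 2 1 0))))))

def fPacked1 (w k l Y : ℕ) : Fm :=
  .all (.all (.imp (.mem 1 (w + 2)) (.imp (.mem 0 (w + 2)) (.imp (fRel (l + 2) 1 0)
      (.and (fSub (k + 2) 0) (.all (.imp (.mem 0 (k + 3)) (.neg (fRel (Y + 3) 2 0)))))))))

def fPacked2 (w l Y : ℕ) : Fm :=
  .all (.all (.all (.all (.imp (.mem 3 (w + 4)) (.imp (.mem 2 (w + 4)) (.imp (.mem 1 (w + 4))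
      (.imp (.mem 0 (w + 4)) (.imp (fRel (l + 4) 3 1) (.imp (fRel (l + 4) 2 0)
        (.imp (.neg (.eq 3 2)) (.ex (.and (.mem 0 2) (.and (.mem 0 1)
          (.neg (.iff (fRel (Y + 5) 4 0) (fRel (Y + 5) 3 0))))))))))))))))

def fPacked (w k l Y : ℕ) : Fm := .and (fPacked1 w k l Y) (fPacked2 w l Y)

/-- `C` is evaluated in the context `y, Y, Z, l, k, ...`. -/
def fIsNull (w : ℕ) (C : Fm) : Fm :=
  .all (.imp (.mem 0 (w + 1)) (.ex (.ex (.ex (.and (fIsFun (w + 4) 2)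
    (.and (.all (.imp (fSub 0 (w + 5)) (.imp C (fCovered (w + 5) 3 2 0))))
      (fPacked (w + 4) 3 2 0)))))))

def fIsBounded (w A F : ℕ) : Fm :=
  .ex (.and (fIsFun (w + 1) 0) (.all (.imp (.mem 0 (A + 2)) (.ex (.and (.mem 0 (w + 3))
    (.all (.imp (.mem 0 (w + 4)) (.imp (fSub 1 0) (.all (.all (.imp (.mem 1 (w + 6))
      (.imp (.mem 0 (w + 6)) (.imp (fRel3 (F + 6) 4 2 1) (.imp (fRel 5 2 0)
        (fSub 1 0)))))))))))))))

/-- the family set `X` at `a` in a context with `n` further variables in front and `y = 0` -/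
def fFam (X a n : ℕ) : Fm := fRel (X + n) (a + n) 0

/-- the union of the family `X` over `A`, in a context with `n` variables in front and `y = 0` -/
def fUn (X A n : ℕ) : Fm := .ex (.and (.mem 0 (A + n + 1)) (fRel (X + n + 1) 0 1))

def fAddNLe (w A : ℕ) : Fm :=
  .ex (.and (.all (.imp (.mem 0 (A + 2)) (fIsNull (w + 2) (fFam 1 0 5))))
    (.neg (fIsNull (w + 1) (fUn 0 (A + 1) 5))))

def fAddSNLe (w A : ℕ) : Fm :=
  .ex (.and (.all (.imp (.mem 0 (A + 2)) (fIsSN (w + 2) (fFam 1 0 3))))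
    (.neg (fIsSN (w + 1) (fUn 0 (A + 1) 3))))

def fLtAddSN (w A : ℕ) : Fm :=
  .all (.imp (.all (.imp (.mem 0 (A + 2)) (fIsSN (w + 2) (fFam 1 0 3))))
    (fIsSN (w + 1) (fUn 0 (A + 1) 3)))

def fLtB (w A : ℕ) : Fm :=
  .all (.imp (.all (.imp (.mem 0 (A + 2)) (.all (.imp (.mem 0 (w + 3))
      (.ex (.and (.and (.mem 0 (w + 4)) (fRel3 3 2 1 0))
        (.all (.imp (.and (.mem 0 (w + 5)) (fRel3 4 3 2 0)) (.eq 0 1)))))))))
    (fIsBounded (w + 1) (A + 1) 0))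

/-- The closed formula. -/
def fAll : Fm :=
  .ex (.and (fOmega 0) (.and (.ex (.and (fAddNLe 1 0) (fLtAddSN 1 0)))
    (.ex (.and (fAddSNLe 1 0) (fLtB 1 0)))))

variable {M : Type*} (E : M → M → Prop) (v : ℕ → M)

theorem sat_fOmega (w : ℕ) : sat E (fOmega w) v ↔ IsOmega E (v w) := Iff.rfl
theorem sat_fIsFun (w f : ℕ) : sat E (fIsFun w f) v ↔ IsFun E (v w) (v f) := Iff.rfl
theorem sat_fAddNLe (w A : ℕ) : sat E (fAddNLe w A) v ↔ AddNLe E (v w) (v A) := Iff.rfl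
theorem sat_fAddSNLe (w A : ℕ) : sat E (fAddSNLe w A) v ↔ AddSNLe E (v w) (v A) := Iff.rfl
theorem sat_fLtAddSN (w A : ℕ) : sat E (fLtAddSN w A) v ↔ LtAddSN E (v w) (v A) := Iff.rfl
theorem sat_fLtB (w A : ℕ) : sat E (fLtB w A) v ↔ LtB E (v w) (v A) := Iff.rfl
theorem sat_fAll : sat E fAll v ↔ AddNLtAddSNLtB E := Iff.rfl

end Pool.Agent.Lib.MP_f6e1de_lc
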