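import Mathlib
import Pool.Agent.Lib.MP_f6e1de_lc.Forms
import Pool.Agent.Lib.BVM.Pairs

/-! Boolean values of the formulas for pairs and `ω`. -/

namespace Pool.Agent.Lib.MP_f6e1de_lc

open Pool.Agent.Lib.BVM Pool.Agent.Lib.BVM.BSet

variable {B : Type} [CompleteBooleanAlgebra B]

theorem bval_fUPair (p a b : ℕ) (v : ℕ → BSet B) :
    bval (fUPair p a b) v = bEq (v p) (upair (v a) (v b)) := by
  rw [bEq_eq_iInf]
  simp only [bMem_upair]
  rfl

theorem ext1_bEq_right (z : BSet B) : Ext1 (fun x => bEq z x) := fun x y => by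
  dsimp only
  rw [inf_comm]; exact bEq_trans z x y

theorem ext1_upair_left (p b : BSet B) : Ext1 (fun a => bEq p (upair a b)) := by
  intro a a'
  refine le_of_forall_ult fun U hU => ?_
  rw [U.inf_iff, ← U.cls_eq_iff, ← U.cls_eq_iff] at hU
  rw [← U.cls_eq_iff, hU.2]
  exact bEq_upair_congr U hU.1 rfl

theorem ext1_upair_right (p a : BSet B) : Ext1 (fun b => bEq p (upair a b)) := by
  intro b b'
  refine le_of_forall_ult fun U hU => ?_
  rw [U.inf_iff, ← U.cls_eq_iff, ← U.cls_eq_iff] at hU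
  rw [← U.cls_eq_iff, hU.2]
  exact bEq_upair_congr U rfl hU.1

theorem bval_fPair (p a b : ℕ) (v : ℕ → BSet B) :
    bval (fPair p a b) v = bEq (v p) (opair (v a) (v b)) := by
  have h : bval (fPair p a b) v = ⨆ s, ⨆ t, bEq s (upair (v a) (v a)) ⊓
      (bEq t (upair (v a) (v b)) ⊓ bEq (v p) (upair s t)) := by
    show (⨆ s, ⨆ t, bval (fUPair 1 (a + 2) (a + 2)) (scons t (scons s v)) ⊓
      (bval (fUPair 0 (a + 2) (b + 2)) (scons t (scons s v)) ⊓
        bval (fUPair (p + 2) 1 0) (scons t (scons s v)))) = _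
    simp only [bval_fUPair]
    rfl
  rw [h]
  have h2 : ∀ s : BSet B, (⨆ t, bEq s (upair (v a) (v a)) ⊓
      (bEq t (upair (v a) (v b)) ⊓ bEq (v p) (upair s t))) =
      bEq s (upair (v a) (v a)) ⊓ bEq (v p) (upair s (upair (v a) (v b))) := by
    intro s
    rw [← inf_iSup_eq, iSup_bEq_inf (ext1_upair_right (v p) s)]
  simp only [h2]
  exact iSup_bEq_inf (ext1_upair_left (v p) _) _

theorem bval_fRel (R a b : ℕ) (v : ℕ → BSet B) :
    bval (fRel R a b) v = bMem (opair (v a) (v b)) (v R) := by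
  show (⨆ p, bval (fPair 0 (a + 1) (b + 1)) (scons p v) ⊓ bMem p (v R)) = _
  simp only [bval_fPair, scons_zero, scons_succ]
  exact iSup_bEq_inf (ext1_mem_left (v R)) _

theorem bval_fRel3 (R a n m : ℕ) (v : ℕ → BSet B) :
    bval (fRel3 R a n m) v = bMem (opair (v a) (opair (v n) (v m))) (v R) := by
  show (⨆ p, bval (fPair 0 (n + 1) (m + 1)) (scons p v) ⊓
    bval (fRel (R + 1) (a + 1) 0) (scons p v)) = _
  simp only [bval_fPair, bval_fRel, scons_zero, scons_succ]
  exact iSup_bEq_inf (ext1_opair_right (v a) (v R)) _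

theorem bval_fSub (x y : ℕ) (v : ℕ → BSet B) :
    bval (fSub x y) v = ⨅ z, (bMem z (v x) ⇨ bMem z (v y)) := rfl

theorem U_chk_succ (U : Ult B) (n : ℕ) (z : BSet B) :
    U.E (U.cls z) (U.cls (chk B (n + 1))) ↔
      U.E (U.cls z) (U.cls (chk B n)) ∨ U.cls z = U.cls (chk B n) := by
  rw [U.E_cls, bMem_chk_succ, U.sup_iff, U.cls_eq_iff, U.E_cls]

theorem bval_fOmega (w : ℕ) (v : ℕ → BSet B) (hw : v w = chkAll B ℕ) :
    bval (fOmega w) v = ⊤ := by
  apply eq_of_forall_ult
  intro U
  refine ⟨fun _ => U.top', fun _ => ?_⟩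
  rw [← U.los]
  refine ⟨?_, ?_⟩
  · -- inductive
    refine ⟨⟨U.cls (chk B (0 : ℕ)), ?_, ?_⟩, ?_⟩
    · show U.E (U.cls (chk B (0 : ℕ))) (U.cls (v w))
      rw [hw, U.E_cls, chk_mem_chkAll]; exact U.top'
    · intro z hz
      obtain ⟨z, rfl⟩ := U.exists_cls z
      have hz' : U.E (U.cls z) (U.cls (chk B (0 : ℕ))) := hz
      rw [U.E_cls, bMem_chk_zero] at hz'
      exact U.bot' hz'
    · intro x hx
      obtain ⟨x, rfl⟩ := U.exists_cls x
      have hx' : U.E (U.cls x) (U.cls (v w)) := hx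
      have h0 : U.S (⨆ s, bMem s (chkAll B ℕ) ⊓ bEq s (bSucc x)) := by
        rw [hw, U.E_cls] at hx'
        refine U.mono' ?_ hx'
        rw [bMem_chkAll]
        refine iSup_le fun n => ?_
        refine le_trans ?_ (le_iSup _ (chk B (n + 1)))
        rw [chk_mem_chkAll, top_inf_eq]
        refine le_of_forall_ult fun V hV => ?_
        rw [← V.cls_eq_iff] at hV ⊢
        apply V.ext_ax
        intro z
        obtain ⟨z, rfl⟩ := V.exists_cls z
        rw [U_chk_succ, V.E_cls z (bSucc x), bMem_bSucc, V.sup_iff, ← V.cls_eq_iff, ← V.E_cls, hV]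
      rw [U.iSup_iff ((ext1_mem_left _).inf (ext1_eq _))] at h0
      obtain ⟨s, hs⟩ := h0
      rw [U.inf_iff, ← U.cls_eq_iff] at hs
      refine ⟨U.cls s, ?_, ?_⟩
      · show U.E (U.cls s) (U.cls (v w))
        rw [hw]; exact hs.1
      · intro z
        obtain ⟨z, rfl⟩ := U.exists_cls z
        show U.E (U.cls z) (U.cls s) ↔ U.E (U.cls z) (U.cls x) ∨ U.cls z = U.cls x
        rw [hs.2, U.E_cls z (bSucc x), bMem_bSucc, U.sup_iff, ← U.cls_eq_iff, ← U.E_cls]
  · intro w' hw'
    obtain ⟨w', rfl⟩ := U.exists_cls w'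
    -- the Boolean value of `inductive` is below that of inclusion
    let v' : ℕ → BSet B := scons w' v
    have key : bval (fInductive 0) v' ≤ ⨅ z, (bMem z (chkAll B ℕ) ⇨ bMem z w') := by
      rw [iInf_chkAll (ext1_mem_left w')]
      refine le_iInf fun n => ?_
      refine le_of_forall_ult fun V hV => ?_
      rw [← V.los] at hV
      obtain ⟨⟨e, he1, he2⟩, hs⟩ := hV
      obtain ⟨e, rfl⟩ := V.exists_cls e
      rw [← V.E_cls]
      induction n with
      | zero =>
        have : V.cls e = V.cls (chk B (0 : ℕ)) := by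
          apply V.ext_ax
          intro z
          constructor
          · intro hz; exact absurd hz (he2 z)
          · intro hz
            obtain ⟨z, rfl⟩ := V.exists_cls z
            rw [V.E_cls, bMem_chk_zero] at hz
            exact absurd hz V.bot'
        rw [← this]; exact he1
      | succ n ih =>
        obtain ⟨s, hs1, hs2⟩ := hs (V.cls (chk B n)) ih
        have : s = V.cls (chk B (n + 1)) := by
          apply V.ext_ax
          intro z
          obtain ⟨z, rfl⟩ := V.exists_cls z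
          rw [U_chk_succ]
          exact hs2 (V.cls z)
        rw [← this]; exact hs1
    have h1 : U.S (bval (fInductive 0) v') := by
      rw [← U.los]
      have e : (fun i => U.cls (v' i)) = scons (U.cls w') (fun i => U.cls (v i)) := by
        funext i; cases i <;> rfl
      rw [e]; exact hw'
    have h2 := U.mono' key h1
    rw [U.iInf_iff ((ext1_mem_left _).himp (ext1_mem_left _))] at h2
    intro z hz
    obtain ⟨z, rfl⟩ := U.exists_cls z
    have hz' : U.E (U.cls z) (U.cls (v w)) := hz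
    rw [hw] at hz'
    exact U.himp_iff.1 (h2 z) hz'

end Pool.Agent.Lib.MP_f6e1de_lc
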