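import Mathlib
import Pool.Agent.Lib.BVM.Meas
import Pool.Agent.Lib.BVM.Pairs
import Pool.Agent.Lib.MP_f6e1de_lc.QDefs

/-! Real-level statements for a poset `P` (definitions). `B = RO (Pt P)`; names of reals are
measurable maps from the Baire space `Pt P` of maximal filters (σ-algebra: property of Baire). -/

namespace Pool.Agent.Lib.MP_f6e1de_lc

open Pool.Agent.Lib.BVM Pool.Agent.Lib.BVM.BSet Filter Topology

variable (P : Type) [Preorder P]

/-- The complete Boolean algebra of the poset. -/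
abbrev BB : Type := RO (Pt P)

variable {P}

/-- `b` forces: the class `c` of reals has strong measure zero. -/
def SNX (b : BB P) (c : (Pt P → ℕ → Bool) → BB P) : Prop :=
  ∀ g : Pt P → ℕ → ℕ, Measurable g → ∃ z : Pt P → ℕ → ℕ → Bool,
    (∀ n i, MeasurableSet {F | z F n i = true}) ∧
    ∀ y : Pt P → ℕ → Bool, Measurable y → ∀ᶠ F in residual (Pt P), At F b → At F (c y) →
      ∃ n, ∀ i < g F n, y F i = z F n i

/-- The basic clopen sets `[u_n | l_n]` are pairwise disjoint subsets of `[0^k]`. -/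
def PackedX (k : ℕ) (l : ℕ → ℕ) (u : ℕ → ℕ → Bool) : Prop :=
  (∀ n, k ≤ l n ∧ ∀ i < k, u n i = false) ∧
    ∀ n n', n ≠ n' → ∃ i, i < l n ∧ i < l n' ∧ u n i ≠ u n' i

/-- `b` forces: the class `c` of reals has measure zero. -/
def NullX (b : BB P) (c : (Pt P → ℕ → Bool) → BB P) : Prop :=
  ∀ k : ℕ, ∃ (l : Pt P → ℕ → ℕ) (z u : Pt P → ℕ → ℕ → Bool), Measurable l ∧
    (∀ n i, MeasurableSet {F | z F n i = true}) ∧ (∀ n i, MeasurableSet {F | u F n i = true}) ∧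
    (∀ y : Pt P → ℕ → Bool, Measurable y → ∀ᶠ F in residual (Pt P), At F b → At F (c y) →
      ∃ n, ∀ i < l F n, y F i = z F n i) ∧
    ∀ᶠ F in residual (Pt P), At F b → PackedX k (l F) (u F)

/-- The class `c` depends only on the real (Boolean extensionality). -/
def ExtX (c : (Pt P → ℕ → Bool) → BB P) : Prop :=
  ∀ y y' : Pt P → ℕ → Bool, Measurable y → Measurable y' →
    ∀ᶠ F in residual (Pt P), y F = y' F → At F (c y) → At F (c y')

variable (P)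

/-- `add(N) ≤ |I|`, real level. -/
def X1 (I : Type) : Prop :=
  ∃ c : I → (Pt P → ℕ → Bool) → BB P, (∀ a, ExtX (c a)) ∧ (∀ a, NullX ⊤ (c a)) ∧
    ∀ b : BB P, NullX b (fun y => ⨆ a, c a y) → b = ⊥

/-- `|I| < add(SN)`, real level. -/
def X2 (I : Type) : Prop :=
  ∀ c : I → (Pt P → ℕ → Bool) → BB P, (∀ a, ExtX (c a)) → ∀ b : BB P, (∀ a, SNX b (c a)) →
    SNX b (fun y => ⨆ a, c a y)

/-- `add(SN) ≤ |J|`, real level. -/
def X3 (J : Type) : Prop :=
  ∃ c : J → (Pt P → ℕ → Bool) → BB P, (∀ a, ExtX (c a)) ∧ (∀ a, SNX ⊤ (c a)) ∧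
    ∀ b : BB P, SNX b (fun y => ⨆ a, c a y) → b = ⊥

/-- `|J| < b`, real level. -/
def X4 (J : Type) : Prop :=
  ∀ g : J → Pt P → ℕ → ℕ, (∀ a, Measurable (g a)) → ∃ h : Pt P → ℕ → ℕ, Measurable h ∧
    ∀ a, ∀ᶠ F in residual (Pt P), ∃ k, ∀ n ≥ k, g a F n ≤ h F n

/-- Sparse localization of `I`-families: the set `D = {D F 0 < D F 1 < ...}` depends on `G` only. -/
def XLoc (I : Type) : Prop :=
  ∀ G : Pt P → ℕ → ℕ, Measurable G → ∃ D : Pt P → ℕ → ℕ, Measurable D ∧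
    (∀ᶠ F in residual (Pt P), StrictMono (D F)) ∧
    ∀ H : I → Pt P → ℕ → ℕ, (∀ i, Measurable (H i)) → ∃ φ : Pt P → ℕ → ℕ, Measurable φ ∧
      (∀ᶠ F in residual (Pt P), ∀ j, (fset (φ F j)).card ≤ D F j) ∧
      ∀ i, ∀ᶠ F in residual (Pt P), ∃ m, ∀ j ≥ m, H i F j < G F (D F j) →
        H i F j ∈ fset (φ F j)

/-- `J` many strong measure zero sets cover: `w η l` is a Cohen sequence of strings of lengths
`f l`, where `f l` runs over all functions. -/
def XCov (J : Type) : Prop :=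
  ∃ (Λ : Type) (f : Λ → Pt P → ℕ → ℕ) (w : J → Λ → Pt P → ℕ → ℕ), (∀ l, Measurable (f l)) ∧
    (∀ η l, Measurable (w η l)) ∧
    (∀ g : Pt P → ℕ → ℕ, Measurable g → ∃ l, ∀ᶠ F in residual (Pt P), g F = f l F) ∧
    ∀ y : Pt P → ℕ → Bool, Measurable y → ∀ p : P, ∃ q ≤ p, ∃ η, ∀ l,
      Frc q (fun F => ∃ n, ∀ i < f l F n, y F i = (w η l F n).testBit i)

/-- Unlocalizability: reals `x ξ`, only countably many of which are localized somewhere by a given
slalom with small sets. -/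
def XUnl (I : Type) : Prop :=
  ∀ M : ℕ → ℕ, (∀ i, 0 < M i) → ∃ x : I → Pt P → ℕ → ℕ, (∀ ξ, Measurable (x ξ)) ∧
    (∀ ξ F i, x ξ F i < M i) ∧ ∀ (S : Pt P → ℕ → ℕ) (r : ℕ → ℕ), Measurable S →
      (∀ F i, (fset (S F i)).card ≤ r i) → (∀ e : ℕ, ∃ i0, ∀ i ≥ i0, e * r i < M i) →
        {ξ : I | ∃ (p : P) (n : ℕ), Frc p (fun F => ∀ i ≥ n, x ξ F i ∈ fset (S F i))}.Countable

end Pool.Agent.Lib.MP_f6e1de_lc
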