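import Mathlib
import Pool.Agent.Lib.MP_f6e1de_lc.PairVal
import Pool.Agent.Lib.MP_f6e1de_lc.XDefs

/-! Evaluation of the formulas at comeagerly many points, when `ω` is the standard name. -/

namespace Pool.Agent.Lib.MP_f6e1de_lc

open Pool.Agent.Lib.BVM Pool.Agent.Lib.BVM.BSet Filter Topology

variable {P : Type} [Preorder P]

/-- The point `F` satisfies `(n, m) ∈ f`. -/
def relAt (F : Pt P) (f : BSet (BB P)) (n m : ℕ) : Prop :=
  At F (bMem (opair (chk (BB P) n) (chk (BB P) m)) f)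

/-- The point `F` satisfies `n ∈ y`. -/
def memAt (F : Pt P) (y : BSet (BB P)) (n : ℕ) : Prop := At F (bMem (chk (BB P) n) y)

section Quant

variable {φ : BSet (BB P) → BB P}

/-- `∀ z ∈ ω`. -/
theorem at_all_omega (h : Ext1 φ) : ∀ᶠ F in residual (Pt P),
    (At F (⨅ z, (bMem z (chkAll (BB P) ℕ) ⇨ φ z)) ↔ ∀ n : ℕ, At F (φ (chk (BB P) n))) := by
  rw [iInf_chkAll h]
  exact at_iInf _

/-- `∃ z ∈ ω`. -/
theorem at_ex_omega (h : Ext1 φ) : ∀ᶠ F in residual (Pt P),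
    (At F (⨆ z, bMem z (chkAll (BB P) ℕ) ⊓ φ z) ↔ ∃ n : ℕ, At F (φ (chk (BB P) n))) := by
  rw [iSup_chkAll h]
  exact at_iSup _

/-- `∀ i ∈ m`. -/
theorem at_all_lt (h : Ext1 φ) (m : ℕ) : ∀ᶠ F in residual (Pt P),
    (At F (⨅ z, (bMem z (chk (BB P) m) ⇨ φ z)) ↔ ∀ i < m, At F (φ (chk (BB P) i))) := by
  rw [iInf_chk h]
  filter_upwards [at_iInf (fun j : {j : ℕ // j < m} => φ (chk (BB P) j.1))] with F hF
  rw [hF]
  exact ⟨fun h i hi => h ⟨i, hi⟩, fun h i => h i.1 i.2⟩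

/-- `∃ i ∈ m`. -/
theorem at_ex_lt (h : Ext1 φ) (m : ℕ) : ∀ᶠ F in residual (Pt P),
    (At F (⨆ z, bMem z (chk (BB P) m) ⊓ φ z) ↔ ∃ i < m, At F (φ (chk (BB P) i))) := by
  rw [iSup_chk h]
  filter_upwards [at_iSup (fun j : {j : ℕ // j < m} => φ (chk (BB P) j.1))] with F hF
  rw [hF]
  exact ⟨fun ⟨i, hi⟩ => ⟨i.1, i.2, hi⟩, fun ⟨i, hi, h⟩ => ⟨⟨i, hi⟩, h⟩⟩

end Quant

theorem at_iff (a b : BB P) : ∀ᶠ F in residual (Pt P),
    (At F ((a ⇨ b) ⊓ (b ⇨ a)) ↔ (At F a ↔ At F b)) := by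
  filter_upwards [at_himp a b, at_himp b a] with F h1 h2
  rw [at_inf, h1, h2]
  exact iff_iff_implies_and_implies.symm

theorem at_chk_eq (F : Pt P) (n m : ℕ) : At F (bEq (chk (BB P) n) (chk (BB P) m)) ↔ n = m := by
  rw [chk_eq]
  split_ifs with h
  · simp [h]
  · simp [h]

theorem at_chk_mem (F : Pt P) (n m : ℕ) : At F (bMem (chk (BB P) n) (chk (BB P) m)) ↔ n < m := by
  rw [chk_mem]
  split_ifs with h
  · simp [h]
  · simp [h]

theorem at_chk_sub (F : Pt P) (n m : ℕ) :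
    At F (⨅ z, (bMem z (chk (BB P) n) ⇨ bMem z (chk (BB P) m))) ↔ n ≤ m := by
  rw [iInf_chk (ext1_mem_left _)]
  constructor
  · intro h
    by_contra hn
    push Not at hn
    have := at_of_iInf h ⟨m, hn⟩
    rw [chk_mem_of_not_lt (lt_irrefl m)] at this
    exact at_bot F this
  · intro h
    have : (⨅ j : {j : ℕ // j < n}, bMem (chk (BB P) j.1) (chk (BB P) m)) = ⊤ := by
      rw [iInf_eq_top]
      rintro ⟨j, hj⟩
      exact chk_mem_of_lt (lt_of_lt_of_le hj h)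
    rw [this]; trivial

variable (v : ℕ → BSet (BB P))

/-- `f` is a function on `ω`. -/
theorem at_fIsFun (w f : ℕ) (hw : v w = chkAll (BB P) ℕ) : ∀ᶠ F in residual (Pt P),
    (At F (bval (fIsFun w f) v) ↔ ∀ n, ∃! m, relAt F (v f) n m) := by
  have h0 : bval (fIsFun w f) v = ⨅ n, (bMem n (chkAll (BB P) ℕ) ⇨ ⨆ m,
      bMem m (chkAll (BB P) ℕ) ⊓ (bMem (opair n m) (v f) ⊓ ⨅ m', ((bMem m' (chkAll (BB P) ℕ) ⊓
        bMem (opair n m') (v f)) ⇨ bEq m' m))) := by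
    show (⨅ n, (bMem n (v w) ⇨ ⨆ m, (bMem m (v w) ⊓
      bval (fRel (f + 2) 1 0) (scons m (scons n v))) ⊓ ⨅ m', ((bMem m' (v w) ⊓
        bval (fRel (f + 3) 2 0) (scons m' (scons m (scons n v)))) ⇨ bEq m' m))) = _
    simp only [bval_fRel, hw, inf_assoc]
    rfl
  have e1 : ∀ (n m : BSet (BB P)), Ext1 (fun m' => (bMem m' (chkAll (BB P) ℕ) ⊓
      bMem (opair n m') (v f)) ⇨ bEq m' m) := fun n m =>
    ((ext1_mem_left _).inf (ext1_opair_right _ _)).himp (ext1_eq _)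
  have h1 : ∀ n m : BSet (BB P), (⨅ m', ((bMem m' (chkAll (BB P) ℕ) ⊓
      bMem (opair n m') (v f)) ⇨ bEq m' m)) =
      ⨅ m' : ℕ, (bMem (opair n (chk (BB P) m')) (v f) ⇨ bEq (chk (BB P) m') m) := by
    intro n m
    rw [← iInf_chkAll ((ext1_opair_right n (v f)).himp (ext1_eq m))]
    refine iInf_congr fun m' => ?_
    rw [himp_himp]
  have e2 : ∀ n : BSet (BB P), Ext1 (fun m => bMem (opair n m) (v f) ⊓ ⨅ m',
      ((bMem m' (chkAll (BB P) ℕ) ⊓ bMem (opair n m') (v f)) ⇨ bEq m' m)) := fun n =>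
    (ext1_opair_right _ _).inf (Ext1.iInf fun m' => (Ext1.const _).himp (ext1_bEq_right _))
  have e3 : Ext1 (fun n => ⨆ m, bMem m (chkAll (BB P) ℕ) ⊓ (bMem (opair n m) (v f) ⊓ ⨅ m',
      ((bMem m' (chkAll (BB P) ℕ) ⊓ bMem (opair n m') (v f)) ⇨ bEq m' m))) :=
    Ext1.iSup fun m => (Ext1.const _).inf ((ext1_opair_left _ _).inf
      (Ext1.iInf fun m' => ((Ext1.const _).inf (ext1_opair_left _ _)).himp (Ext1.const _)))
  rw [h0]
  have a1 := at_all_omega (P := P) e3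
  have a2 : ∀ᶠ F in residual (Pt P), ∀ n : ℕ, (At F (⨆ m, bMem m (chkAll (BB P) ℕ) ⊓
      (bMem (opair (chk (BB P) n) m) (v f) ⊓ ⨅ m', ((bMem m' (chkAll (BB P) ℕ) ⊓
        bMem (opair (chk (BB P) n) m') (v f)) ⇨ bEq m' m))) ↔ ∃ m : ℕ,
      At F (bMem (opair (chk (BB P) n) (chk (BB P) m)) (v f) ⊓ ⨅ m',
        ((bMem m' (chkAll (BB P) ℕ) ⊓ bMem (opair (chk (BB P) n) m') (v f)) ⇨
          bEq m' (chk (BB P) m)))) := by
    rw [eventually_countable_forall]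
    exact fun n => at_ex_omega (e2 (chk (BB P) n))
  have a3 : ∀ᶠ F in residual (Pt P), ∀ n m : ℕ, (At F (⨅ m' : ℕ,
      (bMem (opair (chk (BB P) n) (chk (BB P) m')) (v f) ⇨ bEq (chk (BB P) m') (chk (BB P) m))) ↔
        ∀ m' : ℕ, At F (bMem (opair (chk (BB P) n) (chk (BB P) m')) (v f) ⇨
          bEq (chk (BB P) m') (chk (BB P) m))) := by
    rw [eventually_countable_forall]; intro n
    rw [eventually_countable_forall]; intro m
    exact at_iInf _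
  have a4 : ∀ᶠ F in residual (Pt P), ∀ n m m' : ℕ,
      (At F (bMem (opair (chk (BB P) n) (chk (BB P) m')) (v f) ⇨
          bEq (chk (BB P) m') (chk (BB P) m)) ↔ (relAt F (v f) n m' → m' = m)) := by
    rw [eventually_countable_forall]; intro n
    rw [eventually_countable_forall]; intro m
    rw [eventually_countable_forall]; intro m'
    filter_upwards [at_himp (bMem (opair (chk (BB P) n) (chk (BB P) m')) (v f))
      (bEq (chk (BB P) m') (chk (BB P) m))] with F hF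
    rw [hF, at_chk_eq]; rfl
  filter_upwards [a1, a2, a3, a4] with F b1 b2 b3 b4
  rw [b1]
  refine forall_congr' fun n => ?_
  rw [b2]
  refine exists_congr fun m => ?_
  rw [at_inf, h1, b3]
  refine and_congr Iff.rfl ?_
  exact forall_congr' fun m' => b4 n m m'

end Pool.Agent.Lib.MP_f6e1de_lc
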