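import Mathlib
import Pool.Agent.Lib.MP_f6e1de_lc.EvalT

/-! Names of reals, functions and sequences of reals from measurable maps, and back.

PROOFS. `rn_mem`: `bMem (chk i) (rn y) = ⨆ j, bet {y F j} ⊓ bEq (chk i) (chk j) = bet {y F i}` (`bMem_mk`,
`iSup_chk_inf`), then `at_bet` for all `i`. `fnm_rel`, `znm_rel`: `bMem_relName_chk`, `at_bet`.
`rn_sub`: `iInf_mem_himp`, `chk_mem_chkAll`. `eq_rn`: by `bEq_eq_iInf`/`bEq_eq_mem`: let
`e = ⨅ z, (bMem z x ⇨ bMem z ω)`; `bMem (chk i) (rn (yOf x)) = bet {memAt F x i} = bMem (chk i) x`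
(`eq_iff_residual`); `rn (yOf x)`: every generator `chk i` with weight `bMem (chk i) x` is in `x`; conversely
`e ⊓ bMem z x ≤ bMem z x ⊓ bMem z ω = ⨆ i, bEq z (chk i) ⊓ bMem z x ≤ ⨆ i, bEq z (chk i) ⊓ bMem (chk i) x ≤
bMem z (rn (yOf x))`. Measurability: `measurableSet_at`, `measurable_of_level`, and for `gOf` the
argument of `meas_find`. `gOf_spec`: if `∀ n, ∃! m, relAt F f n m` then `relAt F f n m ↔ gOf f F n = m`
(`Nat.find_spec`, uniqueness). -/

namespace Pool.Agent.Lib.MP_f6e1de_lc

open Pool.Agent.Lib.BVM Pool.Agent.Lib.BVM.BSet Filter Topology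

variable {P : Type} [Preorder P]

/-- name of a real -/
noncomputable def rn (y : Pt P → ℕ → Bool) : BSet (BB P) :=
  BSet.mk ℕ (fun n => chk (BB P) n) (fun i => bet {F | y F i = true})

/-- name of a function -/
noncomputable def fnm (g : Pt P → ℕ → ℕ) : BSet (BB P) :=
  relName (fun n : ℕ => chk (BB P) n) (fun m : ℕ => chk (BB P) m) (fun n m => bet {F | g F n = m})

/-- name of a sequence of reals -/
noncomputable def znm (z : Pt P → ℕ → ℕ → Bool) : BSet (BB P) :=
  relName (fun n : ℕ => chk (BB P) n) (fun m : ℕ => chk (BB P) m)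
    (fun n i => bet {F | z F n i = true})

private theorem rn_bMem_chk (y : Pt P → ℕ → Bool) (i : ℕ) :
    bMem (chk (BB P) i) (rn y) = bet {F | y F i = true} := by
  rw [rn, bMem_mk]
  exact iSup_chk_inf i (fun j => bet {F | y F j = true})

theorem rn_mem {y : Pt P → ℕ → Bool} (hy : Measurable y) :
    ∀ᶠ F in residual (Pt P), ∀ i, (memAt F (rn y) i ↔ y F i = true) := by
  rw [eventually_countable_forall]
  intro i
  filter_upwards [measurableSet_at_bet (measurableSet_level hy i true)] with F hF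
  unfold memAt
  rw [rn_bMem_chk, hF]

theorem rn_sub (y : Pt P → ℕ → Bool) :
    (⨅ z, (bMem z (rn y) ⇨ bMem z (chkAll (BB P) ℕ))) = ⊤ := by
  rw [iInf_mem_himp (ext1_mem_left _), iInf_eq_top]
  intro i
  have : bMem ((rn y).fn i) (chkAll (BB P) ℕ) = ⊤ := chk_mem_chkAll (B := BB P) (I := ℕ) i
  rw [this, himp_top]

theorem fnm_rel {g : Pt P → ℕ → ℕ} (hg : Measurable g) :
    ∀ᶠ F in residual (Pt P), ∀ n m, (relAt F (fnm g) n m ↔ g F n = m) := by
  rw [eventually_countable_forall]
  intro n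
  rw [eventually_countable_forall]
  intro m
  filter_upwards [measurableSet_at_bet (measurableSet_level hg n m)] with F hF
  unfold relAt fnm
  rw [bMem_relName_chk, hF]

theorem znm_rel {z : Pt P → ℕ → ℕ → Bool} (hz : ∀ n i, MeasurableSet {F | z F n i = true}) :
    ∀ᶠ F in residual (Pt P), ∀ n i, (relAt F (znm z) n i ↔ z F n i = true) := by
  rw [eventually_countable_forall]
  intro n
  rw [eventually_countable_forall]
  intro m
  filter_upwards [measurableSet_at_bet (hz n m)] with F hF
  unfold relAt znm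
  rw [bMem_relName_chk, hF]

open Classical in
/-- the real given by an arbitrary name -/
noncomputable def yOf (x : BSet (BB P)) (F : Pt P) (i : ℕ) : Bool := decide (memAt F x i)

open Classical in
/-- the sequence of reals given by an arbitrary name -/
noncomputable def zOf (Z : BSet (BB P)) (F : Pt P) (n i : ℕ) : Bool := decide (relAt F Z n i)

open Classical in
/-- the function given by an arbitrary name -/
noncomputable def gOf (f : BSet (BB P)) (F : Pt P) (n : ℕ) : ℕ :=
  if h : ∃ m, relAt F f n m then Nat.find h else 0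

theorem meas_yOf (x : BSet (BB P)) : Measurable (yOf x) := by
  refine measurable_of_level fun i a => ?_
  have h0 : MeasurableSet {F | memAt F x i} := measurableSet_at _
  cases a with
  | true =>
    have : {F | yOf x F i = true} = {F | memAt F x i} := by
      ext F; simp [yOf]
    rw [this]; exact h0
  | false =>
    have : {F | yOf x F i = false} = {F | memAt F x i}ᶜ := by
      ext F; simp [yOf]
    rw [this]; exact h0.compl

theorem meas_zOf (Z : BSet (BB P)) : ∀ n i, MeasurableSet {F | zOf Z F n i = true} := by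
  intro n i
  have : {F | zOf Z F n i = true} = {F | relAt F Z n i} := by
    ext F; simp [zOf]
  rw [this]; exact measurableSet_at _

theorem meas_gOf (f : BSet (BB P)) : Measurable (gOf f) := by
  classical
  refine measurable_of_level fun n m => ?_
  have h0 : ∀ k, MeasurableSet {F | relAt F f n k} := fun k => measurableSet_at _
  have : {F | gOf f F n = m} =
      ({F | relAt F f n m} ∩ ⋂ k ∈ Set.Iio m, {F | relAt F f n k}ᶜ) ∪
        ((⋂ k, {F | relAt F f n k}ᶜ) ∩ {F | (0 : ℕ) = m}) := by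
    ext F
    simp only [Set.mem_ofPred_eq, Set.mem_union, Set.mem_inter_iff, Set.mem_iInter, Set.mem_Iio,
      Set.mem_compl_iff, gOf]
    by_cases h : ∃ m, relAt F f n m
    · rw [dif_pos h, Nat.find_eq_iff]
      constructor
      · intro h1; exact Or.inl h1
      · rintro (h1 | ⟨h1, -⟩)
        · exact h1
        · obtain ⟨k, hk⟩ := h
          exact absurd hk (h1 k)
    · rw [dif_neg h]
      push Not at h
      constructor
      · intro h1; exact Or.inr ⟨h, h1⟩
      · rintro (⟨h1, -⟩ | ⟨-, h1⟩)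
        · exact absurd h1 (h m)
        · exact h1
  rw [this]
  refine MeasurableSet.union ((h0 m).inter ?_) (MeasurableSet.inter ?_ (MeasurableSet.const _))
  · exact MeasurableSet.biInter (Set.to_countable _) fun k _ => (h0 k).compl
  · exact MeasurableSet.iInter fun k => (h0 k).compl

theorem gOf_spec {f : BSet (BB P)} {F : Pt P} (h : ∀ n, ∃! m, relAt F f n m) (n m : ℕ) :
    relAt F f n m ↔ gOf f F n = m := by
  classical
  have h1 : ∃ m, relAt F f n m := (h n).exists
  unfold gOf
  rw [dif_pos h1]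
  constructor
  · intro h2
    exact (h n).unique (Nat.find_spec h1) h2
  · intro h2
    rw [← h2]
    exact Nat.find_spec h1

private theorem rn_yOf_bMem_chk (x : BSet (BB P)) (i : ℕ) :
    bMem (chk (BB P) i) (rn (yOf x)) = bMem (chk (BB P) i) x := by
  rw [rn_bMem_chk, eq_iff_residual]
  filter_upwards [measurableSet_at_bet (measurableSet_level (meas_yOf x) i true)] with F hF
  rw [hF]
  simp [yOf, memAt]

/-- A subset of `ω` equals the name of its real. -/
theorem eq_rn (x : BSet (BB P)) :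
    (⨅ z, (bMem z x ⇨ bMem z (chkAll (BB P) ℕ))) ≤ bEq x (rn (yOf x)) := by
  rw [bEq_eq_iInf]
  refine le_iInf fun z => le_inf ?_ ?_
  · rw [le_himp_iff]
    refine le_trans (inf_le_inf_right _ (iInf_le _ z)) ?_
    have h1 : (bMem z x ⇨ bMem z (chkAll (BB P) ℕ)) ⊓ bMem z x ≤
        bMem z (chkAll (BB P) ℕ) ⊓ bMem z x := le_inf himp_inf_le inf_le_right
    refine h1.trans ?_
    rw [bMem_chkAll, iSup_inf_eq]
    refine iSup_le fun i => ?_
    calc bEq z (chk (BB P) i) ⊓ bMem z x
        ≤ bEq (chk (BB P) i) z ⊓ bMem (chk (BB P) i) x := by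
          refine le_inf ?_ (bMem_congr_left _ _ _)
          rw [bEq_symm]; exact inf_le_left
      _ = bEq (chk (BB P) i) z ⊓ bMem (chk (BB P) i) (rn (yOf x)) := by rw [rn_yOf_bMem_chk]
      _ ≤ bMem z (rn (yOf x)) := bMem_congr_left _ _ _
  · rw [le_himp_iff]
    refine inf_le_right.trans ?_
    have h2 : bMem z (rn (yOf x)) = ⨆ i : ℕ, bet {F | yOf x F i = true} ⊓ bEq z (chk (BB P) i) := rfl
    rw [h2]
    refine iSup_le fun i => ?_
    rw [← rn_bMem_chk, rn_yOf_bMem_chk, inf_comm, bEq_symm]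
    exact bMem_congr_left _ _ _

/-- `rn` respects equality: `⟦rn y = rn y'⟧` is the set where `y F = y' F`. -/
theorem at_bEq_rn {y y' : Pt P → ℕ → Bool} (hy : Measurable y) (hy' : Measurable y') :
    ∀ᶠ F in residual (Pt P), (At F (bEq (rn y) (rn y')) ↔ y F = y' F) := by
  have e1 : ∀ w w' : Pt P → ℕ → Bool, (⨅ i, ((rn w).val i ⇨ bMem ((rn w).fn i) (rn w'))) =
      ⨅ i : ℕ, (bMem (chk (BB P) i) (rn w) ⇨ bMem (chk (BB P) i) (rn w')) := by
    intro w w'
    refine iInf_congr fun i => ?_
    rw [rn_bMem_chk w i]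
    rfl
  have e : bEq (rn y) (rn y') =
      (⨅ i : ℕ, (bMem (chk (BB P) i) (rn y) ⇨ bMem (chk (BB P) i) (rn y'))) ⊓
      (⨅ i : ℕ, (bMem (chk (BB P) i) (rn y') ⇨ bMem (chk (BB P) i) (rn y))) := by
    rw [bEq_eq_mem, e1, e1]
  have a1 := at_iInf (fun i : ℕ => (bMem (chk (BB P) i) (rn y) ⇨ bMem (chk (BB P) i) (rn y')))
  have a2 := at_iInf (fun i : ℕ => (bMem (chk (BB P) i) (rn y') ⇨ bMem (chk (BB P) i) (rn y)))
  have a3 : ∀ᶠ F in residual (Pt P), ∀ i : ℕ,
      (At F (bMem (chk (BB P) i) (rn y) ⇨ bMem (chk (BB P) i) (rn y')) ↔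
        (memAt F (rn y) i → memAt F (rn y') i)) := by
    rw [eventually_countable_forall]; exact fun i => at_himp _ _
  have a4 : ∀ᶠ F in residual (Pt P), ∀ i : ℕ,
      (At F (bMem (chk (BB P) i) (rn y') ⇨ bMem (chk (BB P) i) (rn y)) ↔
        (memAt F (rn y') i → memAt F (rn y) i)) := by
    rw [eventually_countable_forall]; exact fun i => at_himp _ _
  filter_upwards [a1, a2, a3, a4, rn_mem hy, rn_mem hy'] with F b1 b2 b3 b4 b5 b6
  rw [e, at_inf, b1, b2]
  simp only [b3, b4, b5, b6]
  constructor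
  · rintro ⟨h1, h2⟩
    funext i
    exact Bool.eq_iff_iff.2 ⟨h1 i, h2 i⟩
  · intro h
    rw [h]
    exact ⟨fun i hi => hi, fun i hi => hi⟩

end Pool.Agent.Lib.MP_f6e1de_lc
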