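import Mathlib
import Pool.Agent.Lib.MP_f6e1de_lc.RNames

/-! `|J| < b` in the Boolean-valued universe.

PROOF. `bval (fLtB w A) v = ⨅ F', (H F' ⇨ K F')`. Fix the name `F'` (the family); for `a : J` let
`ra F a n m = At F (bMem (opair (chk a) (opair (chk n) (chk m))) F')` (`bval_fRel3`). `H F' ≤` for each `a`: at
comeagerly many points, `∀ n, ∃! m, ra F a n m` (`iInf_chkAll` for `A`, `at_all_omega`, ... as in
`at_fIsFun`). Put `g a F n = ` least `m` with `ra F a n m` (or 0): measurable; `X4` gives `h`. The name of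
the bound is `fnm h` (`le_iSup_of_le`): `bval (fIsFun ..) = ⊤` (`at_fIsFun`, `fnm_rel`). It remains, for each
`a : J` (`iInf_chkAll`), `H F' ≤ ⨆ k, bMem k ω ⊓ ⨅ n, (bMem n ω ⇨ (sub k n ⇨ ⨅ m, ⨅ m', ...))`: evaluate at comeagerly
many points (`at_ex_omega`, `at_all_omega`, `at_chk_sub`, `at_himp`, `fnm_rel`): there is `k` such that for
`n ≥ k` and all `m m'` with `ra F a n m`, `h F n = m'`: `m ≤ m'`, because then `m = g a F n ≤ h F n`. -/

namespace Pool.Agent.Lib.MP_f6e1de_lc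

open Pool.Agent.Lib.BVM Pool.Agent.Lib.BVM.BSet Filter Topology

variable {P : Type} [Preorder P]

private theorem ext1_tri_mid (a m R : BSet (BB P)) :
    Ext1 (fun n => bMem (opair a (opair n m)) R) := by
  intro n n'
  have := ext1_opair_right a R (opair n m) (opair n' m)
  rwa [bEq_opair, bEq_refl, inf_top_eq] at this

private theorem ext1_tri_right (a n R : BSet (BB P)) :
    Ext1 (fun m => bMem (opair a (opair n m)) R) := by
  intro m m'
  have := ext1_opair_right a R (opair n m) (opair n m')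
  rwa [bEq_opair, bEq_refl, top_inf_eq] at this

/-- `φ` is the graph of a function on `ω`. -/
private theorem at_fun_gen (φ : BSet (BB P) → BSet (BB P) → BB P)
    (h1 : ∀ m, Ext1 (fun n => φ n m)) (h2 : ∀ n, Ext1 (fun m => φ n m)) :
    ∀ᶠ F in residual (Pt P), (At F (⨅ n, (bMem n (chkAll (BB P) ℕ) ⇨ ⨆ m,
      (bMem m (chkAll (BB P) ℕ) ⊓ φ n m) ⊓ ⨅ m', ((bMem m' (chkAll (BB P) ℕ) ⊓ φ n m') ⇨
        bEq m' m))) ↔ ∀ n : ℕ, ∃! m : ℕ, At F (φ (chk (BB P) n) (chk (BB P) m))) := by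
  simp only [inf_assoc]
  have e1 : ∀ (n m : BSet (BB P)), (⨅ m', ((bMem m' (chkAll (BB P) ℕ) ⊓ φ n m') ⇨ bEq m' m)) =
      ⨅ m' : ℕ, (φ n (chk (BB P) m') ⇨ bEq (chk (BB P) m') m) := by
    intro n m
    rw [← iInf_chkAll ((h2 n).himp (ext1_eq m))]
    refine iInf_congr fun m' => ?_
    rw [himp_himp]
  have e2 : ∀ n : BSet (BB P), Ext1 (fun m => φ n m ⊓ ⨅ m',
      ((bMem m' (chkAll (BB P) ℕ) ⊓ φ n m') ⇨ bEq m' m)) := fun n =>
    (h2 n).inf (Ext1.iInf fun m' => (Ext1.const _).himp (ext1_bEq_right _))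
  have e3 : Ext1 (fun n => ⨆ m, bMem m (chkAll (BB P) ℕ) ⊓ (φ n m ⊓ ⨅ m',
      ((bMem m' (chkAll (BB P) ℕ) ⊓ φ n m') ⇨ bEq m' m))) :=
    Ext1.iSup fun m => (Ext1.const _).inf ((h1 m).inf
      (Ext1.iInf fun m' => ((Ext1.const _).inf (h1 m')).himp (Ext1.const _)))
  have a1 := at_all_omega (P := P) e3
  have a2 : ∀ᶠ F in residual (Pt P), ∀ n : ℕ, (At F (⨆ m, bMem m (chkAll (BB P) ℕ) ⊓
      (φ (chk (BB P) n) m ⊓ ⨅ m', ((bMem m' (chkAll (BB P) ℕ) ⊓ φ (chk (BB P) n) m') ⇨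
        bEq m' m))) ↔ ∃ m : ℕ, At F (φ (chk (BB P) n) (chk (BB P) m) ⊓ ⨅ m',
        ((bMem m' (chkAll (BB P) ℕ) ⊓ φ (chk (BB P) n) m') ⇨ bEq m' (chk (BB P) m)))) := by
    rw [eventually_countable_forall]
    exact fun n => at_ex_omega (e2 (chk (BB P) n))
  have a3 : ∀ᶠ F in residual (Pt P), ∀ n m : ℕ, (At F (⨅ m' : ℕ,
      (φ (chk (BB P) n) (chk (BB P) m') ⇨ bEq (chk (BB P) m') (chk (BB P) m))) ↔
        ∀ m' : ℕ, At F (φ (chk (BB P) n) (chk (BB P) m') ⇨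
          bEq (chk (BB P) m') (chk (BB P) m))) := by
    rw [eventually_countable_forall]; intro n
    rw [eventually_countable_forall]; intro m
    exact at_iInf _
  have a4 : ∀ᶠ F in residual (Pt P), ∀ n m m' : ℕ,
      (At F (φ (chk (BB P) n) (chk (BB P) m') ⇨ bEq (chk (BB P) m') (chk (BB P) m)) ↔
        (At F (φ (chk (BB P) n) (chk (BB P) m')) → m' = m)) := by
    rw [eventually_countable_forall]; intro n
    rw [eventually_countable_forall]; intro m
    rw [eventually_countable_forall]; intro m'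
    filter_upwards [at_himp (φ (chk (BB P) n) (chk (BB P) m'))
      (bEq (chk (BB P) m') (chk (BB P) m))] with F hF
    rw [hF, at_chk_eq]
  filter_upwards [a1, a2, a3, a4] with F b1 b2 b3 b4
  rw [b1]
  refine forall_congr' fun n => ?_
  rw [b2]
  refine exists_congr fun m => ?_
  rw [at_inf, e1, b3]
  refine and_congr Iff.rfl ?_
  exact forall_congr' fun m' => b4 n m m'

/-- the innermost part of `fIsBounded` -/
private noncomputable def thet (a R h n m m' : BSet (BB P)) : BB P :=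
  bMem (opair a (opair n m)) R ⇨ (bMem (opair n m') h ⇨ ⨅ z, (bMem z m ⇨ bMem z m'))

private noncomputable def psi (a R h k : BSet (BB P)) : BB P :=
  ⨅ n, (bMem n (chkAll (BB P) ℕ) ⇨ ((⨅ z, (bMem z k ⇨ bMem z n)) ⇨
    ⨅ m, (bMem m (chkAll (BB P) ℕ) ⇨ ⨅ m', (bMem m' (chkAll (BB P) ℕ) ⇨ thet a R h n m m'))))

private theorem at_psi (a R h : BSet (BB P)) : ∀ᶠ F in residual (Pt P),
    (∃ k : ℕ, ∀ n : ℕ, k ≤ n → ∀ m m' : ℕ,
      At F (bMem (opair a (opair (chk (BB P) n) (chk (BB P) m))) R) → relAt F h n m' → m ≤ m') →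
    At F (⨆ k, bMem k (chkAll (BB P) ℕ) ⊓ psi a R h k) := by
  have esub : ∀ m' : BSet (BB P), Ext1 (fun m => ⨅ z, (bMem z m ⇨ bMem z m')) := fun m' =>
    Ext1.iInf fun z => (ext1_mem_right z).himp (Ext1.const _)
  have esub' : ∀ m : BSet (BB P), Ext1 (fun m' => ⨅ z, (bMem z m ⇨ bMem z m')) := fun m =>
    Ext1.iInf fun z => (Ext1.const _).himp (ext1_mem_right z)
  have e1 : ∀ n m, Ext1 (fun m' => thet a R h n m m') := fun n m =>
    (Ext1.const _).himp ((ext1_opair_right _ _).himp (esub' m))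
  have e2 : ∀ n, Ext1 (fun m => ⨅ m', (bMem m' (chkAll (BB P) ℕ) ⇨ thet a R h n m m')) :=
    fun n => Ext1.iInf fun m' => (Ext1.const _).himp ((ext1_tri_right a n R).himp
      ((Ext1.const _).himp (esub m')))
  have e3 : ∀ k, Ext1 (fun n => (⨅ z, (bMem z k ⇨ bMem z n)) ⇨ ⨅ m, (bMem m (chkAll (BB P) ℕ) ⇨
      ⨅ m', (bMem m' (chkAll (BB P) ℕ) ⇨ thet a R h n m m'))) := fun k =>
    (esub' k).himp (Ext1.iInf fun m => (Ext1.const _).himp (Ext1.iInf fun m' =>
      (Ext1.const _).himp ((ext1_tri_mid a m R).himp ((ext1_opair_left _ _).himp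
        (Ext1.const _)))))
  have e4 : Ext1 (fun k => psi a R h k) := Ext1.iInf fun n => (Ext1.const _).himp
    ((esub n).himp (Ext1.const _))
  have a1 := at_ex_omega (P := P) e4
  have a2 : ∀ᶠ F in residual (Pt P), ∀ k : ℕ, (At F (psi a R h (chk (BB P) k)) ↔ ∀ n : ℕ,
      At F ((⨅ z, (bMem z (chk (BB P) k) ⇨ bMem z (chk (BB P) n))) ⇨
        ⨅ m, (bMem m (chkAll (BB P) ℕ) ⇨
          ⨅ m', (bMem m' (chkAll (BB P) ℕ) ⇨ thet a R h (chk (BB P) n) m m')))) := by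
    rw [eventually_countable_forall]
    exact fun k => at_all_omega (e3 (chk (BB P) k))
  have a3 : ∀ᶠ F in residual (Pt P), ∀ k n : ℕ,
      (At F ((⨅ z, (bMem z (chk (BB P) k) ⇨ bMem z (chk (BB P) n))) ⇨
        ⨅ m, (bMem m (chkAll (BB P) ℕ) ⇨
          ⨅ m', (bMem m' (chkAll (BB P) ℕ) ⇨ thet a R h (chk (BB P) n) m m'))) ↔
      (k ≤ n → At F (⨅ m, (bMem m (chkAll (BB P) ℕ) ⇨
          ⨅ m', (bMem m' (chkAll (BB P) ℕ) ⇨ thet a R h (chk (BB P) n) m m'))))) := by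
    rw [eventually_countable_forall]; intro k
    rw [eventually_countable_forall]; intro n
    filter_upwards [at_himp (⨅ z, (bMem z (chk (BB P) k) ⇨ bMem z (chk (BB P) n)))
      (⨅ m, (bMem m (chkAll (BB P) ℕ) ⇨
          ⨅ m', (bMem m' (chkAll (BB P) ℕ) ⇨ thet a R h (chk (BB P) n) m m')))] with F hF
    rw [hF, at_chk_sub]
  have a4 : ∀ᶠ F in residual (Pt P), ∀ n : ℕ, (At F (⨅ m, (bMem m (chkAll (BB P) ℕ) ⇨
          ⨅ m', (bMem m' (chkAll (BB P) ℕ) ⇨ thet a R h (chk (BB P) n) m m'))) ↔ ∀ m : ℕ,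
      At F (⨅ m', (bMem m' (chkAll (BB P) ℕ) ⇨ thet a R h (chk (BB P) n) (chk (BB P) m) m'))) := by
    rw [eventually_countable_forall]
    exact fun n => at_all_omega (e2 (chk (BB P) n))
  have a5 : ∀ᶠ F in residual (Pt P), ∀ n m : ℕ,
      (At F (⨅ m', (bMem m' (chkAll (BB P) ℕ) ⇨ thet a R h (chk (BB P) n) (chk (BB P) m) m')) ↔
        ∀ m' : ℕ, At F (thet a R h (chk (BB P) n) (chk (BB P) m) (chk (BB P) m'))) := by
    rw [eventually_countable_forall]; intro n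
    rw [eventually_countable_forall]
    exact fun m => at_all_omega (e1 (chk (BB P) n) (chk (BB P) m))
  have a6 : ∀ᶠ F in residual (Pt P), ∀ n m m' : ℕ,
      (At F (thet a R h (chk (BB P) n) (chk (BB P) m) (chk (BB P) m')) ↔
        (At F (bMem (opair a (opair (chk (BB P) n) (chk (BB P) m))) R) → relAt F h n m' →
          m ≤ m')) := by
    rw [eventually_countable_forall]; intro n
    rw [eventually_countable_forall]; intro m
    rw [eventually_countable_forall]; intro m'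
    filter_upwards [at_himp (bMem (opair a (opair (chk (BB P) n) (chk (BB P) m))) R)
      (bMem (opair (chk (BB P) n) (chk (BB P) m')) h ⇨
        ⨅ z, (bMem z (chk (BB P) m) ⇨ bMem z (chk (BB P) m'))),
      at_himp (bMem (opair (chk (BB P) n) (chk (BB P) m')) h)
        (⨅ z, (bMem z (chk (BB P) m) ⇨ bMem z (chk (BB P) m')))] with F h1 h2
    unfold thet
    rw [h1, h2, at_chk_sub]
    rfl
  filter_upwards [a1, a2, a3, a4, a5, a6] with F b1 b2 b3 b4 b5 b6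
  rintro ⟨k, hk⟩
  rw [b1]
  refine ⟨k, ?_⟩
  rw [b2]
  intro n
  rw [b3]
  intro hkn
  rw [b4]
  intro m
  rw [b5]
  intro m'
  rw [b6]
  exact hk n hkn m m'

set_option maxRecDepth 8000 in
private theorem ltB_unfold {w A : ℕ} {v : ℕ → BSet (BB P)} (hw : v w = chkAll (BB P) ℕ) :
    bval (fLtB w A) v = ⨅ R, ((⨅ a, (bMem a (v A) ⇨ ⨅ n, (bMem n (chkAll (BB P) ℕ) ⇨ ⨆ m,
      (bMem m (chkAll (BB P) ℕ) ⊓ bMem (opair a (opair n m)) R) ⊓ ⨅ m',
        ((bMem m' (chkAll (BB P) ℕ) ⊓ bMem (opair a (opair n m')) R) ⇨ bEq m' m)))) ⇨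
      ⨆ h, (bval (fIsFun (w + 2) 0) (scons h (scons R v)) ⊓ ⨅ a, (bMem a (v A) ⇨
        ⨆ k, bMem k (chkAll (BB P) ℕ) ⊓ psi a R h k))) := by
  have hpsi : ∀ a R h k : BSet (BB P), psi a R h k = ⨅ n, (bMem n (v w) ⇨
      ((⨅ z, (bMem z k ⇨ bMem z n)) ⇨ ⨅ m, ⨅ m', (bMem m (v w) ⇨ (bMem m' (v w) ⇨
        thet a R h n m m')))) := by
    intro a R h k
    rw [hw]
    unfold psi
    simp only [himp_iInf_eq]
  simp only [hpsi]
  rw [← hw]
  show (⨅ R, ((⨅ a, (bMem a (v A) ⇨ ⨅ n, (bMem n (v w) ⇨ ⨆ m, (bMem m (v w) ⊓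
      bval (fRel3 3 2 1 0) (scons m (scons n (scons a (scons R v))))) ⊓ ⨅ m',
        ((bMem m' (v w) ⊓ bval (fRel3 4 3 2 0)
          (scons m' (scons m (scons n (scons a (scons R v)))))) ⇨ bEq m' m)))) ⇨
      ⨆ h, (bval (fIsFun (w + 2) 0) (scons h (scons R v)) ⊓ ⨅ a, (bMem a (v A) ⇨
        ⨆ k, bMem k (v w) ⊓ ⨅ n, (bMem n (v w) ⇨ ((⨅ z, (bMem z k ⇨ bMem z n)) ⇨
          ⨅ m, ⨅ m', (bMem m (v w) ⇨ (bMem m' (v w) ⇨
            (bval (fRel3 6 4 2 1) (scons m' (scons m (scons n (scons k (scons a (scons h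
              (scons R v))))))) ⇨ (bval (fRel 5 2 0) (scons m' (scons m (scons n (scons k
                (scons a (scons h (scons R v))))))) ⇨
                  ⨅ z, (bMem z m ⇨ bMem z m')))))))))))  = _
  simp only [bval_fRel3, bval_fRel]
  rfl

theorem ltB_of_x4 {J : Type} [LinearOrder J] [WellFoundedLT J] (h : X4 P J) {w A : ℕ}
    {v : ℕ → BSet (BB P)} (hw : v w = chkAll (BB P) ℕ) (hA : v A = chkAll (BB P) J) :
    bval (fLtB w A) v = ⊤ := by
  rw [ltB_unfold hw, iInf_eq_top]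
  intro R
  rw [himp_eq_top_iff, hA]
  -- the functions of the family
  let fa : J → BSet (BB P) := fun a => relName (fun n : ℕ => chk (BB P) n)
    (fun m : ℕ => chk (BB P) m)
    (fun n m => bMem (opair (chk (BB P) a) (opair (chk (BB P) n) (chk (BB P) m))) R)
  have hfa : ∀ a F n m, relAt F (fa a) n m ↔
      At F (bMem (opair (chk (BB P) a) (opair (chk (BB P) n) (chk (BB P) m))) R) := by
    intro a F n m
    show At F (bMem (opair (chk (BB P) n) (chk (BB P) m)) (fa a)) ↔ _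
    rw [bMem_relName_chk]
  obtain ⟨hh, hhm, hhb⟩ := h (fun a => gOf (fa a)) (fun a => meas_gOf (fa a))
  refine le_iSup_of_le (fnm hh) (le_inf ?_ ?_)
  · rw [le_iff_residual]
    filter_upwards [at_fIsFun (scons (fnm hh) (scons R v)) (w + 2) 0 hw, fnm_rel hhm]
      with F a1 a2 _
    rw [a1]
    intro n
    refine ⟨hh F n, (a2 n _).2 rfl, fun m hm => ?_⟩
    exact ((a2 n m).1 hm).symm
  · have e1 : Ext1 (fun a => ⨆ k, bMem k (chkAll (BB P) ℕ) ⊓ psi a R (fnm hh) k) := by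
      refine Ext1.iSup fun k => (Ext1.const _).inf (Ext1.iInf fun n => (Ext1.const _).himp
        ((Ext1.const _).himp (Ext1.iInf fun m => (Ext1.const _).himp (Ext1.iInf fun m' =>
          (Ext1.const _).himp (Ext1.himp ?_ (Ext1.const _))))))
      exact ext1_opair_left (opair n m) R
    rw [iInf_chkAll e1]
    refine le_iInf fun a => ?_
    have h1 : (⨅ a, (bMem a (chkAll (BB P) J) ⇨ ⨅ n, (bMem n (chkAll (BB P) ℕ) ⇨ ⨆ m,
      (bMem m (chkAll (BB P) ℕ) ⊓ bMem (opair a (opair n m)) R) ⊓ ⨅ m',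
        ((bMem m' (chkAll (BB P) ℕ) ⊓ bMem (opair a (opair n m')) R) ⇨ bEq m' m)))) ≤
        ⨅ n, (bMem n (chkAll (BB P) ℕ) ⇨ ⨆ m,
      (bMem m (chkAll (BB P) ℕ) ⊓ bMem (opair (chk (BB P) a) (opair n m)) R) ⊓ ⨅ m',
        ((bMem m' (chkAll (BB P) ℕ) ⊓ bMem (opair (chk (BB P) a) (opair n m')) R) ⇨
          bEq m' m)) := by
      refine (iInf_le _ (chk (BB P) a)).trans ?_
      rw [chk_mem_chkAll, top_himp]
    refine h1.trans ?_
    rw [le_iff_residual]
    filter_upwards [at_fun_gen (fun n m => bMem (opair (chk (BB P) a) (opair n m)) R)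
      (fun m => ext1_tri_mid _ m R) (fun n => ext1_tri_right _ n R), hhb a, fnm_rel hhm,
      at_psi (chk (BB P) a) R (fnm hh)] with F a1 a2 a3 a4 hF
    have h2 := a1.1 hF
    have h3 : ∀ n, ∃! m, relAt F (fa a) n m := by
      intro n
      simpa only [hfa] using h2 n
    refine a4 ?_
    obtain ⟨k, hk⟩ := a2
    refine ⟨k, fun n hn m m' hm hm' => ?_⟩
    rw [← hfa, gOf_spec h3] at hm
    rw [a3] at hm'
    rw [← hm, ← hm']
    exact hk n hn

end Pool.Agent.Lib.MP_f6e1de_lc
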