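import Mathlib

/-! Tuples of `2^i` numbers below `4^i`, coded as numbers below `(4^i)^(2^i)` (Mathlib only).

PROOFS. `card_dig`: `v ↦ (s ↦ dig i v s)` is injective on `v < (4^i)^(2^i)` (base `4^i` digits, e.g. by
`Nat.ofDigits`/induction on the number of digits: `v = v % B + B * (v / B)`), with values in the functions
`Fin (2^i) → range (4^i) \ W`. A clean way: prove by induction on `k` that for `B > 0` and
`W ⊆ range B` the set of `v < B^k` with `∀ s < k, v / B^s % B ∉ W` has card `≤ (B - W.card)^k`.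
`rate`: for `2i ≥ r` `4^i / 2^r = 2^(2i-r)` exactly, `rt r i = (4^i)^(2^i) * (1 - 2^(-r))^(2^i)`, and
`(1 - 2^(-r))^(2^i) → 0` (`tendsto_pow_atTop_nhds_zero_of_lt_one`, `2^i → ∞`); work in `ℝ`. -/

namespace Pool.Agent.Lib.MP_f6e1de_lc

/-- The `s`-th entry of the tuple `v`. -/
def dig (i v s : ℕ) : ℕ := v / (4 ^ i) ^ s % 4 ^ i

/-- The number of tuples. -/
def Mi (i : ℕ) : ℕ := (4 ^ i) ^ (2 ^ i)

/-- Bound for the number of tuples that avoid a set of density `≥ 2^(-r)`. -/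
def rt (r i : ℕ) : ℕ := (4 ^ i - 4 ^ i / 2 ^ r) ^ (2 ^ i)

theorem Mi_pos (i : ℕ) : 0 < Mi i := pow_pos (pow_pos (by norm_num) _) _

theorem dig_lt (i v s : ℕ) : dig i v s < 4 ^ i := Nat.mod_lt _ (pow_pos (by norm_num) _)

private theorem card_aux {B : ℕ} (hB : 0 < B) (W : Finset ℕ) (hW : W ⊆ Finset.range B) (k : ℕ) :
    ((Finset.range (B ^ k)).filter (fun v => ∀ s < k, v / B ^ s % B ∉ W)).card ≤
      (B - W.card) ^ k := by
  induction k with
  | zero =>
    refine (Finset.card_filter_le _ _).trans ?_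
    simp
  | succ k ih =>
    have h1 : (Finset.range B \ W).card = B - W.card := by
      rw [Finset.card_sdiff_of_subset hW, Finset.card_range]
    have h2 : ((Finset.range (B ^ (k + 1))).filter
        (fun v => ∀ s < k + 1, v / B ^ s % B ∉ W)).card ≤ ((Finset.range B \ W) ×ˢ
          ((Finset.range (B ^ k)).filter (fun v => ∀ s < k, v / B ^ s % B ∉ W))).card := by
      refine Finset.card_le_card_of_injOn (fun v => (v % B, v / B)) ?_ ?_
      · intro v hv
        rw [Finset.mem_coe, Finset.mem_filter, Finset.mem_range] at hv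
        simp only [Finset.coe_product, Set.mem_prod, Finset.mem_coe, Finset.mem_sdiff,
          Finset.mem_range, Finset.mem_filter]
        refine ⟨⟨Nat.mod_lt _ hB, ?_⟩, ?_, fun s hs => ?_⟩
        · have h3 := hv.2 0 (Nat.succ_pos k)
          rwa [pow_zero, Nat.div_one] at h3
        · refine Nat.div_lt_of_lt_mul ?_
          rw [← pow_succ']
          exact hv.1
        · have h3 := hv.2 (s + 1) (Nat.succ_lt_succ hs)
          rwa [pow_succ', ← Nat.div_div_eq_div_mul] at h3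
      · intro v _ w _ h
        have h3 : v % B = w % B := congrArg Prod.fst h
        have h4 : v / B = w / B := congrArg Prod.snd h
        rw [← Nat.mod_add_div v B, ← Nat.mod_add_div w B, h3, h4]
    refine h2.trans ?_
    rw [Finset.card_product, h1, pow_succ']
    exact Nat.mul_le_mul_left _ ih

theorem card_dig (i : ℕ) (W : Finset ℕ) (hW : W ⊆ Finset.range (4 ^ i)) :
    ((Finset.range (Mi i)).filter (fun v => ∀ s < 2 ^ i, dig i v s ∉ W)).card ≤
      (4 ^ i - W.card) ^ (2 ^ i) :=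
  card_aux (pow_pos (by norm_num) _) W hW (2 ^ i)

theorem rate (r e : ℕ) : ∃ i0, ∀ i ≥ i0, e * rt r i < Mi i := by
  have h0 : (0 : ℝ) ≤ 1 - (1 / 2) ^ r := by
    have : ((1 : ℝ) / 2) ^ r ≤ 1 := pow_le_one₀ (by norm_num) (by norm_num)
    linarith
  have h1 : (1 : ℝ) - (1 / 2) ^ r < 1 := by
    have : (0 : ℝ) < (1 / 2) ^ r := by positivity
    linarith
  have h2 : Filter.Tendsto (fun i : ℕ => (e : ℝ) * (1 - (1 / 2 : ℝ) ^ r) ^ (2 ^ i))
      Filter.atTop (nhds ((e : ℝ) * 0)) := by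
    refine Filter.Tendsto.const_mul _ ?_
    exact (tendsto_pow_atTop_nhds_zero_of_lt_one h0 h1).comp
      (tendsto_pow_atTop_atTop_of_one_lt (by norm_num))
  rw [mul_zero] at h2
  obtain ⟨i1, hi1⟩ := Filter.eventually_atTop.1 (h2.eventually (gt_mem_nhds one_pos))
  refine ⟨max i1 r, fun i hi => ?_⟩
  have hir : r ≤ i := le_trans (le_max_right _ _) hi
  have h3 := hi1 i (le_trans (le_max_left _ _) hi)
  have h4 : 4 ^ i = 2 ^ r * 2 ^ (2 * i - r) := by
    rw [← pow_add, show r + (2 * i - r) = 2 * i by omega, pow_mul]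
    norm_num
  have h5 : 4 ^ i / 2 ^ r = 2 ^ (2 * i - r) := by
    rw [h4]
    exact Nat.mul_div_cancel_left _ (pow_pos (by norm_num) _)
  have h6 : (((4 ^ i - 4 ^ i / 2 ^ r : ℕ)) : ℝ) = 4 ^ i * (1 - (1 / 2) ^ r) := by
    rw [Nat.cast_sub (Nat.div_le_self _ _), h5]
    push_cast
    have h7 : (4 : ℝ) ^ i = 2 ^ r * 2 ^ (2 * i - r) := by exact_mod_cast h4
    have h8 : (2 : ℝ) ^ r * (1 / 2) ^ r = 1 := by
      rw [← mul_pow]
      norm_num
    rw [h7]
    linear_combination ((2 : ℝ) ^ (2 * i - r)) * h8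
  have h7 : ((e * rt r i : ℕ) : ℝ) < ((Mi i : ℕ) : ℝ) := by
    rw [rt, Mi]
    push_cast [h6]
    rw [mul_pow]
    have h8 : (0 : ℝ) < ((4 : ℝ) ^ i) ^ (2 ^ i) := by positivity
    calc (e : ℝ) * (((4 : ℝ) ^ i) ^ (2 ^ i) * (1 - (1 / 2) ^ r) ^ (2 ^ i))
        = ((4 : ℝ) ^ i) ^ (2 ^ i) * (e * (1 - (1 / 2) ^ r) ^ (2 ^ i)) := by ring
      _ < ((4 : ℝ) ^ i) ^ (2 ^ i) * 1 := mul_lt_mul_of_pos_left h3 h8
      _ = _ := mul_one _
  exact_mod_cast h7

end Pool.Agent.Lib.MP_f6e1de_lc
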