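import Mathlib
import Pool.Agent.Lib.BVM.Meas

/-! Measurability helpers for maps from the space of points to discrete data (`P` any preorder).

PROOFS. `meas_apply`: `{F | g F (a F) = v} = ⋃_m {a F = m} ∩ {g F m = v}`. `meas_disc`: any function of a
measurable map to a countable space with all sets measurable is measurable. `meas_disc2`: pairs.
`meas_sup`: `{F | sup ≤ v} = ⋂_i ({a F < i}... )`, or `(range (a F + 1)).sup (g F)` through `meas_apply` for the
measurable map `F ↦ (m ↦ (range (m+1)).sup (g F))`. `meas_exists`/`meas_forall`: countable unions and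
intersections. `meas_find`: `{F | least n with Q F n is n} = Q n \ ⋃_{m<n} Q m`. -/

namespace Pool.Agent.Lib.MP_f6e1de_lc

open Pool.Agent.Lib.BVM

variable {P : Type} [Preorder P]

theorem meas_apply {g : Pt P → ℕ → ℕ} (hg : Measurable g) {a : Pt P → ℕ} (ha : Measurable a) :
    Measurable (fun F => g F (a F)) := by
  refine measurable_to_countable' fun v => ?_
  have h : (fun F => g F (a F)) ⁻¹' {v} = ⋃ m : ℕ, {F | a F = m} ∩ {F | g F m = v} := by
    ext F
    simp only [Set.mem_preimage, Set.mem_singleton_iff, Set.mem_iUnion, Set.mem_inter_iff,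
      Set.mem_ofPred_eq]
    constructor
    · intro h
      exact ⟨a F, rfl, h⟩
    · rintro ⟨m, rfl, h⟩
      exact h
  rw [h]
  exact MeasurableSet.iUnion fun m => (ha (measurableSet_singleton m)).inter
    (measurableSet_level hg m v)

theorem meas_disc {α β : Type} [Countable α] [MeasurableSpace α] [DiscreteMeasurableSpace α]
    [MeasurableSpace β] {a : Pt P → α} (ha : Measurable a) (φ : α → β) :
    Measurable (fun F => φ (a F)) :=
  Measurable.of_discrete.comp ha

theorem meas_disc2 {a b : Pt P → ℕ} (ha : Measurable a) (hb : Measurable b) {β : Type}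
    [MeasurableSpace β] (φ : ℕ → ℕ → β) : Measurable (fun F => φ (a F) (b F)) := by
  have h : Measurable (fun p : ℕ × ℕ => φ p.1 p.2) := measurable_of_countable _
  exact h.comp (ha.prodMk hb)

theorem meas_disc3 {a b c : Pt P → ℕ} (ha : Measurable a) (hb : Measurable b) (hc : Measurable c)
    {β : Type} [MeasurableSpace β] (φ : ℕ → ℕ → ℕ → β) :
    Measurable (fun F => φ (a F) (b F) (c F)) := by
  have h : Measurable (fun p : ℕ × ℕ × ℕ => φ p.1 p.2.1 p.2.2) := measurable_of_countable _
  exact h.comp (ha.prodMk (hb.prodMk hc))

/-- Running maximum. -/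
theorem meas_sup {g : Pt P → ℕ → ℕ} (hg : Measurable g) :
    Measurable (fun F n => (Finset.range (n + 1)).sup (g F)) := by
  rw [measurable_pi_iff]
  intro n
  have key : ∀ n : ℕ, Measurable (fun F => (Finset.range n).sup (g F)) := by
    intro n
    induction n with
    | zero => simp
    | succ n ih =>
      have h1 : Measurable (fun F => g F n) := (measurable_pi_apply n).comp hg
      have h2 := meas_disc2 h1 ih (fun x y => x ⊔ y)
      have h3 : (fun F => (Finset.range (n + 1)).sup (g F)) =
          fun F => g F n ⊔ (Finset.range n).sup (g F) := by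
        funext F
        rw [Finset.range_add_one, Finset.sup_insert]
      rw [h3]
      exact h2
  exact key (n + 1)

/-- Boolean sequences: measurable iff all bits are. -/
theorem meas_bits {y : Pt P → ℕ → Bool} :
    Measurable y ↔ ∀ i, MeasurableSet {F | y F i = true} := by
  constructor
  · intro h i
    exact measurableSet_level h i true
  · intro h
    refine measurable_of_level fun i a => ?_
    cases a
    · have h1 : {F | y F i = false} = {F | y F i = true}ᶜ := by
        ext F
        simp
      rw [h1]
      exact (h i).compl
    · exact h i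

theorem meas_eq {a b : Pt P → ℕ} (ha : Measurable a) (hb : Measurable b) :
    MeasurableSet {F | a F = b F} := by
  have h := meas_disc2 ha hb (fun x y => decide (x = y))
  have h1 := h (measurableSet_singleton true)
  have h2 : {F | a F = b F} = (fun F => decide (a F = b F)) ⁻¹' {true} := by
    ext F
    simp
  rw [h2]
  exact h1

/-- Bits compared up to a variable bound. -/
theorem meas_agree {y z : Pt P → ℕ → Bool} (hy : ∀ i, MeasurableSet {F | y F i = true})
    (hz : ∀ i, MeasurableSet {F | z F i = true}) {a : Pt P → ℕ} (ha : Measurable a) :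
    MeasurableSet {F | ∀ i < a F, y F i = z F i} := by
  have h1 : ∀ i, MeasurableSet {F | i < a F} := by
    intro i
    have h2 : {F | i < a F} = (fun F => decide (i < a F)) ⁻¹' {true} := by
      ext F
      simp
    rw [h2]
    exact meas_disc ha (fun x => decide (i < x)) (measurableSet_singleton true)
  have h3 : {F | ∀ i < a F, y F i = z F i} =
      ⋂ i : ℕ, ({F | i < a F}ᶜ ∪ (({F | y F i = true} ∩ {F | z F i = true}) ∪
        ({F | y F i = true}ᶜ ∩ {F | z F i = true}ᶜ))) := by
    ext F
    simp only [Set.mem_ofPred_eq, Set.mem_iInter, Set.mem_union, Set.mem_compl_iff,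
      Set.mem_inter_iff]
    refine forall_congr' fun i => ?_
    by_cases h4 : i < a F
    · cases hy' : y F i <;> cases hz' : z F i <;> simp [h4]
    · simp [h4]
  rw [h3]
  exact MeasurableSet.iInter fun i => (h1 i).compl.union
    (((hy i).inter (hz i)).union ((hy i).compl.inter (hz i).compl))

open Classical in
/-- Least number with a measurable property (`0` if there is none). -/
theorem meas_find {Q : Pt P → ℕ → Prop} (hQ : ∀ n, MeasurableSet {F | Q F n}) :
    Measurable (fun F => if h : ∃ n, Q F n then Nat.find h else 0) := by
  refine measurable_to_countable' fun v => ?_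
  have h : (fun F => if h : ∃ n, Q F n then Nat.find h else 0) ⁻¹' {v} =
      ({F | Q F v} ∩ ⋂ m : ℕ, ⋂ _ : m < v, {F | Q F m}ᶜ) ∪
        (if v = 0 then ⋂ m : ℕ, {F | Q F m}ᶜ else ∅) := by
    ext F
    rw [Set.mem_preimage, Set.mem_singleton_iff]
    by_cases hF : ∃ n, Q F n
    · rw [dif_pos hF, Nat.find_eq_iff]
      constructor
      · rintro ⟨h1, h2⟩
        left
        refine ⟨h1, ?_⟩
        simp only [Set.mem_iInter]
        intro m hm
        exact h2 m hm
      · rintro (⟨h1, h2⟩ | h2)
        · simp only [Set.mem_iInter] at h2
          exact ⟨h1, fun m hm => h2 m hm⟩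
        · exfalso
          split_ifs at h2
          · simp only [Set.mem_iInter] at h2
            obtain ⟨n, hn⟩ := hF
            exact h2 n hn
          · exact h2
    · rw [dif_neg hF]
      have hF' : ∀ n, ¬ Q F n := fun n hn => hF ⟨n, hn⟩
      constructor
      · rintro rfl
        right
        rw [if_pos rfl]
        simp only [Set.mem_iInter]
        intro m
        exact hF' m
      · rintro (⟨h1, h2⟩ | h2)
        · exact absurd h1 (hF' v)
        · split_ifs at h2 with hv
          · exact hv.symm
          · exact absurd h2 (Set.notMem_empty _)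
  rw [h]
  refine ((hQ v).inter (MeasurableSet.iInter fun m => MeasurableSet.iInter fun _ =>
    (hQ m).compl)).union ?_
  split_ifs
  · exact MeasurableSet.iInter fun m => (hQ m).compl
  · exact MeasurableSet.empty

end Pool.Agent.Lib.MP_f6e1de_lc
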