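import Mathlib
import Pool.Agent.Lib.MP_f6e1de_lc.XDefs
import Pool.Agent.Lib.MP_f6e1de_lc.MeasLem
import Pool.Agent.Lib.MP_f6e1de_lc.Dig

/-! The set of the reals `y` with `y | 2i` in the range of the tuple `x i` for infinitely many `i` has
measure zero.

PROOF of `nullx_of`. Given `k`. For `N : ℕ` let `L = N + 2^(k+1)`, `i = Nat.log 2 L ≥ k+1`, `s = L - 2^i < 2^i`
(every pair `i ≥ k+1`, `s < 2^i` is obtained exactly once: `L = 2^i + s`). Put `l F N = 2 * i`,
`z F N j = (dig i (x F i) s).testBit j`, `u F N j = (j = i - 1) || (i ≤ j && s.testBit (j - i))` (constant in `F`).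
Covering: if `At F (bet {Qinf})` then `Qinf (x F) (y F)` (`at_bet`, `meas_Qinf`), take `m = k+1`.
Packing: `k ≤ 2i`; `u N j = false` for `j < k` because `j < k ≤ i - 1`. Disjointness, `N ≠ N'`: if
`i = i'` then `s ≠ s'` differ in a bit `t < i` (`Nat.testBit_lt_two_pow`, `Nat.eq_of_testBit_eq`), position `i + t < 2i`;
if `i < i'` position `j = i - 1 < i' - 1`: `u N j = true`, `u N' j = false`. Measurability: `meas_disc`.
`meas_Qinf`: countable unions and intersections, `{F | y F j = (dig i (x F i) s).testBit j}` measurable. -/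

namespace Pool.Agent.Lib.MP_f6e1de_lc

open Pool.Agent.Lib.BVM

variable {P : Type} [Preorder P]

/-- Infinitely often `y | 2i` is an entry of the tuple `x i`. -/
def Qinf (x : ℕ → ℕ) (y : ℕ → Bool) : Prop :=
  ∀ m, ∃ i ≥ m, ∃ s < 2 ^ i, ∀ j < 2 * i, y j = (dig i (x i) s).testBit j

private def NE_i (k N : ℕ) : ℕ := Nat.log 2 (N + 2 ^ (k + 1))

private def NE_s (k N : ℕ) : ℕ := N + 2 ^ (k + 1) - 2 ^ NE_i k N

private def NE_u (k N j : ℕ) : Bool :=
  decide (j = NE_i k N - 1) || (decide (NE_i k N ≤ j) && (NE_s k N).testBit (j - NE_i k N))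

private theorem NE_pos (k N : ℕ) : N + 2 ^ (k + 1) ≠ 0 := by
  have : 0 < 2 ^ (k + 1) := pow_pos (by norm_num) _
  omega

private theorem NE_le (k N : ℕ) : 2 ^ NE_i k N ≤ N + 2 ^ (k + 1) :=
  Nat.pow_log_le_self 2 (NE_pos k N)

private theorem NE_lt (k N : ℕ) : N + 2 ^ (k + 1) < 2 * 2 ^ NE_i k N := by
  have h : N + 2 ^ (k + 1) < 2 ^ (NE_i k N + 1) :=
    Nat.lt_pow_succ_log_self (b := 2) (by norm_num) (N + 2 ^ (k + 1))
  have e : 2 ^ (NE_i k N + 1) = 2 * 2 ^ NE_i k N := by ring
  rw [← e]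
  exact h

private theorem NE_ki (k N : ℕ) : k + 1 ≤ NE_i k N :=
  Nat.le_log_of_pow_le (by norm_num) (Nat.le_add_left _ _)

private theorem NE_slt (k N : ℕ) : NE_s k N < 2 ^ NE_i k N := by
  have h1 := NE_le k N
  have h2 := NE_lt k N
  unfold NE_s
  omega

private theorem NE_inj {k N N' : ℕ} (h1 : NE_i k N = NE_i k N') (h2 : NE_s k N = NE_s k N') :
    N = N' := by
  have a1 := NE_le k N
  have a2 := NE_le k N'
  unfold NE_s at h2
  rw [h1] at h2 a1
  omega

private theorem NE_surj {k i s : ℕ} (hi : k + 1 ≤ i) (hs : s < 2 ^ i) :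
    ∃ N, NE_i k N = i ∧ NE_s k N = s := by
  have h1 : 2 ^ (k + 1) ≤ 2 ^ i := Nat.pow_le_pow_right (by norm_num) hi
  have h2 : 2 ^ i + s - 2 ^ (k + 1) + 2 ^ (k + 1) = 2 ^ i + s := by omega
  have h3 : NE_i k (2 ^ i + s - 2 ^ (k + 1)) = i := by
    unfold NE_i
    rw [h2]
    refine Nat.log_eq_of_pow_le_of_lt_pow (by omega) ?_
    rw [Nat.pow_succ]
    omega
  refine ⟨2 ^ i + s - 2 ^ (k + 1), h3, ?_⟩
  unfold NE_s
  rw [h3, h2]
  omega

private theorem NE_packed (k : ℕ) : PackedX k (fun N => 2 * NE_i k N) (NE_u k) := by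
  constructor
  · intro N
    have h := NE_ki k N
    refine ⟨by dsimp only; omega, fun j hj => ?_⟩
    have h1 : ¬ j = NE_i k N - 1 := by omega
    have h2 : ¬ NE_i k N ≤ j := by omega
    simp [NE_u, h1, h2]
  · intro N N' hne
    have h := NE_ki k N
    have h' := NE_ki k N'
    dsimp only
    rcases lt_trichotomy (NE_i k N) (NE_i k N') with hlt | heq | hgt
    · refine ⟨NE_i k N - 1, by omega, by omega, ?_⟩
      have h2 : ¬ NE_i k N - 1 = NE_i k N' - 1 := by omega
      have h3 : ¬ NE_i k N' ≤ NE_i k N - 1 := by omega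
      simp [NE_u, h2, h3]
    · have hs : NE_s k N ≠ NE_s k N' := fun e => hne (NE_inj heq e)
      obtain ⟨t, ht⟩ := Nat.exists_testBit_ne_of_ne hs
      have hti : t < NE_i k N := by
        by_contra hcon
        have b1 : (NE_s k N).testBit t = false := Nat.testBit_lt_two_pow
          ((NE_slt k N).trans_le (Nat.pow_le_pow_right (by norm_num) (by omega)))
        have b2 : (NE_s k N').testBit t = false := Nat.testBit_lt_two_pow
          ((NE_slt k N').trans_le (Nat.pow_le_pow_right (by norm_num) (by omega)))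
        rw [b1, b2] at ht
        exact ht rfl
      refine ⟨NE_i k N + t, by omega, by omega, ?_⟩
      have h1 : ¬ NE_i k N + t = NE_i k N - 1 := by omega
      have h2 : ¬ NE_i k N + t = NE_i k N' - 1 := by omega
      have h3 : NE_i k N' ≤ NE_i k N + t := by omega
      have h4 : NE_i k N + t - NE_i k N' = t := by omega
      have e1 : NE_u k N (NE_i k N + t) = (NE_s k N).testBit t := by
        simp [NE_u, h1]
      have e2 : NE_u k N' (NE_i k N + t) = (NE_s k N').testBit t := by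
        simp [NE_u, h2, h3, h4]
      rw [e1, e2]
      exact ht
    · refine ⟨NE_i k N' - 1, by omega, by omega, ?_⟩
      have h2 : ¬ NE_i k N' - 1 = NE_i k N - 1 := by omega
      have h3 : ¬ NE_i k N ≤ NE_i k N' - 1 := by omega
      simp [NE_u, h2, h3]

theorem meas_Qinf {x : Pt P → ℕ → ℕ} (hx : Measurable x) {y : Pt P → ℕ → Bool}
    (hy : Measurable y) : MeasurableSet {F | Qinf (x F) (y F)} := by
  have h0 : ∀ i s j, MeasurableSet {F : Pt P | y F j = (dig i (x F i) s).testBit j} := by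
    intro i s j
    have h1 : Measurable (fun F : Pt P => (y F j, x F i)) :=
      ((measurable_pi_apply j).comp hy).prodMk ((measurable_pi_apply i).comp hx)
    exact h1 (MeasurableSet.of_discrete (s := {q : Bool × ℕ | q.1 = (dig i q.2 s).testBit j}))
  have e : {F : Pt P | Qinf (x F) (y F)} = ⋂ m : ℕ, ⋃ i : ℕ, ⋃ _ : i ≥ m, ⋃ s : ℕ,
      ⋃ _ : s < 2 ^ i, ⋂ j : ℕ, ⋂ _ : j < 2 * i,
        {F : Pt P | y F j = (dig i (x F i) s).testBit j} := by
    ext F
    simp only [Qinf, Set.mem_ofPred_eq, Set.mem_iInter, Set.mem_iUnion, exists_prop]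
  rw [e]
  refine MeasurableSet.iInter fun m => MeasurableSet.iUnion fun i => MeasurableSet.iUnion fun _ =>
    MeasurableSet.iUnion fun s => MeasurableSet.iUnion fun _ => MeasurableSet.iInter fun j =>
      MeasurableSet.iInter fun _ => h0 i s j

theorem nullx_of {x : Pt P → ℕ → ℕ} (hx : Measurable x) :
    NullX (⊤ : BB P) (fun y => bet {F | Qinf (x F) (y F)}) := by
  intro k
  refine ⟨fun _ N => 2 * NE_i k N,
    fun F N j => (dig (NE_i k N) (x F (NE_i k N)) (NE_s k N)).testBit j, fun _ => NE_u k,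
    measurable_const, ?_, ?_, ?_, ?_⟩
  · intro N j
    have h1 : Measurable (fun F : Pt P => x F (NE_i k N)) := (measurable_pi_apply _).comp hx
    exact h1 (MeasurableSet.of_discrete
      (s := {v : ℕ | (dig (NE_i k N) v (NE_s k N)).testBit j = true}))
  · intro N j
    exact MeasurableSet.const _
  · intro y hy
    filter_upwards [measurableSet_at_bet (meas_Qinf hx hy)] with F h1 _ h2
    obtain ⟨i, hi, s, hs, h3⟩ := h1.1 h2 (k + 1)
    obtain ⟨N, hN1, hN2⟩ := NE_surj hi hs
    refine ⟨N, fun j hj => ?_⟩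
    rw [hN1] at hj
    rw [hN1, hN2]
    exact h3 j hj
  · exact Filter.Eventually.of_forall fun F _ => NE_packed k

theorem extx_of {x : Pt P → ℕ → ℕ} (hx : Measurable x) :
    ExtX (P := P) (fun y => bet {F | Qinf (x F) (y F)}) := by
  intro y y' hy hy'
  filter_upwards [measurableSet_at_bet (meas_Qinf hx hy),
    measurableSet_at_bet (meas_Qinf hx hy')] with F h1 h2 e h3
  refine h2.2 ?_
  have h4 : Qinf (x F) (y F) := h1.1 h3
  rw [e] at h4
  exact h4

end Pool.Agent.Lib.MP_f6e1de_lc
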