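import Mathlib
import Pool.Agent.Lib.MP_f6e1de_lc.NullEasy

/-! Baire category construction of a point, measurably in the parameter.

PROOF. `Nat.pair` codes: a state is a node code `a = pair n σ`. For `F`, a state `a = pair n σ` and `k : ℕ` let
`nxt F k a` be the node `pair (2i) (dig i (x F i) s)` for the least `w = pair i s` with `k ≤ i`, `n ≤ 2i`,
`s < 2^i`, `∀ j < n, (dig i (x F i) s).testBit j = σ.testBit j` and `pos F (2i) (dig i (x F i) s)`; if there is
none, `nxt = a`. `st F 0 = pair 0 0`, `st F (k+1) = nxt F (k+1) (st F k)`. `F ↦ st F k` is measurable by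
induction (`meas_find` for fixed `a`, then `meas_apply`). `y F j = (unpair (st F (j+1))).2.testBit j`.
If `Good (pos F) (x F)`: by induction `st F k = pair n_k σ_k` with `pos F n_k σ_k`, `n_k ≥ 2k`, and `σ_{k+1}` extends
`σ_k` on the first `n_k` bits. So `y F j = σ_k.testBit j` whenever `j < n_k` (compare `k` and `j+1` through
the larger one; `n_{j+1} ≥ 2(j+1) > j`). Hence for every `k ≥ 1` with `i` the index chosen at step
`k` (`i ≥ k`): `y F j = (dig i (x F i) s).testBit j` for `j < 2i`. -/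

namespace Pool.Agent.Lib.MP_f6e1de_lc

open Pool.Agent.Lib.BVM

variable {P : Type} [Preorder P]

/-- Every good node has good extensions among the entries of `x`. -/
def Good (pos : ℕ → ℕ → Prop) (x : ℕ → ℕ) : Prop :=
  pos 0 0 ∧ ∀ n σ, pos n σ → ∀ m, ∃ i ≥ m, n ≤ 2 * i ∧ ∃ s < 2 ^ i,
    (∀ j < n, (dig i (x i) s).testBit j = σ.testBit j) ∧ pos (2 * i) (dig i (x i) s)

/-- substitution of a measurable number -/
private theorem meas_subst {Q : Pt P → ℕ → Prop} (hQ : ∀ v, MeasurableSet {F | Q F v})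
    {b : Pt P → ℕ} (hb : Measurable b) : MeasurableSet {F | Q F (b F)} := by
  have h : {F | Q F (b F)} = ⋃ v : ℕ, {F | b F = v} ∩ {F | Q F v} := by
    ext F
    simp only [Set.mem_iUnion, Set.mem_inter_iff, Set.mem_ofPred_eq]
    constructor
    · intro h
      exact ⟨b F, rfl, h⟩
    · rintro ⟨v, rfl, h⟩
      exact h
  rw [h]
  exact MeasurableSet.iUnion fun v => (hb (measurableSet_singleton v)).inter (hQ v)

/-- the property of the next node -/
private def CC (pos : Pt P → ℕ → ℕ → Prop) (x : Pt P → ℕ → ℕ) (k a : ℕ) (F : Pt P) (w : ℕ) :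
    Prop :=
  (k ≤ (Nat.unpair w).1 ∧ (Nat.unpair a).1 ≤ 2 * (Nat.unpair w).1 ∧
    (Nat.unpair w).2 < 2 ^ (Nat.unpair w).1) ∧
    ((∀ j < (Nat.unpair a).1, (dig (Nat.unpair w).1 (x F (Nat.unpair w).1)
      (Nat.unpair w).2).testBit j = (Nat.unpair a).2.testBit j) ∧
    pos F (2 * (Nat.unpair w).1) (dig (Nat.unpair w).1 (x F (Nat.unpair w).1) (Nat.unpair w).2))

private theorem meas_CC {pos : Pt P → ℕ → ℕ → Prop}
    (hpos : ∀ n σ, MeasurableSet {F | pos F n σ}) {x : Pt P → ℕ → ℕ} (hx : Measurable x)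
    (k a w : ℕ) : MeasurableSet {F | CC pos x k a F w} := by
  have hb : Measurable (fun F => x F (Nat.unpair w).1) := (measurable_pi_apply _).comp hx
  exact meas_subst (Q := fun (F : Pt P) (v : ℕ) =>
      (k ≤ (Nat.unpair w).1 ∧ (Nat.unpair a).1 ≤ 2 * (Nat.unpair w).1 ∧
        (Nat.unpair w).2 < 2 ^ (Nat.unpair w).1) ∧
        ((∀ j < (Nat.unpair a).1, (dig (Nat.unpair w).1 v
          (Nat.unpair w).2).testBit j = (Nat.unpair a).2.testBit j) ∧
        pos F (2 * (Nat.unpair w).1) (dig (Nat.unpair w).1 v (Nat.unpair w).2)))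
    (fun v => (MeasurableSet.const _).inter ((MeasurableSet.const _).inter (hpos _ _))) hb

open Classical in
/-- the code of the next node -/
private noncomputable def wit (pos : Pt P → ℕ → ℕ → Prop) (x : Pt P → ℕ → ℕ) (k : ℕ) (F : Pt P)
    (a : ℕ) : ℕ :=
  if h : ∃ w, CC pos x k a F w then Nat.find h else 0

private theorem wit_spec {pos : Pt P → ℕ → ℕ → Prop} {x : Pt P → ℕ → ℕ} {k : ℕ} {F : Pt P} {a : ℕ}
    (h : ∃ w, CC pos x k a F w) : CC pos x k a F (wit pos x k F a) := by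
  classical
  have h1 : wit pos x k F a = Nat.find h := by
    unfold wit
    rw [dif_pos h]
  rw [h1]
  exact Nat.find_spec h

private theorem meas_wit {pos : Pt P → ℕ → ℕ → Prop}
    (hpos : ∀ n σ, MeasurableSet {F | pos F n σ}) {x : Pt P → ℕ → ℕ} (hx : Measurable x)
    (k a : ℕ) : Measurable (fun F => wit pos x k F a) :=
  meas_find (fun w => meas_CC hpos hx k a w)

/-- the next node -/
private noncomputable def nxt (pos : Pt P → ℕ → ℕ → Prop) (x : Pt P → ℕ → ℕ) (k : ℕ) (F : Pt P)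
    (a : ℕ) : ℕ :=
  Nat.pair (2 * (Nat.unpair (wit pos x k F a)).1)
    (dig (Nat.unpair (wit pos x k F a)).1 (x F (Nat.unpair (wit pos x k F a)).1)
      (Nat.unpair (wit pos x k F a)).2)

private theorem meas_nxt {pos : Pt P → ℕ → ℕ → Prop}
    (hpos : ∀ n σ, MeasurableSet {F | pos F n σ}) {x : Pt P → ℕ → ℕ} (hx : Measurable x)
    (k : ℕ) : Measurable (fun F => nxt pos x k F) := by
  rw [measurable_pi_iff]
  intro a
  have hw := meas_wit hpos hx k a
  have h1 : Measurable (fun F => (Nat.unpair (wit pos x k F a)).1) :=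
    meas_disc hw (fun w => (Nat.unpair w).1)
  have h2 : Measurable (fun F => x F (Nat.unpair (wit pos x k F a)).1) := meas_apply hx h1
  exact meas_disc2 hw h2 (fun w v => Nat.pair (2 * (Nat.unpair w).1)
    (dig (Nat.unpair w).1 v (Nat.unpair w).2))

/-- the sequence of nodes -/
private noncomputable def st (pos : Pt P → ℕ → ℕ → Prop) (x : Pt P → ℕ → ℕ) (F : Pt P) : ℕ → ℕ
  | 0 => Nat.pair 0 0
  | k + 1 => nxt pos x (k + 1) F (st pos x F k)

private theorem meas_st {pos : Pt P → ℕ → ℕ → Prop}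
    (hpos : ∀ n σ, MeasurableSet {F | pos F n σ}) {x : Pt P → ℕ → ℕ} (hx : Measurable x)
    (k : ℕ) : Measurable (fun F => st pos x F k) := by
  induction k with
  | zero => exact measurable_const
  | succ k ih => exact meas_apply (meas_nxt hpos hx (k + 1)) ih

private theorem step {pos : Pt P → ℕ → ℕ → Prop} {x : Pt P → ℕ → ℕ} {F : Pt P}
    (hG : Good (pos F) (x F)) (k : ℕ)
    (h : pos F (Nat.unpair (st pos x F k)).1 (Nat.unpair (st pos x F k)).2) :
    ∃ i s, k + 1 ≤ i ∧ (Nat.unpair (st pos x F k)).1 ≤ 2 * i ∧ s < 2 ^ i ∧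
      (Nat.unpair (st pos x F (k + 1))).1 = 2 * i ∧
      (Nat.unpair (st pos x F (k + 1))).2 = dig i (x F i) s ∧
      (∀ j < (Nat.unpair (st pos x F k)).1, (Nat.unpair (st pos x F (k + 1))).2.testBit j =
        (Nat.unpair (st pos x F k)).2.testBit j) ∧
      pos F (Nat.unpair (st pos x F (k + 1))).1 (Nat.unpair (st pos x F (k + 1))).2 := by
  obtain ⟨i, hi, hn, s, hs, hbit, hp⟩ := hG.2 _ _ h (k + 1)
  have hex : ∃ w, CC pos x (k + 1) (st pos x F k) F w := by
    refine ⟨Nat.pair i s, ?_⟩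
    unfold CC
    rw [Nat.unpair_pair]
    exact ⟨⟨hi, hn, hs⟩, hbit, hp⟩
  obtain ⟨⟨h1, h2, h3⟩, h4, h5⟩ := wit_spec hex
  have hst : st pos x F (k + 1) = nxt pos x (k + 1) F (st pos x F k) := rfl
  refine ⟨(Nat.unpair (wit pos x (k + 1) F (st pos x F k))).1,
    (Nat.unpair (wit pos x (k + 1) F (st pos x F k))).2, h1, h2, h3, ?_, ?_, ?_, ?_⟩
  · rw [hst, nxt, Nat.unpair_pair]
  · rw [hst, nxt, Nat.unpair_pair]
  · rw [hst, nxt, Nat.unpair_pair]
    exact h4
  · rw [hst, nxt, Nat.unpair_pair]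
    exact h5

private theorem st_pos {pos : Pt P → ℕ → ℕ → Prop} {x : Pt P → ℕ → ℕ} {F : Pt P}
    (hG : Good (pos F) (x F)) (k : ℕ) :
    pos F (Nat.unpair (st pos x F k)).1 (Nat.unpair (st pos x F k)).2 := by
  induction k with
  | zero =>
    have : st pos x F 0 = Nat.pair 0 0 := rfl
    rw [this, Nat.unpair_pair]
    exact hG.1
  | succ k ih =>
    obtain ⟨i, s, -, -, -, -, -, -, h⟩ := step hG k ih
    exact h

private theorem st_len {pos : Pt P → ℕ → ℕ → Prop} {x : Pt P → ℕ → ℕ} {F : Pt P}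
    (hG : Good (pos F) (x F)) (k : ℕ) : 2 * k ≤ (Nat.unpair (st pos x F k)).1 := by
  cases k with
  | zero => exact Nat.zero_le _
  | succ k =>
    obtain ⟨i, s, h1, -, -, h2, -⟩ := step hG k (st_pos hG k)
    omega

private theorem st_ext {pos : Pt P → ℕ → ℕ → Prop} {x : Pt P → ℕ → ℕ} {F : Pt P}
    (hG : Good (pos F) (x F)) (k d : ℕ) :
    (Nat.unpair (st pos x F k)).1 ≤ (Nat.unpair (st pos x F (k + d))).1 ∧
    ∀ j < (Nat.unpair (st pos x F k)).1, (Nat.unpair (st pos x F (k + d))).2.testBit j =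
      (Nat.unpair (st pos x F k)).2.testBit j := by
  induction d with
  | zero => exact ⟨le_rfl, fun j _ => rfl⟩
  | succ d ih =>
    obtain ⟨i, s, -, h1, -, h2, -, h3, -⟩ := step hG (k + d) (st_pos hG (k + d))
    rw [← add_assoc]
    refine ⟨?_, fun j hj => ?_⟩
    · omega
    · rw [h3 j (lt_of_lt_of_le hj ih.1)]
      exact ih.2 j hj

private theorem st_bit {pos : Pt P → ℕ → ℕ → Prop} {x : Pt P → ℕ → ℕ} {F : Pt P}
    (hG : Good (pos F) (x F)) (k j : ℕ) (hj : j < (Nat.unpair (st pos x F k)).1) :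
    (Nat.unpair (st pos x F (j + 1))).2.testBit j =
      (Nat.unpair (st pos x F k)).2.testBit j := by
  have h1 := (st_ext hG k (j + 1)).2 j hj
  have h2 := (st_ext hG (j + 1) k).2 j (by
    have := st_len hG (j + 1)
    omega)
  rw [add_comm (j + 1) k] at h2
  rw [← h2, h1]

theorem build (pos : Pt P → ℕ → ℕ → Prop) (hpos : ∀ n σ, MeasurableSet {F | pos F n σ})
    {x : Pt P → ℕ → ℕ} (hx : Measurable x) :
    ∃ y : Pt P → ℕ → Bool, Measurable y ∧ ∀ F, Good (pos F) (x F) → Qinf (x F) (y F) ∧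
      ∀ m, ∃ n ≥ m, ∃ σ, pos F n σ ∧ ∀ j < n, y F j = σ.testBit j := by
  refine ⟨fun F j => (Nat.unpair (st pos x F (j + 1))).2.testBit j, ?_, ?_⟩
  · rw [measurable_pi_iff]
    intro j
    exact meas_disc (meas_st hpos hx (j + 1)) (fun a => (Nat.unpair a).2.testBit j)
  · intro F hG
    constructor
    · intro m
      obtain ⟨i, s, h1, -, h3, h4, h5, -, -⟩ := step hG m (st_pos hG m)
      refine ⟨i, by omega, s, h3, fun j hj => ?_⟩
      rw [← h4] at hj
      rw [← h5]
      exact st_bit hG (m + 1) j hj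
    · intro m
      refine ⟨(Nat.unpair (st pos x F m)).1, ?_, (Nat.unpair (st pos x F m)).2, st_pos hG m,
        fun j hj => st_bit hG m j hj⟩
      have := st_len hG m
      omega

end Pool.Agent.Lib.MP_f6e1de_lc
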