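import Mathlib

/-! The Delta-system lemma for a regular uncountable cardinal (Mathlib only).

PROOF. (0) Pigeonhole: the sets `{i | (A i).card = n}`, `n : ℕ`, cover `ι`, so one has size `≥ κ` (regular
uncountable). (1) Claim by induction on `n`, for all index sets `S0 : Set ι` with `κ ≤ #S0` and all
`A` with `(A i).card = n` on `S0`: there are `S ⊆ S0`, `κ ≤ #S`, and `R` as in the statement. `n = 0`: `S = S0`,
`R = ∅`. Step: Case a: some `a` lies in `A i` for a set `S1 ⊆ S0` of indices of size `≥ κ`: apply the claim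
to `A i \ {a}` on `S1`, add `a` to the root. Case b: every `a` lies in `A i` for `< κ` indices `i ∈ S0`. Let
`S` be a maximal subset of `S0` with pairwise disjoint `A i` (Zorn, `zorn_subset`). If `#S < κ`, then
`W = ⋃_{i ∈ S} A i` has size `< κ`, every `j ∈ S0 \ S` has `A j ∩ W ≠ ∅` (maximality, `A j` nonempty because
`n+1 > 0`), so `S0 ⊆ S ∪ ⋃_{a ∈ W} {j ∈ S0 | a ∈ A j}` has size `< κ` by regularity
(`Cardinal.mk_biUnion_le`..., or `Cardinal.IsRegular` + `card_biUnion_lt_iff_forall_of_isRegular`-like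
lemmas), contradiction. So `#S ≥ κ`, root `∅`. -/

namespace Pool.Agent.Lib.MP_f6e1de_lc

/-- Pigeonhole: a colouring with fewer than `κ` colours is constant on a subset of size `κ`. -/
private theorem exists_fiber' {ι β : Type} {κ : Cardinal.{0}} (hκ : κ.IsRegular)
    (S : Set ι) (hS : κ ≤ Cardinal.mk S) (f : ι → β) (hβ : Cardinal.mk β < κ) :
    ∃ S' ⊆ S, κ ≤ Cardinal.mk S' ∧ ∀ i ∈ S', ∀ j ∈ S', f i = f j := by
  obtain ⟨a, t, ht, h1, h2⟩ := Cardinal.infinite_pigeonhole_set (s := S) (fun i => f i.1) κ hS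
    hκ.aleph0_le (by rwa [hκ.cof_ord])
  exact ⟨t, ht, h1, fun i hi j hj => (h2 hi).trans (h2 hj).symm⟩

private theorem delta_card {ι α : Type} {κ : Cardinal.{0}} (hκ : κ.IsRegular)
    (hκ' : Cardinal.aleph0 < κ) (n : ℕ) :
    ∀ (S0 : Set ι), κ ≤ Cardinal.mk S0 → ∀ (A : ι → Finset α), (∀ i ∈ S0, (A i).card = n) →
    ∃ S ⊆ S0, κ ≤ Cardinal.mk S ∧ ∃ R : Finset α, (∀ i ∈ S, R ⊆ A i) ∧
      ∀ i ∈ S, ∀ j ∈ S, i ≠ j → ∀ a ∈ A i, a ∈ A j → a ∈ R := by
  classical
  induction n with
  | zero =>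
    intro S0 h0 A hA
    refine ⟨S0, subset_rfl, h0, ∅, fun i _ => Finset.empty_subset _, ?_⟩
    intro i hi j _ _ a ha _
    have := hA i hi
    rw [Finset.card_eq_zero] at this
    rw [this] at ha
    exact ha
  | succ n ih =>
    intro S0 h0 A hA
    by_cases hc : ∃ a : α, κ ≤ Cardinal.mk ({i | i ∈ S0 ∧ a ∈ A i} : Set ι)
    · obtain ⟨a, ha⟩ := hc
      obtain ⟨S, hS1, hS2, R, hR1, hR2⟩ := ih _ ha (fun i => (A i).erase a) (by
        rintro i ⟨hi, hai⟩
        rw [Finset.card_erase_of_mem hai, hA i hi]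
        rfl)
      refine ⟨S, fun i hi => (hS1 hi).1, hS2, insert a R, ?_, ?_⟩
      · intro i hi
        rw [Finset.insert_subset_iff]
        exact ⟨(hS1 hi).2, (hR1 i hi).trans (Finset.erase_subset _ _)⟩
      · intro i hi j hj hij b hb1 hb2
        by_cases hba : b = a
        · rw [hba]
          exact Finset.mem_insert_self _ _
        · exact Finset.mem_insert_of_mem (hR2 i hi j hj hij b (Finset.mem_erase.mpr ⟨hba, hb1⟩)
            (Finset.mem_erase.mpr ⟨hba, hb2⟩))
    · push Not at hc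
      obtain ⟨S, hS⟩ := zorn_subset
        {S : Set ι | S ⊆ S0 ∧ ∀ i ∈ S, ∀ j ∈ S, i ≠ j → ∀ a ∈ A i, a ∉ A j} (by
          intro c hc1 hc2
          refine ⟨⋃₀ c, ⟨?_, ?_⟩, fun s hs => Set.subset_sUnion_of_mem hs⟩
          · exact Set.sUnion_subset fun s hs => (hc1 hs).1
          · rintro i ⟨s, hs, his⟩ j ⟨t, ht, hjt⟩ hij
            rcases hc2.total hs ht with h | h
            · exact (hc1 ht).2 i (h his) j hjt hij
            · exact (hc1 hs).2 i his j (h hjt) hij)
      have hSm : S ⊆ S0 := hS.prop.1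
      have hSd := hS.prop.2
      refine ⟨S, hSm, ?_, ∅, fun i _ => Finset.empty_subset _, ?_⟩
      · by_contra hlt
        rw [not_le] at hlt
        have hW : Cardinal.mk (⋃ i ∈ S, ((A i : Finset α) : Set α) : Set α) < κ := by
          rw [Cardinal.card_biUnion_lt_iff_forall_of_isRegular hκ hlt]
          intro i _
          exact (Cardinal.lt_aleph0_of_finite _).trans hκ'
        have hU : Cardinal.mk (⋃ a ∈ (⋃ i ∈ S, ((A i : Finset α) : Set α)),
            ({i | i ∈ S0 ∧ a ∈ A i} : Set ι) : Set ι) < κ := by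
          rw [Cardinal.card_biUnion_lt_iff_forall_of_isRegular hκ hW]
          intro a _
          exact hc a
        have hsub : S0 ⊆ S ∪ (⋃ a ∈ (⋃ i ∈ S, ((A i : Finset α) : Set α)),
            ({i | i ∈ S0 ∧ a ∈ A i} : Set ι)) := by
          intro j hj
          by_contra hjn
          have hjS : j ∉ S := fun h => hjn (Or.inl h)
          have hjU : ∀ i ∈ S, ∀ a ∈ A i, a ∉ A j := by
            intro i hi a hai haj
            apply hjn
            right
            simp only [Set.mem_iUnion]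
            exact ⟨a, ⟨i, hi, hai⟩, hj, haj⟩
          have hmem : insert j S ∈
              {S : Set ι | S ⊆ S0 ∧ ∀ i ∈ S, ∀ j ∈ S, i ≠ j → ∀ a ∈ A i, a ∉ A j} := by
            refine ⟨Set.insert_subset hj hSm, ?_⟩
            rintro i (rfl | hi) k (rfl | hk) hik a ha hb
            · exact hik rfl
            · exact hjU k hk a hb ha
            · exact hjU i hi a ha hb
            · exact hSd i hi k hk hik a ha hb
          have := hS.le_of_ge hmem (Set.subset_insert j S)
          exact hjS (this (Set.mem_insert j S))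
        have h1 := (Cardinal.mk_le_mk_of_subset hsub).trans (Cardinal.mk_union_le _ _)
        have h2 := Cardinal.add_lt_of_lt hκ.aleph0_le hlt hU
        exact absurd (h0.trans h1) (not_le.mpr h2)
      · intro i hi j hj hij a ha hb
        exact absurd hb (hSd i hi j hj hij a ha)

theorem delta_system {ι α : Type} {κ : Cardinal.{0}} (hκ : κ.IsRegular)
    (hκ' : Cardinal.aleph0 < κ) (hι : κ ≤ Cardinal.mk ι) (A : ι → Finset α) :
    ∃ S : Set ι, κ ≤ Cardinal.mk S ∧ ∃ R : Finset α, (∀ i ∈ S, R ⊆ A i) ∧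
      ∀ i ∈ S, ∀ j ∈ S, i ≠ j → ∀ a ∈ A i, a ∈ A j → a ∈ R := by
  obtain ⟨S0, _, h0, hc⟩ := exists_fiber' hκ (Set.univ : Set ι) (by rwa [Cardinal.mk_univ])
    (fun i => (A i).card) (by rwa [Cardinal.mk_nat])
  have hne : S0.Nonempty := by
    rw [← Set.nonempty_coe_sort, ← Cardinal.mk_ne_zero_iff]
    exact (hκ.pos.trans_le h0).ne'
  obtain ⟨i0, hi0⟩ := hne
  obtain ⟨S, _, hS, hR⟩ := delta_card hκ hκ' (A i0).card S0 h0 A (fun i hi => hc i hi i0 hi0)
  exact ⟨S, hS, hR⟩

/-- Pigeonhole: a colouring with fewer than `κ` colours is constant on a subset of size `κ`. -/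
theorem exists_fiber {ι β : Type} {κ : Cardinal.{0}} (hκ : κ.IsRegular)
    (S : Set ι) (hS : κ ≤ Cardinal.mk S) (f : ι → β) (hβ : Cardinal.mk β < κ) :
    ∃ S' ⊆ S, κ ≤ Cardinal.mk S' ∧ ∀ i ∈ S', ∀ j ∈ S', f i = f j :=
  exists_fiber' hκ S hS f hβ

end Pool.Agent.Lib.MP_f6e1de_lc
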