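import Mathlib
import Pool.Agent.Lib.MP_f6e1de_lc.Delta
import Pool.Agent.Lib.MP_f6e1de_lc.QApi

/-! Delta-systems of conditions with additional homogeneity.

PROOF. `delta_system` for `A i = (p i).dom` gives `S0`, `R`. Then `exists_fiber` twice: for `f`, and for
the colouring `i ↦ (fun c : R => g ((p i).dat c))` with values in `{c // c ∈ R} → γ`, whose cardinality is
`< κ` because `R` is finite, `γ` has size `< κ` and `κ` is infinite (`Cardinal.mk_pi`, `Cardinal.prod_const`,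
`Cardinal.power_lt_aleph0` if `γ` is finite, `Cardinal.power_nat_le` if `γ` is infinite). -/

namespace Pool.Agent.Lib.MP_f6e1de_lc

variable {I J : Type}

private theorem mk_fun_lt {α γ : Type} {κ : Cardinal.{0}} (hκ' : Cardinal.aleph0 < κ)
    (hγ : Cardinal.mk γ < κ) (R : Finset α) : Cardinal.mk ({c // c ∈ R} → γ) < κ := by
  have e : Cardinal.mk ({c // c ∈ R} → γ) = Cardinal.mk γ ^ (R.card : Cardinal) := by
    rw [← Cardinal.power_def, Cardinal.mk_coe_finset]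
  rw [e]
  rcases lt_or_ge (Cardinal.mk γ) Cardinal.aleph0 with h | h
  · exact (Cardinal.power_lt_aleph0 h (Cardinal.natCast_lt_aleph0)).trans hκ'
  · exact (Cardinal.power_nat_le h).trans_lt hγ

theorem refine_conds {ι : Type} {κ : Cardinal.{0}} (hκ : κ.IsRegular)
    (hκ' : Cardinal.aleph0 < κ) (hι : κ ≤ Cardinal.mk ι) (p : ι → Cond I J) {β γ : Type}
    (hβ : Cardinal.mk β < κ) (hγ : Cardinal.mk γ < κ) (f : ι → β) (g : Dat I J → γ) :
    ∃ S : Set ι, κ ≤ Cardinal.mk S ∧ ∃ R : Finset (Coord I J), (∀ i ∈ S, R ⊆ (p i).dom) ∧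
      (∀ i ∈ S, ∀ j ∈ S, i ≠ j → ∀ c ∈ (p i).dom, c ∈ (p j).dom → c ∈ R) ∧
      (∀ i ∈ S, ∀ j ∈ S, f i = f j) ∧
      ∀ i ∈ S, ∀ j ∈ S, ∀ c ∈ R, g ((p i).dat c) = g ((p j).dat c) := by
  obtain ⟨S0, hS0, R, hR, hdis⟩ := delta_system hκ hκ' hι (fun i => (p i).dom)
  obtain ⟨S1, h10, hS1, hf⟩ := exists_fiber hκ S0 hS0 f hβ
  obtain ⟨S2, h21, hS2, hg⟩ := exists_fiber hκ S1 hS1
    (fun i => (fun c : {c // c ∈ R} => g ((p i).dat c.1))) (mk_fun_lt hκ' hγ R)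
  refine ⟨S2, hS2, R, fun i hi => hR i (h10 (h21 hi)),
    fun i hi j hj => hdis i (h10 (h21 hi)) j (h10 (h21 hj)),
    fun i hi j hj => hf i (h21 hi) j (h21 hj), ?_⟩
  intro i hi j hj c hc
  exact congrFun (hg i hi j hj) ⟨c, hc⟩

/-- In an infinite Delta-system of valid conditions the root is closed under `c ↦ c.ds`. -/
theorem ds_mem_root {ι : Type} (S : Set ι) (hS : S.Infinite) (p : ι → Cond I J)
    (hp : ∀ i, Val (p i)) (R : Finset (Coord I J)) (hR : ∀ i ∈ S, R ⊆ (p i).dom)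
    (hdis : ∀ i ∈ S, ∀ j ∈ S, i ≠ j → ∀ c ∈ (p i).dom, c ∈ (p j).dom → c ∈ R) :
    ∀ c ∈ R, c.kind = .loc → c.ds ∈ R := by
  intro c hc hk
  have key : ∀ i ∈ S, c.ds ∈ (p i).dom := by
    intro i hi
    have h := val_vok (hp i) c (hR i hi hc)
    unfold VOK at h
    rw [hk] at h
    exact h.1
  obtain ⟨i, hi, j, hj, hij⟩ := hS.nontrivial
  exact hdis i hi j hj hij _ (key i hi) (key j hj)

end Pool.Agent.Lib.MP_f6e1de_lc
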