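import Mathlib
import Pool.Agent.Lib.MP_f6e1de_lc.Amalg
import Pool.Agent.Lib.MP_f6e1de_lc.Refine

/-! The poset has the countable chain condition.

PROOF. Suppose `A` is uncountable. `ι = A` (subtype), `κ = ℵ₁` (`Cardinal.isRegular_aleph_one`,
`κ ≤ #A` from uncountability: `Cardinal.aleph0_lt_mk_iff`/`Order.succ_le_of_lt`). `refine_conds` with
`β = Unit`, `γ = List ℕ`, `g = Dat.s` (countable types have `# ≤ ℵ₀ < ℵ₁`): `S`, `R` with the same stems on
`R`. Choose `i0 ∈ S`, `Sst c = ((p i0).dat c).s`, `e = eR R Sst`, and an injection `Fin (e+1) → S`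
(`S` is infinite). `ds_mem_root`, `amalg` with `Z = Fin (e+1)`: `e + 1 ≤ e * Z'.card` so `Z'.card ≥ 2`: two different
elements of `A` have the common lower bound `q`, contradiction. -/

namespace Pool.Agent.Lib.MP_f6e1de_lc

variable {I J : Type}

theorem pp_ccc (A : Set (PP I J)) (hA : ∀ a ∈ A, ∀ b ∈ A, a ≠ b → ¬ ∃ r : PP I J, r ≤ a ∧ r ≤ b) :
    A.Countable := by
  by_contra hunc
  have hι : Cardinal.aleph 1 ≤ Cardinal.mk A := by
    rw [← Cardinal.le_aleph0_iff_set_countable, not_le] at hunc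
    rw [← Cardinal.succ_aleph0]
    exact Order.succ_le_of_lt hunc
  have hβ : Cardinal.mk Unit < Cardinal.aleph 1 :=
    (Cardinal.mk_le_aleph0 (α := Unit)).trans_lt Cardinal.aleph0_lt_aleph_one
  have hγ : Cardinal.mk (List ℕ) < Cardinal.aleph 1 :=
    (Cardinal.mk_le_aleph0 (α := List ℕ)).trans_lt Cardinal.aleph0_lt_aleph_one
  obtain ⟨S, hS, R, hR, hdis, -, hg⟩ := refine_conds Cardinal.isRegular_aleph_one
    Cardinal.aleph0_lt_aleph_one hι (fun a : A => a.1.1) hβ hγ (fun _ => ()) (fun D => D.s)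
  have hSinf : S.Infinite := by
    rw [← Set.infinite_coe_iff, Cardinal.infinite_iff]
    exact Cardinal.aleph0_lt_aleph_one.le.trans hS
  have hds := ds_mem_root S hSinf (fun a : A => a.1.1) (fun a => a.1.2) R hR hdis
  obtain ⟨i0, hi0⟩ := hSinf.nonempty
  set Sst : Coord I J → List ℕ := fun c => ((i0.1.1).dat c).s with hSst
  set e := eR R Sst with he
  let f : Fin (e + 1) → A := fun z => (hSinf.natEmbedding S z.val).1
  have hfS : ∀ z, f z ∈ S := fun z => (hSinf.natEmbedding S z.val).2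
  have hfi : ∀ z z', z ≠ z' → f z ≠ f z' := by
    intro z z' hne h
    have h1 : hSinf.natEmbedding S z.val = hSinf.natEmbedding S z'.val := Subtype.ext h
    exact hne (Fin.ext ((hSinf.natEmbedding S).injective h1))
  obtain ⟨Z', hcard, q, hq, hle⟩ := amalg (fun z : Fin (e + 1) => (f z).1.1)
    (fun z => (f z).1.2) R (fun z => hR _ (hfS z))
    (fun z z' hne c hc hc' => hdis _ (hfS z) _ (hfS z') (hfi z z' hne) c hc hc') hds Sst
    (fun z c hc => hg _ (hfS z) _ hi0 c hc)
  have h2 : 1 < Z'.card := by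
    by_contra hlt
    have h3 : Z'.card ≤ 1 := not_lt.1 hlt
    have h4 : eR R Sst * Z'.card ≤ eR R Sst * 1 := Nat.mul_le_mul_left _ h3
    rw [Fintype.card_fin] at hcard
    omega
  obtain ⟨z, hz, z', hz', hne⟩ := Finset.one_lt_card.1 h2
  refine hA (f z).1 (f z).2 (f z').1 (f z').2 (fun h => hfi z z' hne (Subtype.ext h)) ?_
  exact ⟨⟨q, hq⟩, hle z hz, hle z' hz'⟩

end Pool.Agent.Lib.MP_f6e1de_lc
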