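import Mathlib
import Pool.Agent.Lib.MP_f6e1de_lc.XDefs

/-! The fair coin measure on Cantor space and counting of nodes.

PROOFS. `muC_cyl`: `Measure.infinitePi_pi`-type formula for the finite box `∀ j ∈ range n`; every bit has
probability `1/2`. `pack_half`: the complement of `Tset l z` is `⋃_N [z_N | l_N]`, of measure
`≤ ∑_N 2^(-l N) = ∑_N muC [u_N | l_N] = muC (⋃_N [u_N | l_N])` (pairwise disjoint by `PackedX`, measurable)
`≤ muC {y | y 0 = false} = 1/2`; so `muC (Tset) ≥ 1 - 1/2`. (`[w | n] = {y | ∀ i < n, y i = w i}` has measure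
`2^(-n)`, same proof as `muC_cyl`.)
`count_pos`: `T ∩ cyl n t` is covered by the sets `T ∩ cyl (2i) σ`, `σ < 4^i` with `∀ j < n, σ.testBit j =
t.testBit j` (take for `y` the number `σ` with the bits `y 0, ..., y (2i-1)`); those of measure `0` do
not contribute; the others have measure `≤ 4^(-i)`. -/

namespace Pool.Agent.Lib.MP_f6e1de_lc

open MeasureTheory
open scoped ENNReal

/-- Fair coin measure on `ℕ → Bool`. -/
noncomputable def muC : Measure (ℕ → Bool) :=
  Measure.infinitePi (fun _ => (PMF.uniformOfFintype Bool).toMeasure)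

/-- Basic clopen set of the node at level `n` coded by `σ`. -/
def cyl (n σ : ℕ) : Set (ℕ → Bool) := {y | ∀ j < n, y j = σ.testBit j}

/-- The complement of the union of the basic clopen sets `[z_N | l_N]`. -/
def Tset (l : ℕ → ℕ) (z : ℕ → ℕ → Bool) : Set (ℕ → Bool) := {y | ∀ N, ∃ i < l N, y i ≠ z N i}

private theorem box_eq (n : ℕ) (w : ℕ → Bool) :
    {y : ℕ → Bool | ∀ i < n, y i = w i} =
      Set.pi (↑(Finset.range n) : Set ℕ) (fun i => ({w i} : Set Bool)) := by
  ext y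
  simp [Set.mem_pi]

private theorem box_meas (n : ℕ) (w : ℕ → Bool) :
    MeasurableSet {y : ℕ → Bool | ∀ i < n, y i = w i} := by
  rw [box_eq]
  exact MeasurableSet.pi (Finset.countable_toSet _) fun i _ => measurableSet_singleton _

theorem measurableSet_cyl (n σ : ℕ) : MeasurableSet (cyl n σ) := box_meas n _

private theorem Tset_eq (l : ℕ → ℕ) (z : ℕ → ℕ → Bool) :
    Tset l z = (⋃ N, {y : ℕ → Bool | ∀ i < l N, y i = z N i})ᶜ := by
  ext y
  simp [Tset]

theorem measurableSet_Tset (l : ℕ → ℕ) (z : ℕ → ℕ → Bool) : MeasurableSet (Tset l z) := by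
  rw [Tset_eq]
  exact (MeasurableSet.iUnion fun N => box_meas _ _).compl

theorem muC_box (n : ℕ) (w : ℕ → Bool) : muC {y | ∀ i < n, y i = w i} = 2⁻¹ ^ n := by
  rw [box_eq, muC, Measure.infinitePi_pi _ (fun i _ => measurableSet_singleton _)]
  have h : ∀ i ∈ Finset.range n, (PMF.uniformOfFintype Bool).toMeasure {w i} = 2⁻¹ := by
    intro i _
    rw [PMF.toMeasure_apply_singleton _ _ (measurableSet_singleton _)]
    simp
  rw [Finset.prod_congr rfl h, Finset.prod_const, Finset.card_range]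

theorem muC_cyl (n σ : ℕ) : muC (cyl n σ) = 2⁻¹ ^ n := muC_box n _

private instance : IsProbabilityMeasure muC := by
  unfold muC
  infer_instance

theorem pack_half {l : ℕ → ℕ} {u : ℕ → ℕ → Bool} (h : PackedX 1 l u) (z : ℕ → ℕ → Bool) :
    2⁻¹ ≤ muC (Tset l z) := by
  have hm : ∀ (z : ℕ → ℕ → Bool), MeasurableSet (⋃ N, {y : ℕ → Bool | ∀ i < l N, y i = z N i}) :=
    fun z => MeasurableSet.iUnion fun N => box_meas _ _
  have h1 : muC (⋃ N, {y : ℕ → Bool | ∀ i < l N, y i = z N i}) ≤ 2⁻¹ := by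
    calc muC (⋃ N, {y : ℕ → Bool | ∀ i < l N, y i = z N i})
        ≤ ∑' N, muC {y : ℕ → Bool | ∀ i < l N, y i = z N i} := measure_iUnion_le _
      _ = ∑' N, muC {y : ℕ → Bool | ∀ i < l N, y i = u N i} := by
          congr 1
          funext N
          rw [muC_box, muC_box]
      _ = muC (⋃ N, {y : ℕ → Bool | ∀ i < l N, y i = u N i}) := by
          rw [measure_iUnion]
          · intro a b hab
            rw [Function.onFun, Set.disjoint_left]
            intro y hy hy'
            obtain ⟨i, hi, hi', hne⟩ := h.2 a b hab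
            exact hne ((hy i hi).symm.trans (hy' i hi'))
          · exact fun N => box_meas _ _
      _ ≤ muC {y : ℕ → Bool | ∀ i < 1, y i = (fun _ => false) i} := by
          refine measure_mono ?_
          intro y hy
          obtain ⟨N, hN⟩ := Set.mem_iUnion.1 hy
          intro i hi
          obtain ⟨h2, h3⟩ := h.1 N
          have h4 := hN i (lt_of_lt_of_le hi h2)
          rw [h4, h3 i hi]
      _ = 2⁻¹ := by rw [muC_box, pow_one]
  rw [Tset_eq, prob_compl_eq_one_sub (hm z)]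
  refine le_trans ?_ (tsub_le_tsub_left h1 1)
  rw [ENNReal.one_sub_inv_two]

private theorem bits_lt' (b : ℕ → Bool) (n : ℕ) :
    ∑ k ∈ Finset.range n, (b k).toNat * 2 ^ k < 2 ^ n := by
  induction n with
  | zero => simp
  | succ n ih =>
    rw [Finset.sum_range_succ, pow_succ]
    have h1 : (b n).toNat ≤ 1 := Bool.toNat_le _
    have h2 : (b n).toNat * 2 ^ n ≤ 1 * 2 ^ n := Nat.mul_le_mul_right _ h1
    omega

private theorem bits_testBit' (b : ℕ → Bool) (n k : ℕ) (hk : k < n) :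
    (∑ k ∈ Finset.range n, (b k).toNat * 2 ^ k).testBit k = b k := by
  induction n with
  | zero => omega
  | succ n ih =>
    rw [Finset.sum_range_succ, add_comm, mul_comm (b n).toNat,
      Nat.testBit_two_pow_mul_add _ (bits_lt' b n)]
    rcases Nat.lt_succ_iff_lt_or_eq.1 hk with h | h
    · rw [if_pos h, ih h]
    · subst h
      rw [if_neg (lt_irrefl _), Nat.sub_self]
      cases b k <;> simp

open Classical in
theorem count_pos {T : Set (ℕ → Bool)} (hT : MeasurableSet T) {n t i r : ℕ} (hn : n ≤ 2 * i)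
    (h : 2⁻¹ ^ r ≤ muC (T ∩ cyl n t)) :
    4 ^ i ≤ 2 ^ r * ((Finset.range (4 ^ i)).filter (fun σ =>
      (∀ j < n, σ.testBit j = t.testBit j) ∧ 0 < muC (T ∩ cyl (2 * i) σ))).card := by
  set A := (Finset.range (4 ^ i)).filter (fun σ =>
    ∀ j < n, σ.testBit j = t.testBit j) with hA
  set A' := (Finset.range (4 ^ i)).filter (fun σ =>
      (∀ j < n, σ.testBit j = t.testBit j) ∧ 0 < muC (T ∩ cyl (2 * i) σ)) with hA'
  have hAA : A' = A.filter (fun σ => 0 < muC (T ∩ cyl (2 * i) σ)) := by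
    rw [hA', hA, Finset.filter_filter]
  have h1 : muC (T ∩ cyl n t) ≤ ∑ σ ∈ A, muC (T ∩ cyl (2 * i) σ) := by
    refine le_trans (measure_mono ?_) (measure_biUnion_finset_le A _)
    intro y hy
    rw [Set.mem_iUnion₂]
    refine ⟨∑ k ∈ Finset.range (2 * i), (y k).toNat * 2 ^ k, ?_, hy.1, ?_⟩
    · rw [hA, Finset.mem_filter, Finset.mem_range]
      refine ⟨?_, fun j hj => ?_⟩
      · have h2 := bits_lt' y (2 * i)
        rwa [pow_mul] at h2
      · rw [bits_testBit' y _ _ (by omega)]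
        exact hy.2 j hj
    · intro j hj
      exact (bits_testBit' y _ _ hj).symm
  have h2 : ∑ σ ∈ A, muC (T ∩ cyl (2 * i) σ) ≤ A'.card * 2⁻¹ ^ (2 * i) := by
    rw [hAA, ← nsmul_eq_mul, ← Finset.sum_const]
    rw [← Finset.sum_filter_add_sum_filter_not A (fun σ => 0 < muC (T ∩ cyl (2 * i) σ))]
    have h3 : ∑ σ ∈ A.filter (fun σ => ¬ 0 < muC (T ∩ cyl (2 * i) σ)),
        muC (T ∩ cyl (2 * i) σ) = 0 := by
      refine Finset.sum_eq_zero fun σ hσ => ?_
      have h4 := (Finset.mem_filter.1 hσ).2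
      simpa using h4
    rw [h3, add_zero]
    refine Finset.sum_le_sum fun σ _ => ?_
    rw [← muC_cyl (2 * i) σ]
    exact measure_mono Set.inter_subset_right
  have h3 : (2⁻¹ : ℝ≥0∞) ^ r ≤ A'.card * 2⁻¹ ^ (2 * i) := h.trans (h1.trans h2)
  have key : ∀ k : ℕ, (2 : ℝ≥0∞) ^ k * 2⁻¹ ^ k = 1 := by
    intro k
    rw [← mul_pow, ENNReal.mul_inv_cancel (by norm_num) (by norm_num), one_pow]
  have h4 : (2 : ℝ≥0∞) ^ (2 * i) ≤ 2 ^ r * A'.card := by
    calc (2 : ℝ≥0∞) ^ (2 * i) = (2 ^ r * 2 ^ (2 * i)) * 2⁻¹ ^ r := by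
          rw [mul_comm ((2 : ℝ≥0∞) ^ r), mul_assoc, key, mul_one]
      _ ≤ (2 ^ r * 2 ^ (2 * i)) * (A'.card * 2⁻¹ ^ (2 * i)) := mul_le_mul_right h3 _
      _ = 2 ^ r * A'.card * (2 ^ (2 * i) * 2⁻¹ ^ (2 * i)) := by ring
      _ = 2 ^ r * A'.card := by rw [key, mul_one]
  have h5 : (2 : ℕ) ^ (2 * i) ≤ 2 ^ r * A'.card := by exact_mod_cast h4
  rwa [pow_mul] at h5

end Pool.Agent.Lib.MP_f6e1de_lc
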