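import Mathlib
import Pool.Agent.Lib.MP_f6e1de_lc.EvalT

/-! Evaluation of `fCovered` and `fPacked` at comeagerly many points, when `ω` is the standard name.

PROOFS (as for `at_fIsFun` in EvalT.lean). First rewrite `bval` as an expression with `⨆ z, bMem z (chkAll ℕ) ⊓ ..`
and `⨅ z, (bMem z (chkAll ℕ) ⇨ ..)` (`bval_fRel`, `himp_himp`, `inf_assoc`, `inf_iSup_eq`, `simp only` with
`scons_zero, scons_succ`, `hw`), then `at_ex_omega`, `at_all_omega`, `at_all_lt`, `at_ex_lt`, `at_himp`, `at_iff`,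
`at_compl`, `at_chk_eq`, `at_chk_sub` under `eventually_countable_forall` for all numerals; the
`Ext1` side conditions by the closure lemmas `Ext1.inf`, `Ext1.sup`, `Ext1.himp`, `Ext1.compl`, `Ext1.iSup`,
`Ext1.iInf`, `Ext1.const`, `ext1_mem_left`, `ext1_mem_right`, `ext1_eq`, `ext1_bEq_right`, `ext1_opair_left`,
`ext1_opair_right` (or `ext1_bval`). -/

namespace Pool.Agent.Lib.MP_f6e1de_lc

open Pool.Agent.Lib.BVM Pool.Agent.Lib.BVM.BSet Filter Topology

variable {P : Type} [Preorder P] (v : ℕ → BSet (BB P))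

private theorem l_ex_om (φ : Fm) (v : ℕ → BSet (BB P)) (w : ℕ) (hw : v w = chkAll (BB P) ℕ) :
    ∀ᶠ F in residual (Pt P), (At F (bval (.ex (.and (.mem 0 (w + 1)) φ)) v) ↔
      ∃ n : ℕ, At F (bval φ (scons (chk (BB P) n) v))) := by
  have h := at_ex_omega (ext1_bval φ v)
  rw [← hw] at h
  exact h

private theorem l_all_om (φ : Fm) (v : ℕ → BSet (BB P)) (w : ℕ) (hw : v w = chkAll (BB P) ℕ) :
    ∀ᶠ F in residual (Pt P), (At F (bval (.all (.imp (.mem 0 (w + 1)) φ)) v) ↔
      ∀ n : ℕ, At F (bval φ (scons (chk (BB P) n) v))) := by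
  have h := at_all_omega (ext1_bval φ v)
  rw [← hw] at h
  exact h

private theorem l_all_lt (φ : Fm) (v : ℕ → BSet (BB P)) (k m : ℕ) (hk : v k = chk (BB P) m) :
    ∀ᶠ F in residual (Pt P), (At F (bval (.all (.imp (.mem 0 (k + 1)) φ)) v) ↔
      ∀ i < m, At F (bval φ (scons (chk (BB P) i) v))) := by
  have h := at_all_lt (ext1_bval φ v) m
  rw [← hk] at h
  exact h

private theorem l_ex_lt (φ : Fm) (v : ℕ → BSet (BB P)) (k m : ℕ) (hk : v k = chk (BB P) m) :
    ∀ᶠ F in residual (Pt P), (At F (bval (.ex (.and (.mem 0 (k + 1)) φ)) v) ↔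
      ∃ i < m, At F (bval φ (scons (chk (BB P) i) v))) := by
  have h := at_ex_lt (ext1_bval φ v) m
  rw [← hk] at h
  exact h

private theorem l_iff (φ ψ : Fm) (v : ℕ → BSet (BB P)) :
    ∀ᶠ F in residual (Pt P), (At F (bval (.iff φ ψ) v) ↔
      (At F (bval φ v) ↔ At F (bval ψ v))) := at_iff _ _

private theorem l_imp (φ ψ : Fm) (v : ℕ → BSet (BB P)) :
    ∀ᶠ F in residual (Pt P), (At F (bval (.imp φ ψ) v) ↔
      (At F (bval φ v) → At F (bval ψ v))) := at_himp _ _

private theorem l_neg (φ : Fm) (v : ℕ → BSet (BB P)) :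
    ∀ᶠ F in residual (Pt P), (At F (bval (.neg φ) v) ↔ ¬ At F (bval φ v)) := at_compl _

private theorem l_and (φ ψ : Fm) (v : ℕ → BSet (BB P)) (F : Pt P) :
    At F (bval (.and φ ψ) v) ↔ At F (bval φ v) ∧ At F (bval ψ v) := at_inf _ _ _

private theorem l_rel (R a b n m : ℕ) (v : ℕ → BSet (BB P)) (F : Pt P)
    (ha : v a = chk (BB P) n) (hb : v b = chk (BB P) m) :
    At F (bval (fRel R a b) v) ↔ relAt F (v R) n m := by
  rw [bval_fRel, ha, hb]; rfl

theorem at_fCovered (w l Z y : ℕ) (hw : v w = chkAll (BB P) ℕ) : ∀ᶠ F in residual (Pt P),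
    (At F (bval (fCovered w l Z y) v) ↔ ∃ n m, relAt F (v l) n m ∧
      ∀ i < m, (memAt F (v y) i ↔ relAt F (v Z) n i)) := by
  have h0 : bval (fCovered w l Z y) v = bval (.ex (.and (.mem 0 (w + 1))
      (.ex (.and (.mem 0 (w + 2)) (.and (fRel (l + 2) 1 0)
        (.all (.imp (.mem 0 1) (.iff (.mem 0 (y + 3)) (fRel (Z + 3) 2 0))))))))) v := by
    show (⨆ n, ⨆ m, bMem n (v w) ⊓ (bMem m (v w) ⊓ bval (.and (fRel (l + 2) 1 0)
        (.all (.imp (.mem 0 1) (.iff (.mem 0 (y + 3)) (fRel (Z + 3) 2 0)))))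
          (scons m (scons n v)))) = ⨆ n, bMem n (v w) ⊓ ⨆ m, (bMem m (v w) ⊓
        bval (.and (fRel (l + 2) 1 0)
        (.all (.imp (.mem 0 1) (.iff (.mem 0 (y + 3)) (fRel (Z + 3) 2 0)))))
          (scons m (scons n v)))
    simp only [inf_iSup_eq]
  rw [h0]
  have a1 := l_ex_om (.ex (.and (.mem 0 (w + 2)) (.and (fRel (l + 2) 1 0)
        (.all (.imp (.mem 0 1) (.iff (.mem 0 (y + 3)) (fRel (Z + 3) 2 0))))))) v w hw
  have a2 : ∀ᶠ F in residual (Pt P), ∀ n : ℕ, _ :=
    eventually_countable_forall.2 fun n => l_ex_om (.and (fRel (l + 2) 1 0)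
        (.all (.imp (.mem 0 1) (.iff (.mem 0 (y + 3)) (fRel (Z + 3) 2 0)))))
        (scons (chk (BB P) n) v) (w + 1) hw
  have a3 : ∀ᶠ F in residual (Pt P), ∀ n m : ℕ, _ :=
    eventually_countable_forall.2 fun n => eventually_countable_forall.2 fun m =>
      l_all_lt (.iff (.mem 0 (y + 3)) (fRel (Z + 3) 2 0))
        (scons (chk (BB P) m) (scons (chk (BB P) n) v)) 0 m rfl
  have a4 : ∀ᶠ F in residual (Pt P), ∀ n m i : ℕ, _ :=
    eventually_countable_forall.2 fun n => eventually_countable_forall.2 fun m =>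
      eventually_countable_forall.2 fun i => l_iff (.mem 0 (y + 3)) (fRel (Z + 3) 2 0)
        (scons (chk (BB P) i) (scons (chk (BB P) m) (scons (chk (BB P) n) v)))
  filter_upwards [a1, a2, a3, a4] with F b1 b2 b3 b4
  rw [b1]
  refine exists_congr fun n => ?_
  rw [b2]
  refine exists_congr fun m => ?_
  rw [l_and, b3, l_rel (l + 2) 1 0 n m _ F rfl rfl]
  refine and_congr Iff.rfl ?_
  refine forall_congr' fun i => forall_congr' fun _ => ?_
  rw [b4, l_rel (Z + 3) 2 0 n i _ F rfl rfl]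
  exact Iff.rfl

private theorem at_packed1 (w k l Y : ℕ) (hw : v w = chkAll (BB P) ℕ) (k0 : ℕ)
    (hk : v k = chk (BB P) k0) : ∀ᶠ F in residual (Pt P),
    (At F (bval (fPacked1 w k l Y) v) ↔
      (∀ n m, relAt F (v l) n m → k0 ≤ m ∧ ∀ i < k0, ¬ relAt F (v Y) n i)) := by
  have h0 : bval (fPacked1 w k l Y) v = bval (.all (.imp (.mem 0 (w + 1))
      (.all (.imp (.mem 0 (w + 2)) (.imp (fRel (l + 2) 1 0)
      (.and (fSub (k + 2) 0) (.all (.imp (.mem 0 (k + 3)) (.neg (fRel (Y + 3) 2 0)))))))))) v := by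
    show (⨅ n, ⨅ m, (bMem n (v w) ⇨ (bMem m (v w) ⇨ bval (.imp (fRel (l + 2) 1 0)
      (.and (fSub (k + 2) 0) (.all (.imp (.mem 0 (k + 3)) (.neg (fRel (Y + 3) 2 0))))))
          (scons m (scons n v))))) = ⨅ n, (bMem n (v w) ⇨ ⨅ m, (bMem m (v w) ⇨
        bval (.imp (fRel (l + 2) 1 0)
      (.and (fSub (k + 2) 0) (.all (.imp (.mem 0 (k + 3)) (.neg (fRel (Y + 3) 2 0))))))
          (scons m (scons n v))))
    simp only [himp_iInf_eq]
  rw [h0]
  have a1 := l_all_om (.all (.imp (.mem 0 (w + 2)) (.imp (fRel (l + 2) 1 0)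
      (.and (fSub (k + 2) 0) (.all (.imp (.mem 0 (k + 3)) (.neg (fRel (Y + 3) 2 0)))))))) v w hw
  have a2 : ∀ᶠ F in residual (Pt P), ∀ n : ℕ, _ :=
    eventually_countable_forall.2 fun n => l_all_om (.imp (fRel (l + 2) 1 0)
      (.and (fSub (k + 2) 0) (.all (.imp (.mem 0 (k + 3)) (.neg (fRel (Y + 3) 2 0))))))
        (scons (chk (BB P) n) v) (w + 1) hw
  have a3 : ∀ᶠ F in residual (Pt P), ∀ n m : ℕ, _ :=
    eventually_countable_forall.2 fun n => eventually_countable_forall.2 fun m =>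
      l_imp (fRel (l + 2) 1 0)
      (.and (fSub (k + 2) 0) (.all (.imp (.mem 0 (k + 3)) (.neg (fRel (Y + 3) 2 0)))))
        (scons (chk (BB P) m) (scons (chk (BB P) n) v))
  have a4 : ∀ᶠ F in residual (Pt P), ∀ n m : ℕ, _ :=
    eventually_countable_forall.2 fun n => eventually_countable_forall.2 fun m =>
      l_all_lt (.neg (fRel (Y + 3) 2 0))
        (scons (chk (BB P) m) (scons (chk (BB P) n) v)) (k + 2) k0 hk
  have a5 : ∀ᶠ F in residual (Pt P), ∀ n m i : ℕ, _ :=
    eventually_countable_forall.2 fun n => eventually_countable_forall.2 fun m =>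
      eventually_countable_forall.2 fun i => l_neg (fRel (Y + 3) 2 0)
        (scons (chk (BB P) i) (scons (chk (BB P) m) (scons (chk (BB P) n) v)))
  filter_upwards [a1, a2, a3, a4, a5] with F b1 b2 b3 b4 b5
  rw [b1]
  refine forall_congr' fun n => ?_
  rw [b2]
  refine forall_congr' fun m => ?_
  rw [b3, l_and, b4, l_rel (l + 2) 1 0 n m _ F rfl rfl, bval_fSub]
  refine imp_congr Iff.rfl (and_congr ?_ ?_)
  · rw [show (scons (chk (BB P) m) (scons (chk (BB P) n) v)) (k + 2) = chk (BB P) k0 from hk]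
    exact at_chk_sub F k0 m
  · refine forall_congr' fun i => forall_congr' fun _ => ?_
    rw [b5, l_rel (Y + 3) 2 0 n i _ F rfl rfl]
    exact Iff.rfl

private theorem at_packed2 (w l Y : ℕ) (hw : v w = chkAll (BB P) ℕ) :
    ∀ᶠ F in residual (Pt P),
    (At F (bval (fPacked2 w l Y) v) ↔
      ∀ n n' m m', relAt F (v l) n m → relAt F (v l) n' m' → n ≠ n' →
        ∃ i, i < m ∧ i < m' ∧ ¬ (relAt F (v Y) n i ↔ relAt F (v Y) n' i)) := by
  have h0 : bval (fPacked2 w l Y) v = bval (.all (.imp (.mem 0 (w + 1)) (.all (.imp (.mem 0 (w + 2))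
      (.all (.imp (.mem 0 (w + 3)) (.all (.imp (.mem 0 (w + 4))
      (.imp (fRel (l + 4) 3 1) (.imp (fRel (l + 4) 2 0)
        (.imp (.neg (.eq 3 2)) (.ex (.and (.mem 0 2) (.and (.mem 0 1)
          (.neg (.iff (fRel (Y + 5) 4 0) (fRel (Y + 5) 3 0))))))))))))))))) v := by
    show (⨅ n, ⨅ n', ⨅ m, ⨅ m', (bMem n (v w) ⇨ (bMem n' (v w) ⇨ (bMem m (v w) ⇨
      (bMem m' (v w) ⇨ bval (.imp (fRel (l + 4) 3 1) (.imp (fRel (l + 4) 2 0)
        (.imp (.neg (.eq 3 2)) (.ex (.and (.mem 0 2) (.and (.mem 0 1)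
          (.neg (.iff (fRel (Y + 5) 4 0) (fRel (Y + 5) 3 0)))))))))
          (scons m' (scons m (scons n' (scons n v))))))))) = ⨅ n, (bMem n (v w) ⇨ ⨅ n',
          (bMem n' (v w) ⇨ ⨅ m, (bMem m (v w) ⇨ ⨅ m',
      (bMem m' (v w) ⇨ bval (.imp (fRel (l + 4) 3 1) (.imp (fRel (l + 4) 2 0)
        (.imp (.neg (.eq 3 2)) (.ex (.and (.mem 0 2) (.and (.mem 0 1)
          (.neg (.iff (fRel (Y + 5) 4 0) (fRel (Y + 5) 3 0)))))))))
          (scons m' (scons m (scons n' (scons n v))))))))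
    simp only [himp_iInf_eq]
  rw [h0]
  have a1 := l_all_om (.all (.imp (.mem 0 (w + 2))
      (.all (.imp (.mem 0 (w + 3)) (.all (.imp (.mem 0 (w + 4))
      (.imp (fRel (l + 4) 3 1) (.imp (fRel (l + 4) 2 0)
        (.imp (.neg (.eq 3 2)) (.ex (.and (.mem 0 2) (.and (.mem 0 1)
          (.neg (.iff (fRel (Y + 5) 4 0) (fRel (Y + 5) 3 0)))))))))))))))
      v w hw
  have a2 : ∀ᶠ F in residual (Pt P), ∀ n : ℕ, _ :=
    eventually_countable_forall.2 fun n => l_all_om
      (.all (.imp (.mem 0 (w + 3)) (.all (.imp (.mem 0 (w + 4))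
      (.imp (fRel (l + 4) 3 1) (.imp (fRel (l + 4) 2 0)
        (.imp (.neg (.eq 3 2)) (.ex (.and (.mem 0 2) (.and (.mem 0 1)
          (.neg (.iff (fRel (Y + 5) 4 0) (fRel (Y + 5) 3 0)))))))))))))
        (scons (chk (BB P) n) v) (w + 1) hw
  have a3 : ∀ᶠ F in residual (Pt P), ∀ n n' : ℕ, _ :=
    eventually_countable_forall.2 fun n => eventually_countable_forall.2 fun n' => l_all_om
      (.all (.imp (.mem 0 (w + 4))
      (.imp (fRel (l + 4) 3 1) (.imp (fRel (l + 4) 2 0)
        (.imp (.neg (.eq 3 2)) (.ex (.and (.mem 0 2) (.and (.mem 0 1)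
          (.neg (.iff (fRel (Y + 5) 4 0) (fRel (Y + 5) 3 0)))))))))))
        (scons (chk (BB P) n') (scons (chk (BB P) n) v)) (w + 2) hw
  have a4 : ∀ᶠ F in residual (Pt P), ∀ n n' m : ℕ, _ :=
    eventually_countable_forall.2 fun n => eventually_countable_forall.2 fun n' =>
      eventually_countable_forall.2 fun m => l_all_om
      (.imp (fRel (l + 4) 3 1) (.imp (fRel (l + 4) 2 0)
        (.imp (.neg (.eq 3 2)) (.ex (.and (.mem 0 2) (.and (.mem 0 1)
          (.neg (.iff (fRel (Y + 5) 4 0) (fRel (Y + 5) 3 0)))))))))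
        (scons (chk (BB P) m) (scons (chk (BB P) n') (scons (chk (BB P) n) v))) (w + 3) hw
  have a5 : ∀ᶠ F in residual (Pt P), ∀ n n' m m' : ℕ, _ :=
    eventually_countable_forall.2 fun n => eventually_countable_forall.2 fun n' =>
      eventually_countable_forall.2 fun m => eventually_countable_forall.2 fun m' => l_imp
      (fRel (l + 4) 3 1) (.imp (fRel (l + 4) 2 0)
        (.imp (.neg (.eq 3 2)) (.ex (.and (.mem 0 2) (.and (.mem 0 1)
          (.neg (.iff (fRel (Y + 5) 4 0) (fRel (Y + 5) 3 0))))))))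
        (scons (chk (BB P) m') (scons (chk (BB P) m)
          (scons (chk (BB P) n') (scons (chk (BB P) n) v))))
  have a6 : ∀ᶠ F in residual (Pt P), ∀ n n' m m' : ℕ, _ :=
    eventually_countable_forall.2 fun n => eventually_countable_forall.2 fun n' =>
      eventually_countable_forall.2 fun m => eventually_countable_forall.2 fun m' => l_imp
      (fRel (l + 4) 2 0)
        (.imp (.neg (.eq 3 2)) (.ex (.and (.mem 0 2) (.and (.mem 0 1)
          (.neg (.iff (fRel (Y + 5) 4 0) (fRel (Y + 5) 3 0)))))))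
        (scons (chk (BB P) m') (scons (chk (BB P) m)
          (scons (chk (BB P) n') (scons (chk (BB P) n) v))))
  have a7 : ∀ᶠ F in residual (Pt P), ∀ n n' m m' : ℕ, _ :=
    eventually_countable_forall.2 fun n => eventually_countable_forall.2 fun n' =>
      eventually_countable_forall.2 fun m => eventually_countable_forall.2 fun m' => l_imp
        (.neg (.eq 3 2)) (.ex (.and (.mem 0 2) (.and (.mem 0 1)
          (.neg (.iff (fRel (Y + 5) 4 0) (fRel (Y + 5) 3 0))))))
        (scons (chk (BB P) m') (scons (chk (BB P) m)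
          (scons (chk (BB P) n') (scons (chk (BB P) n) v))))
  have a8 : ∀ᶠ F in residual (Pt P), ∀ n n' m m' : ℕ, _ :=
    eventually_countable_forall.2 fun n => eventually_countable_forall.2 fun n' =>
      eventually_countable_forall.2 fun m => eventually_countable_forall.2 fun m' => l_neg
        (.eq 3 2)
        (scons (chk (BB P) m') (scons (chk (BB P) m)
          (scons (chk (BB P) n') (scons (chk (BB P) n) v))))
  have a9 : ∀ᶠ F in residual (Pt P), ∀ n n' m m' : ℕ, _ :=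
    eventually_countable_forall.2 fun n => eventually_countable_forall.2 fun n' =>
      eventually_countable_forall.2 fun m => eventually_countable_forall.2 fun m' => l_ex_lt
        (.and (.mem 0 1)
          (.neg (.iff (fRel (Y + 5) 4 0) (fRel (Y + 5) 3 0))))
        (scons (chk (BB P) m') (scons (chk (BB P) m)
          (scons (chk (BB P) n') (scons (chk (BB P) n) v)))) 1 m rfl
  have a10 : ∀ᶠ F in residual (Pt P), ∀ n n' m m' i : ℕ, _ :=
    eventually_countable_forall.2 fun n => eventually_countable_forall.2 fun n' =>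
      eventually_countable_forall.2 fun m => eventually_countable_forall.2 fun m' =>
      eventually_countable_forall.2 fun i => l_neg
          (.iff (fRel (Y + 5) 4 0) (fRel (Y + 5) 3 0))
        (scons (chk (BB P) i) (scons (chk (BB P) m') (scons (chk (BB P) m)
          (scons (chk (BB P) n') (scons (chk (BB P) n) v)))))
  have a11 : ∀ᶠ F in residual (Pt P), ∀ n n' m m' i : ℕ, _ :=
    eventually_countable_forall.2 fun n => eventually_countable_forall.2 fun n' =>
      eventually_countable_forall.2 fun m => eventually_countable_forall.2 fun m' =>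
      eventually_countable_forall.2 fun i => l_iff
          (fRel (Y + 5) 4 0) (fRel (Y + 5) 3 0)
        (scons (chk (BB P) i) (scons (chk (BB P) m') (scons (chk (BB P) m)
          (scons (chk (BB P) n') (scons (chk (BB P) n) v)))))
  filter_upwards [a1, a2, a3, a4, a5, a6, a7, a8, a9, a10, a11]
    with F b1 b2 b3 b4 b5 b6 b7 b8 b9 b10 b11
  rw [b1]
  refine forall_congr' fun n => ?_
  rw [b2]
  refine forall_congr' fun n' => ?_
  rw [b3]
  refine forall_congr' fun m => ?_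
  rw [b4]
  refine forall_congr' fun m' => ?_
  rw [b5, l_rel (l + 4) 3 1 n m _ F rfl rfl]
  refine imp_congr Iff.rfl ?_
  rw [b6, l_rel (l + 4) 2 0 n' m' _ F rfl rfl]
  refine imp_congr Iff.rfl ?_
  rw [b7, b8]
  refine imp_congr (not_congr (at_chk_eq F n n')) ?_
  rw [b9]
  refine exists_congr fun i => and_congr Iff.rfl ?_
  rw [l_and, b10, b11, l_rel (Y + 5) 4 0 n i _ F rfl rfl, l_rel (Y + 5) 3 0 n' i _ F rfl rfl]
  exact and_congr (at_chk_mem F i m') Iff.rfl

theorem at_fPacked (w k l Y : ℕ) (hw : v w = chkAll (BB P) ℕ) (k0 : ℕ)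
    (hk : v k = chk (BB P) k0) : ∀ᶠ F in residual (Pt P),
    (At F (bval (fPacked w k l Y) v) ↔
      (∀ n m, relAt F (v l) n m → k0 ≤ m ∧ ∀ i < k0, ¬ relAt F (v Y) n i) ∧
      ∀ n n' m m', relAt F (v l) n m → relAt F (v l) n' m' → n ≠ n' →
        ∃ i, i < m ∧ i < m' ∧ ¬ (relAt F (v Y) n i ↔ relAt F (v Y) n' i)) := by
  filter_upwards [at_packed1 v w k l Y hw k0 hk, at_packed2 v w l Y hw] with F h1 h2
  show At F (bval (.and (fPacked1 w k l Y) (fPacked2 w l Y)) v) ↔ _
  rw [l_and, h1, h2]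

end Pool.Agent.Lib.MP_f6e1de_lc
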