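import Mathlib
import Pool.Agent.Lib.MP_f6e1de_lc.AmDefs

/-! Extension lemmas for coordinates of kind `free` and `hech`, and adding coordinates.

PROOFS. `ext_free`: `upd_coord` with `D = ⟨s ++ w, h1, h2⟩` (VOK, NewOK trivial for kind free).
`ext_new`: for kind `≠ loc`: if `c ∉ p.1.dom`, `add_coord` with `D = ⟨[], ∅, ∅⟩` (VOK: trivial, for dset no
entries). `ext_hech`: `c ∈ p.1.dom`, kind hech, stem `s` of length `n`: decide `(nm (some (inr i))) n` for all
`i ∈ h2` (finite induction with `exists_dec`, `ρ = c.rank`, `supp_nm`; the local part at `c` does not change),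
`r ≤ p`, values `v i`; append `w = max v i` (`Finset.sup`), i.e. `upd_coord` with `D = ⟨s ++ [w], h1, h2⟩`.
`ext_h2`: `upd_coord` with `D = ⟨s, h1, insert i h2⟩` (stem unchanged, NewOK empty; kind hech). -/

namespace Pool.Agent.Lib.MP_f6e1de_lc

variable {I J : Type}

private theorem extA_dat_self {q : Cond I J} {c : Coord I J} {D : Dat I J} :
    (q.upd c D).dat c = D := by
  classical
  unfold Cond.upd
  exact Function.update_self c D q.dat

private theorem extA_dat_ne {q : Cond I J} {c c' : Coord I J} {D : Dat I J} (h : c' ≠ c) :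
    (q.upd c D).dat c' = q.dat c' := by
  classical
  unfold Cond.upd
  exact Function.update_of_ne h _ _

private theorem extA_mem {q : Cond I J} {c : Coord I J} {D : Dat I J} :
    c ∈ (q.upd c D).dom := by
  classical
  unfold Cond.upd
  exact Finset.mem_insert_self _ _

private theorem extA_dom_mem {q : Cond I J} {c : Coord I J} {D : Dat I J} (hc : c ∈ q.dom) :
    (q.upd c D).dom = q.dom := by
  classical
  unfold Cond.upd
  exact Finset.insert_eq_of_mem hc

private theorem extA_dec {p : Cond I J} (hp : Val p) (c : Coord I J) (n : ℕ) (S : Finset J) :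
    ∃ r : Cond I J, Val r ∧ Le r p ∧
      (∀ c', c.rank ≤ c'.rank → ((c' ∈ r.dom ↔ c' ∈ p.dom) ∧ r.dat c' = p.dat c')) ∧
      ∀ i ∈ S, ∃ v, Dec Le Val r (c.nm (some (.inr i))) n v := by
  classical
  induction S using Finset.induction_on with
  | empty =>
    exact ⟨p, hp, le_refl' p, fun c' _ => ⟨Iff.rfl, rfl⟩, fun i hi =>
      absurd hi (Finset.notMem_empty i)⟩
  | insert a S ha ih =>
    obtain ⟨r, hr, hrp, hrc, hrd⟩ := ih
    obtain ⟨r', v, hr', hrr', hrc', hd⟩ := exists_dec hr (supp_nm c (some (.inr a))) n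
    refine ⟨r', hr', le_trans' hr' hr hrr' hrp, fun c' hc' => ?_, fun i hi => ?_⟩
    · exact ⟨(hrc' c' hc').1.trans (hrc c' hc').1, (hrc' c' hc').2.trans (hrc c' hc').2⟩
    · rcases Finset.mem_insert.1 hi with rfl | hi
      · exact ⟨v, hd⟩
      · obtain ⟨w, hw⟩ := hrd i hi
        exact ⟨w, dec_mono hr' hr hrr' hw⟩

theorem ext_free (p : PP I J) {c : Coord I J} {η : I ⊕ J} (hk : c.kind = .free η)
    (hc : c ∈ p.1.dom) (w : List ℕ) :
    ∃ q : PP I J, q ≤ p ∧ (q.1.dat c).s = (p.1.dat c).s ++ w ∧ q.1.dom = p.1.dom ∧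
      ∀ c', c' ≠ c → q.1.dat c' = p.1.dat c' := by
  have he : ExtOK Le Val c p.1 ⟨(p.1.dat c).s ++ w, (p.1.dat c).h1, (p.1.dat c).h2⟩
      (p.1.dat c) := by
    refine ⟨List.prefix_append _ _, Finset.Subset.refl _, Finset.Subset.refl _, ?_⟩
    unfold NewOK
    rw [hk]
    trivial
  have hv : VOK Le Val c p.1 ⟨(p.1.dat c).s ++ w, (p.1.dat c).h1, (p.1.dat c).h2⟩ := by
    unfold VOK
    rw [hk]
    trivial
  obtain ⟨h1, h2⟩ := upd_coord p.2 hc he hv
  refine ⟨⟨_, h1⟩, h2, ?_, ?_, ?_⟩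
  · rw [extA_dat_self]
  · exact extA_dom_mem hc
  · intro c' hc'
    exact extA_dat_ne hc'

theorem ext_new (p : PP I J) (c : Coord I J) (hk : c.kind ≠ .loc) :
    ∃ q : PP I J, q ≤ p ∧ c ∈ q.1.dom := by
  by_cases hc : c ∈ p.1.dom
  · exact ⟨p, le_refl' p.1, hc⟩
  have hv : VOK Le Val c p.1 ⟨[], ∅, ∅⟩ := by
    unfold VOK
    cases hkk : c.kind with
    | free η => trivial
    | dset =>
      intro j hj
      exact absurd hj (Nat.not_lt_zero j)
    | hech => trivial
    | loc => exact absurd hkk hk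
  obtain ⟨h1, h2⟩ := add_coord p.2 hc hv
  exact ⟨⟨_, h1⟩, h2, extA_mem⟩

theorem ext_hech (p : PP I J) {c : Coord I J} (hk : c.kind = .hech) (hc : c ∈ p.1.dom) :
    ∃ q : PP I J, q ≤ p ∧ c ∈ q.1.dom ∧ (p.1.dat c).s.length < (q.1.dat c).s.length := by
  classical
  obtain ⟨r, hr, hrp, hrc, hrd⟩ := extA_dec p.2 c (p.1.dat c).s.length (p.1.dat c).h2
  have hcr : c ∈ r.dom := (hrc c le_rfl).1.2 hc
  have hdr : r.dat c = p.1.dat c := (hrc c le_rfl).2
  choose! v hv using hrd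
  have he : ExtOK Le Val c r ⟨(r.dat c).s ++ [(p.1.dat c).h2.sup v], (r.dat c).h1, (r.dat c).h2⟩
      (r.dat c) := by
    refine ⟨List.prefix_append _ _, Finset.Subset.refl _, Finset.Subset.refl _, ?_⟩
    unfold NewOK
    rw [hk]
    intro i hi j hj1 hj2
    simp only [List.length_append, List.length_cons, List.length_nil] at hj2
    have hj : j = (r.dat c).s.length := by omega
    subst hj
    rw [hdr] at hi ⊢
    refine ⟨v i, hv i hi, ?_⟩
    rw [List.getD_append_right _ _ _ _ le_rfl, Nat.sub_self]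
    exact Finset.le_sup hi
  have hvv : VOK Le Val c r
      ⟨(r.dat c).s ++ [(p.1.dat c).h2.sup v], (r.dat c).h1, (r.dat c).h2⟩ := by
    unfold VOK
    rw [hk]
    trivial
  obtain ⟨h1, h2⟩ := upd_coord hr hcr he hvv
  refine ⟨⟨_, h1⟩, le_trans' h1 hr h2 hrp, extA_mem, ?_⟩
  rw [extA_dat_self, hdr]
  simp

theorem ext_h2 (p : PP I J) {c : Coord I J} (hk : c.kind = .hech) (hc : c ∈ p.1.dom) (i : J) :
    ∃ q : PP I J, q ≤ p ∧ c ∈ q.1.dom ∧ i ∈ (q.1.dat c).h2 := by
  classical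
  have he : ExtOK Le Val c p.1 ⟨(p.1.dat c).s, (p.1.dat c).h1, insert i (p.1.dat c).h2⟩
      (p.1.dat c) := by
    refine ⟨List.prefix_rfl, Finset.Subset.refl _, Finset.subset_insert _ _, ?_⟩
    unfold NewOK
    rw [hk]
    intro i hi j hj1 hj2
    exact absurd hj2 (not_lt.2 hj1)
  have hv : VOK Le Val c p.1 ⟨(p.1.dat c).s, (p.1.dat c).h1, insert i (p.1.dat c).h2⟩ := by
    unfold VOK
    rw [hk]
    trivial
  obtain ⟨h1, h2⟩ := upd_coord p.2 hc he hv
  refine ⟨⟨_, h1⟩, h2, extA_mem, ?_⟩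
  rw [extA_dat_self]
  exact Finset.mem_insert_self _ _

end Pool.Agent.Lib.MP_f6e1de_lc
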