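import Mathlib
import Pool.Agent.Lib.MP_f6e1de_lc.ExtA
import Pool.Agent.Lib.MP_f6e1de_lc.AmDec

/-! Extension lemmas for coordinates of kind `dset` and `loc`.

PROOFS. `ext_dset`: kind dset, `c ∈ p.1.dom`, stem `s`, `N = s.length`,
`d = (if N = 0 then 0 else dval s (N-1)) + g + 1`: `exists_dec` (`ρ = c.rank`, `supp_nm`) for
`(nm none, d)`: `r ≤ p`, value `v`, local part at `c` unchanged; `upd_coord` with
`D = ⟨s ++ [Nat.pair g v], h1, h2⟩`: VOK: old entries from `val_vok` of `r` (`dval_prefix`,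
`gval_prefix`), the new one: `dval D.s N = d`, `gval D.s N = v`; NewOK is True. (With `g = 0` this gives
length one more.)
`ext_ds_len`: iterate `ext_dset` (after `ext_new`) until the length exceeds `n`.
`ext_loc_new`: kind loc: first `ext_ds_len` for `c.ds` with length `> 0`; if `c` is not in the domain add it
with `D = ⟨[], ∅, ∅⟩` by `add_coord`.
`ext_loc`: kind loc, `c ∈ dom`, stem `s` of length `n`: extend so that the stem of `c.ds` has length `> n+1`
(this may change `c`: if the length at `c` has grown we are done; in fact extend by `ext_ds_len`, whose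
result `q` has a stem at `c` extending `s`; if it is longer we are done, otherwise it has length `n`), decide
`(nm (some (inl i))) n` for `i ∈ h1` (finite induction, `exists_dec`, `ρ = c.rank`), let
`B = {v i | i ∈ h1}` (Finset.image), card `≤` card h1 `≤ dval (stem c.ds) n`; `upd_coord` with
`D = ⟨s ++ [fenc B], h1, h2⟩`; `fset_fenc`. VOK: length
`n+1 <` length of the stem at `c.ds`, card h1 `≤ dval n ≤ dval (n+1)` (`dval_lt`).
`ext_h1`: first `ext_loc` so that card h1 `≤ dval n < dval (n+1)` at the new length `n+1`, then `upd_coord`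
with `D = ⟨s, insert i h1, h2⟩` (stem unchanged, so NewOK is empty; card `≤ dval (n+1)` as the set h1 after
`ext_loc` is the old one or has card at most dval n: to be safe state `ext_loc` with h1 unchanged). -/

namespace Pool.Agent.Lib.MP_f6e1de_lc

variable {I J : Type}

private theorem eb_mem_upd {q : Cond I J} {c c' : Coord I J} {D : Dat I J} :
    c' ∈ (q.upd c D).dom ↔ c' = c ∨ c' ∈ q.dom := by
  classical
  unfold Cond.upd
  exact Finset.mem_insert

private theorem eb_dat_same (q : Cond I J) (c : Coord I J) (D : Dat I J) :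
    (q.upd c D).dat c = D := by
  classical
  unfold Cond.upd
  simp

private theorem eb_dat_ne (q : Cond I J) {c c' : Coord I J} (D : Dat I J) (h : c' ≠ c) :
    (q.upd c D).dat c' = q.dat c' := by
  classical
  unfold Cond.upd
  exact Function.update_of_ne h _ _

private theorem eb_vok_loc {c : Coord I J} (hk : c.kind = .loc) {p : Cond I J} {D : Dat I J} :
    VOK Le Val c p D ↔ c.ds ∈ p.dom ∧ D.s.length < (p.dat c.ds).s.length ∧
      D.h1.card ≤ dval (p.dat c.ds).s D.s.length ∧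
      ∀ j < D.s.length, (fset (D.s.getD j 0)).card ≤ dval (p.dat c.ds).s j := by
  unfold VOK
  rw [hk]

private theorem eb_vok_dset {c : Coord I J} (hk : c.kind = .dset) {p : Cond I J} {D : Dat I J} :
    VOK Le Val c p D ↔ ∀ j < D.s.length,
      Dec Le Val p (c.nm none) (dval D.s j) (gval D.s j) := by
  unfold VOK
  rw [hk]

private theorem eb_newok_loc {c : Coord I J} (hk : c.kind = .loc) {q : Cond I J}
    {D' D : Dat I J} :
    NewOK Le Val c q D' D ↔ ∀ i ∈ D.h1, ∀ j, D.s.length ≤ j → j < D'.s.length →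
      ∃ v, Dec Le Val q (c.nm (some (.inl i))) j v ∧
        (v < gval (q.dat c.ds).s j → v ∈ fset (D'.s.getD j 0)) := by
  unfold NewOK
  rw [hk]

private theorem eb_newok_dset {c : Coord I J} (hk : c.kind = .dset) {q : Cond I J}
    {D' D : Dat I J} : NewOK Le Val c q D' D := by
  unfold NewOK
  rw [hk]
  trivial

private theorem eb_dval_last (s : List ℕ) (g v : ℕ) :
    dval (s ++ [Nat.pair g v]) s.length =
      (s.map (fun w => (Nat.unpair w).1 + 1)).sum + (g + 1) := by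
  unfold dval
  rw [List.take_of_length_le (by simp)]
  simp

private theorem eb_gval_last (s : List ℕ) (g v : ℕ) :
    gval (s ++ [Nat.pair g v]) s.length = v := by
  unfold gval
  rw [List.getD_append_right _ _ _ _ le_rfl]
  simp

/-- one more element at a coordinate of kind `dset` -/
private theorem eb_dset (p : PP I J) {c : Coord I J} (hk : c.kind = .dset) (hc : c ∈ p.1.dom) :
    ∃ q : PP I J, q ≤ p ∧ c ∈ q.1.dom ∧ (q.1.dat c).s.length = (p.1.dat c).s.length + 1 ∧
      ∀ c', c.rank ≤ c'.rank → c' ≠ c →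
        ((c' ∈ q.1.dom ↔ c' ∈ p.1.dom) ∧ q.1.dat c' = p.1.dat c') := by
  obtain ⟨r, v, hr, hrp, hun, hdec⟩ := exists_dec p.2 (supp_nm c none)
    (((p.1.dat c).s.map (fun w => (Nat.unpair w).1 + 1)).sum + (0 + 1))
  have hcr : c ∈ r.dom := (hun c le_rfl).1.2 hc
  have hdat : r.dat c = p.1.dat c := (hun c le_rfl).2
  obtain ⟨D, hD⟩ : ∃ D : Dat I J, D = ⟨(p.1.dat c).s ++ [Nat.pair 0 v], (p.1.dat c).h1,
    (p.1.dat c).h2⟩ := ⟨_, rfl⟩
  have hv : VOK Le Val c r D := by
    rw [eb_vok_dset hk]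
    intro j hj
    have hold := (eb_vok_dset hk).1 (val_vok hr c hcr)
    rw [hdat] at hold
    rw [hD] at hj ⊢
    simp only [List.length_append, List.length_singleton] at hj
    rcases Nat.lt_succ_iff_lt_or_eq.1 hj with h | h
    · have h1 : (p.1.dat c).s <+: (p.1.dat c).s ++ [Nat.pair 0 v] := List.prefix_append _ _
      rw [← dval_prefix h1 h, ← gval_prefix h1 h]
      exact hold j h
    · subst h
      rw [eb_dval_last, eb_gval_last]
      exact hdec
  have he : ExtOK Le Val c r D (r.dat c) := by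
    rw [hdat]
    refine ⟨?_, ?_, ?_, eb_newok_dset hk⟩
    · rw [hD]
      exact List.prefix_append _ _
    · rw [hD]
    · rw [hD]
  obtain ⟨h1, h2⟩ := upd_coord hr hcr he hv
  refine ⟨⟨r.upd c D, h1⟩, le_trans' h1 hr h2 hrp, eb_mem_upd.2 (Or.inl rfl), ?_, ?_⟩
  · rw [eb_dat_same, hD]
    simp
  · intro c' h3 h4
    refine ⟨?_, ?_⟩
    · rw [eb_mem_upd]
      rw [← (hun c' h3).1]
      exact ⟨fun h => h.resolve_left h4, Or.inr⟩
    · rw [eb_dat_ne _ _ h4]
      exact (hun c' h3).2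

private theorem eb_ds_len (p : PP I J) {d : Coord I J} (hk : d.kind = .dset)
    (hd : d ∈ p.1.dom) (n : ℕ) :
    ∃ q : PP I J, q ≤ p ∧ d ∈ q.1.dom ∧ (q.1.dat d).s.length = (p.1.dat d).s.length + n ∧
      ∀ c', d.rank ≤ c'.rank → c' ≠ d →
        ((c' ∈ q.1.dom ↔ c' ∈ p.1.dom) ∧ q.1.dat c' = p.1.dat c') := by
  induction n with
  | zero => exact ⟨p, le_rfl, hd, rfl, fun _ _ _ => ⟨Iff.rfl, rfl⟩⟩
  | succ n ih =>
    obtain ⟨q, h1, h2, h3, h4⟩ := ih
    obtain ⟨r, h5, h6, h7, h8⟩ := eb_dset q hk h2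
    refine ⟨r, le_trans h5 h1, h6, by omega, fun c' h9 h10 => ?_⟩
    exact ⟨(h8 c' h9 h10).1.trans (h4 c' h9 h10).1, (h8 c' h9 h10).2.trans (h4 c' h9 h10).2⟩

theorem ext_dset (p : PP I J) {c : Coord I J} (hk : c.kind = .dset) (hc : c ∈ p.1.dom) :
    ∃ q : PP I J, q ≤ p ∧ c ∈ q.1.dom ∧ (p.1.dat c).s.length < (q.1.dat c).s.length := by
  obtain ⟨q, h1, h2, h3, -⟩ := eb_dset p hk hc
  exact ⟨q, h1, h2, by omega⟩

/-- The same without changing coordinates of rank `≥ ρ`, where `c.rank < ρ`. -/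
theorem ext_dset_below (p : PP I J) {c : Coord I J} (hk : c.kind = .dset) (hc : c ∈ p.1.dom)
    {ρ : Ordinal.{0}} (hρ : c.rank < ρ) :
    ∃ q : PP I J, q ≤ p ∧ c ∈ q.1.dom ∧ (p.1.dat c).s.length < (q.1.dat c).s.length ∧
      ∀ c', ρ ≤ c'.rank → ((c' ∈ q.1.dom ↔ c' ∈ p.1.dom) ∧ q.1.dat c' = p.1.dat c') := by
  obtain ⟨q, h1, h2, h3, h4⟩ := eb_dset p hk hc
  refine ⟨q, h1, h2, by omega, fun c' hc' => h4 c' (hρ.le.trans hc') ?_⟩
  rintro rfl
  exact absurd hρ (not_lt.2 hc')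

theorem ext_loc_new (p : PP I J) {c : Coord I J} (hk : c.kind = .loc) :
    ∃ q : PP I J, q ≤ p ∧ c ∈ q.1.dom := by
  obtain ⟨p1, h1, h2⟩ := ext_new p c.ds (by
    have : c.ds.kind = .dset := rfl
    rw [this]
    simp)
  obtain ⟨p2, h3, h4, h5, -⟩ := eb_ds_len p1 (d := c.ds) rfl h2 1
  by_cases hc : c ∈ p2.1.dom
  · exact ⟨p2, le_trans h3 h1, hc⟩
  · obtain ⟨h6, h7⟩ := add_coord p2.2 hc (D := ⟨[], ∅, ∅⟩) (by
      rw [eb_vok_loc hk]
      refine ⟨h4, ?_, ?_, ?_⟩
      · simp only [List.length_nil]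
        omega
      · simp
      · intro j hj
        simp at hj)
    exact ⟨⟨p2.1.upd c ⟨[], ∅, ∅⟩, h6⟩, le_trans' h6 p1.2 (le_trans' h6 p2.2 h7 h3) h1,
      eb_mem_upd.2 (Or.inl rfl)⟩

/-- One more entry at a coordinate of kind `loc`, promise set unchanged. -/
theorem ext_loc (p : PP I J) {c : Coord I J} (hk : c.kind = .loc) (hc : c ∈ p.1.dom) :
    ∃ q : PP I J, q ≤ p ∧ c ∈ q.1.dom ∧ (q.1.dat c).s.length = (p.1.dat c).s.length + 1 ∧
      (q.1.dat c).h1 = (p.1.dat c).h1 := by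
  classical
  have hrank := rank_ds c hk
  have hne : c ≠ c.ds := by
    intro h
    rw [← h] at hrank
    exact lt_irrefl _ hrank
  have hvp := (eb_vok_loc hk).1 (val_vok p.2 c hc)
  obtain ⟨p1, h1, h2, h3, h4⟩ := eb_ds_len p (d := c.ds) rfl hvp.1 1
  have h5 := h4 c hrank.le hne
  obtain ⟨r, hr, hrp, hun, hdec⟩ := exists_dec_finset p1.2 (ρ := c.rank)
    ((p.1.dat c).h1.image (fun i => (c.nm (some (.inl i)), (p.1.dat c).s.length))) (by
      intro w hw
      obtain ⟨x, -, rfl⟩ := Finset.mem_image.1 hw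
      exact supp_nm c _)
  have hcr : c ∈ r.dom := (hun c le_rfl).1.2 (h5.1.2 hc)
  have hdat : r.dat c = p.1.dat c := ((hun c le_rfl).2).trans h5.2
  have hdec' : ∀ i : I, ∃ v, i ∈ (p.1.dat c).h1 →
      Dec Le Val r (c.nm (some (.inl i))) (p.1.dat c).s.length v := by
    intro i
    by_cases h : i ∈ (p.1.dat c).h1
    · obtain ⟨v, hv⟩ := hdec (c.nm (some (.inl i)), (p.1.dat c).s.length)
        (Finset.mem_image.2 ⟨i, h, rfl⟩)
      exact ⟨v, fun _ => hv⟩
    · exact ⟨0, fun h' => absurd h' h⟩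
  choose v hv using hdec'
  obtain ⟨D, hD⟩ : ∃ D : Dat I J, D = ⟨(p.1.dat c).s ++ [fenc ((p.1.dat c).h1.image v)],
    (p.1.dat c).h1, (p.1.dat c).h2⟩ := ⟨_, rfl⟩
  have hvr := (eb_vok_loc hk).1 (val_vok hr c hcr)
  rw [hdat] at hvr
  have hpre : (p1.1.dat c.ds).s <+: (r.dat c.ds).s := ((le_iff hr p1.2).1 hrp c.ds h2).2.1
  have hlong : (p.1.dat c).s.length + 1 < (r.dat c.ds).s.length := by
    have h6 := hpre.length_le
    have h7 := hvp.2.1
    omega
  have hlast : ((p.1.dat c).s ++ [fenc ((p.1.dat c).h1.image v)]).getD (p.1.dat c).s.length 0 =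
      fenc ((p.1.dat c).h1.image v) := by
    rw [List.getD_append_right _ _ _ _ le_rfl]
    simp
  have hvD : VOK Le Val c r D := by
    rw [eb_vok_loc hk]
    refine ⟨hvr.1, ?_, ?_, ?_⟩
    · rw [hD]
      simpa using hlong
    · rw [hD]
      simp only [List.length_append, List.length_singleton]
      exact hvr.2.2.1.trans (dval_lt (Nat.lt_succ_self _) hlong).le
    · intro j hj
      rw [hD] at hj ⊢
      simp only [List.length_append, List.length_singleton] at hj
      rcases Nat.lt_succ_iff_lt_or_eq.1 hj with h | h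
      · rw [List.getD_append _ _ _ _ h]
        exact hvr.2.2.2 j h
      · subst h
        rw [hlast, fset_fenc]
        exact Finset.card_image_le.trans hvr.2.2.1
  have he : ExtOK Le Val c r D (r.dat c) := by
    rw [hdat]
    refine ⟨?_, ?_, ?_, ?_⟩
    · rw [hD]
      exact List.prefix_append _ _
    · rw [hD]
    · rw [hD]
    · rw [eb_newok_loc hk]
      intro i hi j h6 h7
      rw [hD] at h7 ⊢
      simp only [List.length_append, List.length_singleton] at h7
      have h8 : j = (p.1.dat c).s.length := by omega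
      subst h8
      refine ⟨v i, hv i hi, fun _ => ?_⟩
      rw [hlast, fset_fenc]
      exact Finset.mem_image_of_mem _ hi
  obtain ⟨h6, h7⟩ := upd_coord hr hcr he hvD
  refine ⟨⟨r.upd c D, h6⟩, le_trans' h6 p1.2 (le_trans' h6 hr h7 hrp) h1,
    eb_mem_upd.2 (Or.inl rfl), ?_, ?_⟩
  · rw [eb_dat_same, hD]
    simp
  · rw [eb_dat_same, hD]

theorem ext_h1 (p : PP I J) {c : Coord I J} (hk : c.kind = .loc) (hc : c ∈ p.1.dom) (i : I) :
    ∃ q : PP I J, q ≤ p ∧ c ∈ q.1.dom ∧ i ∈ (q.1.dat c).h1 := by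
  classical
  obtain ⟨q, h1, h2, h3, h4⟩ := ext_loc p hk hc
  have hvp := (eb_vok_loc hk).1 (val_vok p.2 c hc)
  have hvq := (eb_vok_loc hk).1 (val_vok q.2 c h2)
  have hpre : (p.1.dat c.ds).s <+: (q.1.dat c.ds).s :=
    ((le_iff q.2 p.2).1 h1 c.ds hvp.1).2.1
  obtain ⟨D, hD⟩ : ∃ D : Dat I J, D = ⟨(q.1.dat c).s, insert i (q.1.dat c).h1,
    (q.1.dat c).h2⟩ := ⟨_, rfl⟩
  have hvD : VOK Le Val c q.1 D := by
    rw [eb_vok_loc hk]
    rw [hD]
    refine ⟨hvq.1, hvq.2.1, ?_, hvq.2.2.2⟩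
    refine (Finset.card_insert_le _ _).trans ?_
    rw [h4, h3]
    have h5 := hvp.2.2.1
    rw [dval_prefix hpre hvp.2.1] at h5
    have h6 := hvq.2.1
    rw [h3] at h6
    have h7 := dval_lt (Nat.lt_succ_self (p.1.dat c).s.length) h6
    simp only [Nat.succ_eq_add_one] at h7
    omega
  have he : ExtOK Le Val c q.1 D (q.1.dat c) := by
    rw [hD]
    refine ⟨List.prefix_rfl, Finset.subset_insert _ _, Finset.Subset.refl _, ?_⟩
    rw [eb_newok_loc hk]
    intro i' _ j h6 h7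
    exact absurd h6 (not_le.2 h7)
  obtain ⟨h6, h7⟩ := upd_coord q.2 h2 he hvD
  refine ⟨⟨q.1.upd c D, h6⟩, le_trans' h6 q.2 h7 h1, eb_mem_upd.2 (Or.inl rfl), ?_⟩
  rw [eb_dat_same, hD]
  exact Finset.mem_insert_self _ _

/-- Every coordinate gets arbitrarily long stems. -/
theorem ext_len (p : PP I J) (c : Coord I J) (n : ℕ) :
    ∃ q : PP I J, q ≤ p ∧ c ∈ q.1.dom ∧ n < (q.1.dat c).s.length := by
  have h0 : ∃ q : PP I J, q ≤ p ∧ c ∈ q.1.dom := by
    by_cases hk : c.kind = .loc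
    · exact ext_loc_new p hk
    · exact ext_new p c hk
  have hstep : ∀ q : PP I J, c ∈ q.1.dom → ∃ r : PP I J, r ≤ q ∧ c ∈ r.1.dom ∧
      (q.1.dat c).s.length < (r.1.dat c).s.length := by
    intro q hq
    rcases hk : c.kind with η | _ | _ | _
    · obtain ⟨r, h1, h2, h3, -⟩ := ext_free q hk hq [0]
      exact ⟨r, h1, h3 ▸ hq, by rw [h2]; simp⟩
    · exact ext_dset q hk hq
    · exact ext_hech q hk hq
    · obtain ⟨r, h1, h2, h3, -⟩ := ext_loc q hk hq
      exact ⟨r, h1, h2, by omega⟩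
  obtain ⟨p0, hp0, hc0⟩ := h0
  have hiter : ∀ k : ℕ, ∃ r : PP I J, r ≤ p0 ∧ c ∈ r.1.dom ∧ k ≤ (r.1.dat c).s.length := by
    intro k
    induction k with
    | zero => exact ⟨p0, le_rfl, hc0, Nat.zero_le _⟩
    | succ k ih =>
      obtain ⟨r, h1, h2, h3⟩ := ih
      obtain ⟨r', h4, h5, h6⟩ := hstep r h2
      exact ⟨r', le_trans h4 h1, h5, by omega⟩
  obtain ⟨r, h1, h2, h3⟩ := hiter (n + 1)
  exact ⟨r, le_trans h1 hp0, h2, by omega⟩

end Pool.Agent.Lib.MP_f6e1de_lc
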