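import Mathlib
import Pool.Agent.Lib.MP_f6e1de_lc.EvalC
import Pool.Agent.Lib.MP_f6e1de_lc.RNames

/-! Translation of measure zero between names and the real level.

PROOF. As in SNT.lean. `bval (fIsNull w C) v = ⨅ k, (bMem k ω ⇨ ⨆ l, ⨆ Z, ⨆ Y, (fun ⊓ (cov ⊓ pack))) =
⨅ k0 : ℕ, ...(chk k0)` (`iInf_chkAll`, `ext1_bval`), where `fun = bval (fIsFun (w+4) 2) ..`,
`cov = ⨅ y, (sub y ⇨ (c y ⇨ bval (fCovered (w+5) 3 2 0) ..))`, `pack = bval (fPacked (w+4) 3 2 0) ..`.
(→) for `k0` use `exists_max` three times (the inner suprema are Ext1 by `ext1_bval`, for the formulas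
`.ex (.ex ..)`, `.ex ..`) to get names `l Z Y` with `b ≤` the conjunction; put
`l' = gOf l`, `z = zOf Z`, `u = zOf Y`. Below `b`, `l` is a function (`at_fIsFun`), so `relAt F l n m ↔ gOf l F n = m`
(`gOf_spec`); covering as in SNT with the instance `rn y`; `at_fPacked` translates to `PackedX`.
(←) given `l z u` for `k0` use the names `fnm l`, `znm z`, `znm u`. -/

namespace Pool.Agent.Lib.MP_f6e1de_lc

open Pool.Agent.Lib.BVM Pool.Agent.Lib.BVM.BSet Filter Topology

variable {P : Type} [Preorder P]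

/-- The conjunction of the three conditions for the names `l Z Y`. -/
private noncomputable def nl (w : ℕ) (C : Fm) (v : ℕ → BSet (BB P)) (k l Z Y : BSet (BB P)) :
    BB P :=
  bval (fIsFun (w + 4) 2) (scons Y (scons Z (scons l (scons k v)))) ⊓
    ((⨅ y, (bval (fSub 0 (w + 5)) (scons y (scons Y (scons Z (scons l (scons k v))))) ⇨
      (bval C (scons y (scons Y (scons Z (scons l (scons k v))))) ⇨
        bval (fCovered (w + 5) 3 2 0) (scons y (scons Y (scons Z (scons l (scons k v)))))))) ⊓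
      bval (fPacked (w + 4) 3 2 0) (scons Y (scons Z (scons l (scons k v)))))

private theorem null_unfold {w : ℕ} {C : Fm} {v : ℕ → BSet (BB P)} (hw : v w = chkAll (BB P) ℕ) :
    bval (fIsNull w C) v = ⨅ k : ℕ, ⨆ l, ⨆ Z, ⨆ Y, nl w C v (chk (BB P) k) l Z Y := by
  have h1 : bval (fIsNull w C) v = ⨅ k, (bMem k (chkAll (BB P) ℕ) ⇨ ⨆ l, ⨆ Z, ⨆ Y,
      nl w C v k l Z Y) := by
    rw [← hw]
    rfl
  rw [h1]
  exact iInf_chkAll (ext1_bval (.ex (.ex (.ex (.and (fIsFun (w + 4) 2)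
    (.and (.all (.imp (fSub 0 (w + 5)) (.imp C (fCovered (w + 5) 3 2 0))))
      (fPacked (w + 4) 3 2 0)))))) v)

private theorem exists_names {w : ℕ} {C : Fm} {v : ℕ → BSet (BB P)} (k : BSet (BB P)) :
    ∃ l Z Y, nl w C v k l Z Y = ⨆ l, ⨆ Z, ⨆ Y, nl w C v k l Z Y := by
  obtain ⟨l, hl⟩ := exists_max (ext1_bval (.ex (.ex (.and (fIsFun (w + 4) 2)
    (.and (.all (.imp (fSub 0 (w + 5)) (.imp C (fCovered (w + 5) 3 2 0))))
      (fPacked (w + 4) 3 2 0))))) (scons k v))
  obtain ⟨Z, hZ⟩ := exists_max (ext1_bval (.ex (.and (fIsFun (w + 4) 2)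
    (.and (.all (.imp (fSub 0 (w + 5)) (.imp C (fCovered (w + 5) 3 2 0))))
      (fPacked (w + 4) 3 2 0)))) (scons l (scons k v)))
  obtain ⟨Y, hY⟩ := exists_max (ext1_bval (.and (fIsFun (w + 4) 2)
    (.and (.all (.imp (fSub 0 (w + 5)) (.imp C (fCovered (w + 5) 3 2 0))))
      (fPacked (w + 4) 3 2 0))) (scons Z (scons l (scons k v))))
  refine ⟨l, Z, Y, ?_⟩
  exact (hY.trans hZ).trans hl

private theorem sub_val {w : ℕ} {v : ℕ → BSet (BB P)} (hw : v w = chkAll (BB P) ℕ)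
    (k l Z Y y : BSet (BB P)) :
    bval (fSub 0 (w + 5)) (scons y (scons Y (scons Z (scons l (scons k v))))) =
      ⨅ z, (bMem z y ⇨ bMem z (chkAll (BB P) ℕ)) := by
  rw [← hw]
  rfl

private theorem relAt_zOf (F : Pt P) (Z : BSet (BB P)) (n i : ℕ) :
    relAt F Z n i ↔ zOf Z F n i = true := by
  simp only [zOf, decide_eq_true_eq]

private theorem memAt_yOf (F : Pt P) (y : BSet (BB P)) (i : ℕ) :
    memAt F y i ↔ yOf y F i = true := by
  simp only [yOf, decide_eq_true_eq]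

/-- From names to measurable maps. -/
private theorem null_fwd {w : ℕ} {C : Fm} {v : ℕ → BSet (BB P)} (hw : v w = chkAll (BB P) ℕ)
    (c : BSet (BB P) → BB P)
    (hC : ∀ k l Z Y y, bval C (scons y (scons Y (scons Z (scons l (scons k v))))) = c y)
    {b : BB P} {k : ℕ} {l Z Y : BSet (BB P)} (hb : b ≤ nl w C v (chk (BB P) k) l Z Y) :
    (∀ y : Pt P → ℕ → Bool, Measurable y → ∀ᶠ F in residual (Pt P), At F b → At F (c (rn y)) →
      ∃ n, ∀ i < gOf l F n, y F i = zOf Z F n i) ∧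
    ∀ᶠ F in residual (Pt P), At F b → PackedX k (gOf l F) (zOf Y F) := by
  have hb1 : b ≤ bval (fIsFun (w + 4) 2)
      (scons Y (scons Z (scons l (scons (chk (BB P) k) v)))) := hb.trans inf_le_left
  have hb2 := hb.trans (inf_le_right.trans inf_le_left)
  have hb3 : b ≤ bval (fPacked (w + 4) 3 2 0)
      (scons Y (scons Z (scons l (scons (chk (BB P) k) v)))) :=
    hb.trans (inf_le_right.trans inf_le_right)
  have hfun : ∀ᶠ F in residual (Pt P), At F b → ∀ n m, relAt F l n m ↔ gOf l F n = m := by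
    filter_upwards [at_fIsFun (scons Y (scons Z (scons l (scons (chk (BB P) k) v)))) (w + 4) 2 hw]
      with F hF hFb
    exact gOf_spec (hF.1 (at_mono hb1 hFb))
  constructor
  · intro y hy
    have h1 := hb2.trans (iInf_le _ (rn y))
    rw [sub_val hw, rn_sub, top_himp, hC] at h1
    filter_upwards [hfun, le_iff_residual.1 h1, at_himp (c (rn y)) (bval (fCovered (w + 5) 3 2 0)
      (scons (rn y) (scons Y (scons Z (scons l (scons (chk (BB P) k) v)))))),
      at_fCovered (scons (rn y) (scons Y (scons Z (scons l (scons (chk (BB P) k) v)))))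
        (w + 5) 3 2 0 hw, rn_mem hy] with F a1 a2 a3 a4 a5 hFb hFc
    obtain ⟨n, m, h2, h3⟩ := a4.1 (a3.1 (a2 hFb) hFc)
    refine ⟨n, fun i hi => ?_⟩
    have h4 : gOf l F n = m := (a1 hFb n m).1 h2
    rw [h4] at hi
    have h5 := h3 i hi
    have h6 : (memAt F (rn y) i ↔ relAt F Z n i) := h5
    rw [relAt_zOf] at h6
    have h7 : y F i = true ↔ zOf Z F n i = true := (a5 i).symm.trans h6
    exact Bool.eq_iff_iff.2 h7
  · filter_upwards [hfun, le_iff_residual.1 hb3,
      at_fPacked (scons Y (scons Z (scons l (scons (chk (BB P) k) v)))) (w + 4) 3 2 0 hw k rfl]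
      with F a1 a2 a3 hFb
    obtain ⟨h1, h2⟩ := a3.1 (a2 hFb)
    constructor
    · intro n
      have h3 := h1 n (gOf l F n) ((a1 hFb n _).2 rfl)
      refine ⟨h3.1, fun i hi => ?_⟩
      have h4 : ¬ relAt F Y n i := h3.2 i hi
      rw [relAt_zOf] at h4
      exact Bool.eq_false_iff.2 h4
    · intro n n' hn
      obtain ⟨i, hi, hi', h3⟩ := h2 n n' (gOf l F n) (gOf l F n') ((a1 hFb n _).2 rfl)
        ((a1 hFb n' _).2 rfl) hn
      refine ⟨i, hi, hi', fun h4 => h3 ?_⟩
      show relAt F Y n i ↔ relAt F Y n' i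
      rw [relAt_zOf, relAt_zOf, h4]

/-- From measurable maps to names. -/
private theorem null_bwd {w : ℕ} {C : Fm} {v : ℕ → BSet (BB P)} (hw : v w = chkAll (BB P) ℕ)
    (c : BSet (BB P) → BB P) (hc : Ext1 c)
    (hC : ∀ k l Z Y y, bval C (scons y (scons Y (scons Z (scons l (scons k v))))) = c y)
    {b : BB P} {k : ℕ} {l : Pt P → ℕ → ℕ} {z u : Pt P → ℕ → ℕ → Bool} (hl : Measurable l)
    (hz : ∀ n i, MeasurableSet {F | z F n i = true})
    (hu : ∀ n i, MeasurableSet {F | u F n i = true})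
    (h1 : ∀ y : Pt P → ℕ → Bool, Measurable y → ∀ᶠ F in residual (Pt P), At F b →
      At F (c (rn y)) → ∃ n, ∀ i < l F n, y F i = z F n i)
    (h2 : ∀ᶠ F in residual (Pt P), At F b → PackedX k (l F) (u F)) :
    b ≤ nl w C v (chk (BB P) k) (fnm l) (znm z) (znm u) := by
  refine le_inf ?_ (le_inf (le_iInf fun y => ?_) ?_)
  · rw [le_iff_residual]
    filter_upwards [at_fIsFun (scons (znm u) (scons (znm z) (scons (fnm l)
      (scons (chk (BB P) k) v)))) (w + 4) 2 hw, fnm_rel hl] with F a1 a2 _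
    rw [a1]
    intro n
    refine ⟨l F n, (a2 n _).2 rfl, fun m hm => ?_⟩
    exact ((a2 n m).1 hm).symm
  · rw [sub_val hw, hC, le_himp_iff, le_himp_iff, le_iff_residual]
    filter_upwards [h1 (yOf y) (meas_yOf y), fnm_rel hl, znm_rel hz,
      at_fCovered (scons y (scons (znm u) (scons (znm z) (scons (fnm l)
        (scons (chk (BB P) k) v))))) (w + 5) 3 2 0 hw] with F a1 a2 a3 a4 hF
    have hFb : At F b := hF.1.1
    have hFs : At F (⨅ z, (bMem z y ⇨ bMem z (chkAll (BB P) ℕ))) := hF.1.2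
    have hFc : At F (c y) := hF.2
    have h3 : At F (bEq y (rn (yOf y))) := at_mono (eq_rn y) hFs
    have h4 : At F (c (rn (yOf y))) := at_mono (hc y (rn (yOf y))) ⟨h3, hFc⟩
    obtain ⟨n, hn⟩ := a1 hFb h4
    rw [a4]
    refine ⟨n, l F n, (a2 n _).2 rfl, fun i hi => ?_⟩
    show memAt F y i ↔ relAt F (znm z) n i
    rw [memAt_yOf, a3, hn i hi]
  · rw [le_iff_residual]
    filter_upwards [h2, fnm_rel hl, znm_rel hu, at_fPacked (scons (znm u) (scons (znm z)
      (scons (fnm l) (scons (chk (BB P) k) v)))) (w + 4) 3 2 0 hw k rfl] with F a1 a2 a3 a4 hFb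
    obtain ⟨h3, h4⟩ := a1 hFb
    rw [a4]
    constructor
    · intro n m hm
      have h5 : l F n = m := (a2 n m).1 hm
      subst h5
      refine ⟨(h3 n).1, fun i hi => ?_⟩
      show ¬ relAt F (znm u) n i
      rw [a3, (h3 n).2 i hi]
      exact Bool.false_ne_true
    · intro n n' m m' hm hm' hn
      have h5 : l F n = m := (a2 n m).1 hm
      have h6 : l F n' = m' := (a2 n' m').1 hm'
      subst h5 h6
      obtain ⟨i, hi, hi', h7⟩ := h4 n n' hn
      refine ⟨i, hi, hi', fun h8 => h7 ?_⟩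
      have h9 : (relAt F (znm u) n i ↔ relAt F (znm u) n' i) := h8
      rw [a3, a3] at h9
      exact Bool.eq_iff_iff.2 h9

theorem null_le_iff {w : ℕ} {C : Fm} {v : ℕ → BSet (BB P)} (hw : v w = chkAll (BB P) ℕ)
    (c : BSet (BB P) → BB P) (hc : Ext1 c)
    (hC : ∀ k l Z Y y, bval C (scons y (scons Y (scons Z (scons l (scons k v))))) = c y)
    (b : BB P) : b ≤ bval (fIsNull w C) v ↔ NullX b (fun y => c (rn y)) := by
  rw [null_unfold hw, le_iInf_iff]
  refine forall_congr' fun k => ?_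
  constructor
  · intro h
    obtain ⟨l, Z, Y, hlZY⟩ := exists_names (w := w) (C := C) (v := v) (chk (BB P) k)
    rw [← hlZY] at h
    obtain ⟨h1, h2⟩ := null_fwd hw c hC h
    exact ⟨gOf l, zOf Z, zOf Y, meas_gOf l, meas_zOf Z, meas_zOf Y, h1, h2⟩
  · rintro ⟨l, z, u, hl, hz, hu, h1, h2⟩
    exact (null_bwd hw c hc hC hl hz hu h1 h2).trans
      (le_iSup_of_le (fnm l) (le_iSup_of_le (znm z) (le_iSup_of_le (znm u) le_rfl)))

end Pool.Agent.Lib.MP_f6e1de_lc
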