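import Mathlib
import Pool.Agent.Lib.MP_f6e1de_lc.EvalC
import Pool.Agent.Lib.MP_f6e1de_lc.RNames

/-! Translation of strong measure zero between names and the real level.

PROOF. `bval (fIsSN w C) v = ⨅ f, (bval (fIsFun (w+1) 0) (scons f v) ⇨ ⨆ Z, ⨅ y, (sub y ⇨ (c y ⇨ bval
(fCovered (w+3) 2 1 0) (scons y (scons Z (scons f v))))))` (definitional unfolding, `hC`), where
`sub y = ⨅ z, (bMem z y ⇨ bMem z (chkAll ℕ))` (`bval_fSub`, `hw`).
(→) Let `g` be measurable, `f = fnm g`: `bval (fIsFun ..) = ⊤` (`at_fIsFun`, `fnm_rel`, `eq_top_iff_residual`).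
So `b ≤ ⨆ Z, ..`; the predicate of `Z` is Ext1 (`ext1_bval` of the formula), by `exists_max` there is `Z` with
`b ≤ ⨅ y, ..`; `z = zOf Z`. For `y` measurable use the instance `rn y`: `rn_sub`, and evaluate
(`at_himp`, `at_fCovered`, `rn_mem`, `fnm_rel`): at comeagerly many `F` with `At F b`, `At F (c (rn y))` there are
`n m` with `g F n = m` and `∀ i < m, (y F i = true ↔ relAt F Z n i)`, i.e. `y F i = zOf Z F n i`.
(←) `le_iInf`; let `f` be a name, `e = bval (fIsFun ..)`; apply `SNX` to `g = gOf f`: `z`; `Z = znm z`;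
`le_himp_iff`, `le_iSup_of_le Z`, `le_iInf`; for a name `y` show
`b ⊓ e ⊓ sub y ⊓ c y ≤ bval fCovered`: `le_iff_residual`; at comeagerly many `F` in the left side: `eq_rn` gives
`At F (bEq y (rn (yOf y)))`, so `At F (c (rn (yOf y)))` (`hc`), `SNX` gives `n` with `∀ i < gOf f F n, yOf y F i =
z F n i`; `at_fCovered` with `m = gOf f F n` (`gOf_spec`, `at_fIsFun`), `memAt F y i ↔ yOf y F i = true`
(decide), `znm_rel`. -/

namespace Pool.Agent.Lib.MP_f6e1de_lc

open Pool.Agent.Lib.BVM Pool.Agent.Lib.BVM.BSet Filter Topology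

variable {P : Type} [Preorder P]

theorem sn_le_iff {w : ℕ} {C : Fm} {v : ℕ → BSet (BB P)} (hw : v w = chkAll (BB P) ℕ)
    (c : BSet (BB P) → BB P) (hc : Ext1 c)
    (hC : ∀ f Z y, bval C (scons y (scons Z (scons f v))) = c y) (b : BB P) :
    b ≤ bval (fIsSN w C) v ↔ SNX b (fun y => c (rn y)) := by
  classical
  have h0 : bval (fIsSN w C) v = ⨅ f, (bval (fIsFun (w + 1) 0) (scons f v) ⇨ ⨆ Z, ⨅ y,
      ((⨅ z, (bMem z y ⇨ bMem z (chkAll (BB P) ℕ))) ⇨ (c y ⇨
        bval (fCovered (w + 3) 2 1 0) (scons y (scons Z (scons f v)))))) := by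
    show (⨅ f, (bval (fIsFun (w + 1) 0) (scons f v) ⇨ ⨆ Z, ⨅ y,
      ((⨅ z, (bMem z y ⇨ bMem z (v w))) ⇨ (bval C (scons y (scons Z (scons f v))) ⇨
        bval (fCovered (w + 3) 2 1 0) (scons y (scons Z (scons f v))))))) = _
    simp only [hC, hw]
  constructor
  · intro hb g hg
    have hfun : bval (fIsFun (w + 1) 0) (scons (fnm g) v) = ⊤ := by
      rw [eq_top_iff_residual]
      filter_upwards [at_fIsFun (scons (fnm g) v) (w + 1) 0 hw, fnm_rel hg] with F h1 h2
      rw [h1]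
      intro n
      exact ⟨g F n, (h2 n (g F n)).2 rfl, fun m hm => ((h2 n m).1 hm).symm⟩
    -- a witness for the sequence of reals
    have hext := ext1_bval (.all (.imp (fSub 0 (w + 3)) (.imp C (fCovered (w + 3) 2 1 0))))
      (scons (fnm g) v)
    obtain ⟨Z, hZ⟩ := exists_max hext
    have h1 : b ≤ ⨅ y, ((⨅ z, (bMem z y ⇨ bMem z (chkAll (BB P) ℕ))) ⇨ (c y ⇨
        bval (fCovered (w + 3) 2 1 0) (scons y (scons Z (scons (fnm g) v))))) := by
      have h2 : b ≤ bval (fIsFun (w + 1) 0) (scons (fnm g) v) ⇨ ⨆ Z, ⨅ y,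
          ((⨅ z, (bMem z y ⇨ bMem z (chkAll (BB P) ℕ))) ⇨ (c y ⇨
            bval (fCovered (w + 3) 2 1 0) (scons y (scons Z (scons (fnm g) v))))) := by
        rw [h0] at hb
        exact hb.trans (iInf_le _ (fnm g))
      rw [hfun, top_himp] at h2
      refine h2.trans ?_
      have h3 : ∀ Z, bval (.all (.imp (fSub 0 (w + 3)) (.imp C (fCovered (w + 3) 2 1 0))))
          (scons Z (scons (fnm g) v)) =
          ⨅ y, ((⨅ z, (bMem z y ⇨ bMem z (chkAll (BB P) ℕ))) ⇨ (c y ⇨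
            bval (fCovered (w + 3) 2 1 0) (scons y (scons Z (scons (fnm g) v))))) := by
        intro Z
        show (⨅ y, ((⨅ z, (bMem z y ⇨ bMem z (v w))) ⇨
          (bval C (scons y (scons Z (scons (fnm g) v))) ⇨
            bval (fCovered (w + 3) 2 1 0) (scons y (scons Z (scons (fnm g) v)))))) = _
        simp only [hC, hw]
      have hZ' := hZ
      simp only [h3] at hZ'
      exact hZ'.ge
    refine ⟨zOf Z, meas_zOf Z, fun y hy => ?_⟩
    have h2 : b ≤ c (rn y) ⇨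
        bval (fCovered (w + 3) 2 1 0) (scons (rn y) (scons Z (scons (fnm g) v))) := by
      have h3 := h1.trans (iInf_le _ (rn y))
      rwa [rn_sub y, top_himp] at h3
    filter_upwards [at_himp (c (rn y))
      (bval (fCovered (w + 3) 2 1 0) (scons (rn y) (scons Z (scons (fnm g) v)))),
      at_fCovered (scons (rn y) (scons Z (scons (fnm g) v))) (w + 3) 2 1 0 hw, rn_mem hy,
      fnm_rel hg] with F e1 e2 e3 e4 hFb hFc
    obtain ⟨n, m, hnm, hi⟩ := e2.1 (e1.1 (at_mono h2 hFb) hFc)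
    have hm : g F n = m := (e4 n m).1 hnm
    refine ⟨n, fun i hilt => ?_⟩
    rw [hm] at hilt
    have h4 : y F i = true ↔ relAt F Z n i := (e3 i).symm.trans (hi i hilt)
    unfold zOf
    rw [Bool.eq_iff_iff, h4, decide_eq_true_iff]
  · intro hS
    rw [h0]
    refine le_iInf fun f => ?_
    obtain ⟨z, hz, hzy⟩ := hS (gOf f) (meas_gOf f)
    rw [le_himp_iff]
    refine le_iSup_of_le (znm z) (le_iInf fun y => ?_)
    rw [le_himp_iff, le_himp_iff, le_iff_residual]
    filter_upwards [at_fIsFun (scons f v) (w + 1) 0 hw, hzy (yOf y) (meas_yOf y),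
      at_fCovered (scons y (scons (znm z) (scons f v))) (w + 3) 2 1 0 hw, znm_rel hz] with
      F e1 e2 e3 e4 hF
    obtain ⟨⟨⟨hFb, hFe⟩, hFs⟩, hFc⟩ := hF
    have hfun := e1.1 hFe
    have heq : At F (bEq y (rn (yOf y))) := at_mono (eq_rn y) hFs
    have hc' : At F (c (rn (yOf y))) := at_mono (hc y (rn (yOf y))) ⟨heq, hFc⟩
    obtain ⟨n, hn⟩ := e2 hFb hc'
    refine e3.2 ⟨n, gOf f F n, (gOf_spec hfun n _).2 rfl, fun i hi => ?_⟩
    refine Iff.trans ?_ (e4 n i).symm
    rw [← hn i hi]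
    unfold yOf
    rw [decide_eq_true_iff]
    exact Iff.rfl

end Pool.Agent.Lib.MP_f6e1de_lc
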