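import Mathlib
import Pool.Agent.Lib.MP_f6e1de_lc.SNT
import Pool.Agent.Lib.MP_f6e1de_lc.NullT

/-! Families of sets of reals in the Boolean-valued universe.

`famName c` is the name of the set of pairs `(a, y)` with `y` in the `a`-th set. -/

namespace Pool.Agent.Lib.MP_f6e1de_lc

open Pool.Agent.Lib.BVM Pool.Agent.Lib.BVM.BSet Filter Topology

variable {P : Type} [Preorder P] {I : Type} [LinearOrder I] [WellFoundedLT I]

/-- Name of a family of sets of reals. -/
noncomputable def famName (c : I → (Pt P → ℕ → Bool) → BB P) : BSet (BB P) :=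
  relName (fun a : I => chk (BB P) a)
    (fun y : {y : Pt P → ℕ → Bool // Measurable y} => rn y.1) (fun a y => c a y.1)

theorem bMem_famName {c : I → (Pt P → ℕ → Bool) → BB P} (hc : ∀ a, ExtX (c a)) (a : I)
    {y : Pt P → ℕ → Bool} (hy : Measurable y) :
    bMem (opair (chk (BB P) a) (rn y)) (famName c) = c a y := by
  rw [famName, bMem_relName]
  apply le_antisymm
  · refine iSup_le fun a' => iSup_le fun y' => ?_
    by_cases h : a = a'
    · subst h
      rw [bEq_refl, top_inf_eq, le_iff_residual]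
      filter_upwards [hc a y'.1 y y'.2 hy, at_bEq_rn hy y'.2] with F h1 h2 h3
      rw [at_inf, h2] at h3
      exact h1 h3.2.symm h3.1
    · rw [chk_eq_of_ne h, bot_inf_eq, inf_bot_eq]
      exact bot_le
  · refine le_trans ?_ (le_iSup _ a)
    refine le_trans ?_ (le_iSup _ (⟨y, hy⟩ : {y : Pt P → ℕ → Bool // Measurable y}))
    rw [bEq_refl, bEq_refl, inf_top_eq, inf_top_eq]

private theorem nullX_congr {b : BB P} {c c' : (Pt P → ℕ → Bool) → BB P}
    (h : ∀ y, Measurable y → c y = c' y) (hn : NullX b c) : NullX b c' := by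
  intro k
  obtain ⟨l, z, u, h1, h2, h3, h4, h5⟩ := hn k
  refine ⟨l, z, u, h1, h2, h3, fun y hy => ?_, h5⟩
  rw [← h y hy]
  exact h4 y hy

private theorem snX_congr {b : BB P} {c c' : (Pt P → ℕ → Bool) → BB P}
    (h : ∀ y, Measurable y → c y = c' y) (hn : SNX b c) : SNX b c' := by
  intro g hg
  obtain ⟨z, h1, h2⟩ := hn g hg
  refine ⟨z, h1, fun y hy => ?_⟩
  rw [← h y hy]
  exact h2 y hy

private theorem ext1_un (X : BSet (BB P)) :
    Ext1 (fun y => ⨆ a : I, bMem (opair (chk (BB P) a) y) X) :=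
  Ext1.iSup fun a => ext1_opair_right (chk (BB P) a) X

private theorem extX_pair (X : BSet (BB P)) (a : I) :
    ExtX (fun y => bMem (opair (chk (BB P) a) (rn y)) X) := by
  intro y y' hy hy'
  filter_upwards [at_bEq_rn hy hy'] with F h1 h2 h3
  have h4 := ext1_opair_right (chk (BB P) a) X (rn y) (rn y')
  exact at_mono h4 ⟨h1.2 h2, h3⟩

theorem addN_of_x1 (h : X1 P I) {w A : ℕ} {v : ℕ → BSet (BB P)}
    (hw : v w = chkAll (BB P) ℕ) (hA : v A = chkAll (BB P) I) : bval (fAddNLe w A) v = ⊤ := by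
  obtain ⟨c, hc, hn, hb⟩ := h
  rw [eq_top_iff]
  show ⊤ ≤ ⨆ X, ((⨅ a, (bMem a (v A) ⇨ bval (fIsNull (w + 2) (fFam 1 0 5))
    (scons a (scons X v)))) ⊓ (bval (fIsNull (w + 1) (fUn 0 (A + 1) 5)) (scons X v))ᶜ)
  refine le_trans ?_ (le_iSup _ (famName c))
  refine le_inf ?_ ?_
  · rw [hA, iInf_chkAll (ext1_bval _ _)]
    refine le_iInf fun a => ?_
    refine (null_le_iff (w := w + 2) (C := fFam 1 0 5)
      (v := scons (chk (BB P) a) (scons (famName c) v)) hw
      (fun y => bMem (opair (chk (BB P) a) y) (famName c)) (ext1_opair_right _ _) ?_ ⊤).2 ?_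
    · intro k l Z Y y
      exact bval_fRel _ _ _ _
    · exact nullX_congr (fun y hy => (bMem_famName hc a hy).symm) (hn a)
  · have h0 : bval (fIsNull (w + 1) (fUn 0 (A + 1) 5)) (scons (famName c) v) = ⊥ := by
      apply hb
      have h1 := (null_le_iff (w := w + 1) (C := fUn 0 (A + 1) 5)
        (v := scons (famName c) v) hw
        (fun y => ⨆ a : I, bMem (opair (chk (BB P) a) y) (famName c)) (ext1_un _) ?_
        (bval (fIsNull (w + 1) (fUn 0 (A + 1) 5)) (scons (famName c) v))).1 le_rfl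
      · refine nullX_congr (fun y hy => ?_) h1
        exact iSup_congr fun a => bMem_famName hc a hy
      · intro k l Z Y y
        show (⨆ a, bMem a (v A) ⊓ bval (fRel 6 0 1) (scons a (scons y (scons Y (scons Z (scons l
          (scons k (scons (famName c) v)))))))) = _
        rw [hA]
        simp only [bval_fRel]
        exact iSup_chkAll (ext1_opair_left y (famName c))
    rw [h0, compl_bot]

theorem addSN_of_x3 (h : X3 P I) {w A : ℕ} {v : ℕ → BSet (BB P)}
    (hw : v w = chkAll (BB P) ℕ) (hA : v A = chkAll (BB P) I) : bval (fAddSNLe w A) v = ⊤ := by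
  obtain ⟨c, hc, hn, hb⟩ := h
  rw [eq_top_iff]
  show ⊤ ≤ ⨆ X, ((⨅ a, (bMem a (v A) ⇨ bval (fIsSN (w + 2) (fFam 1 0 3))
    (scons a (scons X v)))) ⊓ (bval (fIsSN (w + 1) (fUn 0 (A + 1) 3)) (scons X v))ᶜ)
  refine le_trans ?_ (le_iSup _ (famName c))
  refine le_inf ?_ ?_
  · rw [hA, iInf_chkAll (ext1_bval _ _)]
    refine le_iInf fun a => ?_
    refine (sn_le_iff (w := w + 2) (C := fFam 1 0 3)
      (v := scons (chk (BB P) a) (scons (famName c) v)) hw
      (fun y => bMem (opair (chk (BB P) a) y) (famName c)) (ext1_opair_right _ _) ?_ ⊤).2 ?_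
    · intro f Z y
      exact bval_fRel _ _ _ _
    · exact snX_congr (fun y hy => (bMem_famName hc a hy).symm) (hn a)
  · have h0 : bval (fIsSN (w + 1) (fUn 0 (A + 1) 3)) (scons (famName c) v) = ⊥ := by
      apply hb
      have h1 := (sn_le_iff (w := w + 1) (C := fUn 0 (A + 1) 3)
        (v := scons (famName c) v) hw
        (fun y => ⨆ a : I, bMem (opair (chk (BB P) a) y) (famName c)) (ext1_un _) ?_
        (bval (fIsSN (w + 1) (fUn 0 (A + 1) 3)) (scons (famName c) v))).1 le_rfl
      · refine snX_congr (fun y hy => ?_) h1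
        exact iSup_congr fun a => bMem_famName hc a hy
      · intro f Z y
        show (⨆ a, bMem a (v A) ⊓ bval (fRel 4 0 1) (scons a (scons y (scons Z (scons f
          (scons (famName c) v)))))) = _
        rw [hA]
        simp only [bval_fRel]
        exact iSup_chkAll (ext1_opair_left y (famName c))
    rw [h0, compl_bot]

theorem ltAddSN_of_x2 (h : X2 P I) {w A : ℕ} {v : ℕ → BSet (BB P)}
    (hw : v w = chkAll (BB P) ℕ) (hA : v A = chkAll (BB P) I) : bval (fLtAddSN w A) v = ⊤ := by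
  rw [eq_top_iff]
  show ⊤ ≤ ⨅ X, ((⨅ a, (bMem a (v A) ⇨ bval (fIsSN (w + 2) (fFam 1 0 3))
    (scons a (scons X v)))) ⇨ bval (fIsSN (w + 1) (fUn 0 (A + 1) 3)) (scons X v))
  refine le_iInf fun X => ?_
  rw [le_himp_iff, top_inf_eq, hA, iInf_chkAll (ext1_bval _ _)]
  refine (sn_le_iff (w := w + 1) (C := fUn 0 (A + 1) 3) (v := scons X v) hw
    (fun y => ⨆ a : I, bMem (opair (chk (BB P) a) y) X) (ext1_un _) ?_ _).2 ?_
  · intro f Z y
    show (⨆ a, bMem a (v A) ⊓ bval (fRel 4 0 1) (scons a (scons y (scons Z (scons f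
      (scons X v)))))) = _
    rw [hA]
    simp only [bval_fRel]
    exact iSup_chkAll (ext1_opair_left y X)
  · refine h (fun (a : I) y => bMem (opair (chk (BB P) a) (rn y)) X) (fun a => extX_pair X a) _
      fun a => ?_
    refine (sn_le_iff (w := w + 2) (C := fFam 1 0 3)
      (v := scons (chk (BB P) a) (scons X v)) hw
      (fun y => bMem (opair (chk (BB P) a) y) X) (ext1_opair_right _ _) ?_ _).1 (iInf_le _ a)
    intro f Z y
    exact bval_fRel _ _ _ _

end Pool.Agent.Lib.MP_f6e1de_lc
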