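import Mathlib
import Pool.Agent.Lib.MP_f6e1de_lc.CCC
import Pool.Agent.Lib.BVM.Meas

/-! Nice names: every measurable map is given by a name; evaluation of names is measurable. -/

namespace Pool.Agent.Lib.MP_f6e1de_lc

open Pool.Agent.Lib.BVM Filter Topology

variable {I J : Type}

theorem hasC_toRaw_iff (F : Pt (PP I J)) (p : PP I J) : HasC F p.1.toRaw.toCond ↔ F.has p := by
  constructor
  · rintro ⟨q, hq, hle⟩
    exact F.up hq ((pp_le_iff q p).2 ((le_toRaw_iff _ _).1 hle))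
  · intro h
    exact ⟨p, h, (le_toRaw_iff _ _).2 (le_refl' p.1)⟩

private theorem measurableSet_hasC (p : Cond I J) :
    MeasurableSet {F : Pt (PP I J) | HasC F p} := by
  have h : {F : Pt (PP I J) | HasC F p} = ⋃ q ∈ {q : PP I J | Le q.1 p}, Nb q := by
    ext F
    simp only [HasC, Set.mem_ofPred_eq, Set.mem_iUnion, Nb, exists_prop]
    constructor
    · rintro ⟨q, h1, h2⟩; exact ⟨q, h2, h1⟩
    · rintro ⟨q, h1, h2⟩; exact ⟨q, h2, h1⟩
  rw [h]
  exact measurableSet_of_isOpen (isOpen_biUnion fun q _ => isOpen_Nb q)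

private theorem nval_eq_iff (τ : Nm I J) (F : Pt (PP I J)) (n v : ℕ) :
    nval τ F n = v ↔
      ((∃ k, (HasC F (τ n k).1.toCond ∧ ∀ k' < k, ¬ HasC F (τ n k').1.toCond) ∧ (τ n k).2 = v) ∨
        ((∀ k, ¬ HasC F (τ n k).1.toCond) ∧ v = 0)) := by
  classical
  unfold nval
  by_cases h : ∃ k, HasC F (τ n k).1.toCond
  · rw [dif_pos h]
    constructor
    · intro hv
      exact Or.inl ⟨Nat.find h, ⟨Nat.find_spec h, fun k' hk' => Nat.find_min h hk'⟩, hv⟩
    · rintro (⟨k, ⟨h1, h2⟩, h3⟩ | ⟨h1, -⟩)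
      · have hk : Nat.find h = k := by
          rw [Nat.find_eq_iff]
          exact ⟨h1, fun m hm => h2 m hm⟩
        rw [hk]; exact h3
      · exact absurd h.choose_spec (h1 _)
  · rw [dif_neg h]
    have h' : ∀ k, ¬ HasC F (τ n k).1.toCond := not_exists.1 h
    constructor
    · intro hv
      exact Or.inr ⟨h', hv.symm⟩
    · rintro (⟨k, ⟨h1, -⟩, -⟩ | ⟨-, h2⟩)
      · exact absurd h1 (h' k)
      · exact h2.symm

theorem measurable_nval (τ : Nm I J) : Measurable (nval τ) := by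
  refine measurable_of_level fun n v => ?_
  have h : {F : Pt (PP I J) | nval τ F n = v} =
      (⋃ k, (({F | HasC F (τ n k).1.toCond} ∩ ⋂ k' : {k' : ℕ // k' < k},
        {F | HasC F (τ n k'.1).1.toCond}ᶜ) ∩ {_F | (τ n k).2 = v})) ∪
        ((⋂ k, {F | HasC F (τ n k).1.toCond}ᶜ) ∩ {_F | v = 0}) := by
    ext F
    simp only [Set.mem_ofPred_eq, Set.mem_union, Set.mem_iUnion, Set.mem_inter_iff, Set.mem_iInter,
      Set.mem_compl_iff, nval_eq_iff, Subtype.forall]
  rw [h]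
  refine MeasurableSet.union (MeasurableSet.iUnion fun k => ?_) ?_
  · refine MeasurableSet.inter (MeasurableSet.inter (measurableSet_hasC _)
      (MeasurableSet.iInter fun k' => (measurableSet_hasC _).compl)) (MeasurableSet.const _)
  · exact MeasurableSet.inter (MeasurableSet.iInter fun k => (measurableSet_hasC _).compl)
      (MeasurableSet.const _)

theorem exists_antichain (O : Set (Pt (PP I J))) (hO : IsOpen O) :
    ∃ A : Set (PP I J), A.Countable ∧ (∀ a ∈ A, Nb a ⊆ O) ∧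
      ∀ᶠ F in residual (Pt (PP I J)), F ∈ O → ∃ a ∈ A, F.has a := by
  classical
  let 𝒮 : Set (Set (PP I J)) := {A | (∀ a ∈ A, Nb a ⊆ O) ∧
    ∀ a ∈ A, ∀ b ∈ A, a ≠ b → ¬ ∃ r : PP I J, r ≤ a ∧ r ≤ b}
  obtain ⟨A, hA⟩ := zorn_subset 𝒮 (by
    intro c hc hchain
    refine ⟨⋃₀ c, ⟨?_, ?_⟩, fun s hs => Set.subset_sUnion_of_mem hs⟩
    · rintro a ⟨s, hs, ha⟩
      exact (hc hs).1 a ha
    · rintro a ⟨s, hs, ha⟩ b ⟨t, ht, hb⟩ hab
      rcases hchain.total hs ht with h | h
      · exact (hc ht).2 a (h ha) b hb hab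
      · exact (hc hs).2 a ha b (h hb) hab)
  have hA1 : ∀ a ∈ A, Nb a ⊆ O := hA.prop.1
  have hA2 := hA.prop.2
  refine ⟨A, pp_ccc A hA2, hA1, ?_⟩
  have hD := residual_of_dense (P := PP I J)
    (D := {q | (∃ a ∈ A, q ≤ a) ∨ ¬ (Nb q ∩ O).Nonempty}) (by
      intro p
      by_cases hp : (Nb p ∩ O).Nonempty
      · obtain ⟨r, hr, hrO⟩ := exists_le_Nb_subset hO hp
        by_cases hex : ∃ a ∈ A, ∃ s : PP I J, s ≤ r ∧ s ≤ a
        · obtain ⟨a, ha, s, hs1, hs2⟩ := hex
          exact ⟨s, Or.inl ⟨a, ha, hs2⟩, hs1.trans hr⟩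
        · have hmem : r ∈ A := by
            by_contra hrA
            have hins : insert r A ∈ 𝒮 := by
              refine ⟨?_, ?_⟩
              · rintro a (rfl | ha)
                · exact hrO
                · exact hA1 a ha
              · rintro a (rfl | ha) b (rfl | hb) hab
                · exact absurd rfl hab
                · rintro ⟨s, hs1, hs2⟩
                  exact hex ⟨b, hb, s, hs1, hs2⟩
                · rintro ⟨s, hs1, hs2⟩
                  exact hex ⟨a, ha, s, hs2, hs1⟩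
                · exact hA2 a ha b hb hab
            have := hA.le_of_ge hins (Set.subset_insert r A)
            exact hrA (this (Set.mem_insert r A))
          exact ⟨r, Or.inl ⟨r, hmem, le_rfl⟩, hr⟩
      · exact ⟨p, Or.inr hp, le_rfl⟩)
  filter_upwards [hD] with F hF hFO
  obtain ⟨q, hq | hq, hqF⟩ := hF
  · obtain ⟨a, ha, hqa⟩ := hq
    exact ⟨a, ha, F.up hqF hqa⟩
  · exact absurd ⟨F, hqF, hFO⟩ hq

theorem exists_nm (g : Pt (PP I J) → ℕ → ℕ) (hg : Measurable g) :
    ∃ τ : Nm I J, ∀ᶠ F in residual (Pt (PP I J)), g F = nval τ F := by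
  classical
  have h1 : ∀ n v, ∃ O : Set (Pt (PP I J)), IsOpen O ∧
      ∀ᶠ F in residual (Pt (PP I J)), (g F n = v ↔ F ∈ O) := by
    intro n v
    have hb : BaireMeasurableSet {F | g F n = v} :=
      measurableSet_iff_baire.1 (measurableSet_level hg n v)
    obtain ⟨u, hu, hu'⟩ := hb.residualEq_isOpen
    refine ⟨u, hu, ?_⟩
    filter_upwards [hu'] with F hF
    have h2 : (F ∈ {F | g F n = v}) = (F ∈ u) := hF
    exact iff_of_eq h2
  choose O hO hgO using h1
  have h2 : ∀ n v, ∃ A : Set (PP I J), A.Countable ∧ (∀ a ∈ A, Nb a ⊆ O n v) ∧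
      ∀ᶠ F in residual (Pt (PP I J)), F ∈ O n v → ∃ a ∈ A, F.has a := fun n v =>
    exists_antichain (O n v) (hO n v)
  choose A hAc hAO hAr using h2
  have hres : ∀ᶠ F in residual (Pt (PP I J)), ∀ n v, (g F n = v ↔ F ∈ O n v) ∧
      (F ∈ O n v → ∃ a ∈ A n v, F.has a) := by
    rw [eventually_countable_forall]
    intro n
    rw [eventually_countable_forall]
    intro v
    exact (hgO n v).and (hAr n v)
  obtain ⟨F0, -, hF0⟩ := (Frc.of_residual (p := Classical.arbitrary (PP I J)) hres).exists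
  have h3 : ∀ n, ∃ f : ℕ → PP I J × ℕ, {x : PP I J × ℕ | x.1 ∈ A n x.2} = Set.range f := by
    intro n
    refine Set.Countable.exists_eq_range ?_ ?_
    · have : {x : PP I J × ℕ | x.1 ∈ A n x.2} = ⋃ v : ℕ, (fun a => (a, v)) '' A n v := by
        ext ⟨a, v⟩
        simp only [Set.mem_ofPred_eq, Set.mem_iUnion, Set.mem_image, Prod.mk.injEq]
        constructor
        · intro h; exact ⟨v, a, h, rfl, rfl⟩
        · rintro ⟨v', a', h, rfl, rfl⟩; exact h
      rw [this]
      exact Set.countable_iUnion fun v => (hAc n v).image _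
    · obtain ⟨h4, h5⟩ := hF0 n (g F0 n)
      obtain ⟨a, ha, -⟩ := h5 (h4.1 rfl)
      exact ⟨(a, g F0 n), ha⟩
  choose f hf using h3
  refine ⟨fun n k => ((f n k).1.1.toRaw, (f n k).2), ?_⟩
  filter_upwards [hres] with F hF
  funext n
  have hmem : ∀ k, (f n k).1 ∈ A n (f n k).2 := by
    intro k
    have : f n k ∈ {x : PP I J × ℕ | x.1 ∈ A n x.2} := by rw [hf n]; exact ⟨k, rfl⟩
    exact this
  symm
  rw [nval_eq_iff]
  left
  have hex : ∃ k, HasC F ((f n k).1.1.toRaw).toCond := by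
    obtain ⟨h4, h5⟩ := hF n (g F n)
    obtain ⟨a, ha, haF⟩ := h5 (h4.1 rfl)
    have : (a, g F n) ∈ Set.range (f n) := by rw [← hf n]; exact ha
    obtain ⟨k, hk⟩ := this
    refine ⟨k, ?_⟩
    rw [hk]
    exact (hasC_toRaw_iff F a).2 haF
  refine ⟨Nat.find hex, ⟨Nat.find_spec hex, fun k' hk' => Nat.find_min hex hk'⟩, ?_⟩
  have hhas : F.has (f n (Nat.find hex)).1 := (hasC_toRaw_iff F _).1 (Nat.find_spec hex)
  have hO' : F ∈ O n (f n (Nat.find hex)).2 := hAO n _ _ (hmem _) hhas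
  exact ((hF n _).1.2 hO').symm

end Pool.Agent.Lib.MP_f6e1de_lc
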