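import Mathlib
import Pool.Agent.Lib.MP_f6e1de_lc.ExtB
import Pool.Agent.Lib.MP_f6e1de_lc.Nice

/-! Generic reals of the coordinates.

PROOFS. `gen_eq`: two conditions of `F` have a common extension `r` in `F`; both stems at `c` are prefixes
of the stem of `r` (`pp_le`). `gen_total`: `ext_len` and `residual_of_dense` for every `j`
(`eventually_countable_forall`). `measurable_gen`: `{F | gen c F j = v}` is, by `gen_total`, equal modulo
a meager set to the open union of the `Nb p` with `c ∈ p.dom`, `j <` length, entry `v`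
(`measurable_of_level`, `BaireMeasurableSet.congr`).
`gen_hech`: the set of `q` with `c ∈ q.dom`, `i ∈ h2` is dense (`ext_new`, `ext_h2`); let `q ∈ F` be such,
`k` = length of its stem. For `n ≥ k` take `r ∈ F` with length of the stem `> n` (`gen_total`) and a common
extension `t ∈ F`, `t ≤ q`, stem of `t` longer than `n`; `pp_le` for `t ≤ q` gives
`v` with `Dec t (nm (some (inr i))) n v`, `v ≤` entry `n` of the stem of `t` `= gen c F n`; `nval_of_dec`.
`gen_loc`: in the same way with `ext_h1`; `gval (stem of t at c.ds) j = (unpair (gen c.ds F j)).2`.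
`gen_loc_card`: `val_vok` at `c` for a condition of `F` whose stem at `c` is longer than `j`; `dval` of its
stem at `c.ds` at `j` is `∑_{l ≤ j} ((unpair (gen c.ds F l)).1 + 1)`.
`gen_dset`: `val_vok` at `c` (kind dset) for a condition of `F` with stem at `c` longer than `j`:
`Dec p (nm none) d_j γ_j`, `nval_of_dec`. -/

namespace Pool.Agent.Lib.MP_f6e1de_lc

open Pool.Agent.Lib.BVM Filter Topology

variable {I J : Type}

private theorem gen_getD_pre {s t : List ℕ} (h : s <+: t) {j : ℕ} (hj : j < s.length) :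
    t.getD j 0 = s.getD j 0 := by
  obtain ⟨u, rfl⟩ := h
  exact List.getD_append _ _ _ _ hj

private theorem gen_sum_take (f : ℕ → ℕ) (s : List ℕ) (n : ℕ) (hn : n ≤ s.length) :
    ((s.take n).map f).sum = ∑ l ∈ Finset.range n, f (s.getD l 0) := by
  induction n with
  | zero => simp
  | succ n ih =>
    have hn' : n < s.length := hn
    rw [List.take_succ_eq_append_getElem hn', List.map_append, List.sum_append, ih hn'.le,
      Finset.sum_range_succ, List.getD_eq_getElem _ _ hn']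
    simp

private theorem gen_dval {s : List ℕ} {j : ℕ} (hj : j < s.length) :
    dval s j = ∑ l ∈ Finset.range (j + 1), ((Nat.unpair (s.getD l 0)).1 + 1) :=
  gen_sum_take (fun w => (Nat.unpair w).1 + 1) s (j + 1) hj

open Classical in
/-- The generic real at the coordinate `c`. -/
noncomputable def gen (c : Coord I J) (F : Pt (PP I J)) (j : ℕ) : ℕ :=
  if h : ∃ p : PP I J, F.has p ∧ c ∈ p.1.dom ∧ j < (p.1.dat c).s.length then
    (h.choose.1.dat c).s.getD j 0 else 0

theorem gen_eq {c : Coord I J} {F : Pt (PP I J)} {p : PP I J} (hF : F.has p) (hc : c ∈ p.1.dom)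
    {j : ℕ} (hj : j < (p.1.dat c).s.length) : gen c F j = (p.1.dat c).s.getD j 0 := by
  have h : ∃ p : PP I J, F.has p ∧ c ∈ p.1.dom ∧ j < (p.1.dat c).s.length := ⟨p, hF, hc, hj⟩
  have e : gen c F j = (h.choose.1.dat c).s.getD j 0 := by
    unfold gen
    rw [dif_pos h]
  obtain ⟨h1, h2, h3⟩ := h.choose_spec
  obtain ⟨r, hr, hr1, hr2⟩ := F.dir h1 hF
  rw [e, ← gen_getD_pre ((pp_le.1 hr1 c h2).2).1 h3, gen_getD_pre ((pp_le.1 hr2 c hc).2).1 hj]

theorem gen_total (c : Coord I J) : ∀ᶠ F in residual (Pt (PP I J)), ∀ j, ∃ p : PP I J,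
    F.has p ∧ c ∈ p.1.dom ∧ j < (p.1.dat c).s.length := by
  rw [eventually_countable_forall]
  intro j
  have h := residual_of_dense (D := {p : PP I J | c ∈ p.1.dom ∧ j < (p.1.dat c).s.length})
    (fun p => by
      obtain ⟨q, hq, h1, h2⟩ := ext_len p c j
      exact ⟨q, ⟨h1, h2⟩, hq⟩)
  filter_upwards [h] with F hF
  obtain ⟨q, hq, hq'⟩ := hF
  exact ⟨q, hq', hq.1, hq.2⟩

theorem measurable_gen (c : Coord I J) : Measurable (gen c) := by
  refine measurable_of_level fun j v => ?_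
  set O : Set (Pt (PP I J)) := ⋃ q ∈ {p : PP I J | c ∈ p.1.dom ∧ j < (p.1.dat c).s.length ∧
    (p.1.dat c).s.getD j 0 = v}, Nb q with hO
  have hopen : IsOpen O := isOpen_biUnion fun q _ => isOpen_Nb q
  have hb : BaireMeasurableSet O := hopen.baireMeasurableSet
  refine measurableSet_iff_baire.2 (hb.congr ?_)
  refine Filter.eventuallyEq_set.2 ?_
  filter_upwards [gen_total c] with F hF
  constructor
  · intro h
    rw [hO] at h
    simp only [Set.mem_iUnion] at h
    obtain ⟨q, hq, hqF⟩ := h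
    show gen c F j = v
    rw [gen_eq hqF hq.1 hq.2.1]
    exact hq.2.2
  · intro h
    obtain ⟨p, h1, h2, h3⟩ := hF j
    rw [hO]
    simp only [Set.mem_iUnion]
    refine ⟨p, ⟨h2, h3, ?_⟩, h1⟩
    rw [← gen_eq h1 h2 h3]
    exact h

theorem gen_hech (c : Coord I J) (hk : c.kind = .hech) (i : J) :
    ∀ᶠ F in residual (Pt (PP I J)), ∃ k, ∀ n ≥ k, nval (c.nm (some (.inr i))) F n ≤ gen c F n := by
  have h := residual_of_dense (D := {p : PP I J | c ∈ p.1.dom ∧ i ∈ (p.1.dat c).h2})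
    (fun p => by
      obtain ⟨q, hq, h1⟩ := ext_new p c (by rw [hk]; exact fun h => by cases h)
      obtain ⟨q', hq', h1', h2'⟩ := ext_h2 q hk h1 i
      exact ⟨q', ⟨h1', h2'⟩, hq'.trans hq⟩)
  filter_upwards [h, gen_total c] with F hF hG
  obtain ⟨q, hq, hqF⟩ := hF
  refine ⟨(q.1.dat c).s.length, fun n hn => ?_⟩
  obtain ⟨r, hr, hrc, hrn⟩ := hG n
  obtain ⟨t, ht, htq, htr⟩ := F.dir hqF hr
  have h1 := pp_le.1 htq c hq.1
  have h2 := pp_le.1 htr c hrc
  have hlen : n < (t.1.dat c).s.length := hrn.trans_le h2.2.1.length_le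
  have h3 := h1.2.2.2.2
  simp only [NewOK, hk] at h3
  obtain ⟨v, hv, hv'⟩ := h3 i hq.2 n hn hlen
  rw [nval_of_dec ht hv, gen_eq ht h1.1 hlen]
  exact hv'

/-- The sparse set given by a generic real of kind `dset`. -/
def dgen (w : ℕ → ℕ) (j : ℕ) : ℕ := ∑ l ∈ Finset.range (j + 1), ((Nat.unpair (w l)).1 + 1)

theorem dgen_strictMono (w : ℕ → ℕ) : StrictMono (dgen w) := by
  refine strictMono_nat_of_lt_succ fun j => ?_
  unfold dgen
  rw [Finset.sum_range_succ _ (j + 1)]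
  omega

private theorem gen_dgen {c : Coord I J} {F : Pt (PP I J)} {p : PP I J} (hF : F.has p)
    (hc : c ∈ p.1.dom) {j : ℕ} (hj : j < (p.1.dat c).s.length) :
    dgen (gen c F) j = dval (p.1.dat c).s j := by
  rw [gen_dval hj]
  unfold dgen
  refine Finset.sum_congr rfl fun l hl => ?_
  rw [gen_eq hF hc ((Nat.lt_succ_iff.1 (Finset.mem_range.1 hl)).trans_lt hj)]

theorem gen_dset (G : Nm I J) : ∀ᶠ F in residual (Pt (PP I J)), ∀ j,
    nval G F (dgen (gen (cDset G) F) j) = (Nat.unpair (gen (cDset G) F j)).2 := by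
  filter_upwards [gen_total (cDset G)] with F hF j
  obtain ⟨p, h1, h2, h3⟩ := hF j
  have h4 := val_vok p.2 _ h2
  have h5 : Dec Le Val p.1 G (dval (p.1.dat (cDset G)).s j) (gval (p.1.dat (cDset G)).s j) :=
    h4 j h3
  rw [gen_dgen h1 h2 h3, nval_of_dec h1 h5, gen_eq h1 h2 h3]
  rfl

theorem gen_loc_card (G : Nm I J) (H : I → Nm I J) : ∀ᶠ F in residual (Pt (PP I J)), ∀ j,
    (fset (gen (cLoc G H) F j)).card ≤ dgen (gen (cDset G) F) j := by
  filter_upwards [gen_total (cLoc G H)] with F hF j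
  obtain ⟨p, h1, h2, h3⟩ := hF j
  have h4 : cDset G ∈ p.1.dom ∧ (p.1.dat (cLoc G H)).s.length < (p.1.dat (cDset G)).s.length ∧
      (p.1.dat (cLoc G H)).h1.card ≤
        dval (p.1.dat (cDset G)).s (p.1.dat (cLoc G H)).s.length ∧
      ∀ j < (p.1.dat (cLoc G H)).s.length,
        (fset ((p.1.dat (cLoc G H)).s.getD j 0)).card ≤ dval (p.1.dat (cDset G)).s j :=
    val_vok p.2 _ h2
  rw [gen_eq h1 h2 h3, gen_dgen h1 h4.1 (h3.trans h4.2.1)]
  exact h4.2.2.2 j h3

theorem gen_loc (G : Nm I J) (H : I → Nm I J) (i : I) : ∀ᶠ F in residual (Pt (PP I J)),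
    ∃ m, ∀ j ≥ m, nval (H i) F j < (Nat.unpair (gen (cDset G) F j)).2 →
      nval (H i) F j ∈ fset (gen (cLoc G H) F j) := by
  have h := residual_of_dense
    (D := {p : PP I J | cLoc G H ∈ p.1.dom ∧ i ∈ (p.1.dat (cLoc G H)).h1})
    (fun p => by
      obtain ⟨q, hq, h1⟩ := ext_loc_new p (c := cLoc G H) rfl
      obtain ⟨q', hq', h1', h2'⟩ := ext_h1 q (c := cLoc G H) rfl h1 i
      exact ⟨q', ⟨h1', h2'⟩, hq'.trans hq⟩)
  filter_upwards [h, gen_total (cLoc G H)] with F hF hG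
  obtain ⟨q, hq, hqF⟩ := hF
  refine ⟨(q.1.dat (cLoc G H)).s.length, fun n hn hlt => ?_⟩
  obtain ⟨r, hr, hrc, hrn⟩ := hG n
  obtain ⟨t, ht, htq, htr⟩ := F.dir hqF hr
  have h1 := pp_le.1 htq _ hq.1
  have h2 := pp_le.1 htr _ hrc
  have hlen : n < (t.1.dat (cLoc G H)).s.length := hrn.trans_le h2.2.1.length_le
  have h4 : cDset G ∈ t.1.dom ∧ (t.1.dat (cLoc G H)).s.length < (t.1.dat (cDset G)).s.length ∧
      (t.1.dat (cLoc G H)).h1.card ≤
        dval (t.1.dat (cDset G)).s (t.1.dat (cLoc G H)).s.length ∧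
      ∀ j < (t.1.dat (cLoc G H)).s.length,
        (fset ((t.1.dat (cLoc G H)).s.getD j 0)).card ≤ dval (t.1.dat (cDset G)).s j :=
    val_vok t.2 _ h1.1
  have h3 : ∀ i ∈ (q.1.dat (cLoc G H)).h1, ∀ j, (q.1.dat (cLoc G H)).s.length ≤ j →
      j < (t.1.dat (cLoc G H)).s.length →
      ∃ v, Dec Le Val t.1 (H i) j v ∧
        (v < gval (t.1.dat (cDset G)).s j → v ∈ fset ((t.1.dat (cLoc G H)).s.getD j 0)) :=
    h1.2.2.2.2
  obtain ⟨v, hv, hv'⟩ := h3 i hq.2 n hn hlen
  rw [nval_of_dec ht hv] at hlt ⊢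
  rw [gen_eq ht h4.1 (hlen.trans h4.2.1)] at hlt
  rw [gen_eq ht h1.1 hlen]
  exact hv' hlt

end Pool.Agent.Lib.MP_f6e1de_lc
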