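import Mathlib
import Pool.Agent.Lib.MP_f6e1de_lc.Gen
import Pool.Agent.Lib.MP_f6e1de_lc.XDefs

/-! The poset bounds `J`-families and localizes `I`-families sparsely.

PROOFS. `pp_x4`: choose names `τ a` for `g a` (`exists_nm`), `h = gen (cHech τ)`; the names of the
coordinate are `(cHech τ).nm (some (inr a)) = τ a`; `gen_hech`, `measurable_gen`.
`pp_xloc`: name `γ` for `G`; `D F = dgen (gen (cDset γ) F)` (measurable: finite sums of measurable
functions); names `τ i` for `H i`; `φ = gen (cLoc γ τ)`; `gen_dset`, `gen_loc_card`, `gen_loc`. -/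

namespace Pool.Agent.Lib.MP_f6e1de_lc

open Filter Topology Pool.Agent.Lib.BVM

variable {I J : Type}

theorem pp_x4 : X4 (PP I J) J := by
  intro g hg
  choose τ hτ using fun a => exists_nm (g a) (hg a)
  refine ⟨gen (cHech τ), measurable_gen _, fun a => ?_⟩
  filter_upwards [hτ a, gen_hech (cHech τ) rfl a] with F h1 h2
  obtain ⟨k, hk⟩ := h2
  refine ⟨k, fun n hn => ?_⟩
  have h3 := hk n hn
  rw [h1]
  exact h3

private theorem measurable_dgen (j : ℕ) : Measurable (fun w : ℕ → ℕ => dgen w j) := by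
  unfold dgen
  refine Finset.measurable_sum _ fun l _ => ?_
  exact (Measurable.of_discrete (f := fun n : ℕ => (Nat.unpair n).1 + 1)).comp
    (measurable_pi_apply l)

theorem pp_xloc : XLoc (PP I J) I := by
  intro G hG
  obtain ⟨γ, hγ⟩ := exists_nm G hG
  refine ⟨fun F => dgen (gen (cDset γ) F), ?_, ?_, ?_⟩
  · rw [measurable_pi_iff]
    intro j
    exact (measurable_dgen j).comp (measurable_gen _)
  · exact Eventually.of_forall fun F => dgen_strictMono _
  · intro H hH
    choose τ hτ using fun i => exists_nm (H i) (hH i)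
    refine ⟨gen (cLoc γ τ), measurable_gen _, gen_loc_card γ τ, fun i => ?_⟩
    filter_upwards [hγ, hτ i, gen_dset γ, gen_loc γ τ i] with F h1 h2 h3 h4
    obtain ⟨m, hm⟩ := h4
    refine ⟨m, fun j hj hlt => ?_⟩
    rw [h2] at hlt ⊢
    rw [h1, h3 j] at hlt
    exact hm j hj hlt

end Pool.Agent.Lib.MP_f6e1de_lc
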