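import Mathlib
import Pool.Agent.Lib.MP_f6e1de_lc.QApi

/-! Union of finitely many conditions with the same stems on the root (note 1442, (*)).

PROOF. Put T = the union of the domains of the `p z` and define `q`: domain T; at `c ∈ R` the stem is
the common stem, `h1` and `h2` are the unions over `z` of the promise sets (at `c` of kind `loc` the
`h1` all agree, so the union is that set); at `c ∈ T \ R` the local part of the unique `z` with
`c ∈ (p z).dom`. Build `q` by adding the coordinates of T one by one in order of increasing rank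
(induction on a finite set `T' ⊆ T` that is closed in `T` under smaller rank; choose `c ∈ T'` of
maximal rank; `Finset.exists_max_image`), with `add_coord`: the invariant is that the condition `q'`
built so far is valid, has domain exactly `T'`, the local parts described above, and
`∀ z, ∀ c ∈ (p z).dom ∩ T'`: `ExtOK Le Val c q' (q'.dat c) ((p z).dat c)` (the stems are equal, so
`NewOK` is empty: no `j` with `length ≤ j < length`). The validity `VOK Le Val c q' D` at the new `c`
follows from `val_vok (hp z)` for a `z` with `c ∈ (p z).dom`: for `dset` by `dec_mono_below` with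
`ρ = c.rank`, `supp_nm` (all coordinates of `p z` of smaller rank are in `T'`); for `loc`: `c.ds` is in
`(p z).dom`, `rank_ds`, so it is in `T'` with the same stem. `Le q (p z)` at the end by `le_iff`;
that `ExtOK` survives the next step is `extOK_trans`. -/

namespace Pool.Agent.Lib.MP_f6e1de_lc

variable {I J : Type}

private theorem upd_dom (q : Cond I J) (c : Coord I J) (D : Dat I J) (c' : Coord I J) :
    c' ∈ (q.upd c D).dom ↔ c' = c ∨ c' ∈ q.dom := by
  classical
  unfold Cond.upd
  simp only [Finset.mem_insert]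

/-- Equal stems and larger promise sets: `ExtOK` holds. -/
private theorem extOK_of_stem {c : Coord I J} {q : Cond I J} {D' D : Dat I J} (hs : D'.s = D.s)
    (h1 : D.h1 ⊆ D'.h1) (h2 : D.h2 ⊆ D'.h2) : ExtOK Le Val c q D' D := by
  refine ⟨by rw [hs], h1, h2, ?_⟩
  unfold NewOK
  rw [hs]
  split
  · trivial
  · trivial
  · intro i _ j h3 h4
    omega
  · intro i _ j h3 h4
    omega

/-- The step: adding the coordinates in order of increasing rank. -/
private theorem build_aux {Z : Type} (p : Z → Cond I J) (hp : ∀ z, Val (p z))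
    (T : Finset (Coord I J)) (hT : ∀ z, (p z).dom ⊆ T) (Dd : Coord I J → Dat I J)
    (hcov : ∀ c ∈ T, ∃ z, c ∈ (p z).dom)
    (hDs : ∀ z, ∀ c ∈ (p z).dom, (Dd c).s = ((p z).dat c).s)
    (hD1 : ∀ z, ∀ c ∈ (p z).dom, ((p z).dat c).h1 ⊆ (Dd c).h1)
    (hD2 : ∀ z, ∀ c ∈ (p z).dom, ((p z).dat c).h2 ⊆ (Dd c).h2)
    (hDl : ∀ z, ∀ c ∈ (p z).dom, c.kind = .loc → (Dd c).h1 = ((p z).dat c).h1) (n : ℕ) :
    ∀ T' : Finset (Coord I J), T'.card = n → T' ⊆ T →
      (∀ c ∈ T', ∀ c' ∈ T, c'.rank < c.rank → c' ∈ T') →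
      ∃ q : Cond I J, Val q ∧ q.dom = T' ∧ ∀ c ∈ T', q.dat c = Dd c := by
  classical
  induction n with
  | zero =>
    intro T' h0 _ _
    rw [Finset.card_eq_zero] at h0
    subst h0
    exact ⟨Cond.empty, val_empty, rfl, fun c hc => absurd hc (Finset.notMem_empty c)⟩
  | succ n ih =>
    intro T' hn hTT hcl
    have hne : T'.Nonempty := by
      rw [← Finset.card_pos]
      omega
    obtain ⟨c, hc, hmax⟩ := Finset.exists_max_image T' Coord.rank hne
    obtain ⟨q, hq, hqd, hqD⟩ := ih (T'.erase c) (by rw [Finset.card_erase_of_mem hc]; omega)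
      ((Finset.erase_subset _ _).trans hTT) (by
        intro c1 hc1 c2 hc2 hlt
        refine Finset.mem_erase.mpr ⟨?_, hcl c1 (Finset.mem_of_mem_erase hc1) c2 hc2 hlt⟩
        rintro rfl
        exact absurd (hmax c1 (Finset.mem_of_mem_erase hc1)) (not_le.mpr hlt))
    have hcq : c ∉ q.dom := by
      rw [hqd]
      exact Finset.notMem_erase _ _
    have hlow : ∀ z, ∀ c1 ∈ (p z).dom, c1.rank < c.rank → c1 ∈ q.dom ∧
        q.dat c1 = Dd c1 := by
      intro z c1 h1 h2
      have h3 : c1 ∈ T'.erase c := by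
        refine Finset.mem_erase.mpr ⟨?_, hcl c hc c1 (hT z h1) h2⟩
        rintro rfl
        exact lt_irrefl _ h2
      exact ⟨by rw [hqd]; exact h3, hqD c1 h3⟩
    obtain ⟨z, hz⟩ := hcov c (hTT hc)
    have hv : VOK Le Val c q (Dd c) := by
      have hvz := val_vok (hp z) c hz
      unfold VOK at hvz ⊢
      cases hk : c.kind with
      | free η => trivial
      | hech => trivial
      | dset =>
        rw [hk] at hvz
        intro j hj
        rw [hDs z c hz] at hj ⊢
        refine dec_mono_below hq (hp z) (supp_nm c none) ?_ (hvz j hj)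
        intro c1 h1 h2
        refine ⟨(hlow z c1 h1 h2).1, ?_⟩
        rw [(hlow z c1 h1 h2).2]
        exact extOK_of_stem (hDs z c1 h1) (hD1 z c1 h1) (hD2 z c1 h1)
      | loc =>
        rw [hk] at hvz
        obtain ⟨h1, h2, h3, h4⟩ := hvz
        obtain ⟨h5, h6⟩ := hlow z c.ds h1 (rank_ds c hk)
        have h7 : (q.dat c.ds).s = ((p z).dat c.ds).s := by
          rw [h6]
          exact hDs z c.ds h1
        refine ⟨h5, ?_, ?_, ?_⟩
        · rw [h7, hDs z c hz]
          exact h2
        · rw [h7, hDs z c hz, hDl z c hz hk]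
          exact h3
        · rw [h7, hDs z c hz]
          exact h4
    refine ⟨q.upd c (Dd c), (add_coord hq hcq hv).1, ?_, ?_⟩
    · ext c'
      rw [upd_dom, hqd, Finset.mem_erase]
      constructor
      · rintro (rfl | h)
        · exact hc
        · exact h.2
      · intro h
        by_cases h' : c' = c
        · exact Or.inl h'
        · exact Or.inr ⟨h', h⟩
    · intro c' hc'
      by_cases h' : c' = c
      · rw [h', upd_dat_self]
      · rw [upd_dat_ne _ _ h']
        exact hqD c' (Finset.mem_erase.mpr ⟨h', hc'⟩)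

theorem union_lemma {Z : Type} [Finite Z] [Nonempty Z] (p : Z → Cond I J) (hp : ∀ z, Val (p z))
    (R : Finset (Coord I J)) (hR : ∀ z, R ⊆ (p z).dom)
    (hdis : ∀ z z', z ≠ z' → ∀ c ∈ (p z).dom, c ∈ (p z').dom → c ∈ R)
    (hs : ∀ z z', ∀ c ∈ R, ((p z).dat c).s = ((p z').dat c).s)
    (hh : ∀ z z', ∀ c ∈ R, c.kind = .loc → ((p z).dat c).h1 = ((p z').dat c).h1) :
    ∃ q : Cond I J, Val q ∧ (∀ z, Le q (p z)) ∧
      ∀ z, ∀ c ∈ (p z).dom, (q.dat c).s = ((p z).dat c).s := by
  classical
  cases nonempty_fintype Z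
  let T : Finset (Coord I J) := Finset.univ.biUnion (fun z => (p z).dom)
  have hT : ∀ z, (p z).dom ⊆ T := fun z => Finset.subset_biUnion_of_mem (fun z => (p z).dom)
    (Finset.mem_univ z)
  have hcov : ∀ c ∈ T, ∃ z, c ∈ (p z).dom := by
    intro c hc
    obtain ⟨z, _, hz⟩ := Finset.mem_biUnion.mp hc
    exact ⟨z, hz⟩
  let zc : Coord I J → Z := fun c => if h : ∃ z, c ∈ (p z).dom then h.choose else
    Classical.arbitrary Z
  have hzc : ∀ z, ∀ c ∈ (p z).dom, c ∈ (p (zc c)).dom := by
    intro z c hc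
    have h : ∃ z, c ∈ (p z).dom := ⟨z, hc⟩
    simp only [zc, dif_pos h]
    exact h.choose_spec
  have hcase : ∀ z z', ∀ c ∈ (p z).dom, c ∈ (p z').dom → z = z' ∨ c ∈ R := by
    intro z z' c h1 h2
    by_cases h : z = z'
    · exact Or.inl h
    · exact Or.inr (hdis z z' h c h1 h2)
  let Dd : Coord I J → Dat I J := fun c =>
    ⟨((p (zc c)).dat c).s,
      (Finset.univ.filter (fun z => c ∈ (p z).dom)).biUnion (fun z => ((p z).dat c).h1),
      (Finset.univ.filter (fun z => c ∈ (p z).dom)).biUnion (fun z => ((p z).dat c).h2)⟩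
  have hDs : ∀ z, ∀ c ∈ (p z).dom, (Dd c).s = ((p z).dat c).s := by
    intro z c hc
    rcases hcase (zc c) z c (hzc z c hc) hc with h | h
    · show ((p (zc c)).dat c).s = ((p z).dat c).s
      rw [h]
    · exact hs (zc c) z c h
  have hD1 : ∀ z, ∀ c ∈ (p z).dom, ((p z).dat c).h1 ⊆ (Dd c).h1 := by
    intro z c hc
    exact Finset.subset_biUnion_of_mem (fun z => ((p z).dat c).h1)
      (Finset.mem_filter.mpr ⟨Finset.mem_univ z, hc⟩)
  have hD2 : ∀ z, ∀ c ∈ (p z).dom, ((p z).dat c).h2 ⊆ (Dd c).h2 := by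
    intro z c hc
    exact Finset.subset_biUnion_of_mem (fun z => ((p z).dat c).h2)
      (Finset.mem_filter.mpr ⟨Finset.mem_univ z, hc⟩)
  have hDl : ∀ z, ∀ c ∈ (p z).dom, c.kind = .loc → (Dd c).h1 = ((p z).dat c).h1 := by
    intro z c hc hk
    refine Finset.Subset.antisymm ?_ (hD1 z c hc)
    intro i hi
    obtain ⟨z', hz', hi'⟩ := Finset.mem_biUnion.mp hi
    rcases hcase z' z c (Finset.mem_filter.mp hz').2 hc with h | h
    · rw [← h]
      exact hi'
    · rw [← hh z' z c h hk]
      exact hi'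
  obtain ⟨q, hq, hqd, hqD⟩ := build_aux p hp T hT Dd hcov hDs hD1 hD2 hDl T.card T rfl subset_rfl
    (fun c _ c' hc' _ => hc')
  refine ⟨q, hq, ?_, ?_⟩
  · intro z
    rw [le_iff hq (hp z)]
    intro c hc
    refine ⟨by rw [hqd]; exact hT z hc, ?_⟩
    rw [hqD c (hT z hc)]
    exact extOK_of_stem (hDs z c hc) (hD1 z c hc) (hD2 z c hc)
  · intro z c hc
    rw [hqD c (hT z hc)]
    exact hDs z c hc

end Pool.Agent.Lib.MP_f6e1de_lc
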