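import Mathlib
import Pool.Agent.Lib.MP_f6e1de_lc.Gen
import Pool.Agent.Lib.MP_f6e1de_lc.Union
import Pool.Agent.Lib.MP_f6e1de_lc.XDefs
import Pool.Agent.Lib.MP_f6e1de_lc.MeasLem

/-! `J` many strong measure zero sets cover the reals (note 1442, section 4).

PROOF. `Λ = Nm I J`, `f l = nval l`, `w η l = gen (cFree (inr η) l)`; `exists_nm`, `measurable_nval`,
`measurable_gen`. Let `y` be measurable and `p` a condition, and suppose the last clause fails for `y`, `p`:
for every `η : J` and all `q ≤ p` there is `l` such that `Frc q (∃ n, ...)` fails. Apply this with `q = p`: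
there are `l η` and, by `exists_frc_not` (the set is Baire measurable: countable union of finite
intersections of measurable sets), `q η ≤ p` with `Frc (q η) (∀ n, ¬ ∀ i < nval (l η) F n, y F i =
(gen (e η) F n).testBit i)`, where `e η = cFree (inr η) (l η)`. Extend `q η` such that `e η ∈ dom`
(`ext_new`), and then such that it decides the value `(l η)` at `n = ` length of the stem at `e η` to be
some number `ℓ` WITHOUT changing the local part at `e η` (`exists_dec` with `ρ = (e η).rank`, `supp_nm`,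
`(e η).nm none = l η`). Now `refine_conds` with `ι = J`, `κ = #J`, `f η = (n η, ℓ η) : ℕ × ℕ`,
`g D = (D.s, D.h1) : List ℕ × Finset I` (card `< κ`): `S`, `R`. The `e η` are pairwise different (`mkC` is
injective in the kind), so the set `S' = {η ∈ S | e η ∉ R}` is still infinite; choose an injection
`t ↦ η t` from `Fin (2^ℓ)` to `S'`. `union_lemma` gives `r` valid below all `q (η t)` with the same stems;
`e (η t)` are different and each is in the domain of `r` with stem of length `n`. Extend `r` by `ext_free`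
(2^ℓ times, finite induction over `t`) to `r'` such that the `n`-th entry of the stem at `e (η t)` is `t`.
`r' ≤ q (η t)` for all `t`. Take by `Frc.exists` a point `F ∋ r'` at which the countably many comeager
statements hold (those of `Frc (q (η t))`): `nval (l (η t)) F n = ℓ` by `nval_of_dec`,
`gen (e (η t)) F n = t` by `gen_eq`. Let `t` be the number `< 2^ℓ` with binary digits `y F i`, `i < ℓ`
(`Nat.ofBits` or induction): contradiction. -/

namespace Pool.Agent.Lib.MP_f6e1de_lc

open Pool.Agent.Lib.BVM Filter Topology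

variable {I J : Type}

private theorem nm_cFree (η : I ⊕ J) (f : Nm I J) : (cFree η f).nm none = f := by
  simp [cFree]

private theorem kind_cFree (η : I ⊕ J) (f : Nm I J) : (cFree η f).kind = .free η := by
  simp [cFree]

private theorem pcov_choose (y : Pt (PP I J) → ℕ → Bool) (hy : Measurable y) (p : PP I J)
    (hcon : ¬ ∃ q ≤ p, ∃ η, ∀ l, Frc q (fun F => ∃ n, ∀ i < nval l F n,
      y F i = (gen (cFree (.inr η) l : Coord I J) F n).testBit i)) (η : J) :
    ∃ (l : Nm I J) (q : PP I J) (ℓ : ℕ), cFree (.inr η) l ∈ q.1.dom ∧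
      Frc q (fun F => ∀ n, ¬ ∀ i < nval l F n,
        y F i = (gen (cFree (.inr η) l : Coord I J) F n).testBit i) ∧
      Dec Le Val q.1 l ((q.1.dat (cFree (.inr η) l)).s.length) ℓ := by
  have h1 : ∃ l, ¬ Frc p (fun F => ∃ n, ∀ i < nval l F n,
      y F i = (gen (cFree (.inr η) l : Coord I J) F n).testBit i) := by
    by_contra h
    push Not at h
    exact hcon ⟨p, le_rfl, η, h⟩
  obtain ⟨l, hl⟩ := h1
  have hmeas : MeasurableSet {F : Pt (PP I J) | ∃ n, ∀ i < nval l F n,
      y F i = (gen (cFree (.inr η) l : Coord I J) F n).testBit i} := by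
    have h2 : {F : Pt (PP I J) | ∃ n, ∀ i < nval l F n,
        y F i = (gen (cFree (.inr η) l : Coord I J) F n).testBit i} =
        ⋃ n, {F : Pt (PP I J) | ∀ i < nval l F n,
          y F i = (gen (cFree (.inr η) l : Coord I J) F n).testBit i} := by
      ext F; simp
    rw [h2]
    refine MeasurableSet.iUnion fun n => ?_
    refine meas_agree (y := y) (z := fun F i => (gen (cFree (.inr η) l : Coord I J) F n).testBit i)
      (a := fun F => nval l F n) (meas_bits.1 hy) (fun i => ?_) ?_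
    · have h3 : Measurable (fun F => gen (cFree (.inr η) l : Coord I J) F n) :=
        (measurable_pi_apply n).comp (measurable_gen _)
      exact h3 (MeasurableSet.of_discrete (s := {m : ℕ | m.testBit i = true}))
    · exact (measurable_pi_apply n).comp (measurable_nval l)
  obtain ⟨q0, -, hq0⟩ := exists_frc_not hmeas hl
  obtain ⟨q1, hq1, hq1c⟩ := ext_new q0 (cFree (.inr η) l : Coord I J) (by
    rw [kind_cFree]; exact fun h => by cases h)
  obtain ⟨r, v, hr, hrle, hrc, hrd⟩ := exists_dec q1.2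
    (supp_nm (cFree (.inr η) l : Coord I J) none) ((q1.1.dat (cFree (.inr η) l)).s.length)
  have h4 := hrc (cFree (.inr η) l) le_rfl
  obtain ⟨r1, rfl⟩ : ∃ r1 : PP I J, r1.1 = r := ⟨⟨r, hr⟩, rfl⟩
  have hr1 : r1 ≤ q1 := hrle
  refine ⟨l, r1, v, h4.1.2 hq1c, ?_, ?_⟩
  · have h5 := (hq0.mono hq1).mono hr1
    exact h5.imp fun F hF n hn => hF ⟨n, hn⟩
  · rw [nm_cFree] at hrd
    rw [show r1.1.dat (cFree (.inr η) l) = q1.1.dat (cFree (.inr η) l) from h4.2]
    exact hrd

private theorem pcov_ext {T0 : Type} [Fintype T0] [DecidableEq T0] (e : T0 → Coord I J)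
    (he : Function.Injective e) (κ : T0 → I ⊕ J) (hk : ∀ t, (e t).kind = .free (κ t)) (r0 : PP I J)
    (hdom : ∀ t, e t ∈ r0.1.dom) (m : T0 → ℕ) (T : Finset T0) :
    ∃ r' : PP I J, r' ≤ r0 ∧ r'.1.dom = r0.1.dom ∧
      (∀ t ∈ T, (r'.1.dat (e t)).s = (r0.1.dat (e t)).s ++ [m t]) ∧
      ∀ t ∉ T, (r'.1.dat (e t)).s = (r0.1.dat (e t)).s := by
  induction T using Finset.induction_on with
  | empty => exact ⟨r0, le_rfl, rfl, fun t ht => absurd ht (Finset.notMem_empty t),
      fun t _ => rfl⟩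
  | insert a T ha ih =>
    obtain ⟨r', h1, h2, h3, h4⟩ := ih
    obtain ⟨r'', g1, g2, g3, g4⟩ := ext_free r' (hk a) (by rw [h2]; exact hdom a) [m a]
    refine ⟨r'', g1.trans h1, g3.trans h2, ?_, ?_⟩
    · intro t ht
      rcases Finset.mem_insert.1 ht with rfl | ht
      · rw [g2, h4 t ha]
      · have hne : e t ≠ e a := fun h => ha ((he h) ▸ ht)
        rw [g4 _ hne, h3 t ht]
    · intro t ht
      rw [Finset.mem_insert, not_or] at ht
      rw [g4 _ (fun h => ht.1 (he h)), h4 t ht.2]

theorem pp_xcov (hJ : (Cardinal.mk J).IsRegular) (hJ' : Cardinal.aleph0 < Cardinal.mk J)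
    (hIJ : Cardinal.mk (Finset I) < Cardinal.mk J) : XCov (PP I J) J := by
  classical
  refine ⟨Nm I J, fun l => nval l, fun η l => gen (cFree (.inr η) l), fun l => measurable_nval l,
    fun η l => measurable_gen _, fun g hg => exists_nm g hg, ?_⟩
  intro y hy p
  by_contra hcon
  have hcc := pcov_choose y hy p hcon
  choose l q ℓ hq2 hq3 hq4 using hcc
  set e : J → Coord I J := fun η => cFree (.inr η) (l η) with he
  have einj : Function.Injective e := by
    intro a b h
    have h1 : (e a).kind = (e b).kind := by rw [h]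
    simp only [he, kind_cFree, Kind.free.injEq, Sum.inr.injEq] at h1
    exact h1
  have hγ : Cardinal.mk (List ℕ × Finset I) < Cardinal.mk J := by
    rw [Cardinal.mk_prod, Cardinal.lift_id, Cardinal.lift_id]
    exact Cardinal.mul_lt_of_lt hJ'.le (lt_of_le_of_lt Cardinal.mk_le_aleph0 hJ') hIJ
  obtain ⟨S0, hS0, R, hR, hdis, hf, hg⟩ := refine_conds (ι := J) (κ := Cardinal.mk J)
    hJ hJ' le_rfl (fun η => (q η).1) (β := ℕ × ℕ) (γ := List ℕ × Finset I)
    (lt_of_le_of_lt Cardinal.mk_le_aleph0 hJ') hγ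
    (fun η => (((q η).1.dat (e η)).s.length, ℓ η)) (fun D => (D.s, D.h1))
  have hS0inf : S0.Infinite := by
    rw [← Set.infinite_coe_iff, Cardinal.infinite_iff]
    exact hJ'.le.trans hS0
  have hfin : {η : J | e η ∈ R}.Finite :=
    Set.Finite.preimage einj.injOn (Finset.finite_toSet R)
  set S1 : Set J := S0 \ {η : J | e η ∈ R} with hS1
  have hS1inf : S1.Infinite := hS0inf.sdiff hfin
  obtain ⟨η0, hη0⟩ := hS1inf.nonempty
  set n0 : ℕ := ((q η0).1.dat (e η0)).s.length with hn0
  set ℓ0 : ℕ := ℓ η0 with hℓ0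
  set emb := hS1inf.natEmbedding with hemb
  set x : Fin (2 ^ ℓ0) → J := fun z => (emb z.1).1 with hx
  have hxS : ∀ z, x z ∈ S1 := fun z => (emb z.1).2
  have hxinj : Function.Injective x := by
    intro z z' h
    exact Fin.ext (emb.injective (Subtype.ext h))
  have hxn : ∀ z, ((q (x z)).1.dat (e (x z))).s.length = n0 ∧ ℓ (x z) = ℓ0 := by
    intro z
    have h2 := hf (x z) (hxS z).1 η0 hη0.1
    exact ⟨congrArg Prod.fst h2, congrArg Prod.snd h2⟩
  have : Nonempty (Fin (2 ^ ℓ0)) := ⟨⟨0, Nat.two_pow_pos ℓ0⟩⟩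
  obtain ⟨r, hrv, hrle, hrs⟩ := union_lemma (fun z => (q (x z)).1) (fun z => (q (x z)).2) R
    (fun z => hR _ (hxS z).1)
    (fun z z' hne c hc hc' => hdis _ (hxS z).1 _ (hxS z').1 (fun h => hne (hxinj h)) c hc hc')
    (fun z z' c hc => congrArg Prod.fst (hg _ (hxS z).1 _ (hxS z').1 c hc))
    (fun z z' c hc _ => congrArg Prod.snd (hg _ (hxS z).1 _ (hxS z').1 c hc))
  obtain ⟨r0, rfl⟩ : ∃ r0 : PP I J, r0.1 = r := ⟨⟨r, hrv⟩, rfl⟩
  have hr0 : ∀ z, r0 ≤ q (x z) := hrle
  have hdom : ∀ z, e (x z) ∈ r0.1.dom := fun z =>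
    ((le_iff hrv (q (x z)).2).1 (hrle z) _ (hq2 (x z))).1
  obtain ⟨r', hr', hr'd, hr's, -⟩ := pcov_ext (fun z : Fin (2 ^ ℓ0) => e (x z))
    (fun z z' h => hxinj (einj h)) (fun z => .inr (x z)) (fun z => kind_cFree _ _)
    r0 hdom (fun z => z.1) Finset.univ
  have h4 : Frc r' (fun F => ∀ (z : Fin (2 ^ ℓ0)) (n : ℕ), ¬ ∀ i < nval (l (x z)) F n,
      y F i = (gen (e (x z)) F n).testBit i) := by
    refine Frc.all fun z => ?_
    exact ((hq3 (x z)).mono (hr0 z)).mono hr'
  obtain ⟨F, hF, hFQ⟩ := h4.exists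
  set z : Fin (2 ^ ℓ0) := ⟨Nat.ofBits (fun i : Fin ℓ0 => y F i.1), Nat.ofBits_lt_two_pow _⟩ with hz
  apply hFQ z n0
  intro i hi
  have hFq : F.has (q (x z)) := F.up (F.up hF hr') (hr0 z)
  have h5 : nval (l (x z)) F n0 = ℓ0 := by
    have h6 := hq4 (x z)
    have h7 := nval_of_dec hFq h6
    rw [show ((q (x z)).1.dat (cFree (.inr (x z)) (l (x z)))).s.length = n0 from (hxn z).1,
      (hxn z).2] at h7
    exact h7
  rw [h5] at hi
  have hstem : (r'.1.dat (e (x z))).s = ((q (x z)).1.dat (e (x z))).s ++ [z.1] := by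
    rw [hr's z (Finset.mem_univ z)]
    congr 1
    exact hrs z _ (hq2 (x z))
  have h8 : gen (e (x z)) F n0 = z.1 := by
    rw [gen_eq hF (by rw [hr'd]; exact hdom z) (j := n0) (by
      rw [hstem, List.length_append, (hxn z).1]; simp), hstem,
      List.getD_append_right _ _ _ _ (by rw [(hxn z).1])]
    rw [(hxn z).1]
    simp
  rw [h8, hz]
  simp only
  rw [Nat.testBit_ofBits_lt _ i hi]

end Pool.Agent.Lib.MP_f6e1de_lc
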