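import Mathlib
import Pool.Agent.Lib.MP_f6e1de_lc.Gen
import Pool.Agent.Lib.MP_f6e1de_lc.XDefs

/-! The Cohen reals `x ξ`, `ξ : I`, stay unlocalizable (note 1442, section 5, first part).

PROOF. `x ξ F i = gen (cFree (inl ξ) nm0) F i % M i`. Given `S`, `r`, suppose the set `A` of the `ξ` in
question is uncountable; for `ξ ∈ A` choose `p ξ`, `n ξ` with `Frc (p ξ) (∀ i ≥ n ξ, x ξ F i ∈ fset (S F i))`
and, by `ext_new` and `Frc.mono`, with `e ξ = cFree (inl ξ) nm0 ∈ (p ξ).dom`. `refine_conds` with `ι = A`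
(subtype), `κ = ℵ₁`, `f ξ = (n ξ, length of the stem of p ξ at e ξ)`, `g = Dat.s`: `S0` uncountable, root `R`,
common `n`, `k`, common stems `Sst` on `R`; drop the finitely many `ξ` with `e ξ ∈ R` (`e` is injective).
`ds_mem_root`. `e0 = eR R Sst`; take `i ≥ max n k` with `e0 * r i < M i` (`max` with the `i0` of the
hypothesis for `e0`). Choose an injection `z ↦ ξ z` from `Fin (M i)` into the remaining set (infinite) and
let `q z ≤ p (ξ z)` by `ext_free` with `w = replicate (i - k) 0 ++ [z]`: domain unchanged, local parts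
unchanged outside of `e (ξ z)`, which is not in `R` and not in the domains of the other `q z'`
(`e (ξ z) ∈ dom (p (ξ z'))` and in `dom (p (ξ z))` would put it in `R`). The family `q z`, `z : Fin (M i)`, has
the same root and stems, `amalg`: `M i ≤ e0 * Z'.card`, `q' ≤ q z` for `z ∈ Z'`. At a point `F ∋ q'` where
the comeager statements hold (`Frc.exists`, finite conjunction): `gen (e (ξ z)) F i = z` by `gen_eq`, so
`x (ξ z) F i = z % M i = z ∈ fset (S F i)` for all `z ∈ Z'`: `Z'.card ≤ r i`, so `M i ≤ e0 * r i < M i`,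
contradiction. -/

namespace Pool.Agent.Lib.MP_f6e1de_lc

open Pool.Agent.Lib.BVM Filter Topology

variable {I J : Type}

private theorem cFree_inj : Function.Injective (fun ξ : I => (cFree (.inl ξ) nm0 : Coord I J)) := by
  intro a b h
  have h1 : (cFree (.inl a) nm0 : Coord I J).kind = (cFree (.inl b) nm0 : Coord I J).kind := by
    rw [show (cFree (.inl a) nm0 : Coord I J) = cFree (.inl b) nm0 from h]
  simp only [cFree, kind_mkC, Kind.free.injEq, Sum.inl.injEq] at h1
  exact h1

private theorem uncountable_card {A : Set I} (h : ¬ A.Countable) :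
    Cardinal.aleph 1 ≤ Cardinal.mk A := by
  rw [← Cardinal.succ_aleph0]
  refine Order.succ_le_of_lt ?_
  rw [← not_le]
  intro h'
  exact h (Cardinal.le_aleph0_iff_set_countable.1 h')

theorem pp_xunl : XUnl (PP I J) I := by
  classical
  intro M hM
  refine ⟨fun ξ F i => gen (cFree (.inl ξ) nm0 : Coord I J) F i % M i, ?_,
    fun ξ F i => Nat.mod_lt _ (hM i), ?_⟩
  · intro ξ
    rw [measurable_pi_iff]
    intro i
    have h1 : Measurable (fun F => gen (cFree (.inl ξ) nm0 : Coord I J) F i) :=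
      (measurable_pi_apply i).comp (measurable_gen _)
    exact (measurable_of_countable (fun x : ℕ => x % M i)).comp h1
  · intro S r hS hSr hM2
    by_contra hunc
    set A : Set I := {ξ : I | ∃ (p : PP I J) (n : ℕ), Frc p (fun F => ∀ i ≥ n,
      gen (cFree (.inl ξ) nm0 : Coord I J) F i % M i ∈ fset (S F i))} with hA
    have h1 : ∀ ξ : A, ∃ (p : PP I J) (n : ℕ), (cFree (.inl ξ.1) nm0 : Coord I J) ∈ p.1.dom ∧
        Frc p (fun F => ∀ i ≥ n,
          gen (cFree (.inl ξ.1) nm0 : Coord I J) F i % M i ∈ fset (S F i)) := by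
      rintro ⟨ξ, p, n, hp⟩
      obtain ⟨q, hq, hqc⟩ := ext_new p (cFree (.inl ξ) nm0 : Coord I J) (by simp [cFree])
      exact ⟨q, n, hqc, hp.mono hq⟩
    choose p n hp1 hp2 using h1
    obtain ⟨S0, hS0, R, hR, hdis, hf, hg⟩ := refine_conds (ι := A) (κ := Cardinal.aleph 1)
      Cardinal.isRegular_aleph_one Cardinal.aleph0_lt_aleph_one (uncountable_card hunc)
      (fun ξ => (p ξ).1) (β := ℕ × ℕ) (γ := List ℕ)
      (lt_of_le_of_lt Cardinal.mk_le_aleph0 Cardinal.aleph0_lt_aleph_one)
      (lt_of_le_of_lt Cardinal.mk_le_aleph0 Cardinal.aleph0_lt_aleph_one)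
      (fun ξ => (n ξ, ((p ξ).1.dat (cFree (.inl ξ.1) nm0)).s.length)) Dat.s
    -- the infinite subset with `e ξ ∉ R`
    have hS0inf : S0.Infinite := by
      rw [← Set.infinite_coe_iff, Cardinal.infinite_iff]
      exact (Cardinal.aleph0_lt_aleph_one.le).trans hS0
    have hfin : {ξ : A | (cFree (.inl ξ.1) nm0 : Coord I J) ∈ R}.Finite := by
      refine Set.Finite.preimage (f := fun ξ : A => (cFree (.inl ξ.1) nm0 : Coord I J)) ?_
        (Finset.finite_toSet R)
      exact (cFree_inj.comp Subtype.val_injective).injOn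
    set S1 : Set A := S0 \ {ξ : A | (cFree (.inl ξ.1) nm0 : Coord I J) ∈ R} with hS1
    have hS1inf : S1.Infinite := hS0inf.sdiff hfin
    obtain ⟨ξ0, hξ0⟩ := hS1inf.nonempty
    have hds := ds_mem_root S1 hS1inf (fun ξ => (p ξ).1) (fun ξ => (p ξ).2) R
      (fun ξ hξ => hR ξ hξ.1) (fun ξ hξ ξ' hξ' hne => hdis ξ hξ.1 ξ' hξ'.1 hne)
    set Sst : Coord I J → List ℕ := fun c => ((p ξ0).1.dat c).s with hSst
    set k0 : ℕ := ((p ξ0).1.dat (cFree (.inl ξ0.1) nm0)).s.length with hk0
    obtain ⟨i0, hi0⟩ := hM2 (eR R Sst)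
    set i : ℕ := max i0 (max (n ξ0) k0) with hi
    have hii : eR R Sst * r i < M i := hi0 i (le_max_left _ _)
    have hin : n ξ0 ≤ i := (le_max_left _ _).trans (le_max_right _ _)
    have hik : k0 ≤ i := (le_max_right _ _).trans (le_max_right _ _)
    set emb := hS1inf.natEmbedding with hemb
    set x : Fin (M i) → A := fun z => (emb z.1).1 with hx
    have hxS : ∀ z, x z ∈ S1 := fun z => (emb z.1).2
    have hxinj : Function.Injective x := by
      intro z z' h
      exact Fin.ext (emb.injective (Subtype.ext h))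
    have hxn : ∀ z, n (x z) = n ξ0 ∧
        ((p (x z)).1.dat (cFree (.inl (x z).1) nm0)).s.length = k0 := by
      intro z
      have h2 := hf (x z) (hxS z).1 ξ0 hξ0.1
      exact ⟨congrArg Prod.fst h2, congrArg Prod.snd h2⟩
    have h3 : ∀ z : Fin (M i), ∃ q : PP I J, q ≤ p (x z) ∧
        (q.1.dat (cFree (.inl (x z).1) nm0)).s =
          ((p (x z)).1.dat (cFree (.inl (x z).1) nm0)).s ++ (List.replicate (i - k0) 0 ++ [z.1]) ∧
        q.1.dom = (p (x z)).1.dom ∧
        ∀ c', c' ≠ cFree (.inl (x z).1) nm0 → q.1.dat c' = (p (x z)).1.dat c' := fun z =>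
      ext_free (p (x z)) (c := cFree (.inl (x z).1) nm0) (η := .inl (x z).1) (by simp [cFree])
        (hp1 (x z)) _
    choose q hq1 hq2 hq3 hq4 using h3
    have : Nonempty (Fin (M i)) := ⟨⟨0, hM i⟩⟩
    have hRne : ∀ z, ∀ c ∈ R, c ≠ cFree (.inl (x z).1) nm0 := by
      intro z c hc h
      rw [h] at hc
      exact (hxS z).2 hc
    obtain ⟨Z', hZ', q', hq'v, hq'⟩ := amalg (fun z => (q z).1) (fun z => (q z).2) R
      (fun z => by rw [hq3]; exact hR _ (hxS z).1)
      (fun z z' hne c hc hc' => by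
        rw [hq3] at hc hc'
        exact hdis _ (hxS z).1 _ (hxS z').1 (fun h => hne (hxinj h)) c hc hc')
      hds Sst
      (fun z c hc => by
        rw [hq4 z c (hRne z c hc)]
        exact hg _ (hxS z).1 _ hξ0.1 c hc)
    rw [Fintype.card_fin] at hZ'
    -- a point
    obtain ⟨q'', hq''⟩ : ∃ q'' : PP I J, q''.1 = q' := ⟨⟨q', hq'v⟩, rfl⟩
    have hle'' : ∀ z ∈ Z', q'' ≤ q z := by
      intro z hz
      rw [pp_le_iff, hq'']
      exact hq' z hz
    have h4 : Frc q'' (fun F => ∀ z : Fin (M i), z ∈ Z' → ∀ j ≥ n ξ0,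
        gen (cFree (.inl (x z).1) nm0 : Coord I J) F j % M j ∈ fset (S F j)) := by
      refine Frc.all fun z => ?_
      by_cases hz : z ∈ Z'
      · have h5 := ((hp2 (x z)).mono (hq1 z)).mono (hle'' z hz)
        refine h5.imp fun F hF _ j hj => ?_
        exact hF j (by rw [(hxn z).1]; exact hj)
      · exact Frc.of_residual (Eventually.of_forall fun F h => absurd h hz)
    obtain ⟨F, hF, hFQ⟩ := h4.exists
    have h6 : ∀ z ∈ Z', z.1 ∈ fset (S F i) := by
      intro z hz
      have h7 := hFQ z hz i hin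
      have hFq : F.has (q z) := F.up hF (hle'' z hz)
      have hlen : ((q z).1.dat (cFree (.inl (x z).1) nm0)).s.length = i + 1 := by
        rw [hq2, List.length_append, List.length_append, List.length_replicate, (hxn z).2]
        simp only [List.length_cons, List.length_nil]
        omega
      have h8 : gen (cFree (.inl (x z).1) nm0 : Coord I J) F i = z.1 := by
        rw [gen_eq hFq (by rw [hq3]; exact hp1 _) (j := i) (by rw [hlen]; omega), hq2,
          List.getD_append_right _ _ _ _ (by rw [(hxn z).2]; exact hik),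
          List.getD_append_right _ _ _ _ (by rw [List.length_replicate, (hxn z).2])]
        rw [List.length_replicate, (hxn z).2]
        simp
      rw [h8, Nat.mod_eq_of_lt z.2] at h7
      exact h7
    have h9 : Z'.card ≤ r i := by
      refine le_trans ?_ (hSr F i)
      rw [← Finset.card_map Fin.valEmbedding]
      refine Finset.card_le_card ?_
      intro m hm
      rw [Finset.mem_map] at hm
      obtain ⟨z, hz, rfl⟩ := hm
      exact h6 z hz
    have h10 : M i ≤ eR R Sst * r i := hZ'.trans (Nat.mul_le_mul_left _ h9)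
    omega

end Pool.Agent.Lib.MP_f6e1de_lc
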