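import Mathlib
import Pool.Agent.Lib.MP_f6e1de_lc.FamT
import Pool.Agent.Lib.MP_f6e1de_lc.BddT

/-! The model. -/

namespace Pool.Agent.Lib.MP_f6e1de_lc

open Pool.Agent.Lib.BVM Pool.Agent.Lib.BVM.BSet Filter Topology

theorem transfer (P : Type) [Preorder P] [Nonempty P] (I J : Type) [LinearOrder I]
    [WellFoundedLT I] [LinearOrder J] [WellFoundedLT J] (h1 : X1 P I) (h2 : X2 P I) (h3 : X3 P J)
    (h4 : X4 P J) : ∃ (M : Type 1) (E : M → M → Prop), IsZFC E ∧ AddNLtAddSNLtB E := by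
  have hne : (⊤ : BB P) ≠ ⊥ := by
    intro h
    obtain ⟨p⟩ := (inferInstance : Nonempty P)
    obtain ⟨F, -⟩ := exists_pt p
    exact at_bot F (h ▸ at_top F)
  obtain ⟨U, -⟩ := exists_ult hne
  refine ⟨U.Mod, U.E, U.isZFC, ?_⟩
  let v : ℕ → BSet (BB P) := fun _ => chkAll (BB P) ℕ
  rw [← sat_fAll U.E (fun i => U.cls (v i)), U.los]
  have key : bval fAll v = ⊤ := by
    rw [eq_top_iff]
    have e1 : bval (fOmega 0) (scons (chkAll (BB P) ℕ) v) = ⊤ := bval_fOmega 0 _ rfl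
    have e2 : bval (fAddNLe 1 0) (scons (chkAll (BB P) I) (scons (chkAll (BB P) ℕ) v)) = ⊤ :=
      addN_of_x1 h1 rfl rfl
    have e3 : bval (fLtAddSN 1 0) (scons (chkAll (BB P) I) (scons (chkAll (BB P) ℕ) v)) = ⊤ :=
      ltAddSN_of_x2 h2 rfl rfl
    have e4 : bval (fAddSNLe 1 0) (scons (chkAll (BB P) J) (scons (chkAll (BB P) ℕ) v)) = ⊤ :=
      addSN_of_x3 h3 rfl rfl
    have e5 : bval (fLtB 1 0) (scons (chkAll (BB P) J) (scons (chkAll (BB P) ℕ) v)) = ⊤ :=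
      ltB_of_x4 h4 rfl rfl
    refine le_trans ?_ (le_iSup (fun w => bval (fOmega 0) (scons w v) ⊓
      ((⨆ A, bval (fAddNLe 1 0) (scons A (scons w v)) ⊓ bval (fLtAddSN 1 0) (scons A (scons w v))) ⊓
        (⨆ A, bval (fAddSNLe 1 0) (scons A (scons w v)) ⊓ bval (fLtB 1 0) (scons A (scons w v)))))
      (chkAll (BB P) ℕ))
    refine le_inf e1.ge (le_inf ?_ ?_)
    · refine le_trans ?_ (le_iSup _ (chkAll (BB P) I))
      rw [e2, e3, inf_top_eq]
    · refine le_trans ?_ (le_iSup _ (chkAll (BB P) J))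
      rw [e4, e5, inf_top_eq]
  rw [key]
  exact U.top'

end Pool.Agent.Lib.MP_f6e1de_lc
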