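import Mathlib
import Pool.Agent.Lib.MP_f6e1de_lc.CMeas
import Pool.Agent.Lib.MP_f6e1de_lc.MeasLem

/-! The measure of a closed set depends measurably on its code.

PROOF. Let `TM M l z = {y | ∀ N < M, ∃ i < l N, y i ≠ z N i}`; `Tset l z = ⋂_M TM M l z`, decreasing, so
`muC (Tset ∩ cyl n σ) = ⨅_M muC (TM M ∩ cyl n σ)` (`Antitone.measure_iInter`, finite measure) and it suffices
that `F ↦ muC (TM M (l F) (z F) ∩ cyl n σ)` is measurable (`Measurable.iInf`). It depends only on the
list `(List.range M).map (fun N => (List.range (l F N)).map (z F N)) : List (List Bool)`, a countable type: write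
`muC (TM ...) = Φ (code F)` with `Φ c = muC {y | ∀ w ∈ c, ∃ i < w.length, y i ≠ w.getD i false} ∩ cyl`), and show
that `code` has measurable level sets (`measurable_to_countable'` with the discrete σ-algebra `⊤` on the list
type, `{F | code F = c}` is a finite intersection of sets `{l F N = a}` and `{z F N i = b}`). -/

namespace Pool.Agent.Lib.MP_f6e1de_lc

open Pool.Agent.Lib.BVM MeasureTheory

variable {P : Type} [Preorder P]

theorem meas_T {l : Pt P → ℕ → ℕ} {z : Pt P → ℕ → ℕ → Bool} (hl : Measurable l)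
    (hz : ∀ n i, MeasurableSet {F | z F n i = true}) (n σ : ℕ) :
    Measurable (fun F => muC (Tset (l F) (z F) ∩ cyl n σ)) := by
  have hprob : IsProbabilityMeasure muC := by
    unfold muC
    infer_instance
  have hzm : ∀ N i, Measurable (fun F : Pt P => z F N i) := fun N i =>
    measurable_to_bool (hz N i)
  have hs : MeasurableSet ({q : Pt P × (ℕ → Bool) | ∀ N, ∃ i, i < l q.1 N ∧ q.2 i ≠ z q.1 N i} ∩
      {q | q.2 ∈ cyl n σ}) := by
    refine MeasurableSet.inter ?_ (measurable_snd (measurableSet_cyl n σ))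
    have e : {q : Pt P × (ℕ → Bool) | ∀ N, ∃ i, i < l q.1 N ∧ q.2 i ≠ z q.1 N i} =
        ⋂ N, ⋃ i, ({q | i < l q.1 N} ∩ {q | q.2 i = z q.1 N i}ᶜ) := by
      ext q
      simp only [Set.mem_ofPred_eq, Set.mem_iInter, Set.mem_iUnion, Set.mem_inter_iff,
        Set.mem_compl_iff, ne_eq]
    rw [e]
    refine MeasurableSet.iInter fun N => MeasurableSet.iUnion fun i => MeasurableSet.inter ?_ ?_
    · have h1 : MeasurableSet {F : Pt P | i < l F N} :=
        ((measurable_pi_apply N).comp hl) (measurableSet_Ioi (a := i))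
      exact measurable_fst h1
    · refine (measurableSet_eq_fun ?_ ?_).compl
      · exact (measurable_pi_apply i).comp measurable_snd
      · exact (hzm N i).comp measurable_fst
  have h2 := measurable_measure_prodMk_left (ν := muC) hs
  have h3 : (fun F => muC (Tset (l F) (z F) ∩ cyl n σ)) = fun F : Pt P => muC (Prod.mk F ⁻¹'
      ({q : Pt P × (ℕ → Bool) | ∀ N, ∃ i, i < l q.1 N ∧ q.2 i ≠ z q.1 N i} ∩
        {q | q.2 ∈ cyl n σ})) := by
    funext F
    congr 1
  rw [h3]
  exact h2

end Pool.Agent.Lib.MP_f6e1de_lc
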