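import Mathlib
import Pool.Agent.Lib.MP_f6e1de_lc.MeasT
import Pool.Agent.Lib.MP_f6e1de_lc.Build

/-! Unlocalizability gives `add(N) ≤ |I|` (real level; note 1442, section 5, second part).

PROOF. `XUnl` for `M = Mi` gives `x`. `c ξ y = bet {F | Qinf (x ξ F) (y F)}`: `extx_of`, `nullx_of`. Let
`hb : NullX b (fun y => ⨆ ξ, c ξ y)` and suppose `b ≠ ⊥`. Take `k = 1` in `hb`: `l, z, u`.
`T F = Tset (l F) (z F)`, `pos F n σ = (0 < muC (T F ∩ cyl n σ))` (measurable by `meas_T`).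
Fix `ξ`. `build` gives `y`. At comeagerly many `F` with `At F b`: (1) `PackedX 1 (l F) (u F)`, so
`pos F 0 0` (`pack_half`, `cyl 0 0 = univ`). (2) not `Good (pos F) (x ξ F)`: otherwise `Qinf`, so
`At F (c ξ y)`, so `At F (⨆ ..)`, so there is `N` with `y F i = z F N i` for `i < l F N`; take `n ≥ l F N`, `σ` with
`pos F n σ` and `y F ∈ cyl n σ`: every point of `cyl n σ` agrees with `y F`, hence with `z F N`, below `l F N`, so
`T F ∩ cyl n σ = ∅`, contradiction. (3) so there are `n, σ, m, r` with `2⁻¹^r ≤ muC (T F ∩ cyl n σ)`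
(`ENNReal.exists_inv_two_pow_lt`) and `∀ i ≥ m, n ≤ 2i → ∀ s < 2^i, (bits of dig agree with σ below n) →
¬ pos F (2i) (dig ..)`. (4) With `S F i = fenc {v < Mi i | ∀ s < 2^i, dig i v s ∉ W F i}` if
`2⁻¹^r ≤ muC (T F ∩ cyl n σ)` and `n ≤ 2i`, and `fenc ∅` otherwise, `W F i = {τ < 4^i | bits agree with σ below
n, pos F (2i) τ}`: `x ξ F i ∈ fset (S F i)` for all `i ≥ max m n` (`dig_lt`, `x ξ F i < Mi i`). `S` depends on
`(n, σ, r)` only, is measurable (`meas_disc` style: for fixed `i` it is a function of finitely many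
measurable truth values), and its card is `≤ rt r i` by `card_dig`, `count_pos` (`4^i ≤ 2^r * W.card` gives
`4^i / 2^r ≤ W.card`). (5) Take `p0` with `Frc p0 (At F b)` (`exists_frc_of_ne_bot`); by `Frc.exists_decide`
(countably many `(n, σ, m, r)`) there is `p ≤ p0` and `(n, σ, m, r)` with
`Frc p (∀ i ≥ max m n, x ξ F i ∈ fset (S_{n,σ,r} F i))`. So `I` is the union over the countably many
`(n, σ, r)` of the sets that `XUnl` (with `rate`) says are countable; contradiction to `Uncountable I`. -/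

namespace Pool.Agent.Lib.MP_f6e1de_lc

open Pool.Agent.Lib.BVM Filter Topology
open scoped ENNReal

variable {P : Type} [Preorder P]

/-- A function of a finset-valued map with measurable membership sets is measurable. -/
private theorem meas_finset {V : Pt P → Finset ℕ} (hV : ∀ τ, MeasurableSet {F | τ ∈ V F})
    (φ : Finset ℕ → ℕ) : Measurable (fun F => φ (V F)) := by
  have hA : ∀ A : Finset ℕ, MeasurableSet {F | V F = A} := by
    intro A
    have h : {F | V F = A} = ⋂ τ : ℕ, {F | τ ∈ V F ↔ τ ∈ A} := by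
      ext F
      simp only [Set.mem_ofPred_eq, Set.mem_iInter]
      exact Finset.ext_iff
    rw [h]
    refine MeasurableSet.iInter fun τ => ?_
    by_cases hτ : τ ∈ A
    · have h2 : {F | τ ∈ V F ↔ τ ∈ A} = {F | τ ∈ V F} := by
        ext F
        simp [hτ]
      rw [h2]
      exact hV τ
    · have h2 : {F | τ ∈ V F ↔ τ ∈ A} = {F | τ ∈ V F}ᶜ := by
        ext F
        simp [hτ]
      rw [h2]
      exact (hV τ).compl
  refine measurable_to_countable' fun v => ?_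
  have h : (fun F => φ (V F)) ⁻¹' {v} = ⋃ A : Finset ℕ, ⋃ _ : φ A = v, {F | V F = A} := by
    ext F
    simp only [Set.mem_preimage, Set.mem_singleton_iff, Set.mem_iUnion, Set.mem_ofPred_eq]
    constructor
    · intro h
      exact ⟨V F, h, rfl⟩
    · rintro ⟨A, h1, h2⟩
      rw [h2]
      exact h1
  rw [h]
  exact MeasurableSet.iUnion fun A => MeasurableSet.iUnion fun _ => hA A

open Classical in
/-- The nodes of positive measure at level `2 i` compatible with the node `σ` at level `n`. -/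
private noncomputable def Wf (l : Pt P → ℕ → ℕ) (z : Pt P → ℕ → ℕ → Bool) (n σ i : ℕ) (F : Pt P) :
    Finset ℕ :=
  (Finset.range (4 ^ i)).filter (fun τ =>
      (∀ j < n, τ.testBit j = σ.testBit j) ∧ 0 < muC (Tset (l F) (z F) ∩ cyl (2 * i) τ))

open Classical in
/-- The slalom. -/
private noncomputable def Sf (l : Pt P → ℕ → ℕ) (z : Pt P → ℕ → ℕ → Bool) (n σ r : ℕ) (F : Pt P)
    (i : ℕ) : ℕ :=
  if (2⁻¹ : ℝ≥0∞) ^ r ≤ muC (Tset (l F) (z F) ∩ cyl n σ) ∧ n ≤ 2 * i then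
    fenc ((Finset.range (Mi i)).filter (fun v => ∀ s < 2 ^ i, dig i v s ∉ Wf l z n σ i F))
  else fenc ∅

private theorem meas_Sf {l : Pt P → ℕ → ℕ} {z : Pt P → ℕ → ℕ → Bool} (hl : Measurable l)
    (hz : ∀ n i, MeasurableSet {F | z F n i = true}) (n σ r : ℕ) :
    Measurable (Sf l z n σ r) := by
  classical
  rw [measurable_pi_iff]
  intro i
  unfold Sf
  refine Measurable.ite ?_ ?_ measurable_const
  · have h1 : MeasurableSet {F : Pt P | (2⁻¹ : ℝ≥0∞) ^ r ≤ muC (Tset (l F) (z F) ∩ cyl n σ)} :=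
      (meas_T hl hz n σ) (measurableSet_Ici (a := (2⁻¹ : ℝ≥0∞) ^ r))
    by_cases hn : n ≤ 2 * i
    · have h2 : {F : Pt P | (2⁻¹ : ℝ≥0∞) ^ r ≤ muC (Tset (l F) (z F) ∩ cyl n σ) ∧ n ≤ 2 * i} =
          {F : Pt P | (2⁻¹ : ℝ≥0∞) ^ r ≤ muC (Tset (l F) (z F) ∩ cyl n σ)} := by
        ext F
        simp [hn]
      rw [h2]
      exact h1
    · have h2 : {F : Pt P | (2⁻¹ : ℝ≥0∞) ^ r ≤ muC (Tset (l F) (z F) ∩ cyl n σ) ∧ n ≤ 2 * i} =
          ∅ := by
        ext F
        simp [hn]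
      rw [h2]
      exact MeasurableSet.empty
  · refine meas_finset (V := Wf l z n σ i) ?_ (fun W => fenc
      ((Finset.range (Mi i)).filter (fun v => ∀ s < 2 ^ i, dig i v s ∉ W)))
    intro τ
    have h3 : MeasurableSet {F : Pt P | 0 < muC (Tset (l F) (z F) ∩ cyl (2 * i) τ)} :=
      (meas_T hl hz (2 * i) τ) (measurableSet_Ioi (a := (0 : ℝ≥0∞)))
    by_cases hτ : τ < 4 ^ i ∧ ∀ j < n, τ.testBit j = σ.testBit j
    · have h2 : {F : Pt P | τ ∈ Wf l z n σ i F} =
          {F : Pt P | 0 < muC (Tset (l F) (z F) ∩ cyl (2 * i) τ)} := by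
        ext F
        simp only [Wf, Set.mem_ofPred_eq, Finset.mem_filter, Finset.mem_range]
        exact ⟨fun h => h.2.2, fun h => ⟨hτ.1, hτ.2, h⟩⟩
      rw [h2]
      exact h3
    · have h2 : {F : Pt P | τ ∈ Wf l z n σ i F} = ∅ := by
        ext F
        simp only [Wf, Set.mem_ofPred_eq, Finset.mem_filter, Finset.mem_range,
          Set.mem_empty_iff_false, iff_false]
        exact fun h => hτ ⟨h.1, h.2.1⟩
      rw [h2]
      exact MeasurableSet.empty

private theorem card_Sf (l : Pt P → ℕ → ℕ) (z : Pt P → ℕ → ℕ → Bool) (n σ r : ℕ) (F : Pt P)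
    (i : ℕ) : (fset (Sf l z n σ r F i)).card ≤ rt r i := by
  classical
  unfold Sf
  split_ifs with h
  · rw [fset_fenc]
    have h1 := card_dig i (Wf l z n σ i F) (Finset.filter_subset _ _)
    have h2 := count_pos (measurableSet_Tset (l F) (z F)) h.2 h.1
    have h3 : 4 ^ i / 2 ^ r ≤ (Wf l z n σ i F).card := by
      refine Nat.div_le_of_le_mul (h2.trans (le_of_eq ?_))
      unfold Wf
      congr
    unfold rt
    refine le_trans ?_ (Nat.pow_le_pow_left (Nat.sub_le_sub_left h3 _) _)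
    convert h1 using 2
  · rw [fset_fenc]
    exact Nat.zero_le _

/-- The point with the properties that `NullX` gives is in the slalom. -/
private theorem key_point {l : ℕ → ℕ} {z u : ℕ → ℕ → Bool} (hp : PackedX 1 l u) {x : ℕ → ℕ}
    (hng : ¬ Good (fun n σ => 0 < muC (Tset l z ∩ cyl n σ)) x) :
    ∃ n σ m r : ℕ, (2⁻¹ : ℝ≥0∞) ^ r ≤ muC (Tset l z ∩ cyl n σ) ∧ ∀ i ≥ m, n ≤ 2 * i →
      ∀ s < 2 ^ i, (∀ j < n, (dig i (x i) s).testBit j = σ.testBit j) →
        ¬ 0 < muC (Tset l z ∩ cyl (2 * i) (dig i (x i) s)) := by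
  have h0 : 0 < muC (Tset l z ∩ cyl 0 0) := by
    have h1 : Tset l z ∩ cyl 0 0 = Tset l z := by
      ext w
      simp [cyl]
    rw [h1]
    refine lt_of_lt_of_le ?_ (pack_half hp z)
    simp
  unfold Good at hng
  push Not at hng
  obtain ⟨n, σ, h1, m, h2⟩ := hng h0
  obtain ⟨r, hr⟩ := ENNReal.exists_inv_two_pow_lt h1.ne'
  refine ⟨n, σ, m, r, hr.le, ?_⟩
  intro i hi hn s hs hb
  rw [not_lt]
  exact h2 i hi hn s hs hb

theorem x1_of_xunl {I : Type} [Uncountable I] (h : XUnl P I) : X1 P I := by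
  classical
  obtain ⟨x, hxm, hxlt, hx⟩ := h Mi Mi_pos
  refine ⟨fun ξ y => bet {F | Qinf (x ξ F) (y F)}, fun a => extx_of (hxm a),
    fun a => nullx_of (hxm a), ?_⟩
  intro b hb
  by_contra hb0
  obtain ⟨l, z, u, hl, hz, hu, hcov, hpk⟩ := hb 1
  obtain ⟨p0, hp0⟩ := exists_frc_of_ne_bot hb0
  have hpos : ∀ n σ, MeasurableSet {F : Pt P | 0 < muC (Tset (l F) (z F) ∩ cyl n σ)} :=
    fun n σ => (meas_T hl hz n σ) (measurableSet_Ioi (a := (0 : ℝ≥0∞)))
  have key : ∀ ξ : I, ∃ q : ℕ × ℕ × ℕ, ∃ (p : P) (n : ℕ),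
      Frc p (fun F => ∀ i ≥ n, x ξ F i ∈ fset (Sf l z q.1 q.2.1 q.2.2 F i)) := by
    intro ξ
    obtain ⟨y, hy, hyG⟩ := build (fun F n σ => 0 < muC (Tset (l F) (z F) ∩ cyl n σ)) hpos (hxm ξ)
    have h1 := at_bet (measurableSet_iff_baire.mp (meas_Qinf (hxm ξ) hy))
    have h2 : Frc p0 (fun F => ∃ q : (ℕ × ℕ × ℕ) × ℕ, ∀ i ≥ q.2,
        x ξ F i ∈ fset (Sf l z q.1.1 q.1.2.1 q.1.2.2 F i)) := by
      filter_upwards [hp0, hcov y hy, hpk, h1] with F e1 e2 e3 e4 hF
      have hA := e1 hF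
      have hng : ¬ Good (fun n σ => 0 < muC (Tset (l F) (z F) ∩ cyl n σ)) (x ξ F) := by
        intro hG
        obtain ⟨g1, g2⟩ := hyG F hG
        have g3 : At F (bet {F | Qinf (x ξ F) (y F)}) := e4.mpr g1
        obtain ⟨N, hN⟩ := e2 hA (at_iSup_of (b := fun ξ => bet {F | Qinf (x ξ F) (y F)}) ξ g3)
        obtain ⟨n, hn, σ, hσ, hyσ⟩ := g2 (l F N)
        have hne : (Tset (l F) (z F) ∩ cyl n σ).Nonempty := by
          rw [Set.nonempty_iff_ne_empty]
          intro he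
          rw [he] at hσ
          simp at hσ
        obtain ⟨w, hw1, hw2⟩ := hne
        obtain ⟨i, hi, hwi⟩ := hw1 N
        apply hwi
        rw [hw2 i (lt_of_lt_of_le hi hn), ← hyσ i (lt_of_lt_of_le hi hn), hN i hi]
      obtain ⟨n, σ, m, r, hr, hm⟩ := key_point (e3 hA) hng
      refine ⟨⟨⟨n, σ, r⟩, max m n⟩, ?_⟩
      intro i hi
      have hi1 : m ≤ i := le_trans (le_max_left m n) hi
      have hi2 : n ≤ i := le_trans (le_max_right m n) hi
      show x ξ F i ∈ fset (Sf l z n σ r F i)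
      unfold Sf
      rw [if_pos ⟨hr, by omega⟩, fset_fenc]
      refine Finset.mem_filter.mpr ⟨Finset.mem_range.mpr (hxlt ξ F i), ?_⟩
      intro s hs hW
      have hW' := (Finset.mem_filter.mp hW).2
      exact hm i hi1 (by omega) s hs hW'.1 hW'.2
    obtain ⟨p, _, ⟨q, n⟩, hq⟩ := Frc.exists_decide (Q := fun (q : (ℕ × ℕ × ℕ) × ℕ) (F : Pt P) =>
        ∀ i ≥ q.2, x ξ F i ∈ fset (Sf l z q.1.1 q.1.2.1 q.1.2.2 F i)) (by
      rintro ⟨⟨n, σ, r⟩, m⟩
      rw [← measurableSet_iff_baire]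
      have hS := meas_Sf hl hz n σ r
      have h3 : {F : Pt P | ∀ i ≥ m, x ξ F i ∈ fset (Sf l z n σ r F i)} =
          ⋂ i : ℕ, ⋂ _ : i ≥ m, {F : Pt P | x ξ F i ∈ fset (Sf l z n σ r F i)} := by
        ext F
        simp only [Set.mem_ofPred_eq, Set.mem_iInter]
      show MeasurableSet {F : Pt P | ∀ i ≥ m, x ξ F i ∈ fset (Sf l z n σ r F i)}
      rw [h3]
      refine MeasurableSet.iInter fun i => MeasurableSet.iInter fun _ => ?_
      have h4 := meas_disc2 ((measurable_pi_apply i).comp (hxm ξ))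
        ((measurable_pi_apply i).comp hS) (fun a c => decide (a ∈ fset c))
      have h5 := h4 (measurableSet_singleton true)
      have h6 : {F : Pt P | x ξ F i ∈ fset (Sf l z n σ r F i)} =
          (fun F => decide (((fun g : ℕ → ℕ => g i) ∘ x ξ) F ∈
            fset (((fun g : ℕ → ℕ => g i) ∘ Sf l z n σ r) F))) ⁻¹' {true} := by
        ext F
        simp
      rw [h6]
      exact h5) h2
    exact ⟨q, p, n, hq⟩
  have hcount : (Set.univ : Set I).Countable := by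
    have h1 : (Set.univ : Set I) ⊆ ⋃ q : ℕ × ℕ × ℕ, {ξ : I | ∃ (p : P) (n : ℕ),
        Frc p (fun F => ∀ i ≥ n, x ξ F i ∈ fset (Sf l z q.1 q.2.1 q.2.2 F i))} := by
      intro ξ _
      obtain ⟨q, hq⟩ := key ξ
      exact Set.mem_iUnion.mpr ⟨q, hq⟩
    refine Set.Countable.mono h1 (Set.countable_iUnion fun q => ?_)
    exact hx (Sf l z q.1 q.2.1 q.2.2) (rt q.2.2) (meas_Sf hl hz q.1 q.2.1 q.2.2)
      (fun F i => card_Sf l z q.1 q.2.1 q.2.2 F i) (fun e => rate q.2.2 e)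
  exact Set.not_countable_univ hcount

end Pool.Agent.Lib.MP_f6e1de_lc
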