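import Mathlib
import Pool.Agent.Lib.MP_f6e1de_lc.QDefs

/-! The pointwise (ZFC) lemma behind `|I| < add(SN)`: sparse localization covers (note 1442, section 0).

DEFINITIONS. `fmx g n = max_{i ≤ n} g i`; `fp g d = fmx g ((d+1)^3)`; `Gf g d = 2^((d+1) * fp g d)`; `code z h j` has at
position `m * h + i` (`m ≤ j`, `i < h`) the bit `z m (j-m) i`; `out D φ g N i`: let `j` be the least `j ≤ N + 1` with
`N < (D j + 1)^3` and `R = N - (D j)^3`, `s = R / (j+1)`, `m = R % (j+1)`, `v` = the `s`-th element of `fset (φ j)` in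
increasing order (0 if there is none), and `out = v.testBit (m * fp g (D j) + i)`.
PROOFS. `code` as `∑_{k < (j+1)*h} (bit k).toNat * 2^k` or `Nat.ofBits`: `code < 2^((j+1)*h)`, and `testBit` is the
`k`-th bit (`Nat.testBit_ofBits_lt`/induction). `cover_num`: `j = m + n`; `code z h j ∈ fset (φ j)` with
`h = fp g (D j)` is its `s`-th element for some `s < card ≤ D j` (`Finset.sort`, `List.mem_iff_getElem`).
`N = (D j)^3 + s * (j+1) + m`. Since `j ≤ D j` (`StrictMono.id_le`), `s*(j+1)+m < D j * (j+1) ≤ D j * (D j + 1)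
≤ (D j + 1)^3 - (D j)^3`, so `N < (D j+1)^3`, and for `j' < j` `(D j' + 1)^3 ≤ (D j)^3 ≤ N`: the least `j` is this
`j` (and `j ≤ D j ≤ (D j)^3 ≤ N` or `j = 0`). `R / (j+1) = s`, `R % (j+1) = m`. So `out D φ g N i = (code z h j).testBit (m*h+i)
= z m n i` for `i < h`, and `h = fmx g ((D j + 1)^3) ≥ g N`. -/

namespace Pool.Agent.Lib.MP_f6e1de_lc

/-- running maximum -/
def fmx (g : ℕ → ℕ) (n : ℕ) : ℕ := (Finset.range (n + 1)).sup g

def fp (g : ℕ → ℕ) (d : ℕ) : ℕ := fmx g ((d + 1) ^ 3)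

def Gf (g : ℕ → ℕ) (d : ℕ) : ℕ := 2 ^ ((d + 1) * fp g d)

/-- code of `j + 1` blocks of length `h` -/
def code (z : ℕ → ℕ → ℕ → Bool) (h j : ℕ) : ℕ :=
  ∑ k ∈ Finset.range ((j + 1) * h), (z (k / h) (j - k / h) (k % h)).toNat * 2 ^ k

/-- the `s`-th element of the finite set coded by `w` -/
noncomputable def nth (w s : ℕ) : ℕ := ((fset w).sort (· ≤ ·)).getD s 0

open Classical in
/-- the index of the block of `N` -/
noncomputable def blk (D : ℕ → ℕ) (N : ℕ) : ℕ :=
  if h : ∃ j, N < (D j + 1) ^ 3 then Nat.find h else 0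

/-- the covering strings -/
noncomputable def out (D φ g : ℕ → ℕ) (N i : ℕ) : Bool :=
  (nth (φ (blk D N)) ((N - (D (blk D N)) ^ 3) / (blk D N + 1))).testBit
    ((N - (D (blk D N)) ^ 3) % (blk D N + 1) * fp g (D (blk D N)) + i)

private theorem bits_lt (b : ℕ → Bool) (n : ℕ) :
    ∑ k ∈ Finset.range n, (b k).toNat * 2 ^ k < 2 ^ n := by
  induction n with
  | zero => simp
  | succ n ih =>
    rw [Finset.sum_range_succ, pow_succ]
    have h1 : (b n).toNat ≤ 1 := Bool.toNat_le _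
    have h2 : (b n).toNat * 2 ^ n ≤ 1 * 2 ^ n := Nat.mul_le_mul_right _ h1
    omega

private theorem bits_testBit (b : ℕ → Bool) (n k : ℕ) (hk : k < n) :
    (∑ k ∈ Finset.range n, (b k).toNat * 2 ^ k).testBit k = b k := by
  induction n with
  | zero => omega
  | succ n ih =>
    rw [Finset.sum_range_succ, add_comm, mul_comm (b n).toNat,
      Nat.testBit_two_pow_mul_add _ (bits_lt b n)]
    rcases Nat.lt_succ_iff_lt_or_eq.1 hk with h | h
    · rw [if_pos h, ih h]
    · subst h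
      rw [if_neg (lt_irrefl _), Nat.sub_self]
      cases b k <;> simp

theorem code_lt (z : ℕ → ℕ → ℕ → Bool) (h j : ℕ) : code z h j < 2 ^ ((j + 1) * h) :=
  bits_lt (fun k => z (k / h) (j - k / h) (k % h)) _

theorem testBit_code (z : ℕ → ℕ → ℕ → Bool) {h j m i : ℕ} (hm : m ≤ j) (hi : i < h) :
    (code z h j).testBit (m * h + i) = z m (j - m) i := by
  have h1 : m * h + i < (j + 1) * h := by
    have h2 : (m + 1) * h ≤ (j + 1) * h := Nat.mul_le_mul_right h (by omega)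
    nlinarith
  have h2 := bits_testBit (fun k => z (k / h) (j - k / h) (k % h)) _ _ h1
  have h0 : 0 < h := by omega
  have h3 : (m * h + i) / h = m := by
    rw [mul_comm, Nat.mul_add_div h0, Nat.div_eq_of_lt hi, add_zero]
  have h4 : (m * h + i) % h = i := by
    rw [mul_comm, Nat.mul_add_mod, Nat.mod_eq_of_lt hi]
  rw [code, h2]
  simp only [h3, h4]

theorem cover_num (g D φ : ℕ → ℕ) (hD : StrictMono D) (hφ : ∀ j, (fset (φ j)).card ≤ D j)
    (z : ℕ → ℕ → ℕ → Bool) (m : ℕ) (hloc : ∀ j ≥ m, code z (fp g (D j)) j ∈ fset (φ j))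
    (y : ℕ → Bool) (n : ℕ) (hy : ∀ i < fp g (D (m + n)), y i = z m n i) :
    ∃ N, ∀ i < g N, y i = out D φ g N i := by
  obtain ⟨j, hj⟩ : ∃ j, j = m + n := ⟨_, rfl⟩
  rw [← hj] at hy
  have hc := hloc j (by omega)
  have hl : code z (fp g (D j)) j ∈ (fset (φ j)).sort (· ≤ ·) := (Finset.mem_sort _).2 hc
  obtain ⟨s, hs, hsc⟩ := List.mem_iff_getElem.1 hl
  have hs' : s < D j := by
    rw [Finset.length_sort] at hs
    exact lt_of_lt_of_le hs (hφ j)
  have hjD : j ≤ D j := hD.le_apply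
  have hnth : nth (φ j) s = code z (fp g (D j)) j := by
    rw [nth, List.getD_eq_getElem _ _ hs, hsc]
  have hsum : s * (j + 1) + m < D j * (j + 1) := by
    have h1 : (s + 1) * (j + 1) ≤ D j * (j + 1) := Nat.mul_le_mul_right _ hs'
    nlinarith
  have hsum2 : D j * (j + 1) ≤ D j * (D j + 1) := Nat.mul_le_mul_left _ (by omega)
  have hN : D j ^ 3 + (s * (j + 1) + m) < (D j + 1) ^ 3 := by
    nlinarith
  have hex : ∃ j', D j ^ 3 + (s * (j + 1) + m) < (D j' + 1) ^ 3 := ⟨j, hN⟩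
  have hblk : blk D (D j ^ 3 + (s * (j + 1) + m)) = j := by
    classical
    rw [blk, dif_pos hex, Nat.find_eq_iff]
    refine ⟨hN, fun j' hj' => ?_⟩
    rw [not_lt]
    have h1 : D j' + 1 ≤ D j := hD hj'
    have h2 : (D j' + 1) ^ 3 ≤ D j ^ 3 := Nat.pow_le_pow_left h1 3
    omega
  refine ⟨D j ^ 3 + (s * (j + 1) + m), fun i hi => ?_⟩
  have hgN : g (D j ^ 3 + (s * (j + 1) + m)) ≤ fp g (D j) := by
    rw [fp, fmx]
    exact Finset.le_sup (f := g) (Finset.mem_range.2 (by omega))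
  have hih : i < fp g (D j) := lt_of_lt_of_le hi hgN
  rw [hy i hih, out, hblk, Nat.add_sub_cancel_left]
  have h3 : (s * (j + 1) + m) / (j + 1) = s := by
    rw [mul_comm, Nat.mul_add_div (Nat.succ_pos j), Nat.div_eq_of_lt (by omega), add_zero]
  have h4 : (s * (j + 1) + m) % (j + 1) = m := by
    rw [mul_comm, Nat.mul_add_mod, Nat.mod_eq_of_lt (by omega)]
  rw [h3, h4, hnth, testBit_code z (by omega) hih]
  congr 1
  omega

end Pool.Agent.Lib.MP_f6e1de_lc
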