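import Mathlib
import Pool.Agent.Lib.MP_f6e1de_lc.XDefs
import Pool.Agent.Lib.MP_f6e1de_lc.MeasLem
import Pool.Agent.Lib.MP_f6e1de_lc.X2Num

/-! Sparse localization implies that unions of `I` many strong measure zero sets have strong measure
zero (real level).

PROOF. Let `c`, `b`, `h : ∀ a, SNX b (c a)` and `g` measurable be given. Apply `XLoc` to `G F = Gf (g F)`
(measurable): `D`. For `a : I`, `m : ℕ` apply `h a` to the measurable `F ↦ (n ↦ fp (g F) (D F (m + n)))`: maps
`zz a m`. `H a F j = code (fun m n i => zz a m F n i) (fp (g F) (D F j)) j`: measurable (for fixed `j` it is a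
function of `fp (g F) (D F j)` and of countably many bits: write `{H = v}` as a countable union over
the value `h'` of `fp (g F) (D F j)` of sets depending on finitely many bits; e.g. by `Finset.measurable_sum`
for fixed `h'` and `meas_apply`-like splitting). `XLoc` gives `φ`. Put `z F N i = out (D F) (φ F) (g F) N i`;
measurable in `F` for fixed `N i` (composition of `meas_find`, `meas_apply`, `meas_disc2/3`, `meas_sup`).
Given `y` measurable: it suffices to show `b ⊓ (⨆ a, c a y) ≤ bet {F | ∃ N, ∀ i < g F N, y F i = z F N i}`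
(then `at_bet`; the set is measurable by `meas_agree`); `inf_iSup_eq`, `iSup_le`: fix `a`;
`le_bet_iff`: for comeagerly many `F` with `At F b`, `At F (c a y)`: `StrictMono (D F)`, cards, there is `m`
such that for `j ≥ m`: `H a F j < Gf (g F) (D F j) → H a F j ∈ fset (φ F j)`; the premise holds by `code_lt`
and `j ≤ D F j`; for this `m` (all `m` at once, countable) there is `n` with
`∀ i < fp (g F) (D F (m+n)), y F i = zz a m F n i`; `cover_num`. -/

namespace Pool.Agent.Lib.MP_f6e1de_lc

open Pool.Agent.Lib.BVM Pool.Agent.Lib.BVM.BSet Filter Topology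

variable {P : Type} [Preorder P]

private theorem x2_fp {g : Pt P → ℕ → ℕ} (hg : Measurable g) :
    Measurable (fun F d => fp (g F) d) := by
  rw [measurable_pi_iff]
  intro d
  exact (measurable_pi_apply ((d + 1) ^ 3)).comp (meas_sup hg)

private theorem x2_blk {D : Pt P → ℕ → ℕ} (hD : Measurable D) (N : ℕ) :
    Measurable (fun F => blk (D F) N) := by
  classical
  have hQ : ∀ j, MeasurableSet {F | N < (D F j + 1) ^ 3} := by
    intro j
    have h1 : Measurable (fun F => (D F j + 1) ^ 3) :=
      meas_disc ((measurable_pi_apply j).comp hD) (fun v => (v + 1) ^ 3)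
    exact h1 (measurableSet_Ioi (a := N))
  have h := meas_find (Q := fun F j => N < (D F j + 1) ^ 3) hQ
  have e : (fun F => blk (D F) N) =
      fun F => @dite ℕ (∃ n, N < (D F n + 1) ^ 3) (Classical.propDecidable _)
        (fun h => @Nat.find _ (fun n => Classical.propDecidable _) h) (fun _ => 0) := by
    funext F
    unfold blk
    by_cases h : ∃ j, N < (D F j + 1) ^ 3
    · rw [dif_pos h, dif_pos h]
      exact (Nat.find_eq_iff h).2
        ⟨@Nat.find_spec (fun j => N < (D F j + 1) ^ 3) (fun n => Classical.propDecidable _) h,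
          fun n hn => @Nat.find_min (fun j => N < (D F j + 1) ^ 3)
            (fun n => Classical.propDecidable _) h n hn⟩
    · rw [dif_neg h, dif_neg h]
  rw [e]
  exact h

private theorem x2_out {D φ g : Pt P → ℕ → ℕ} (hD : Measurable D) (hφ : Measurable φ)
    (hg : Measurable g) (N i : ℕ) :
    MeasurableSet {F | out (D F) (φ F) (g F) N i = true} := by
  have hb := x2_blk hD N
  have hA : Measurable (fun F => D F (blk (D F) N)) := meas_apply hD hb
  have hw : Measurable (fun F => φ F (blk (D F) N)) := meas_apply hφ hb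
  have hf : Measurable (fun F => fp (g F) (D F (blk (D F) N))) := meas_apply (x2_fp hg) hA
  have hs : Measurable (fun F => (N - (D F (blk (D F) N)) ^ 3) / (blk (D F) N + 1)) :=
    meas_disc2 hb hA (fun j d => (N - d ^ 3) / (j + 1))
  have hm : Measurable (fun F => (N - (D F (blk (D F) N)) ^ 3) % (blk (D F) N + 1)) :=
    meas_disc2 hb hA (fun j d => (N - d ^ 3) % (j + 1))
  have hn : Measurable (fun F => nth (φ F (blk (D F) N))
      ((N - (D F (blk (D F) N)) ^ 3) / (blk (D F) N + 1))) := meas_disc2 hw hs nth
  have hp : Measurable (fun F => (N - (D F (blk (D F) N)) ^ 3) % (blk (D F) N + 1) *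
      fp (g F) (D F (blk (D F) N)) + i) := meas_disc2 hm hf (fun m f => m * f + i)
  have ho : Measurable (fun F => out (D F) (φ F) (g F) N i) :=
    meas_disc2 hn hp (fun a b => a.testBit b)
  exact ho (measurableSet_singleton true)

private theorem x2_code {z : Pt P → ℕ → ℕ → ℕ → Bool}
    (hz : ∀ m n i, MeasurableSet {F | z F m n i = true}) {a : Pt P → ℕ} (ha : Measurable a)
    (j : ℕ) : Measurable (fun F => code (z F) (a F) j) := by
  have h1 : Measurable (fun F h => code (z F) h j) := by
    rw [measurable_pi_iff]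
    intro h
    unfold code
    refine Finset.measurable_sum _ fun k _ => ?_
    have h2 : Measurable (fun F => z F (k / h) (j - k / h) (k % h)) :=
      measurable_to_bool (hz _ _ _)
    exact meas_disc h2 (fun v => v.toNat * 2 ^ k)
  exact meas_apply h1 ha

theorem x2_of_xloc {I : Type} (h : XLoc P I) : X2 P I := by
  classical
  intro c _ b hb g hg
  have hfp := x2_fp hg
  have hG : Measurable (fun F => Gf (g F)) := by
    rw [measurable_pi_iff]
    intro d
    exact meas_disc ((measurable_pi_apply d).comp hfp) (fun v => 2 ^ ((d + 1) * v))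
  obtain ⟨D, hD, hmono, hloc⟩ := h (fun F => Gf (g F)) hG
  have hDj : ∀ j, Measurable (fun F => D F j) := fun j => (measurable_pi_apply j).comp hD
  have hg' : ∀ m, Measurable (fun (F : Pt P) (n : ℕ) => fp (g F) (D F (m + n))) := by
    intro m
    rw [measurable_pi_iff]
    intro n
    exact meas_apply hfp (hDj (m + n))
  choose zz hz1 hz2 using fun a m => hb a (fun F n => fp (g F) (D F (m + n))) (hg' m)
  obtain ⟨φ, hφ, hcard, hφ2⟩ := hloc
    (fun a F j => code (fun m n i => zz a m F n i) (fp (g F) (D F j)) j) (by
      intro a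
      rw [measurable_pi_iff]
      intro j
      exact x2_code (z := fun F m n i => zz a m F n i) (fun m n i => hz1 a m n i)
        (meas_apply hfp (hDj j)) j)
  refine ⟨fun F N i => out (D F) (φ F) (g F) N i, fun N i => x2_out hD hφ hg N i, ?_⟩
  intro y hy
  set S : Set (Pt P) := {F | ∃ N, ∀ i < g F N, y F i = out (D F) (φ F) (g F) N i} with hS
  have hSm : MeasurableSet S := by
    have e : S = ⋃ N, {F | ∀ i < g F N, y F i = out (D F) (φ F) (g F) N i} := by
      ext F
      simp [hS]
    rw [e]
    exact MeasurableSet.iUnion fun N => meas_agree (meas_bits.1 hy)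
      (fun i => x2_out hD hφ hg N i) ((measurable_pi_apply N).comp hg)
  have key : b ⊓ (⨆ a, c a y) ≤ bet S := by
    rw [inf_iSup_eq]
    refine iSup_le fun a => ?_
    rw [le_iff_residual]
    have h2 : ∀ᶠ F in residual (Pt P), ∀ m, At F b → At F (c a y) →
        ∃ n, ∀ i < fp (g F) (D F (m + n)), y F i = zz a m F n i := by
      rw [eventually_countable_forall]
      exact fun m => hz2 a m y hy
    filter_upwards [at_bet (measurableSet_iff_baire.1 hSm), hmono, hcard, hφ2 a, h2]
      with F h3 h4 h5 h6 h7 h8
    rw [h3]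
    obtain ⟨m, hm⟩ := h6
    obtain ⟨n, hn⟩ := h7 m h8.1 h8.2
    refine cover_num (g F) (D F) (φ F) h4 h5 (fun m n i => zz a m F n i) m (fun j hj => ?_)
      (y F) n hn
    refine hm j hj (lt_of_lt_of_le (code_lt _ _ _) ?_)
    unfold Gf
    refine Nat.pow_le_pow_right (by norm_num) ?_
    exact Nat.mul_le_mul_right _ (Nat.add_le_add_right (h4.le_apply) 1)
  rw [le_iff_residual] at key
  filter_upwards [key, at_bet (measurableSet_iff_baire.1 hSm)] with F h1 h2 h3 h4
  exact h2.1 (h1 ⟨h3, h4⟩)

end Pool.Agent.Lib.MP_f6e1de_lc
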