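import Mathlib
import Pool.Agent.Lib.MP_f6e1de_lc.XDefs
import Pool.Agent.Lib.MP_f6e1de_lc.MeasLem

/-! `J` many strong measure zero sets cover, so `add(SN) ≤ |J|` (real level).

PROOF. From `XCov`: `Λ, f, w`. `Q η l y F : ∃ n, ∀ i < f l F n, y F i = (w η l F n).testBit i` (measurable in `F`:
`meas_agree`, `meas_apply`). `c η y = ⨅ l, bet {F | Q η l y F}`.
ExtX: let `e = bet {F | y F = y' F}` (measurable: countable intersection). For each `l`,
`e ⊓ bet {Q η l y} ≤ bet {Q η l y'}` (`le_bet_iff`), so `e ⊓ c η y ≤ c η y'`; evaluate with `at_bet`.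
SNX ⊤: given `g` take `l` with `g F = f l F` comeagerly; `z F n i = (w η l F n).testBit i`; if
`At F (c η y)` then `At F (bet {Q η l y})` (`at_of_iInf`), then `at_bet`.
Last clause: `⨆ η, c η y = ⊤` for measurable `y`: by `le_of_forall_frc` (with `b = ⊤`) it suffices to refute
a condition `p` with `Frc p (¬ At F (⨆ η, c η y))`: the last clause of `XCov` gives `q ≤ p`, `η` with
`Frc q (Q η l y)` for all `l`, so every `F ∋ q` satisfies `At F (bet {Q η l y})` (`at_of_frc`); then
`RO.of ⟨Nb q, _⟩ ≤ bet {..}` for all `l` (as in the proof of `at_of_frc`), so `≤ c η y ≤ ⨆`; contradiction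
(`Frc.not_false`). Now let `SNX b (⨆ ..)`; apply it to `g F n = n + 1`: `z`; `y F n = !(z F n n)`; at
comeagerly many `F` with `At F b` there is `n` with `y F i = z F n i` for all `i < n + 1`; `i = n`
contradicts the choice of `y`. So `b = ⊥` (`eq_bot_iff_residual`). -/

namespace Pool.Agent.Lib.MP_f6e1de_lc

open Pool.Agent.Lib.BVM Pool.Agent.Lib.BVM.BSet Filter Topology TopologicalSpace

variable {P : Type} [Preorder P]

private theorem x3_hle {b : BB P} {q : P} (h : Frc q (fun F => At F b)) :
    RO.of (⟨Nb q, isOpen_Nb q⟩ : Opens (Pt P)) ≤ b := by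
  rw [le_iff_residual]
  filter_upwards [h, residual_compl_compl (⟨Nb q, isOpen_Nb q⟩ : Opens (Pt P))] with G h1 h2 h3
  exact h1 (h2.1 h3)

theorem x3_of_xcov {J : Type} (h : XCov P J) : X3 P J := by
  classical
  obtain ⟨Λ, f, w, hf, hw, hg, hcov⟩ := h
  let Q : J → Λ → (Pt P → ℕ → Bool) → Set (Pt P) := fun η l y =>
    {F | ∃ n, ∀ i < f l F n, y F i = (w η l F n).testBit i}
  have hbit : ∀ η l n i, MeasurableSet {F : Pt P | (w η l F n).testBit i = true} := by
    intro η l n i
    have h1 : Measurable (fun F : Pt P => (w η l F n).testBit i) :=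
      meas_disc (a := fun F => w η l F n) ((measurable_pi_apply n).comp (hw η l))
        (fun m => m.testBit i)
    exact h1 (measurableSet_singleton true)
  have hQ : ∀ η l y, Measurable y → MeasurableSet (Q η l y) := by
    intro η l y hy
    have h1 : Q η l y = ⋃ n, {F | ∀ i < f l F n, y F i = (w η l F n).testBit i} := by
      ext F
      simp [Q]
    rw [h1]
    refine MeasurableSet.iUnion fun n => ?_
    exact meas_agree (y := y) (z := fun F i => (w η l F n).testBit i) (meas_bits.1 hy)
      (fun i => hbit η l n i) (a := fun F => f l F n) ((measurable_pi_apply n).comp (hf l))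
  refine ⟨fun η y => ⨅ l, bet (Q η l y), ?_, ?_, ?_⟩
  · intro η y y' hy hy'
    have hE : MeasurableSet {F : Pt P | y F = y' F} := by
      have h1 : {F : Pt P | y F = y' F} = ⋂ n : ℕ, {F | ∀ i < n, y F i = y' F i} := by
        ext F
        simp only [Set.mem_setOf_eq, Set.mem_iInter]
        constructor
        · intro h2 n i _
          rw [h2]
        · intro h2
          funext i
          exact h2 (i + 1) i (Nat.lt_succ_self i)
      rw [h1]
      refine MeasurableSet.iInter fun n => ?_
      exact meas_agree (y := y) (z := y') (meas_bits.1 hy) (meas_bits.1 hy')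
        (a := fun _ => n) measurable_const
    have hle : bet {F : Pt P | y F = y' F} ⊓ (⨅ l, bet (Q η l y)) ≤ ⨅ l, bet (Q η l y') := by
      refine le_iInf fun l => ?_
      refine (inf_le_inf_left _ (iInf_le (fun l => bet (Q η l y)) l)).trans ?_
      rw [le_bet_iff (hQ η l y' hy')]
      filter_upwards [at_bet hE, at_bet (hQ η l y hy)] with F h1 h2 h3
      have h4 : y F = y' F := h1.1 h3.1
      obtain ⟨n, hn⟩ := h2.1 h3.2
      exact ⟨n, fun i hi => by rw [← h4]; exact hn i hi⟩
    filter_upwards [at_bet hE] with F h1 h2 h3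
    exact at_mono hle ⟨h1.2 h2, h3⟩
  · intro η g hgm
    obtain ⟨l, hl⟩ := hg g hgm
    refine ⟨fun F n i => (w η l F n).testBit i, fun n i => hbit η l n i, ?_⟩
    intro y hy
    filter_upwards [hl, at_bet (hQ η l y hy)] with F h1 h2 _ h3
    obtain ⟨n, hn⟩ := h2.1 (at_of_iInf h3 l)
    exact ⟨n, fun i hi => hn i (by rw [← h1]; exact hi)⟩
  · intro b hb
    have htop : ∀ y : Pt P → ℕ → Bool, Measurable y → (⨆ η, ⨅ l, bet (Q η l y)) = (⊤ : BB P) := by
      intro y hy
      rw [eq_top_iff]
      refine le_of_forall_frc fun p _ hp => ?_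
      obtain ⟨q, hqp, η, hη⟩ := hcov y hy p
      have h1 : ∀ l, Frc q (fun F => At F (bet (Q η l y))) := by
        intro l
        filter_upwards [hη l, at_bet (hQ η l y hy)] with F h1 h2 h3
        exact h2.2 (h1 h3)
      have h2 : RO.of (⟨Nb q, isOpen_Nb q⟩ : Opens (Pt P)) ≤ ⨅ l, bet (Q η l y) :=
        le_iInf fun l => x3_hle (h1 l)
      refine Frc.not_false (p := q) ?_
      filter_upwards [hp.mono hqp] with F h3 h4
      refine h3 h4 ?_
      have h5 : At F (RO.of (⟨Nb q, isOpen_Nb q⟩ : Opens (Pt P))) :=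
        le_compl_compl (a := (⟨Nb q, isOpen_Nb q⟩ : Opens (Pt P))) h4
      exact at_iSup_of η (at_mono h2 h5)
    obtain ⟨z, hz, hz2⟩ := hb (fun _ n => n + 1) measurable_const
    have hy : Measurable (fun (F : Pt P) (n : ℕ) => !(z F n n)) := by
      rw [meas_bits]
      intro n
      have h1 : {F : Pt P | (!(z F n n)) = true} = {F | z F n n = true}ᶜ := by
        ext F
        simp
      rw [h1]
      exact (hz n n).compl
    rw [eq_bot_iff_residual]
    filter_upwards [hz2 _ hy] with F h1 h2
    obtain ⟨n, hn⟩ := h1 h2 (by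
      rw [htop _ hy]
      exact at_top F)
    have h3 := hn n (Nat.lt_succ_self n)
    simp at h3

end Pool.Agent.Lib.MP_f6e1de_lc
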