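import Mathlib
import Pool.Agent.Lib.MP_f6e1de_lc.Transfer
import Pool.Agent.Lib.MP_f6e1de_lc.X1Mod
import Pool.Agent.Lib.MP_f6e1de_lc.X2Mod
import Pool.Agent.Lib.MP_f6e1de_lc.X3Mod
import Pool.Agent.Lib.MP_f6e1de_lc.PBddLoc
import Pool.Agent.Lib.MP_f6e1de_lc.PCov
import Pool.Agent.Lib.MP_f6e1de_lc.PUnl

/-! The theorem: there is a model of ZFC in which `add(N) < add(SN) < b`. -/

namespace Pool.Agent.Lib.MP_f6e1de_lc

open Pool.Agent.Lib.BVM Cardinal

theorem main : ∃ (M : Type 1) (E : M → M → Prop), IsZFC E ∧ AddNLtAddSNLtB E := by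
  let I : Type := (aleph 1).ord.ToType
  let J : Type := (aleph 2).ord.ToType
  have hI : #I = aleph 1 := by simp [I]
  have hJ : #J = aleph 2 := by simp [J]
  have hI' : Uncountable I := by
    rw [← aleph0_lt_mk_iff, hI]
    exact aleph0_lt_aleph_one
  have hJr : (#J).IsRegular := by
    rw [hJ]
    have : aleph 2 = aleph (1 + 1) := by
      congr 1
      norm_num
    rw [this]
    exact isRegular_aleph_add_one 1
  have hJ' : aleph0 < #J := by
    rw [hJ]
    exact aleph0_lt_aleph_one.trans (aleph_lt_aleph.2 (by norm_num))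
  have hIJ : #(Finset I) < #J := by
    rw [mk_finset_of_infinite, hI, hJ]
    exact aleph_lt_aleph.2 (by norm_num)
  exact transfer (PP I J) I J (x1_of_xunl pp_xunl) (x2_of_xloc pp_xloc)
    (x3_of_xcov (pp_xcov hJr hJ' hIJ)) pp_x4

end Pool.Agent.Lib.MP_f6e1de_lc
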